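import Pool.Agent.P.MP_9344a7_nt.Cy.IfaceA

/-! Steps SPLT, MXE, FTA, FT2, SPF, GN1. -/

set_option linter.unusedVariables false
set_option linter.unusedSectionVars false

namespace Pool.Agent.P.MP_9344a7_nt.Cy

section

open Polynomial Finset
open Pool.Agent.P.MP_9344a7_nt.R
open Pool.Agent.P.MP_9344a7_nt.Hy
open Pool.Agent.P.MP_9344a7_nt.Od (GD Kp Fe)
open Pool.Agent.P.MP_9344a7_nt.Ac (Sb Pm Sp ED CD TD AD Sc Eg Dgs)
open scoped Classical ComplexConjugate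

theorem p_SPLT :
    S_SPLT := by
  intro α β γ _ S U V V1 G a b f mg hU hV hb h
  by_contra! hc
  have tot : ∀ Γ : Finset γ, #{p ∈ U | f p ∈ Γ} + #{p ∈ U | f p ∉ Γ} = #U := fun Γ =>
    card_filter_add_card_filter_not _
  obtain ⟨Γ, g1, g2⟩ : ∃ Γ : Finset γ, a < #{p ∈ U | f p ∈ Γ} ∧ a < #{p ∈ U | f p ∉ Γ} := by
    by_cases h1 : ∃ t, a < #{p ∈ U | f p = t}
    · obtain ⟨t, ht⟩ := h1
      have := hc t
      refine ⟨{t}, ?_, ?_⟩ <;> simp only [mem_singleton]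
      · exact ht
      · exact lt_of_le_of_lt (by omega) this
    push Not at h1
    have h2 : 3 * a < #U := (hc (Classical.arbitrary γ)).trans_le (card_filter_le _ _)
    have h3 : ∀ Γ : Finset γ, a < #{p ∈ U | f p ∈ Γ} →
        ∃ Γ : Finset γ, a < #{p ∈ U | f p ∈ Γ} ∧ #{p ∈ U | f p ∈ Γ} ≤ 2 * a := by
      intro Γ
      induction Γ using Finset.induction_on with
      | empty => simp
      | insert t Γ _ ih =>
        intro e
        by_cases e' : a < #{p ∈ U | f p ∈ Γ}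
        · exact ih e'
        refine ⟨_, e, ?_⟩
        have := h1 t
        have := card_union_le {p ∈ U | f p = t} {p ∈ U | f p ∈ Γ}
        rw [← filter_or] at this
        simp only [mem_insert]
        omega
    obtain ⟨Γ, a1, a2⟩ := h3 (U.image f) (by
      rw [filter_true_of_mem fun p hp => mem_image_of_mem f hp]
      omega)
    have := tot Γ
    exact ⟨Γ, a1, by omega⟩
  have h4 := card_filter_add_card_filter_not (s := V1)
    (fun r => ∃ p ∈ U, f p ∈ Γ ∧ (p, r) ∈ G)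
  rcases lt_or_ge b #{r ∈ V1 | ∃ p ∈ U, f p ∈ Γ ∧ (p, r) ∈ G} with e | e
  · obtain ⟨⟨p, r⟩, a1, a2, a3⟩ := mg _ ((filter_subset _ _).trans hU) _
      ((filter_subset _ _).trans hV) g2 e
    obtain ⟨b1, p', b2, b3, b4⟩ := mem_filter.1 a3
    exact (mem_filter.1 a2).2 (h r b1 p' b2 p (mem_filter.1 a2).1 b4 a1 ▸ b3)
  · obtain ⟨⟨p, r⟩, a1, a2, a3⟩ := mg _ ((filter_subset _ _).trans hU) _
      ((filter_subset (fun r => ¬ ∃ p ∈ U, f p ∈ Γ ∧ (p, r) ∈ G) _).trans hV) g1 (by omega)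
    exact (mem_filter.1 a3).2 ⟨p, (mem_filter.1 a2).1, (mem_filter.1 a2).2, a1⟩

end

section

open Polynomial Finset
open Pool.Agent.P.MP_9344a7_nt.R
open Pool.Agent.P.MP_9344a7_nt.Hy
open Pool.Agent.P.MP_9344a7_nt.Od (GD Kp Fe)
open Pool.Agent.P.MP_9344a7_nt.Ac (Sb Pm Sp ED CD TD AD Sc Eg Dgs)
open scoped Classical ComplexConjugate

theorem cmxe_div (a E u : ℕ) (hE : 0 < E) (h : a / E < u) : a < E * u := by
  rw [Nat.div_lt_iff_lt_mul hE] at h
  rwa [mul_comm]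

theorem p_MXE :
    S_MXE := by
  intro n E hn hE
  refine ⟨E ^ 2 * (3 * n + 2) + 4, fun q c A _ _ Λ B hq h hB U hU V hV hu hv => ?_⟩
  obtain ⟨M, hM⟩ : ∃ M, M = E ^ 2 * (3 * n + 2) + 4 := ⟨_, rfl⟩
  rw [← hM] at hq h hB
  by_contra hcon
  have hP : ∀ r ∈ V, Pm Λ (n - 1) r := fun r hr => by
    have := hV hr
    simpa [Pi] using this
  have h1 := h.mx hU (fun r hr => (hP r hr).1) (E := B ∪ U.image (fun p => (p, p)))
    (fun p hp r hr hpr => by
      by_cases e : p = r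
      · exact mem_union_right _ (mem_image.2 ⟨p, hp, by rw [e]⟩)
      · refine mem_union_left _ ?_
        by_contra hb
        refine hcon ⟨(p, r), mem_sdiff.2 ⟨?_, hb⟩, hp, hr⟩
        simp only [Es, mem_filter, mem_univ, true_and]
        exact ⟨hU hp, hP r hr, e, hpr⟩)
  have h2 : #(B ∪ U.image (fun p => (p, p))) ≤ #B + #U :=
    (card_union_le _ _).trans (Nat.add_le_add_left card_image_le _)
  have h3 : #Λ.S ≤ 2 * q := by
    have a1 := h.card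
    have a2 : (1 : ℤ) ≤ M := by exact_mod_cast (show 1 ≤ M by omega)
    have a3 := le_abs_self ((#Λ.S : ℤ) - q)
    have a4 := mul_le_mul_of_nonneg_right a2 (abs_nonneg ((#Λ.S : ℤ) - q))
    have : (#Λ.S : ℤ) ≤ 2 * q := by linarith
    exact_mod_cast this
  have h4 : #U ≤ 2 * q := (card_le_card hU).trans h3
  have h5 := cmxe_div _ _ _ hE hu
  have h6 := cmxe_div _ _ _ hE hv
  have h7 : q ^ n = q * q ^ (n - 1) := by
    rw [← pow_succ']
    congr 1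
    omega
  have h8 : q ^ n ≤ E ^ 2 * (#U * #V) := by
    rw [h7]
    calc q * q ^ (n - 1) ≤ (E * #U) * (E * #V) := Nat.mul_le_mul h5.le h6.le
      _ = _ := by ring
  have hq0 : 0 < q := by omega
  have h9 : q ^ 2 ≤ q ^ n := Nat.pow_le_pow_right hq0 (by omega)
  have h10 : M * (n * #(B ∪ U.image (fun p => (p, p)))) ≤ 3 * n * q ^ n := by
    calc M * (n * #(B ∪ U.image (fun p => (p, p)))) ≤ M * (n * (#B + 2 * q)) := by
          gcongr
          omega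
      _ = n * (M * #B) + 2 * n * (M * q) := by ring
      _ ≤ n * q ^ n + 2 * n * (q * q) := by gcongr
      _ ≤ n * q ^ n + 2 * n * q ^ n := by rw [← pow_two]; gcongr
      _ = _ := by ring
  have h11 : M * q ^ n ≤ E ^ 2 * ((3 * n + 1) * q ^ n) := by
    calc M * q ^ n ≤ M * (E ^ 2 * (#U * #V)) := by gcongr
      _ = E ^ 2 * (M * (#U * #V)) := by ring
      _ ≤ E ^ 2 * (3 * n * q ^ n + q ^ n) := by
          gcongr
          omega
      _ = _ := by ring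
  rw [← mul_assoc] at h11
  have h12 := Nat.le_of_mul_le_mul_right h11 (pow_pos hq0 n)
  rw [hM] at h12
  nlinarith [Nat.zero_le (E ^ 2)]

end

section

open Polynomial Finset
open Pool.Agent.P.MP_9344a7_nt.R
open Pool.Agent.P.MP_9344a7_nt.Hy
open Pool.Agent.P.MP_9344a7_nt.Od (GD Kp Fe)
open Pool.Agent.P.MP_9344a7_nt.Ac (Sb Pm Sp ED CD TD AD Sc Eg Dgs)
open scoped Classical ComplexConjugate

lemma cfta_cnt {ι α β : Type} [DecidableEq α] (π : ι → α) (π' : ι → β) (Es B : Finset ι) (X : Finset α)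
    (Y : Finset β) {N n : ℕ} (hi : ∀ e e', π e = π e' → π' e = π' e' → e = e')
    (h1 : ∀ p ∈ X, N ≤ 2 * n * #{e ∈ Es | π e = p})
    (h2 : ∀ e ∈ Es, π e ∈ X → e ∉ B → π' e ∈ Y) (h3 : 4 * n * #Y ≤ N) :
    N * #X ≤ 4 * n * #B := by
  have h4 : ∀ p ∈ X, N ≤ 4 * n * #{e ∈ B | π e = p} := fun p hp => by
    have a : #{e ∈ Es | π e = p} ≤ #{e ∈ B | π e = p} + #Y := by
      rw [← card_filter_add_card_filter_not (s := {e ∈ Es | π e = p}) (· ∈ B)]
      refine Nat.add_le_add (card_le_card fun e he => ?_)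
        (card_le_card_of_injOn π' (fun e he => ?_) fun e he e' he' h => ?_)
      · simp only [mem_filter] at he ⊢
        exact ⟨he.2, he.1.2⟩
      · simp only [coe_filter, mem_filter, Set.mem_ofPred_eq] at he
        exact h2 e he.1.1 (he.1.2 ▸ hp) he.2
      · simp only [coe_filter, mem_filter, Set.mem_ofPred_eq] at he he'
        exact hi e e' (he.1.2.trans he'.1.2.symm) h
    have b := h1 p hp
    have d := Nat.mul_le_mul_left (4 * n) a
    rw [mul_add] at d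
    have e : 4 * n * #{e ∈ Es | π e = p} = 2 * (2 * n * #{e ∈ Es | π e = p}) := by ring
    omega
  calc N * #X = ∑ _p ∈ X, N := by rw [sum_const, smul_eq_mul, mul_comm]
    _ ≤ ∑ p ∈ X, 4 * n * #{e ∈ B | π e = p} := sum_le_sum h4
    _ = 4 * n * #{e ∈ B | π e ∈ X} := by rw [← mul_sum, sum_card_fiberwise_eq_card_filter]
    _ ≤ _ := Nat.mul_le_mul_left _ (card_filter_le _ _)

theorem p_FTA (hSPLT : S_SPLT) (hMXE : S_MXE) :
    S_FTA := by
  intro c n hn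
  obtain ⟨M, hM⟩ := hMXE n (16 * n * (c + 1)) hn (by positivity)
  refine ⟨M + 1, fun q A _ _ Λ φ ψ hq hE hC hB => ?_⟩
  have hG := hM q c A Λ {e ∈ Es Λ | φ e.1 ≠ ψ e.2} (by omega) (hC.up le_rfl (Nat.le_succ _))
    ((Nat.mul_le_mul_right _ (Nat.le_succ _)).trans hB)
  have ha := Nat.mul_div_le q (16 * n * (c + 1))
  have hb := Nat.mul_div_le (q ^ (n - 1)) (16 * n * (c + 1))
  generalize q / (16 * n * (c + 1)) = a at hG ha
  generalize q ^ (n - 1) / (16 * n * (c + 1)) = b at hG hb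
  have hlo := Λ.lo
  have hrp : q ^ (n - 1) ≤ c * #(Pi Λ (n - 1)) := hE.rp
  have hQ : 0 < q ^ (n - 1) := Nat.pow_pos (by omega)
  have hP0 : 0 < #(Pi Λ (n - 1)) := Nat.pos_of_mul_pos_left (hQ.trans_le hrp)
  have hb1 : 16 * (n * b) ≤ #(Pi Λ (n - 1)) := by
    refine Nat.le_of_mul_le_mul_left ?_ (Nat.succ_pos c)
    calc (c + 1) * (16 * (n * b)) = 16 * n * (c + 1) * b := by ring
      _ ≤ _ := hb.trans (hrp.trans (Nat.mul_le_mul_right _ (Nat.le_succ c)))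
  have ha1 : 16 * (n * a) ≤ q := by
    refine le_trans ?_ ha
    calc 16 * (n * a) = 16 * n * 1 * a := by ring
      _ ≤ _ := Nat.mul_le_mul_right _ (Nat.mul_le_mul_left _ (by omega))
  have ha2 : 3 * a ≤ n * a := Nat.mul_le_mul_right _ hn
  have hb2 : 3 * b ≤ n * b := Nat.mul_le_mul_right _ hn
  have hg : ∀ e ∈ Es Λ \ {e ∈ Es Λ | φ e.1 ≠ ψ e.2}, φ e.1 = ψ e.2 := fun e he => by
    by_contra h
    exact (mem_sdiff.1 he).2 (mem_filter.2 ⟨(mem_sdiff.1 he).1, h⟩)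
  obtain ⟨v, hv⟩ := hSPLT A A ℤ Λ.S Λ.S _ _ _ a b φ hG Subset.rfl Subset.rfl (by omega)
    fun r _ p _ p' _ h h' => (hg _ h).trans (hg _ h').symm
  replace hv : #{p ∈ Λ.S | φ p ≠ v} ≤ 3 * a :=
    le_trans (card_le_card fun p hp => by simpa using hp) hv
  have hw : #{r ∈ Pi Λ (n - 1) | ψ r ≠ v} ≤ b := by
    by_contra h
    have h1 := card_filter_add_card_filter_not (s := Λ.S) (fun p => φ p = v)
    obtain ⟨e, he, h2, h3⟩ := hG {p ∈ Λ.S | φ p = v} (filter_subset _ _) _ (filter_subset _ _)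
      (by change #{p ∈ Λ.S | ¬ φ p = v} ≤ _ at hv; omega) (not_le.1 h)
    exact (mem_filter.1 h3).2 ((hg e he).symm.trans (mem_filter.1 h2).2)
  refine ⟨v, cfta_cnt Prod.fst Prod.snd (Es Λ) _ _ {r ∈ Pi Λ (n - 1) | ψ r ≠ v}
    (fun _ _ => Prod.ext) (fun p hp => (mem_filter.1 (mem_filter.1 hp).1).2)
    (fun e he h1 h2 => mem_filter.2 ⟨es_snd he, ?_⟩) ?_,
    cfta_cnt Prod.snd Prod.fst (Es Λ) _ _ {p ∈ Λ.S | φ p ≠ v}
    (fun _ _ h h' => Prod.ext h' h) (fun p hp => (mem_filter.1 (mem_filter.1 hp).1).2)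
    (fun e he h1 h2 => mem_filter.2 ⟨es_fst he, ?_⟩) ?_⟩
  · exact hg e (mem_sdiff.2 ⟨he, h2⟩) ▸ (mem_filter.1 h1).2
  · have := Nat.mul_le_mul_left n hw
    rw [mul_assoc]; omega
  · exact (hg e (mem_sdiff.2 ⟨he, h2⟩)).symm ▸ (mem_filter.1 h1).2
  · have := Nat.mul_le_mul_left n hv
    rw [mul_left_comm] at this
    rw [mul_assoc]; omega

end

section

open Polynomial Finset
open Pool.Agent.P.MP_9344a7_nt.R
open Pool.Agent.P.MP_9344a7_nt.Hy
open Pool.Agent.P.MP_9344a7_nt.Od (GD Kp Fe)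
open Pool.Agent.P.MP_9344a7_nt.Ac (Sb Pm Sp ED CD TD AD Sc Eg Dgs)
open scoped Classical ComplexConjugate

theorem p_FT2 (hEDX : S_EDX) (hFTS : S_FTS) (hFTA : S_FTA) (hFTZ : S_FTZ) :
    S_FT2 := by
  intro c n a hn
  obtain ⟨K1, H1⟩ := hEDX c n a hn
  obtain ⟨M1, H2⟩ := hFTS c n 4 hn
  obtain ⟨M2, H3⟩ := hFTA c n hn
  refine ⟨M1 + M2, 2 * K1 + M1 + M2 + 4 * n * c + 6 * n + 32,
    fun q u w s A _ _ Λ χ P G G' sl ed cd hχ kp pr g g' hs => ?_⟩
  have sc := sl.sc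
  have uw := sl.uw (by omega)
  have u0 : M1 + M2 + 4 * n * c + 6 * n + 32 ≤ u := sc.le (by omega)
  have w2 : w ≤ w ^ 2 := Nat.le_self_pow two_ne_zero w
  have su : s ≤ u := by
    have := Nat.mul_le_mul_right s (Ac.one_le_om (A := A))
    omega
  have wq : w ≤ q := (Nat.le_self_pow (by omega) w).trans sl.hi
  have e1 := fun t => H1 q (w ^ 2) A Λ χ P G G' t ⟨(sc.down (by omega)).lo.trans (uw.trans w2),
    (pow_mul w 2 K1).symm.trans_le ((Nat.pow_le_pow_right (by omega) (by omega)).trans sl.hi)⟩ ed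
    (sl.td _ (uw.trans (w2.trans (Nat.le_self_pow (by omega) _))) ((pow_mul w 2 4).symm.trans_le
      (Nat.pow_le_pow_right (by omega) (by omega)))) hχ kp pr (g.up (by omega)) (g'.up (by omega))
  choose v v1 v2 using fun t => H3 q A Λ (fun p => (P * G 1).coeff (p + t))
    (fun r => (P * G (n - 1)).coeff (r + t)) (by omega) ed (cd.up le_rfl (Nat.le_add_left M2 M1))
    ((Nat.mul_le_mul_right _ (by omega)).trans (e1 t))
  have en : q ^ n = q ^ (n - 1) * q := by rw [← pow_succ, Nat.sub_add_cancel (by omega)]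
  have u1 : Un (P * G 1) (S0 Λ) (.ofCoeff (Finsupp.equivFunOnFinite.symm v)) w q := fun t => by
    have a1 : q ^ (n - 1) ≤ c * #(Pi Λ (n - 1)) := ed.rp
    refine Nat.le_of_mul_le_mul_left (c := q ^ (n - 1) * w) ?_
      (Nat.mul_pos (Nat.pow_pos (by omega)) (by omega))
    calc _ ≤ c * #(Pi Λ (n - 1)) * w * (w * #{p ∈ S0 Λ | (P * G 1).coeff (p + t) ≠ v t}) :=
          Nat.mul_le_mul_right _ (Nat.mul_le_mul_right _ a1)
      _ = c * w ^ 2 * (#(Pi Λ (n - 1)) * #{p ∈ S0 Λ | (P * G 1).coeff (p + t) ≠ v t}) := by ring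
      _ ≤ _ := Nat.mul_le_mul_left _ (v1 t)
      _ = 4 * n * c * (w ^ 2 * _) := by ring
      _ ≤ w * q ^ n := Nat.mul_le_mul (by omega) (e1 t)
      _ = _ := by rw [en]; ring
  have u2 : Un (P * G (n - 1)) (V0 Λ) (.ofCoeff (Finsupp.equivFunOnFinite.symm v)) w
      (q ^ (n - 1)) := fun t => by
    refine Nat.le_of_mul_le_mul_left (c := 3 * q * w) ?_ (Nat.mul_pos (by omega) (by omega))
    calc _ ≤ 4 * #Λ.S * w * (w * #{r ∈ V0 Λ | (P * G (n - 1)).coeff (r + t) ≠ v t}) :=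
          Nat.mul_le_mul_right _ (Nat.mul_le_mul_right _ Λ.lo)
      _ = 4 * w ^ 2 * (#Λ.S * #{r ∈ V0 Λ | (P * G (n - 1)).coeff (r + t) ≠ v t}) := by ring
      _ ≤ _ := Nat.mul_le_mul_left _ (v2 t)
      _ = 16 * n * (w ^ 2 * _) := by ring
      _ ≤ 3 * w * q ^ n := Nat.mul_le_mul (by omega) (e1 t)
      _ = _ := by rw [en]; ring
  refine ⟨_, hχ, kp, pr, g.up su, g'.up su, le_trans (hFTZ q n (om A * s) w A Λ _ _ _ S0_sub ?_ u1
    ?_ ?_ wq) hs, u1, u2⟩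
  · have b4 := (H2 q A Λ (by omega) ed (cd.up le_rfl (Nat.le_add_right M1 M2))).1
    have b5 := card_sdiff_add_card_eq_card (S0_sub (Λ := Λ))
    have b6 := Λ.lo
    omega
  · refine (sz_mul _ _).trans ((Nat.mul_le_mul kp.sz (g 1 (by omega))).trans_eq (by ring))
  · calc 8 * (4 * (om A * s) + 1) ^ 2 ≤ 8 * (2 * u) ^ 2 :=
          Nat.mul_le_mul_left _ (Nat.pow_le_pow_left (by omega) 2)
      _ = 32 * u ^ 2 := by ring
      _ ≤ u * u ^ 2 := Nat.mul_le_mul_right _ (by omega)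
      _ = u ^ 3 := by ring
      _ ≤ w := (Nat.pow_le_pow_right (by omega) (by omega)).trans sl.mid

end

section

open Polynomial Finset
open Pool.Agent.P.MP_9344a7_nt.R
open Pool.Agent.P.MP_9344a7_nt.Hy
open Pool.Agent.P.MP_9344a7_nt.Od (GD Kp Fe)
open Pool.Agent.P.MP_9344a7_nt.Ac (Sb Pm Sp ED CD TD AD Sc Eg Dgs)
open scoped Classical ComplexConjugate

theorem p_SPF (hPK4 : S_PK4) (hDEG2 : S_DEG2) (hPRA : S_PRA) (hFTS : S_FTS) (hFT2 : S_FT2) :
    S_SPF := by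
  intro c n a C0 hn
  obtain ⟨q1, H1⟩ := Nh.a_MT2 c n C0
  obtain ⟨q3, H3⟩ := Od.a_RED c n (by omega)
  obtain ⟨K0, H0⟩ := Ac.lf_ex c n
  obtain ⟨K5, H5⟩ := hDEG2 c n a (by omega)
  obtain ⟨M1, H6⟩ := hFTS c n 4 hn
  obtain ⟨M2, K6, H7⟩ := hFT2 c n a hn
  refine ⟨M1 + M2, q1 + q3 + K5 + K6 + 4 * K0 + M1 + 8 * c + 8,
    fun q u w A A' _ _ _ _ Λ Λ' B sl ed cd G' hS eP => ?_⟩
  have sc := sl.sc
  have hq : q1 + q3 + M1 + 8 ≤ q := sc.leq (by omega) (by omega)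
  have ho : om A ≤ q := ((one_mul _).symm.trans_le (sc.om1 (x := 1) (by omega) (by omega))).trans
    (sc.uq (by omega))
  have q0 : 0 < q := by omega
  have G := ed.gd
  have hc := card_eq q0 (by omega) eP
  obtain ⟨χ, hχ⟩ := (Hy.a_AV A B.cyc).1
  have := B.nt
  have x0 := Fa_ne hχ
  have l0 := Hy.a_LB q n A Λ q0 χ x0
  by_cases hA : ∀ (F : ℂ[X]) (μ : ℕ), Zc χ F → F ∣ Λ.L χ → Fe q μ F → μ = 0 ∨ μ = 2 * n
  · obtain ⟨α, hα⟩ := IsAlgClosed.exists_root (Λ.L χ)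
      (natDegree_pos_iff_degree_pos.1 (by rw [l0.2.1]; omega)).ne'
    obtain ⟨j, x1, hα'⟩ := Ac.aadd1_root hc eP hχ x0 hα
    have l1 := Hy.a_LB q n A' Λ' q0 _ x1
    have eq := Od.a_EQL A χ hχ q (2 * n) (Λ.L χ) _ q0 ⟨Λ.LZ, rfl⟩ ⟨_, Ac.aadd1_map Λ' χ j⟩ l0.1
      l1.1 l0.2.1 l1.2.1 l0.2.2.1 l1.2.2.1 hA α hα hα'
    have ec : ∀ i ≤ 2 * n, Hy.ev χ (Λ.W i) = Hy.ev χ (pu j (Λ'.W i)) := fun i hi => by
      rw [ev_pu, ← Λ.coeff_L χ hi, eq, Λ'.coeff_L _ hi]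
    let Θ : A' ≃+ A := .ofBijective j (H3 q A A' Λ Λ' j (by omega) B G G' hc
      fun ψ hψ i hi => Ac.fa_tr hχ hψ (ec i (by omega)))
    obtain ⟨Λ1, t1, -, t3, -⟩ := Hy.a_TP q n A' A Λ' Θ
    have e1 : Hy.ev χ (ind Λ.S) = Hy.ev χ (ind Λ1.S) := by
      rw [← Λ.w1, ← Λ1.w1, t1.W]
      exact ec 1 (by omega)
    refine Or.inl ⟨Θ.symm, 0, (H1 q A Λ.S Λ1.S (by omega) B Λ.sid Λ1.sid (hS.trans t3.symm)
      (Ac.card_S Λ (by omega)) χ hχ e1).trans_eq' ?_⟩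
    congr 2
    ext s
    rw [mem_sdiff, mem_filter, t1.S, mem_image, add_zero]
    exact and_congr_right' (not_congr ⟨fun ⟨a, a1, a2⟩ => by rwa [← a2, Θ.symm_apply_apply],
      fun a => ⟨_, a, Θ.apply_symm_apply s⟩⟩)
  push Not at hA
  obtain ⟨F, μ, zF, ⟨F', eF⟩, fF, m0, m2⟩ := hA
  have dg := H5 q u (M1 + M2) A Λ B (sc.down (by omega))
    ⟨ed, cd, sl.td u le_rfl ((sl.uw (by omega)).trans (Nat.le_self_pow (by omega) w))⟩
  obtain rfl : n = μ := by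
    have := dg χ hχ F μ zF ⟨F', eF⟩ fF
    omega
  obtain ⟨fL, top⟩ := Od.a_FEB.1 q n A Λ q0 χ x0
  rw [eF] at fL top
  have fF' : Fe q n F' := by
    have := (Od.a_FEB.2 q (2 * n) n F F' q0 fL fF).2.1
    rwa [show 2 * n - n = n by omega] at this
  have zF' : Zc χ F' := zF.of_mul fF.c0 (eF ▸ ⟨Λ.LZ, rfl⟩)
  obtain ⟨P, pq⟩ := hPK4 A B.cyc
  have dF' : F' ∣ Λ.L χ := eF ▸ dvd_mul_left F' F
  obtain ⟨T, lf⟩ := H0 q A Λ B ho G χ hχ F zF fF.c0 ⟨F', eF⟩
  obtain ⟨T', lf'⟩ := H0 q A Λ B ho G χ hχ F' zF' fF'.c0 dF'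
  have pr : Pr2 χ n T T' Λ.W Λ.ω := hPRA q n A χ F F' T T' Λ.W Λ.ω q0 fF fL top lf.c0 lf'.c0
    (fun k _ => lf.ev k) (fun k _ => lf'.ev k) fun k hk => by
      rw [← eF, Λ.coeff_L χ (by omega)]
  have hs : 4 * (om A * (K0 * om A)) ≤ u :=
    le_trans (by ring_nf; rfl) (sc.om (x := 4 * K0) (e := 2) (by omega) (by omega))
  have ft := H7 q u w (K0 * om A) A Λ χ P
  have w0 : 8 ≤ w := (sc.le (by omega)).trans (sl.uw (by omega))
  have hw : w ^ K6 ≤ w ^ _ := Nat.pow_le_pow_right (by omega)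
    (show K6 ≤ q1 + q3 + K5 + K6 + 4 * K0 + M1 + 8 * c + 8 by omega)
  have sl' : Sl Λ u w a K6 := ⟨(sc.down (by omega)).lo, (Nat.pow_le_pow_right (sl.pos (by omega))
    (by omega)).trans sl.mid, hw.trans sl.hi, fun s a b => sl.td s a (b.trans hw)⟩
  have cd' := cd.up le_rfl (Nat.le_add_left M2 M1)
  obtain ⟨z, d1⟩ := ft T T' sl' ed cd' hχ pq.kp pr (fun k _ => lf.sz k) (fun k _ => lf'.sz k) hs
  obtain ⟨z', d2⟩ := ft T' T sl' ed cd' hχ pq.kp pr.symm (fun k _ => lf'.sz k)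
    (fun k _ => lf.sz k) hs
  have e1 : P * Λ.W 1 = P * T 1 + P * T' 1 := by
    rw [← mul_add]
    refine Ac.kp_eq pq.kp hχ ?_
    rw [pr.cv' one_pos (by omega), md_one, map_zero, add_zero, map_add]
  have u3 : Un (P * Λ.W 1) (S0 Λ) (P * 1) 8 (q ^ 1) :=
    (un_W G (by omega) (w := 8 * om A) (fun x hx => Ac.w1_one (S0_sub hx)) (le_trans
      (by ring_nf; rfl) ((sc.om1 (x := 8 * c) (by omega) (by omega)).trans
        (sc.uq (by omega))))).mul P (Nat.mul_le_mul_left _ pq.kp.sz)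
  have sum : z + z' = P := za_eq fun t => by
    have b1 := (d1.u1.down w0) t
    have b2 := (d2.u1.down w0) t
    have b3 := u3 t
    have b4 := (H6 q A Λ (by omega) ed (cd.up le_rfl (Nat.le_add_right M1 M2))).1
    have b5 := card_sdiff_add_card_eq_card (S0_sub (Λ := Λ))
    have b6 := Λ.lo
    rw [pow_one, mul_one] at b3
    obtain ⟨p, p1, p2⟩ := exists_mem_notMem_of_card_lt_card (t := S0 Λ)
      (((card_union_le _ _).trans (add_le_add (card_union_le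
        {x ∈ S0 Λ | (P * T 1).coeff (x + t) ≠ z.coeff t}
        {x ∈ S0 Λ | (P * T' 1).coeff (x + t) ≠ z'.coeff t}) (le_refl
          #{x ∈ S0 Λ | (P * Λ.W 1).coeff (x + t) ≠ P.coeff t}))).trans_lt (by omega))
    simp only [mem_union, mem_filter, p1, true_and, not_or, not_not] at p2
    rw [← p2.2, e1, AddMonoidAlgebra.coeff_add, AddMonoidAlgebra.coeff_add, Finsupp.add_apply,
      Finsupp.add_apply, p2.1.1, p2.1.2]
  have sx : Sx Λ χ P F F' T T' z z' u w :=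
    ⟨pq, dg, eF, d1, d2, ⟨fF, ⟨F', eF⟩, lf.ev⟩, ⟨fF', dF', lf'.ev⟩, sum⟩
  by_cases h : ev χ z = 0
  · refine Or.inr ⟨χ, P, F', F, T', T, z', z, sx.symm, fun h' => pq.kp.ne χ hχ ?_⟩
    rw [← sum, map_add, h, h', add_zero]
  · exact Or.inr ⟨χ, P, F, F', T, T', z, z', sx, h⟩

end

section

open Polynomial Finset
open Pool.Agent.P.MP_9344a7_nt.R
open Pool.Agent.P.MP_9344a7_nt.Hy
open Pool.Agent.P.MP_9344a7_nt.Od (GD Kp Fe)
open Pool.Agent.P.MP_9344a7_nt.Ac (Sb Pm Sp ED CD TD AD Sc Eg Dgs)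
open scoped Classical ComplexConjugate

theorem p_GN1 :
    S_GN1 := by
  intro c n E hn
  refine ⟨E * (2 * (n.factorial * (2 * c) + 1) + c) + 4, fun q A _ _ Λ H t hq e d hb => ?_⟩
  set M := E * (2 * (n.factorial * (2 * c) + 1) + c) + 4 with hM
  set N : Finset A := {p ∈ Λ.S | p - t ∉ H} with hN
  set V : Finset A := {r | (Λ.W (n - 1)).coeff r = 1 ∧ r - (Λ.ω - (n + 1) • t) ∉ H} with hV
  set Z := {p ∈ (Λ.S \ N) ×ˢ V | Sp Λ n (Λ.ω - p.1 - p.2)} with hZ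
  obtain ⟨m, rfl⟩ : ∃ m, n = m + 1 := ⟨n - 1, by omega⟩
  rw [Nat.add_sub_cancel] at hV
  have a1 : q * #Z ≤ #(N ×ˢ Λ.S) * (c * q ^ m) := by
    refine le_trans (Nat.mul_le_mul_left _ (card_le_card fun z hz => ?_)) (Ac.mul_card_biUnion
      (I := N ×ˢ Λ.S) (Z := fun y => ({b | (Λ.W m).coeff b ≠ 0 ∧
        (Λ.W m).coeff (Λ.ω - y.2 - y.1 - b) ≠ 0} : Finset A).image fun b => (y.2, b)) le_rfl
      fun y _ => (Nat.mul_le_mul_left _ card_image_le).trans (e.clf' (by omega) (by omega) _))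
    obtain ⟨z1, -, U, u1, u2, u3⟩ := mem_filter.1 hz
    obtain ⟨z1, z2⟩ := mem_product.1 z1
    obtain ⟨z1, z3⟩ := mem_sdiff.1 z1
    obtain ⟨z2, z4⟩ := (mem_filter_univ _).1 z2
    obtain ⟨s, s1, s2⟩ : ∃ s ∈ U, s - t ∉ H := by_contra fun h => z4 (by
      have h1 := H.sum_mem (t := U) (f := fun s => s - t) fun s hs =>
        by_contra fun h' => h ⟨s, hs, h'⟩
      have h2 : z.1 - t ∈ H := by_contra fun h' => z3 (mem_filter.2 ⟨z1, h'⟩)
      rw [sum_sub_distrib, u3, sum_const, u2] at h1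
      convert H.neg_mem (H.add_mem h1 h2) using 1
      rw [succ_nsmul t (m + 1)]
      abel)
    refine mem_biUnion.2 ⟨(s, z.1), mem_product.2 ⟨mem_filter.2 ⟨u1 s1, s2⟩, z1⟩, mem_image.2
      ⟨z.2, mem_filter.2 ⟨mem_univ _, z2 ▸ one_ne_zero, ?_⟩, rfl⟩⟩
    have := e.sum_ne (J := U.erase s) (T := id) fun i hi => u1 (mem_of_mem_erase hi)
    rw [card_erase_of_mem s1, u2, Nat.add_sub_cancel] at this
    convert this using 2
    rw [sub_right_comm, ← u3, ← add_sum_erase U _ s1, add_sub_cancel_left]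
    rfl
  have a2 := d.mxs _ (sdiff_subset (t := N)) V fun r hr => ((mem_filter_univ _).1 hr).1
  rw [← hZ] at a2
  have a3 : M * (#(Λ.S \ N) * #V) ≤ M * ((m + 1).factorial * #Z) + q ^ (m + 1) := by
    have h3 := mul_le_mul_of_nonneg_left (neg_le_abs _) (Nat.cast_nonneg (α := ℤ) M) |>.trans a2
    zify
    linarith
  have a4 : q ≤ 2 * #(Λ.S \ N) := by
    have := Λ.lo
    have := card_sdiff_add_card_eq_card (filter_subset (fun p => p - t ∉ H) Λ.S)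
    have := (Nat.mul_le_mul_right #N (show 4 ≤ M by omega)).trans hb
    rw [← hN] at *
    omega
  have a5 := e.big' (j := m) (by omega)
  have a6 : #{x | (Λ.W m).coeff x ≠ 0 ∧ x - (Λ.ω - (m + 1 + 1) • t) ∉ H} ≤
      #V + #{b | (Λ.W m).coeff b ≠ 0 ∧ (Λ.W m).coeff b ≠ 1} :=
    (card_le_card fun x hx => by simp only [hV, mem_union, mem_filter_univ] at hx ⊢; tauto).trans
      (card_union_le _ _)
  have q0 : 0 < q := by omega
  have a7 : M * #Z ≤ 2 * c * q ^ (m + 1) := by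
    refine Nat.le_of_mul_le_mul_left ?_ q0
    rw [card_product] at a1
    calc _ = M * (q * #Z) := by ring
      _ ≤ M * #N * (#Λ.S * (c * q ^ m)) := (Nat.mul_le_mul_left _ a1).trans_eq (by ring)
      _ ≤ q * (2 * q * (c * q ^ m)) := by gcongr; exact Ac.card_S Λ (by omega)
      _ = _ := by ring
  have a8 : M * #V ≤ 2 * ((m + 1).factorial * (2 * c) + 1) * q ^ m := by
    refine Nat.le_of_mul_le_mul_left ?_ q0
    have := Nat.mul_le_mul_left (m + 1).factorial a7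
    have := Nat.mul_le_mul_left (M * #V) a4
    rw [pow_succ] at *
    nlinarith
  refine Nat.le_of_mul_le_mul_left ?_ (show 0 < M by omega)
  rw [Nat.add_sub_cancel]
  have a9 := (Nat.mul_le_mul_right _ hq).trans a5
  calc _ = E * (M * _) := by ring
    _ ≤ E * (2 * ((m + 1).factorial * (2 * c) + 1) * q ^ m + c * q ^ m) :=
      Nat.mul_le_mul_left _ ((Nat.mul_le_mul_left _ a6).trans (by rw [mul_add]; omega))
    _ ≤ _ := by rw [← add_mul, ← mul_assoc]; gcongr; omega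

end

end Pool.Agent.P.MP_9344a7_nt.Cy
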