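import Pool.Agent.P.MP_9344a7_nt.Cy.IfaceA

/-! Steps GN2, GN3, NP2, GENL, GAM2, PER, RDW. -/

set_option linter.unusedVariables false
set_option linter.unusedSectionVars false

namespace Pool.Agent.P.MP_9344a7_nt.Cy

section

open Polynomial Finset
open Pool.Agent.P.MP_9344a7_nt.R
open Pool.Agent.P.MP_9344a7_nt.Hy
open Pool.Agent.P.MP_9344a7_nt.Od (GD Kp Fe)
open Pool.Agent.P.MP_9344a7_nt.Ac (Sb Pm Sp ED CD TD AD Sc Eg Dgs)
open scoped Classical ComplexConjugate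

lemma gn2_wt {q n c M i : ℕ} {A : Type} [AddCommGroup A] [Fintype A] {Λ : LD q n A}
    {H : AddSubgroup A} {z : A} (e : ED Λ c) (hi : i ≤ n) (hq : M ≤ q) (h : Cs Λ H i z M) :
    M * ∑ x with x - z ∉ H, (Λ.W i).coeff x ≤ (1 + c) * q ^ i := by
  have h1 : ∑ x with x - z ∉ H, (Λ.W i).coeff x ≤ #{x | (Λ.W i).coeff x ≠ 0 ∧ x - z ∉ H} +
      ∑ b with 2 ≤ (Λ.W i).coeff b, (Λ.W i).coeff b := by
    rw [card_filter, Nat.cast_sum, sum_filter, sum_filter, ← sum_add_distrib]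
    refine sum_le_sum fun x _ => ?_
    have := Λ.nn i x
    split_ifs <;> simp_all
  have h2 := (mul_le_mul_of_nonneg_right (Nat.cast_le.2 hq)
    (sum_nonneg fun _ _ => Λ.nn _ _)).trans (e.big hi)
  have h3 := mul_le_mul_of_nonneg_left h1 (Nat.cast_nonneg M)
  rw [Cs] at h
  zify at h
  linarith

lemma gn2_step {q n c : ℕ} {A : Type} [AddCommGroup A] [Fintype A] {Λ : LD q n A} (e : ED Λ c)
    (H : AddSubgroup A) (t z : A) (i : ℕ) :
    #{p ∈ Λ.S | p - t ∈ H} * ∑ x with x - (z - t) ∉ H, (Λ.W i).coeff x ≤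
      2 ^ (i + 1) * ∑ x with x - z ∉ H, (Λ.W (i + 1)).coeff x := by
  rw [mul_sum _ _ (2 ^ (i + 1) : ℤ)]
  refine le_trans ?_ (sum_le_sum fun y _ => e.mul i 1 y)
  simp only [Hy.coeff_mul]
  rw [sum_comm, mul_sum]
  refine le_trans (sum_le_sum fun x hx => ?_) (sum_le_sum_of_subset_of_nonneg (subset_univ _)
    fun x _ _ => sum_nonneg fun y _ => mul_nonneg (Λ.nn _ _) (Λ.nn _ _))
  rw [← mul_sum, mul_comm]
  refine mul_le_mul_of_nonneg_left ?_ (Λ.nn _ _)
  rw [← card_image_of_injective _ (add_left_injective x), card_eq_sum_ones, Nat.cast_sum]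
  refine (sum_le_sum fun y hy => ?_).trans (sum_le_sum_of_subset_of_nonneg (fun y hy => ?_)
    fun _ _ _ => Λ.nn _ _) <;> obtain ⟨p, hp, rfl⟩ := mem_image.1 hy
  · rw [add_sub_cancel_right, Ac.w1_one (mem_filter.1 hp).1, Nat.cast_one]
  · refine mem_filter.2 ⟨mem_univ _, fun h => (mem_filter.1 hx).2 ?_⟩
    convert H.sub_mem h (mem_filter.1 hp).2 using 1
    abel

theorem p_GN2 :
    S_GN2 := by
  intro c n E hn
  refine ⟨(E + 2) * (2 ^ (n + 1)) ^ n * (1 + c) + 4, fun q A _ _ Λ H t κ hq e hb hc => ?_⟩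
  set M := (E + 2) * (2 ^ (n + 1)) ^ n * (1 + c) + 4 with hM
  have q0 : (0 : ℤ) < q := by omega
  have a4 : q ≤ 2 * #{p ∈ Λ.S | p - t ∈ H} := by
    have := Λ.lo
    have := card_filter_add_card_filter_not (s := Λ.S) fun p => p - t ∈ H
    have := (Nat.mul_le_mul_right _ (show 4 ≤ M by omega)).trans hb
    omega
  have nn : ∀ i z, 0 ≤ ∑ x with x - z ∉ H, (Λ.W i).coeff x := fun i z =>
    sum_nonneg fun _ _ => Λ.nn _ _
  have a1 : ∀ d i, i + d < n → ∀ z, q ^ d * ∑ x with x - (z - d • t) ∉ H, (Λ.W i).coeff x ≤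
      (2 ^ (n + 1)) ^ d * ∑ x with x - z ∉ H, (Λ.W (i + d)).coeff x := fun d => by
    induction d with
    | zero => simp
    | succ d ih =>
      intro i hi z
      have h1 := gn2_step e H t (z - d • t) i
      have h2 := ih (i + 1) (by omega) z
      have h3 : (2 : ℤ) * 2 ^ (i + 1) ≤ 2 ^ (n + 1) := by
        rw [← pow_succ']
        exact pow_le_pow_right₀ one_le_two (by omega)
      have h4 : (q : ℤ) ≤ 2 * #{p ∈ Λ.S | p - t ∈ H} := by exact_mod_cast a4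
      rw [sub_sub, ← succ_nsmul] at h1
      rw [add_right_comm, add_assoc] at h2
      have h5 := nn (i + 1) (z - d • t)
      have h6 := mul_le_mul_of_nonneg_right h4 (nn i (z - (d + 1) • t))
      generalize ∑ x with x - (z - d • t) ∉ H, (Λ.W (i + 1)).coeff x = y at *
      generalize ∑ x with x - (z - (d + 1) • t) ∉ H, (Λ.W i).coeff x = y' at *
      have h7 : q * y' ≤ 2 ^ (n + 1) * y := by nlinarith [mul_le_mul_of_nonneg_right h3 h5]
      calc _ = (q : ℤ) ^ d * (q * y') := by ring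
        _ ≤ q ^ d * (2 ^ (n + 1) * y) := by gcongr
        _ = 2 ^ (n + 1) * (q ^ d * y) := by ring
        _ ≤ _ := (mul_le_mul_of_nonneg_left h2 (by positivity)).trans_eq (by ring)
  have a2 := gn2_wt e (Nat.sub_le n 1) hq hc
  have a3 : ∀ i < n, Cs Λ H i (κ - (n - 1 - i) • t) (E + 2) := fun i hi => by
    obtain ⟨d, rfl⟩ := Nat.exists_eq_add_of_lt hi
    have h1 := a1 d i (by omega) κ
    rw [Nat.add_sub_cancel] at a2
    rw [Nat.add_sub_cancel, Nat.add_sub_cancel_left, Cs]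
    have h2 : (#{x | (Λ.W i).coeff x ≠ 0 ∧ x - (κ - d • t) ∉ H} : ℤ) ≤
        ∑ x with x - (κ - d • t) ∉ H, (Λ.W i).coeff x := by
      rw [card_filter, Nat.cast_sum, sum_filter]
      refine sum_le_sum fun x _ => ?_
      have := Λ.nn i x
      split_ifs <;> simp_all
      omega
    have h3 : ((2 : ℤ) ^ (i + d + 1 + 1)) ^ d ≤ (2 ^ (i + d + 1 + 1)) ^ (i + d + 1) :=
      pow_le_pow_right₀ (one_le_pow₀ one_le_two) (by omega)
    zify
    refine le_of_mul_le_mul_left ?_ (show (0 : ℤ) < M * q ^ d by positivity)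
    have h4 := h1.trans (mul_le_mul_of_nonneg_right h3 (nn _ _))
    generalize ∑ x with x - κ ∉ H, (Λ.W (i + d)).coeff x = y at *
    generalize ∑ x with x - (κ - d • t) ∉ H, (Λ.W i).coeff x = y' at *
    calc _ ≤ (M : ℤ) * q ^ d * ((E + 2) * y') := by gcongr
      _ = (E + 2) * (M * (q ^ d * y')) := by ring
      _ ≤ (E + 2) * (M * ((2 ^ (i + d + 1 + 1)) ^ (i + d + 1) * y)) := by gcongr
      _ = (E + 2) * (2 ^ (i + d + 1 + 1)) ^ (i + d + 1) * (M * y) := by ring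
      _ ≤ (E + 2) * (2 ^ (i + d + 1 + 1)) ^ (i + d + 1) * ((1 + c) * q ^ (i + d)) := by gcongr
      _ ≤ M * q ^ (i + d) := by
          rw [← mul_assoc, hM]
          push_cast
          gcongr
          omega
      _ = _ := by ring
  have a5 : κ - (n - 1) • t ∈ H := by_contra fun h => by
    have h1 := a3 0 (by omega)
    have h2 : 0 < #{x | (Λ.W 0).coeff x ≠ 0 ∧ x - (κ - (n - 1 - 0) • t) ∉ H} := card_pos.2
      ⟨0, mem_filter.2 ⟨mem_univ _, Ac.w0_ne.2 rfl, by rwa [zero_sub, neg_mem_iff]⟩⟩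
    rw [Cs, pow_zero] at h1
    nlinarith
  refine ⟨a5, fun i hi => le_trans (Nat.mul_le_mul (Nat.le_add_right E 2)
    (card_le_card fun x hx => ?_)) (a3 i hi)⟩
  rw [mem_filter_univ] at hx ⊢
  refine ⟨hx.1, fun h => hx.2 ?_⟩
  convert H.add_mem h a5 using 1
  rw [show n - 1 = n - 1 - i + i by omega, Nat.add_sub_cancel, add_nsmul]
  abel

end

section

open Polynomial Finset
open Pool.Agent.P.MP_9344a7_nt.R
open Pool.Agent.P.MP_9344a7_nt.Hy
open Pool.Agent.P.MP_9344a7_nt.Od (GD Kp Fe)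
open Pool.Agent.P.MP_9344a7_nt.Ac (Sb Pm Sp ED CD TD AD Sc Eg Dgs)
open scoped Classical ComplexConjugate

theorem p_GN3 :
    S_GN3 := by
  intro c n E hn
  refine ⟨E * (1 + c + 2 * (n * c)) + 1, fun q A _ _ Λ H t hq e hω hc => ?_⟩
  set M := E * (1 + c + 2 * (n * c)) + 1 with hM
  have M0 : (0 : ℤ) < M := by omega
  have q0 : ∀ i, (0 : ℤ) ≤ q ^ i := fun i => by positivity
  have hM' : (M : ℤ) = E * (1 + c + 2 * (n * c)) + 1 := by exact_mod_cast hM
  have big : ∀ i ≤ n, M * ∑ b with 2 ≤ (Λ.W i).coeff b, (Λ.W i).coeff b ≤ c * q ^ i := fun i hi =>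
    (mul_le_mul_of_nonneg_right (Nat.cast_le.2 hq) (sum_nonneg fun _ _ => Λ.nn _ _)).trans (e.big hi)
  have wt : ∀ i (X : Finset A), (∀ x, (Λ.W i).coeff x = 1 → x - i • t ∉ H → x ∈ X) →
      ∑ x with x - i • t ∉ H, (Λ.W i).coeff x ≤
        #X + ∑ b with 2 ≤ (Λ.W i).coeff b, (Λ.W i).coeff b := fun i X h => by
    rw [← filter_univ_mem X, card_filter, Nat.cast_sum, sum_filter, sum_filter, ← sum_add_distrib]
    refine sum_le_sum fun x _ => ?_
    have h1 := Λ.nn i x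
    have h2 := h x
    by_cases h3 : x - i • t ∈ H <;> by_cases h4 : x ∈ X <;> simp only [h3, h4, not_true, not_false_iff,
      if_true, if_false, imp_false, imp_true_iff] at h2 ⊢ <;> split_ifs <;> omega
  refine ⟨fun i hi => le_of_mul_le_mul_left ?_ M0, le_of_mul_le_mul_left ?_ M0⟩
  · have h1 := mul_le_mul_of_nonneg_left (wt i {x | (Λ.W i).coeff x ≠ 0 ∧ x - i • t ∉ H}
      fun x a b => mem_filter.2 ⟨mem_univ _, a ▸ one_ne_zero, b⟩) M0.le
    have h2 := (Nat.cast_le (α := ℤ)).2 (hc i hi)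
    rw [Nat.cast_mul, Nat.cast_pow] at h2
    have h3 := mul_le_mul_of_nonneg_left (h1.trans ((mul_add _ _ _).trans_le
      (add_le_add h2 (big i hi.le)))) (Nat.cast_nonneg E)
    have h4 : (0 : ℤ) ≤ E * (n * c) * q ^ i := by positivity
    rw [mul_left_comm] at h3
    refine h3.trans ?_
    rw [hM']
    nlinarith [q0 i]
  set Y : Finset A := {x | (Λ.W n).coeff x = 1 ∧ x - n • t ∉ H ∧ ¬ Pm Λ n x} with hY
  have a1 : M * #Y ≤ n * (c * q ^ n) := by
    refine le_trans (Nat.mul_le_mul_left _ (card_le_card fun x hx => ?_)) (Ac.mul_card_biUnion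
      (I := Ioo 0 n) (Z := fun j => image₂ (· + ·)
        ({b | (Λ.W j).coeff b ≠ 0 ∧ b - j • t ∉ H} : Finset A) {b | (Λ.W (n - j)).coeff b ≠ 0})
      (by simp) fun j hj => ?_)
    · obtain ⟨x1, x2, x3⟩ := (mem_filter_univ _).1 hx
      simp only [Pm, x1, true_and, not_forall, not_not] at x3
      obtain ⟨j, j0, jn, b, b1, b2⟩ := x3
      by_cases h : b - j • t ∈ H
      · refine mem_biUnion.2 ⟨n - j, mem_Ioo.2 (by omega), mem_image₂.2 ⟨x - b, mem_filter.2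
          ⟨mem_univ _, b2, fun h' => x2 ?_⟩, b, mem_filter.2 ⟨mem_univ _, ?_⟩, sub_add_cancel _ _⟩⟩
        · convert H.add_mem h h' using 1
          rw [sub_nsmul _ jn.le]
          abel
        · rwa [Nat.sub_sub_self jn.le]
      · exact mem_biUnion.2 ⟨j, mem_Ioo.2 ⟨j0, jn⟩, mem_image₂.2 ⟨b, mem_filter.2
          ⟨mem_univ _, b1, h⟩, x - b, mem_filter.2 ⟨mem_univ _, b2⟩, add_sub_cancel _ _⟩⟩
    · have j2 := (mem_Ioo.1 hj).2
      refine (Nat.mul_le_mul_left _ (card_image₂_le _ _ _)).trans ?_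
      rw [← mul_assoc]
      refine (Nat.mul_le_mul (hc j j2) (Ac.gd_supp e.gd (Nat.sub_le n j))).trans_eq ?_
      rw [mul_left_comm, ← pow_add, Nat.add_sub_cancel' j2.le]
  have a2 := mul_le_mul_of_nonneg_left (wt n (PP Λ ∪ (Y ∪ Y.image (Λ.ω - ·))) fun x a b => by
    by_cases h : Pm Λ n x
    swap
    · exact mem_union_right _ (mem_union_left _ (mem_filter.2 ⟨mem_univ _, a, b, h⟩))
    by_cases h' : Pm Λ n (Λ.ω - x)
    · exact mem_union_left _ (mem_PP.2 ⟨h, h'⟩)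
    refine mem_union_right _ (mem_union_right _ (mem_image.2 ⟨_, mem_filter.2
      ⟨mem_univ _, (e.sym x).trans a, fun h2 => b ?_, h'⟩, sub_sub_cancel _ _⟩))
    convert H.sub_mem hω h2 using 1
    rw [two_mul, add_nsmul]
    abel) M0.le
  have a3 : #(PP Λ ∪ (Y ∪ Y.image (Λ.ω - ·))) ≤ #(PP Λ) + (#Y + #Y) := (card_union_le _ _).trans
    (Nat.add_le_add_left ((card_union_le _ _).trans (Nat.add_le_add_left card_image_le _)) _)
  have a4 := big n le_rfl
  have a5 := Nat.mul_le_mul_left M a3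
  zify at a1 a5
  have a6 : M * ∑ x with x - n • t ∉ H, (Λ.W n).coeff x ≤
      M * #(PP Λ) + (c + 2 * (n * c)) * q ^ n := by linarith
  have a7 := mul_le_mul_of_nonneg_left a6 (Nat.cast_nonneg E)
  have a8 : (E : ℤ) * ((c + 2 * (n * c)) * q ^ n) ≤ M * q ^ n := by
    rw [hM']
    nlinarith [q0 n, mul_nonneg (Nat.cast_nonneg (α := ℤ) E) (q0 n)]
  linarith

end

section

open Polynomial Finset
open Pool.Agent.P.MP_9344a7_nt.R
open Pool.Agent.P.MP_9344a7_nt.Hy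
open Pool.Agent.P.MP_9344a7_nt.Od (GD Kp Fe)
open Pool.Agent.P.MP_9344a7_nt.Ac (Sb Pm Sp ED CD TD AD Sc Eg Dgs)
open scoped Classical ComplexConjugate

theorem p_NP2 :
    S_NP2 := by
  intro n hn
  obtain ⟨m, rfl⟩ : ∃ m, n = m + 2 := ⟨n - 2, by omega⟩
  obtain ⟨K, hK, H⟩ := Od.onpt_cl (m + 1)
  refine ⟨(m + 2) * (K * 2 ^ (m + 2) + 2) + 2 * ((m + 1) * (K * 2 ^ (m + 1) + 2)), by positivity,
    fun a a' s s' x η hx hη h0 h0' h h' hs hs' ha => ⟨Od.onpt_bd hx h0 h hs, ?_⟩⟩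
  have ha' : ∀ j ≤ m + 1, ‖a j - a' j‖ ≤ η * x ^ j := fun j hj => ha j (by omega)
  have hd := H a a' s s' x η hx hη h0 h0' h h' hs hs' ha'
  have b1 := Od.onpt_step hx hη hK.le h0 h0' h h' hs hs' ha' hd
  have s1 : a' 1 = s' 1 := by simpa [h0'] using h' 1
  have e : ((m + 2 : ℕ) + 1 : ℂ) * (a (m + 2 + 1) - a' (m + 2 + 1)) = s (m + 2 + 1) - s' (m + 2 + 1) +
      ((m + 2 : ℕ) + 1 : ℂ) * s' 1 * (a (m + 2) - a' (m + 2)) +
      ((s 1 - s' 1) * a (m + 2) + s (m + 2) * (a 1 - a' 1) + ∑ j ∈ range m,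
        ((s (m + 1 - j) - s' (m + 1 - j)) * a (j + 2) + s' (m + 1 - j) * (a (j + 2) - a' (j + 2))) -
      s' 1 * (((m + 1 : ℕ) + 1 : ℂ) * (a (m + 1 + 1) - a' (m + 1 + 1)) -
        (s (m + 1 + 1) - s' (m + 1 + 1)))) := by
    have e1 := h (m + 2 + 1)
    have e2 := h' (m + 2 + 1)
    rw [sum_range_succ, sum_range_succ', sum_range_succ'] at e1 e2
    simp only [Nat.add_sub_add_right, Nat.sub_zero, h0, h0', mul_one, zero_add,
      Nat.add_sub_cancel_left, Nat.add_sub_cancel] at e1 e2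
    have e3 : ∑ j ∈ range m, ((s (m + 1 - j) - s' (m + 1 - j)) * a (j + 2) +
        s' (m + 1 - j) * (a (j + 2) - a' (j + 2))) = ∑ j ∈ range m, s (m + 1 - j) * a (j + 1 + 1) -
          ∑ j ∈ range m, s' (m + 1 - j) * a' (j + 1 + 1) := by
      rw [← sum_sub_distrib]
      exact sum_congr rfl fun j _ => by ring
    rw [e3]
    push_cast at e1 e2 ⊢
    linear_combination e1 - e2 + (s (m + 2) - s' (m + 2)) * s1
  have c1 := mul_le_mul (hd 1 one_ne_zero (by omega)) (Od.onpt_bd hx h0 h hs (m + 2))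
    (norm_nonneg _) (by positivity)
  have c2 := mul_le_mul (hs (m + 2) (by omega)) (ha 1 (by omega)) (norm_nonneg _) (by positivity)
  have c3 := mul_le_mul (hs' 1 one_ne_zero) b1 (norm_nonneg _) (by positivity)
  have c4 : ‖∑ j ∈ range m, ((s (m + 1 - j) - s' (m + 1 - j)) * a (j + 2) +
      s' (m + 1 - j) * (a (j + 2) - a' (j + 2)))‖ ≤ m * ((K * 2 ^ (m + 2) + 2) * η * x ^ (m + 3)) := by
    refine (norm_sum_le _ _).trans ((sum_le_card_nsmul _ _
      ((K * 2 ^ (m + 2) + 2) * η * x ^ (m + 3)) fun j hj => ?_).trans (by simp))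
    obtain ⟨d, rfl⟩ := Nat.exists_eq_add_of_lt (mem_range.1 hj)
    rw [show j + d + 1 + 1 - j = d + 2 by omega]
    refine (norm_add_le _ _).trans ?_
    rw [norm_mul, norm_mul]
    have b1 := mul_le_mul (hd (d + 2) (by omega) (by omega)) (Od.onpt_bd hx h0 h hs (j + 2))
      (norm_nonneg _) (by positivity)
    have b2 := mul_le_mul (hs' (d + 2) (by omega)) (ha (j + 2) (by omega)) (norm_nonneg _)
      (by positivity)
    have b3 : (1 : ℝ) ≤ 2 ^ (d + 1) := one_le_pow₀ one_le_two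
    have b4 : 1 * (K * η * x ^ (d + 2) * (2 * x) ^ (j + 2)) ≤
        2 ^ (d + 1) * (K * η * x ^ (d + 2) * (2 * x) ^ (j + 2)) := by gcongr
    refine (add_le_add (b1.trans ((one_mul _).symm.trans_le b4)) b2).trans_eq ?_
    ring
  have b3 : ‖((m + 2 : ℕ) + 1 : ℂ)‖ = (m + 2 : ℕ) + 1 := by
    exact_mod_cast Complex.norm_natCast (m + 2 + 1)
  have d := (congrArg norm e).trans_le ((norm_add_le _ _).trans (add_le_add ((norm_add_le _ _).trans
    (add_le_add (norm_sub_le _ _) le_rfl)) ((norm_sub_le _ _).trans (add_le_add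
      ((norm_add_le _ _).trans (add_le_add (norm_add_le _ _) c4)) le_rfl))))
  simp only [norm_mul, b3] at d
  have p0 : 0 ≤ η * x ^ (m + 3) := by positivity
  have p1 : 0 ≤ K * 2 ^ (m + 2) * (η * x ^ (m + 3)) := by positivity
  refine d.trans ?_
  have f1 : K * η * x ^ 1 * (2 * x) ^ (m + 2) = K * 2 ^ (m + 2) * (η * x ^ (m + 3)) := by ring
  have f2 : 2 * x ^ (m + 2) * (η * x ^ 1) = 2 * (η * x ^ (m + 3)) := by ring
  have f3 : 2 * x ^ 1 * (((m + 1 : ℕ) : ℝ) * (K * 2 ^ (m + 1) + 2) * η * x ^ (m + 1 + 1)) =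
    2 * ((m + 1) * (K * 2 ^ (m + 1) + 2)) * (η * x ^ (m + 3)) := by push_cast; ring
  rw [f1] at c1
  rw [f2] at c2
  rw [f3] at c3
  nlinarith

end

section

open Polynomial Finset
open Pool.Agent.P.MP_9344a7_nt.R
open Pool.Agent.P.MP_9344a7_nt.Hy
open Pool.Agent.P.MP_9344a7_nt.Od (GD Kp Fe)
open Pool.Agent.P.MP_9344a7_nt.Ac (Sb Pm Sp ED CD TD AD Sc Eg Dgs)
open scoped Classical ComplexConjugate

theorem p_GENL (hGN1 : S_GN1) (hGN2 : S_GN2) (hGN3 : S_GN3) (hGN4 : S_GN4) :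
    S_GENL := by
  intro c n hn
  obtain ⟨M4, h4⟩ := hGN4 c n hn
  obtain ⟨M3, h3⟩ := hGN3 c n M4 hn
  obtain ⟨M2, h2⟩ := hGN2 c n M3 hn
  obtain ⟨M1, h1⟩ := hGN1 c n M2 hn
  refine ⟨M1 + M2 + M3 + M4, fun q A _ _ Λ hq e d x H hH t => not_le.1 fun hb => ?_⟩
  obtain ⟨a1, a2⟩ := h2 q A Λ H t _ (by omega) e (le_trans (by gcongr; omega) hb)
    (h1 q A Λ H t (by omega) e (d.up le_rfl (by omega)) (le_trans (by gcongr; omega) hb))
  obtain ⟨b1, b2⟩ := h3 q A Λ H t (by omega) e (by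
    rwa [sub_sub, ← add_nsmul, show n + 1 + (n - 1) = 2 * n by omega] at a1) a2
  exact h4 q A Λ H t (by omega) e.gd (x.down (by omega)) hH b1 b2

end

section

open Polynomial Finset
open Pool.Agent.P.MP_9344a7_nt.R
open Pool.Agent.P.MP_9344a7_nt.Hy
open Pool.Agent.P.MP_9344a7_nt.Od (GD Kp Fe)
open Pool.Agent.P.MP_9344a7_nt.Ac (Sb Pm Sp ED CD TD AD Sc Eg Dgs)
open scoped Classical ComplexConjugate

theorem p_GAM2 :
    S_GAM2 := by
  intro A _ _ r hA ⟨d, hd⟩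
  have h0 : 0 < Nat.card A := Nat.card_pos
  have r0 : 0 < r := Nat.pos_of_ne_zero fun e => by rw [e] at hd; omega
  have d0 : 0 < d := Nat.pos_of_ne_zero fun e => by rw [e] at hd; omega
  refine ⟨IsAddCyclic.card_nsmul_eq_zero_le r0, ?_⟩
  have : NeZero (Nat.card A) := ⟨h0.ne'⟩
  have : NeZero d := ⟨d0.ne'⟩
  let e := zmodAddCyclicAddEquiv hA
  let f := ZMod.unitsMap (Dvd.intro_left r hd.symm)
  let γ : (ZMod (Nat.card A))ˣ → A ≃+ A := fun u =>
    e.symm.trans ((DistribMulAction.toAddEquiv _ u).trans e)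
  have hγ : ∀ u a, γ u a = e (u * e.symm a) := fun _ _ => rfl
  have inj : Function.Injective γ := fun u v h => by
    have := hγ u (e 1)
    rw [h, hγ, e.symm_apply_apply, mul_one, mul_one] at this
    exact Units.ext (e.injective this).symm
  refine ⟨(univ.filter (· ∈ f.ker)).image γ, ?_, fun g hg a => ?_⟩
  · rw [card_image_of_injective _ inj, ← Fintype.card_subtype, ← Nat.card_eq_fintype_card]
    have h1 := f.ker.card_mul_index
    have h2 : f.ker.index ≤ d.totient := by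
      rw [Subgroup.index_ker, ← ZMod.card_units_eq_totient, ← Nat.card_eq_fintype_card]
      exact Subgroup.card_le_card_group _
    rw [Nat.card_eq_fintype_card (α := (ZMod (Nat.card A))ˣ), ZMod.card_units_eq_totient] at h1
    refine Nat.le_of_mul_le_mul_right ((Nat.totient_super_multiplicative r d).trans ?_)
      (Nat.totient_pos.2 d0)
    rw [← hd, ← h1]
    exact Nat.mul_le_mul_left _ h2
  · obtain ⟨u, hu, rfl⟩ := mem_image.1 hg
    have h1 : ((u : ZMod (Nat.card A)).val : ZMod d) = ((1 : ℕ) : ZMod d) := by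
      have := congrArg Units.val (MonoidHom.mem_ker.1 (mem_filter.1 hu).2)
      rw [ZMod.natCast_val, Nat.cast_one]
      exact this
    have h2 := ((ZMod.natCast_eq_natCast_iff _ _ _).1 h1).mul_left' r
    rw [← hd, ← ZMod.natCast_eq_natCast_iff, mul_one, Nat.cast_mul, ZMod.natCast_zmod_val] at h2
    rw [hγ, map_nsmul, nsmul_eq_mul, ← mul_assoc, mul_comm u.1, h2, ← nsmul_eq_mul, map_nsmul,
      e.apply_symm_apply]

end

section

open Polynomial Finset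
open Pool.Agent.P.MP_9344a7_nt.R
open Pool.Agent.P.MP_9344a7_nt.Hy
open Pool.Agent.P.MP_9344a7_nt.Od (GD Kp Fe)
open Pool.Agent.P.MP_9344a7_nt.Ac (Sb Pm Sp ED CD TD AD Sc Eg Dgs)
open scoped Classical ComplexConjugate

theorem p_PER :
    S_PER := by
  intro A _ _ χ z Ψ T s s' hχ hz hT hΨ
  have e : sg (s' - s) * z = z := za_eq fun t => by
    rw [coeff_sg_mul]
    by_cases h1 : z.coeff t = 0
    · by_contra h2
      have h3 := hT _ (h1 ▸ h2)
      rw [show t - (s' - s) + s' - s = t + (s' - s) - (s' - s) by abel, add_sub_cancel_right] at h3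
      refine h2 ?_
      rw [(hΨ _ h3.1).1, (hΨ _ h3.2.2).2]
      congr 1
      abel
    · have h3 := hT _ h1
      rw [show t - (s' - s) = t + s - s' by abel, (hΨ _ h3.2.1).1, (hΨ _ h3.1).2]
      congr 1
      abel
  have e2 := congrArg (ev χ) e
  rw [map_mul, ev_sg, mul_eq_right₀ hz] at e2
  exact (sub_eq_zero.1 (AddChar.injective_iff.1 (mem_Fa.1 hχ) e2)).symm

end

section

open Polynomial Finset
open Pool.Agent.P.MP_9344a7_nt.R
open Pool.Agent.P.MP_9344a7_nt.Hy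
open Pool.Agent.P.MP_9344a7_nt.Od (GD Kp Fe)
open Pool.Agent.P.MP_9344a7_nt.Ac (Sb Pm Sp ED CD TD AD Sc Eg Dgs)
open scoped Classical ComplexConjugate

lemma crdw_few {A : Type} [AddCommGroup A] [Fintype A] {y z v : ZA A} {X T : Finset A}
    {q u w E : ℕ} (h : Un y X z w q) (u0 : 0 < u) (hv : sz v ≤ u) (hw : u ^ 20 ≤ w)
    (hE : 8 * E ≤ u) (hT : #T ≤ u ^ 7) :
    8 * E * #{x ∈ X | ∃ t ∈ T, (v * y).coeff (x + t) ≠ (v * z).coeff t} ≤ q := by
  have h1 := (h.mul v (w' := u ^ 19)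
    (((Nat.mul_le_mul_left _ hv).trans_eq (pow_succ u 19).symm).trans hw)).win T
  refine Nat.le_of_mul_le_mul_left (c := u ^ 7) ?_ (Nat.pow_pos u0)
  refine le_trans ?_ (h1.trans (Nat.mul_le_mul_right _ hT))
  rw [← mul_assoc]
  exact Nat.mul_le_mul_right _ (((Nat.mul_le_mul_left _ hE).trans_eq (pow_succ u 7).symm).trans
    (Nat.pow_le_pow_right u0 (by norm_num)))

theorem p_RDW (hPER : S_PER) :
    S_RDW := by
  intro q n u w r E A _ _ Λ χ P z G G' δ hF hz hG hS ho hE hw hr hδ he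
  have u0 : 0 < u := lt_of_lt_of_le Ac.one_le_om ho
  set R : Finset A := {a : A | r • a = 0}
  have hη : ∀ x, r • (δ x - x) = 0 := fun x => by rw [nsmul_sub, ← map_nsmul, hδ, sub_self]
  set Pd := pu (δ : A →+ A) P
  set Pi := pu (δ.symm : A →+ A) P
  have hP : sz P ≤ u := hF.kp.sz.trans ho
  have hPi : pu (δ : A →+ A) Pi = P := za_eq fun a => by
    rw [← δ.apply_symm_apply a, coeff_pu, coeff_pu, δ.apply_symm_apply]
  have hk : pu (δ : A →+ A) (Pi * (P * G 1)) = Pd * (P * G 1) := by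
    rw [map_mul, map_mul, hPi, mul_left_comm, Ac.kp_eq hF.kp hF.fa he]
  have hd : ev χ (Pd * z) ≠ 0 := by
    rw [map_mul, ev_pu]
    exact mul_ne_zero (hF.kp.ne _ (mem_Fa.2 ((mem_Fa.1 hF.fa).comp δ.injective))) hz
  set T : Finset A := image₂ (· + ·) (Pd * z).coeff.support R
  have hT : #T ≤ u ^ 7 := (card_image₂_le _ _ _).trans ((Nat.mul_le_mul ((sz_mul _ _).trans
    (Nat.mul_le_mul ((sz_pu _ _).trans hP) hF.szc)) hr).trans_eq (by ring))
  have hTc : ∀ t ∈ T, ∀ s, r • s = 0 → t + s ∈ T := fun t ht s hs => by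
    obtain ⟨b, hb, a, ha, rfl⟩ := mem_image₂.1 ht
    exact mem_image₂.2 ⟨b, hb, a + s, mem_filter.2 ⟨mem_univ _, by
      rw [nsmul_add, hs, (mem_filter.1 ha).2, add_zero]⟩, (add_assoc _ _ _).symm⟩
  have b1 := crdw_few hF.u1 u0 ((sz_pu (δ : A →+ A) P).trans hP) hw hE hT
  have b2 := crdw_few hF.u1 u0 ((sz_pu (δ.symm : A →+ A) P).trans hP) hw hE
    (T := T.image δ.symm) (card_image_le.trans hT)
  set B1 := {x ∈ S0 Λ | ∃ t ∈ T, (Pd * (P * G 1)).coeff (x + t) ≠ (Pd * z).coeff t}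
  set B2 := {x ∈ S0 Λ | ∃ t ∈ T.image δ.symm,
    (Pi * (P * G 1)).coeff (x + t) ≠ (Pi * z).coeff t}
  have key : ∀ p, p ∈ S0 Λ ∧ p ∉ B1 ∧ p ∉ B2 → ∀ t ∈ T,
      (Pd * z).coeff t = (Pi * z).coeff (δ.symm (t - (δ p - p))) := by
    rintro p ⟨p0, p1, p2⟩ t ht
    have e1 : (Pd * (P * G 1)).coeff (p + t) = (Pd * z).coeff t :=
      not_not.1 fun e => p1 (mem_filter.2 ⟨p0, t, ht, e⟩)
    have ht' : t - (δ p - p) ∈ T := by
      rw [sub_eq_add_neg]
      exact hTc t ht _ (by rw [neg_nsmul, hη, neg_zero])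
    have e2 : (Pi * (P * G 1)).coeff (p + δ.symm (t - (δ p - p))) =
        (Pi * z).coeff (δ.symm (t - (δ p - p))) :=
      not_not.1 fun e => p2 (mem_filter.2 ⟨p0, _, mem_image_of_mem _ ht', e⟩)
    rw [← e1, ← e2, ← hk, ← coeff_pu δ (Pi * (P * G 1)), map_add δ, δ.apply_symm_apply]
    congr 1
    abel
  obtain ⟨p0, hp0⟩ : ∃ p0, ∀ p, p ∈ S0 Λ ∧ p ∉ B1 ∧ p ∉ B2 → δ p - p = δ p0 - p0 := by
    by_cases e : ∃ p0, p0 ∈ S0 Λ ∧ p0 ∉ B1 ∧ p0 ∉ B2
    · obtain ⟨p0, h0⟩ := e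
      refine ⟨p0, fun p hp => hPER A χ (Pd * z) (fun t => (Pi * z).coeff (δ.symm t)) T _ _ hF.fa hd
        (fun b hb => ?_) fun t ht => ⟨key p hp t ht, key p0 h0 t ht⟩⟩
      have hb' : b ∈ T := mem_image₂.2 ⟨b, Finsupp.mem_support_iff.2 hb, 0,
        mem_filter.2 ⟨mem_univ _, nsmul_zero _⟩, add_zero _⟩
      refine ⟨hb', ?_, ?_⟩ <;> rw [add_sub_assoc] <;>
        exact hTc b hb' _ (by rw [nsmul_sub, hη, hη, sub_self])
    · exact ⟨0, fun p hp => absurd ⟨p, hp⟩ e⟩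
  by_contra hne
  obtain ⟨H, hm⟩ : ∃ H : AddSubgroup A, ∀ x, x ∈ H ↔ δ x = x :=
    ⟨((δ : A →+ A) - AddMonoidHom.id A).ker, fun x => by simp [sub_eq_zero]⟩
  have hH : H ≠ ⊤ := fun e => hne (AddEquiv.ext fun x => (hm x).1 (e ▸ AddSubgroup.mem_top x))
  have h3 : q < E * (#(Λ.S \ S0 Λ) + #B1 + #B2) := by
    refine (hG _ hH p0).trans_le (Nat.mul_le_mul_left E (le_trans (card_le_card fun p hp => ?_)
      ((card_union_le _ _).trans (Nat.add_le_add_right (card_union_le _ _) _))))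
    obtain ⟨a, b⟩ := mem_filter.1 hp
    by_contra e
    simp only [mem_union, mem_sdiff, not_or, not_and, not_not] at e
    refine b ((hm _).2 ?_)
    rw [map_sub, sub_eq_sub_iff_sub_eq_sub]
    exact hp0 p ⟨e.1.1 a, e.1.2, e.2⟩
  rw [mul_add, mul_add] at h3
  rw [mul_assoc] at hS b1 b2
  omega

end

end Pool.Agent.P.MP_9344a7_nt.Cy
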