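import Pool.Agent.P.MP_9344a7_nt.Cy.IfaceA

/-! Steps SUB3, RDB, FNC, PU, ID0, STP. -/

set_option linter.unusedVariables false
set_option linter.unusedSectionVars false

namespace Pool.Agent.P.MP_9344a7_nt.Cy

section

open Polynomial Finset
open Pool.Agent.P.MP_9344a7_nt.R
open Pool.Agent.P.MP_9344a7_nt.Hy
open Pool.Agent.P.MP_9344a7_nt.Od (GD Kp Fe)
open Pool.Agent.P.MP_9344a7_nt.Ac (Sb Pm Sp ED CD TD AD Sc Eg Dgs)
open scoped Classical ComplexConjugate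

theorem p_SUB3 :
    S_SUB3 := by
  intro c n E
  refine ⟨E ^ (2 * (n + 1)) * (2 ^ (n + 1) ^ 2 * c) ^ 2, fun q A _ _ Λ l z hB h hl hd hN => ?_⟩
  set T : Finset A := {p ∈ Λ.S | ∃ a, p = z + l • a}
  let Y : Finset A := ({s : A | ∃ a : A, s = l • a} : Finset A).image ((n + 1) • z + ·)
  have y1 : l * #Y ≤ c * q ^ (n + 1) :=
    ((Nat.mul_le_mul_left l card_image_le).trans (sub_range hl hd)).trans hB.le
  have h1 : ((#T : ℤ)) ^ (n + 1) ≤ 2 ^ (n + 1) ^ 2 * ∑ x ∈ Y, (Λ.W (n + 1)).coeff x := by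
    rw [← Nat.cast_pow, ← Fintype.card_piFinset_const, card_eq_sum_card_fiberwise
      (f := fun V => ∑ i, V i) (t := Y) fun V hV => ?_, Nat.cast_sum, mul_sum]
    · refine sum_le_sum fun b _ => ?_
      have := h.tup (ι := Fin (n + 1)) (x := b)
        (E := {V ∈ Fintype.piFinset fun _ => T | ∑ i, V i = b}) fun V hV =>
        ⟨fun i => (mem_filter.1 (Fintype.mem_piFinset.1 (mem_filter.1 hV).1 i)).1,
          (mem_filter.1 hV).2⟩
      rwa [Fintype.card_fin] at this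
    · choose g hg using fun i => (mem_filter.1 (Fintype.mem_piFinset.1 (mem_coe.1 hV) i)).2
      refine mem_coe.2 (mem_image.2 ⟨l • ∑ i, g i, mem_filter.2 ⟨mem_univ _, _, rfl⟩, ?_⟩)
      simp [hg, sum_add_distrib, smul_sum]
  have h2 : (∑ x ∈ Y, (Λ.W (n + 1)).coeff x) ^ 2 ≤ #Y * (c * q ^ (n + 1) : ℤ) :=
    sq_sum_le_card_mul_sum_sq.trans (mul_le_mul_of_nonneg_left
      ((sum_le_univ_sum_of_nonneg fun _ => sq_nonneg _).trans h.eg) (Nat.cast_nonneg _))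
  have h3 : (#T ^ (n + 1)) ^ 2 ≤ (2 ^ (n + 1) ^ 2) ^ 2 * (#Y * (c * q ^ (n + 1))) := by
    have := (pow_le_pow_left₀ (by positivity) h1 2).trans ((mul_pow _ _ _).trans_le
      (mul_le_mul_of_nonneg_left h2 (by positivity)))
    exact_mod_cast this
  refine (Nat.pow_le_pow_iff_left (n := 2 * (n + 1)) (by omega)).1
    (Nat.le_of_mul_le_mul_left ?_ hl.pos)
  calc l * (E * #T) ^ (2 * (n + 1)) = E ^ (2 * (n + 1)) * (l * (#T ^ (n + 1)) ^ 2) := by ring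
    _ ≤ E ^ (2 * (n + 1)) * (l * ((2 ^ (n + 1) ^ 2) ^ 2 * (#Y * (c * q ^ (n + 1))))) := by gcongr
    _ = E ^ (2 * (n + 1)) * ((2 ^ (n + 1) ^ 2) ^ 2 * (l * #Y * (c * q ^ (n + 1)))) := by ring
    _ ≤ E ^ (2 * (n + 1)) * ((2 ^ (n + 1) ^ 2) ^ 2 * (c * q ^ (n + 1) * (c * q ^ (n + 1)))) := by
      gcongr
    _ = E ^ (2 * (n + 1)) * (2 ^ (n + 1) ^ 2 * c) ^ 2 * q ^ (2 * (n + 1)) := by ring
    _ ≤ _ := Nat.mul_le_mul_right _ hN.le

end

section

open Polynomial Finset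
open Pool.Agent.P.MP_9344a7_nt.R
open Pool.Agent.P.MP_9344a7_nt.Hy
open Pool.Agent.P.MP_9344a7_nt.Od (GD Kp Fe)
open Pool.Agent.P.MP_9344a7_nt.Ac (Sb Pm Sp ED CD TD AD Sc Eg Dgs)
open scoped Classical ComplexConjugate

lemma crdb_sid {A : Type} [AddCommGroup A] {S : Finset A} (h : Sid S) (t : A) :
    Sid (S.image (· + t)) := by
  intro d hd T hT hs
  rw [← card_image_of_injective T (sub_left_injective (b := t))]
  refine h d hd _ (fun x hx => ?_) fun x hx => ?_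
  · obtain ⟨y, hy, rfl⟩ := mem_image.1 hx
    obtain ⟨z, hz, rfl⟩ := mem_image.1 (hT hy)
    simpa using hz
  · obtain ⟨y, hy, rfl⟩ := mem_image.1 hx
    obtain ⟨z, hz, e⟩ := mem_image.1 (hs y hy)
    rwa [sub_add_eq_add_sub, ← e, add_sub_cancel_right]

lemma crdb_div {A : Type} [AddCommGroup A] {l m : ℕ} {b : A} (h : m.Coprime l) (hb : m • b = 0) :
    ∃ a, b = l • a := by
  obtain ⟨k, hk⟩ := exists_nsmul_eq_self_of_coprime
    (Nat.Coprime.coprime_dvd_right (addOrderOf_dvd_of_nsmul_eq_zero hb) h.symm)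
  exact ⟨k • b, by rw [smul_comm, hk]⟩

theorem p_RDB (hSUB3 : S_SUB3) :
    S_RDB := by
  intro c n hn
  obtain ⟨N, hU⟩ := hSUB3 c n 16
  refine ⟨N + 1728, ?_⟩
  intro q u w l A _ _ Λ χ P z F G G' H hB hSc huw hE hDg hP hFd hFp hz hS0 hl hlA h1 h2 h3 hFH
  by_contra hb
  rw [not_le] at hb
  have hq : 4 ≤ q := hSc.leq (by omega) (by omega)
  have hu : N + 1728 ≤ u := hSc.le le_rfl
  have hul : u ≤ u ^ 5 := Nat.le_self_pow (by omega) u
  have hsub := fun z => hU q A Λ l z hB hE hl hlA (by omega)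
  obtain ⟨hc, Δ, hΔ, hr, hfix, hfree, hev⟩ := Ac.a_RDG q n l A Λ F G H hB.cyc (by omega) hn hDg
    hl hlA χ hFd.fa hFp.fe hFp.dv hFp.ev h1 h2 h3 hFH
  obtain ⟨g, P', m, hg, hPP, hsz, -, hm, hsp⟩ := hP.fac l hl hlA
  have inv : ∀ δ ∈ Δ, ∀ y, (P' * G 1).coeff (δ y) = (P' * G 1).coeff y := fun δ hδ =>
    Ac.a_RDI A l g P' (G 1) δ hg hc (hfix δ hδ) (fun b hb => crdb_div hm (hsp b hb))
      (hPP ▸ Ac.kp_eq hP.kp hFd.fa (hev δ hδ))
  have f1 : ∀ y, (P * G 1).coeff y = (P' * G 1).coeff y - (P' * G 1).coeff (y - g) := fun y => by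
    rw [hPP, mul_assoc, sub_mul, one_mul, AddMonoidAlgebra.coeff_sub, Finsupp.sub_apply,
      coeff_sg_mul]
  have hlg : l • g = 0 := hg ▸ addOrderOf_nsmul_eq_zero g
  obtain ⟨t, ht⟩ : ∃ t, z.coeff t ≠ 0 := by
    by_contra! e
    exact hz (za_eq fun t => by simpa using e t)
  set T := {p ∈ Λ.S | (P * G 1).coeff (p + t) ≠ 0 ∧ (¬ ∃ a, p = -t + l • a) ∧
    ¬ ∃ a, p = g - t + l • a}
  have c1 : #Λ.S ≤ #T + (#(Λ.S \ S0 Λ) + (#{p ∈ S0 Λ | (P * G 1).coeff (p + t) ≠ z.coeff t} +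
      (#{p ∈ Λ.S | ∃ a, p = -t + l • a} + #{p ∈ Λ.S | ∃ a, p = g - t + l • a}))) := by
    refine le_trans (card_le_card fun p hp => ?_) ((card_union_le _ _).trans
      (Nat.add_le_add_left ((card_union_le _ _).trans (Nat.add_le_add_left ((card_union_le _ _).trans
        (Nat.add_le_add_left (card_union_le _ _) _)) _)) _))
    simp only [T, mem_union, mem_filter, mem_sdiff]
    have : (P * G 1).coeff (p + t) = z.coeff t → (P * G 1).coeff (p + t) ≠ 0 := fun e => e ▸ ht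
    tauto
  have c2 : q ≤ 8 * #T := by
    have := hsub (-t)
    have := hsub (g - t)
    have := hFd.u1.down (w' := 16) (by omega) t
    have := Λ.lo
    omega
  have c3 := Ac.a_RDL A l _ (T.image (· + t)) Δ (P' * G 1) (crdb_sid Λ.sid t) (by omega) hc hΔ hfix
    hfree inv (image_subset_image (filter_subset _ _)) fun r hr' => by
      obtain ⟨p, hp, rfl⟩ := mem_image.1 hr'
      obtain ⟨-, o, n1, n2⟩ := mem_filter.1 hp
      by_cases e : (P' * G 1).coeff (p + t) = 0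
      · refine ⟨p + t - g, by rw [sub_sub_cancel_left, smul_neg, hlg, neg_zero],
          fun ⟨a, h⟩ => n2 ⟨a, by rw [← h]; abel⟩, fun e' => ?_⟩
        rw [f1, e, e'] at o
        simp at o
      · exact ⟨p + t, by simp, fun ⟨a, h⟩ => n1 ⟨a, by rw [← h]; abel⟩, e⟩
  rw [card_image_of_injective _ (add_left_injective t)] at c3
  have c4 : sz (P' * G 1) ≤ om A * (u * q ^ 1) :=
    (sz_mul _ _).trans (Nat.mul_le_mul hsz (hFd.sz 1 hn))
  have c6 : 1728 * om A ^ 2 ≤ u := hSc.om (by omega) (by omega)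
  have c5 : l * q ^ 2 ≤ u ^ 3 * q ^ 2 :=
    calc l * q ^ 2 ≤ l * (8 * #T) ^ 2 := by gcongr
      _ = 64 * (l * #T ^ 2) := by ring
      _ ≤ 64 * (27 * (om A * (u * q ^ 1)) ^ 2) := Nat.mul_le_mul_left _ (c3.trans (by gcongr))
      _ = 1728 * om A ^ 2 * (u ^ 2 * q ^ 2) := by ring
      _ ≤ u * (u ^ 2 * q ^ 2) := Nat.mul_le_mul_right _ c6
      _ = _ := by ring
  have c7 : u ^ 3 ≤ u ^ 5 := Nat.pow_le_pow_right (by omega) (by omega)
  exact absurd (Nat.le_of_mul_le_mul_right c5 (by positivity)) (by omega)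

end

section

open Polynomial Finset
open Pool.Agent.P.MP_9344a7_nt.R
open Pool.Agent.P.MP_9344a7_nt.Hy
open Pool.Agent.P.MP_9344a7_nt.Od (GD Kp Fe)
open Pool.Agent.P.MP_9344a7_nt.Ac (Sb Pm Sp ED CD TD AD Sc Eg Dgs)
open scoped Classical ComplexConjugate

theorem p_FNC :
    S_FNC := by
  intro q n E A A' _ _ _ _ Λ Λ' j hG hc hR
  obtain ⟨j', -, t, ht⟩ := hR
  have hs : Function.Surjective j' := by
    rw [← AddMonoidHom.range_eq_top]
    obtain ⟨H, hH⟩ : ∃ H, H = j'.range := ⟨_, rfl⟩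
    rw [← hH]
    by_contra hne
    refine (hG H hne (-t)).not_ge (le_trans (Nat.mul_le_mul_left _ (card_le_card fun p hp => ?_)) ht)
    obtain ⟨h1, h2⟩ := mem_filter.1 hp
    refine mem_filter.2 ⟨h1, ?_⟩
    by_contra h3
    obtain ⟨y, hy, -⟩ := Ej_ne.1 h3
    exact h2 (hH ▸ ⟨y, by rw [hy, sub_neg_eq_add]⟩)
  have hb : Function.Bijective j' := (Nat.bijective_iff_surjective_and_card _).2 ⟨hs, hc⟩
  refine ⟨(AddEquiv.ofBijective j' hb).symm, (AddEquiv.ofBijective j' hb).symm t,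
    le_trans (Nat.mul_le_mul_left _ (card_le_card fun p hp => ?_)) ht⟩
  obtain ⟨h1, h2⟩ := mem_filter.1 hp
  refine mem_filter.2 ⟨h1, ?_⟩
  by_contra h3
  obtain ⟨y, hy, h4⟩ := Ej_ne.1 h3
  refine h2 ?_
  rw [← map_add, ← hy, show j' y = AddEquiv.ofBijective j' hb y from rfl,
    AddEquiv.symm_apply_apply]
  exact Ac.w1_ne.1 h4

end

section

open Polynomial Finset
open Pool.Agent.P.MP_9344a7_nt.R
open Pool.Agent.P.MP_9344a7_nt.Hy
open Pool.Agent.P.MP_9344a7_nt.Od (GD Kp Fe)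
open Pool.Agent.P.MP_9344a7_nt.Ac (Sb Pm Sp ED CD TD AD Sc Eg Dgs)
open scoped Classical ComplexConjugate

theorem p_PU (hPH : S_PH) :
    S_PU := by
  intro c a
  obtain ⟨K, hK⟩ := hPH c a (4 * a + 3)
  refine ⟨K + (4 * a + 3 + 4) + c,
    fun q n u w A _ _ Λ y y0 z z0 T X Y hn hE hL h1 h2 h3 h4 h5 h6 => ?_⟩
  have u2 : 2 ≤ u := hL.sc.le (by omega)
  have uc : c ≤ u := hL.sc.le (by omega)
  have u0 : 0 < u := by omega
  obtain ⟨L, a1, a2⟩ := hK q n u w 1 A Λ y z z0 T Y Prod.fst Prod.snd hn hE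
    (hL.down (by omega) (by omega)) (.inl ⟨rfl, rfl, rfl⟩) (by rwa [pow_one]) h2 h5 h6
  have b1 : #(L ∪ y0.coeff.support) ≤ u ^ (4 * a + 3) := by
    have e1 : u ^ (4 * a) ≤ u ^ (4 * a + 2) := Nat.pow_le_pow_right u0 (by omega)
    have e2 : u ^ 2 ≤ u ^ (4 * a + 2) := Nat.pow_le_pow_right u0 (by omega)
    have e3 : u ^ (4 * a + 2) * 2 ≤ u ^ (4 * a + 3) := Nat.mul_le_mul_left _ u2
    have e4 := card_union_le L y0.coeff.support
    unfold sz at h3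
    omega
  obtain ⟨B, b2, b3⟩ := a2 _ subset_union_left b1
  have b4 := h4.win (L ∪ y0.coeff.support)
  set N := {x ∈ X | ∃ t ∈ L ∪ y0.coeff.support, y.coeff (x + t) ≠ y0.coeff t} with hN
  have b5 : u ^ 4 * #N ≤ q := by
    refine Nat.le_of_mul_le_mul_left ?_ (Nat.pow_pos (n := 4 * a + 3) u0)
    rw [← mul_assoc, ← pow_add]
    exact (Nat.mul_le_mul_right _ ((Nat.pow_le_pow_right u0 (by omega)).trans hL.mid)).trans
      (b4.trans (Nat.mul_le_mul_right _ b1))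
  have b6 : u ^ 3 * #{e ∈ Es Λ | e.1 ∈ N} ≤ q ^ n :=
    calc _ ≤ u ^ 3 * (#N * (u * q ^ (n - 1))) := Nat.mul_le_mul_left _ ((es_cnt1 hE.gd N).trans
          (Nat.mul_le_mul_left _ (Nat.mul_le_mul_right _ uc)))
      _ = u ^ 4 * #N * q ^ (n - 1) := by ring
      _ ≤ q * q ^ (n - 1) := Nat.mul_le_mul_right _ b5
      _ = q ^ n := by rw [← pow_succ', Nat.sub_add_cancel (by omega)]
  refine ⟨B ∪ {e ∈ Es Λ | e.1 ∈ N}, Nat.le_of_mul_le_mul_left ?_ u0, fun e he hB hX hY t ht => ?_⟩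
  · calc _ = u ^ 3 * #(B ∪ {e ∈ Es Λ | e.1 ∈ N}) := by ring
      _ ≤ u ^ 3 * (#B + #{e ∈ Es Λ | e.1 ∈ N}) := Nat.mul_le_mul_left _ (card_union_le _ _)
      _ ≤ 2 * q ^ n := by rw [mul_add]; omega
      _ ≤ _ := Nat.mul_le_mul_right _ u2
  · rw [mem_union, not_or] at hB
    rw [b3 e he hB.1 hY t ht]
    refine congrArg (fun v : ZA A => (v * z0).coeff t) (za_eq fun s => ?_)
    rw [coeff_pat]
    split_ifs with hs
    · exact not_not.1 fun h => hB.2 (mem_filter.2 ⟨he, mem_filter.2 ⟨hX, s, hs, h⟩⟩)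
    · exact (Finsupp.notMem_support_iff.1 fun h => hs (mem_union_right _ h)).symm

end

section

open Polynomial Finset
open Pool.Agent.P.MP_9344a7_nt.R
open Pool.Agent.P.MP_9344a7_nt.Hy
open Pool.Agent.P.MP_9344a7_nt.Od (GD Kp Fe)
open Pool.Agent.P.MP_9344a7_nt.Ac (Sb Pm Sp ED CD TD AD Sc Eg Dgs)
open scoped Classical ComplexConjugate

lemma cid0_sz {A : Type} [AddCommGroup A] [Fintype A] {P y : ZA A} {q u K e x : ℕ} (hP : Kp P)
    (h : Sc A q u K) (h0 : 0 < K) (he : e ≤ K) (hy : sz y ≤ u * x) (s : A) :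
    sz (sg s * P ^ e * y) ≤ u ^ 2 * x := by
  have h1 : sz (sg s * P ^ e) ≤ u := (sz_sg_mul _ _).trans ((sz_pow _ _).trans
    ((Nat.pow_le_pow_left hP.sz _).trans (by simpa using h.om h0 he)))
  exact (sz_mul _ _).trans ((Nat.mul_le_mul h1 hy).trans_eq (by ring))

lemma cid0_id {A : Type} [AddCommGroup A] [Fintype A] {χ : AddChar A ℂ} {P : ZA A} {n : ℕ}
    {G G' W : ℕ → ZA A} {ω : A} (hn : 3 ≤ n) (hP : Kp P) (hχ : χ ∈ Fa A)
    (h : Pr2 χ n G G' W ω) (ω' : A) :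
    gb P (G 1) ω ω' * gb P (G (n - 1)) ω ω' =
      (sg 0 * P ^ 6 * br (G (n - 1))) * (sg (ω + ω' + ω' + ω) * br (W 1)) -
        (sg (ω + ω' + ω') * P ^ 5 * G 1) * (P * W (n - 1)) +
        (sg (ω + ω' + ω') * P ^ 5 * G 1) * (P * G (n - 1)) +
        (sg (ω + ω' + ω') * P ^ 6 * G 1) * md G G' (n - 1) := by
  have e1 := h.cv' (m := 1) one_pos (by omega)
  have e2 := h.cv' (m := n - 1) (by omega) (by omega)
  have e3 := h.sy 1 (by omega)
  rw [md_one, map_zero, add_zero] at e1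
  have e4 : P * (G 1 * (W (n - 1) - G (n - 1) - md G G' (n - 1))) =
      P * (sg ω * (br (G (n - 1)) * (br (W 1) - br (G 1)))) := by
    refine Ac.kp_eq hP hχ ?_
    simp only [map_mul, map_sub, ev_br, ev_sg, e1, e2, map_add] at e3 ⊢
    linear_combination e3
  have s0 : (sg 0 : ZA A) = 1 := rfl
  have s1 : (sg (ω + ω' + ω' + ω) : ZA A) = sg (ω + ω' + ω') * sg ω := by
    simp [AddMonoidAlgebra.single_mul_single]
  have s2 : (sg (ω + ω') : ZA A) * sg (ω + ω') = sg (ω + ω' + ω') * sg ω := by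
    simp only [AddMonoidAlgebra.single_mul_single]
    congr 1
    abel
  rw [gb, gb, s0, s1]
  linear_combination (P ^ 6 * br (G 1) * br (G (n - 1))) * s2 +
    (sg (ω + ω' + ω') * P ^ 5) * e4

theorem p_ID0 (hCUM : S_CUM) (hPRD : S_PRD) (hPH : S_PH) (hPU : S_PU) :
    S_ID0 := by
  intro c n a _ hn
  obtain ⟨K1, h1⟩ := hCUM n a
  obtain ⟨K2, h2⟩ := hPH c a (4 * a)
  obtain ⟨K3, h3⟩ := hPU c a
  refine ⟨K1 + K2 + K3 + c + 8, fun q u w A _ _ Λ χ P z G G' ω' T hL hE hF hT => ?_⟩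
  set K0 := K1 + K2 + K3 + 1 with hK0
  have hS := hL.sc
  have hC : Lv Λ u (u ^ K0) a K0 := hL.cut (by omega)
  have u0 : 0 < u := hS.pos (by omega)
  have cu : c ≤ u := hS.le (by omega)
  have hq : 0 < q := hS.leq (x := 1) (by omega) (by omega)
  have hP := hF.kp
  have szf : ∀ {e x : ℕ} {y : ZA A}, e ≤ 6 → sz y ≤ u * x → ∀ s : A,
      sz (sg s * P ^ e * y) ≤ u ^ 2 * x := fun he hy s =>
    cid0_sz hP hS (by omega) (by omega) hy s
  have szP : ∀ {x : ℕ} {y : ZA A}, sz y ≤ u * x → sz (P * y) ≤ u ^ 2 * x := fun hy => by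
    have := szf (e := 1) (by omega) hy 0
    rwa [show (sg 0 : ZA A) = 1 from rfl, one_mul, pow_one] at this
  have g1 : sz (G 1) ≤ u * q := by simpa using hF.sz 1 (by omega)
  have g2 : sz (G (n - 1)) ≤ u * q ^ (n - 1) := hF.sz _ (by omega)
  have w1 := (sz_W hE.gd).up cu
  have cw : ∀ e, e ≤ K0 + 1 → c * u ^ e ≤ q := fun e he =>
    (Nat.mul_le_mul_right _ cu).trans ((pow_succ' u e).symm.trans_le (hS.pow (by omega) (by omega)))
  have uw : ∀ e, e ≤ K0 + 1 → u ^ e ≤ w := fun e he =>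
    (Nat.pow_le_pow_right u0 (by omega)).trans hL.mid
  set σ := Λ.ω + ω' + ω' with hσ
  have o4 : sz (sg σ * P ^ 4) ≤ u := (sz_sg_mul _ _).trans ((sz_pow _ _).trans
    ((Nat.pow_le_pow_left hP.sz _).trans (by simpa using hS.om (x := 1) (e := 4) (by omega) (by omega))))
  have o1 : sz P ≤ u := hP.sz.trans (by simpa using hS.om1 (x := 1) (by omega) (by omega))
  have uy : Un (sg σ * P ^ 5 * G 1) (S0 Λ) (sg σ * P ^ 4 * z) (u ^ K0) q := by
    have := hF.u1.mul (w' := u ^ K0) (sg σ * P ^ 4)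
      ((Nat.mul_le_mul_left _ o4).trans ((pow_succ u K0).symm.trans_le (uw _ le_rfl)))
    rwa [← mul_assoc, mul_assoc (sg σ), ← pow_succ] at this
  have uW : Un (P * Λ.W (n - 1)) (V0 Λ) (P * 1) (u ^ K0) (q ^ (n - 1)) :=
    (un_W hE.gd (Nat.sub_le _ _) (fun x hx => (mem_Pi.1 (V0_sub hx)).1) (cw _ le_rfl)).mul P
      ((Nat.mul_le_mul_left _ o1).trans_eq (pow_succ u K0).symm)
  have sy : sz (sg σ * P ^ 5 * G 1) ≤ u ^ 2 * q := szf (by omega) g1 σ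
  have sy0 : sz (sg σ * P ^ 4 * z) ≤ u ^ 2 := by
    simpa using szf (e := 4) (x := 1) (by omega) (hF.szc.trans_eq (mul_one u).symm) σ
  obtain ⟨B1, b1, c1⟩ := h3 q n u _ A Λ _ _ _ _ T _ _ hn hE (hC.down (by omega) (by omega)) sy
    (szP (w1 _ (Nat.sub_le _ _))) sy0 uy uW hT
  obtain ⟨B2, b2, c2⟩ := h3 q n u _ A Λ _ _ _ _ T _ _ hn hE (hC.down (by omega) (by omega)) sy
    (szP g2) sy0 uy (hF.u2.down (uw _ (by omega))) hT
  obtain ⟨B3, b3, c3⟩ := h1 q c u _ A Λ _ G G' T hn hE (hC.down (by omega) (by omega))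
    (szf (e := 6) le_rfl g1 σ) hF.sz hF.sz' hT
  have n1 : n - (n - 1) = 1 := by omega
  obtain ⟨L4, l4, d4⟩ := h2 q n u _ (n - 1) A Λ (sg 0 * P ^ 6 * br (G (n - 1)))
    (sg (σ + Λ.ω) * br (Λ.W 1)) 0 T (S0 Λ) _ _ hn hE (hC.down (by omega) (by omega))
    (.inr ⟨rfl, rfl, rfl⟩) (szf le_rfl ((sz_br _).trans g2) 0)
    (n1.symm ▸ (sz_sg_mul _ _).trans ((sz_br _).trans ((w1 1 (by omega)).trans
      (Nat.mul_le_mul_right _ (Nat.le_self_pow two_ne_zero u)))))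
    (n1.symm ▸ un_brW hE hq one_pos (by omega) (fun x hx => Ac.w1_one (S0_sub hx))
      (cw _ (by omega)) _) hT
  obtain ⟨B4, b4, c4⟩ := d4 L4 le_rfl l4
  obtain ⟨B5, L, b5, l5, c5⟩ := (hPRD q n c u a 1 A Λ (gb P (G 1) Λ.ω ω')
    (gb P (G (n - 1)) Λ.ω ω') T hn u0 hE hL.td
    (szf (by omega) ((sz_br _).trans (hF.sz 1 (by omega))) _)
    (szf (by omega) ((sz_br _).trans g2) _) hT).1 _ _ (.inl ⟨rfl, rfl, rfl⟩)
  refine ⟨L, l5.trans (Nat.pow_le_pow_right u0 (by omega)), fun L' hL' =>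
    ⟨B1 ∪ B2 ∪ B3 ∪ B4 ∪ B5, ?_, fun e he hB p1 p2 t ht => ?_⟩⟩
  · have k4 : u ^ 2 * #B4 ≤ q ^ n :=
      (Nat.mul_le_mul_right _ (Nat.pow_le_pow_right u0 (by omega))).trans b4
    have k5 : u ^ 2 * #B5 ≤ q ^ n :=
      (Nat.mul_le_mul_right _ (Nat.pow_le_pow_right u0 (by omega))).trans b5
    have k := Ac.mul_card_union (Ac.mul_card_union (Ac.mul_card_union (Ac.mul_card_union b1 b2) b3)
      k4) k5
    refine Nat.le_of_mul_le_mul_left ?_ u0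
    rw [← mul_assoc, ← sq]
    exact k.trans ((show _ = 5 * q ^ n by ring).trans_le
      (Nat.mul_le_mul_right _ (hS.le (by omega))))
  · simp only [mem_union, not_or] at hB
    obtain ⟨⟨⟨⟨f1, f2⟩, f3⟩, f4⟩, f5⟩ := hB
    rw [← c5 L' hL' e he f5 t ht, cid0_id hn hP hF.fa hF.pr, AddMonoidAlgebra.coeff_add,
      AddMonoidAlgebra.coeff_add, AddMonoidAlgebra.coeff_sub, Finsupp.add_apply, Finsupp.add_apply,
      Finsupp.sub_apply, c1 e he f1 p1 p2 t ht, c2 e he f2 p1 p2 t ht, c3 e he f3 t ht,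
      c4 e he f4 p1 t ht, show ka P z Λ.ω ω' = sg σ * P ^ 4 * z * z - sg σ * P ^ 4 * z * (P * 1) by
        rw [ka]; ring, AddMonoidAlgebra.coeff_sub, Finsupp.sub_apply, mul_zero]
    simp only [AddMonoidAlgebra.coeff_zero, Finsupp.coe_zero, Pi.zero_apply]
    ring

end

section

open Polynomial Finset
open Pool.Agent.P.MP_9344a7_nt.R
open Pool.Agent.P.MP_9344a7_nt.Hy
open Pool.Agent.P.MP_9344a7_nt.Od (GD Kp Fe)
open Pool.Agent.P.MP_9344a7_nt.Ac (Sb Pm Sp ED CD TD AD Sc Eg Dgs)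
open scoped Classical ComplexConjugate

lemma cstp_win {A : Type} [AddCommGroup A] {P z : ZA A} {u : ℕ} (hP : sz P ≤ u) (hz : sz z ≤ u)
    (h8 : 8 ≤ u) {L : Finset A} (hL : #L ≤ u) (ω ω' : A) :
    #(insert 0 (L ∪ (al P z ω).coeff.support ∪ (Dd P z ω ω').coeff.support ∪
      (ka P z ω ω').coeff.support)) ≤ u ^ 7 := by
  have m : ∀ {x y : ZA A} {a b : ℕ}, sz x ≤ a → sz y ≤ b → sz (x * y) ≤ a * b := fun h h' =>
    (sz_mul _ _).trans (Nat.mul_le_mul h h')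
  have p : ∀ {x : ZA A} (k : ℕ), sz x ≤ u → sz (x ^ k) ≤ u ^ k := fun k h =>
    (sz_pow _ _).trans (Nat.pow_le_pow_left h k)
  have h1 : sz (P * z - z ^ 2) ≤ u * u + u ^ 2 := (sz_sub _ _).trans (add_le_add (m hP hz) (p 2 hz))
  have h2 : sz (al P z ω) ≤ u ^ 2 * u := m ((sz_sg_mul _ _).trans (p 2 hP)) hz
  have h3 : sz (Dd P z ω ω') ≤ u * (u ^ 2 + (u * u + u ^ 2)) := m hP ((sz_add _ _).trans
    (add_le_add ((sz_sg_mul _ _).trans (p 2 hz)) ((sz_sg_mul _ _).trans h1)))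
  have h4 : sz (ka P z ω ω') ≤ u ^ 4 * (u * u + u ^ 2) :=
    (sz_neg _).trans_le (m ((sz_sg_mul _ _).trans (p 4 hP)) h1)
  have h5 : ∀ k ≤ 6, u ^ k ≤ u ^ 6 := fun k => Nat.pow_le_pow_right (by omega)
  refine (card_insert_le _ _).trans (le_trans (add_le_add ((card_union_le _ _).trans (add_le_add
    ((card_union_le _ _).trans (add_le_add ((card_union_le _ _).trans (add_le_add hL h2)) h3)) h4))
    le_rfl) ?_)
  calc _ = u ^ 0 + u ^ 1 + 4 * u ^ 3 + 2 * u ^ 6 := by ring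
    _ ≤ 8 * u ^ 6 := by linarith [h5 0 (by omega), h5 1 (by omega), h5 3 (by omega)]
    _ ≤ _ := (Nat.mul_le_mul_right _ h8).trans_eq (by ring)

theorem p_STP (hFTS : S_FTS) (hID0 : S_ID0) (hID1 : S_ID1) (hID2 : S_ID2) :
    S_STP := by
  intro c n a E hn
  obtain ⟨M, hM⟩ := hFTS c n (4 * E) hn
  obtain ⟨K0, h0⟩ := hID0 c n a 0 hn
  obtain ⟨K1, h1⟩ := hID1 c n a (4 * a + 2) hn
  obtain ⟨K2, h2⟩ := hID2 c n a (4 * a + 2) hn
  obtain ⟨e, he⟩ : ∃ e, e = 21 * ((4 * a + 2) * 3) := ⟨_, rfl⟩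
  obtain ⟨K, hK⟩ : ∃ K, K = K0 + K1 + K2 + 4 := ⟨_, rfl⟩
  have e0 : 0 < e := by omega
  refine ⟨e * (4 * a + 2), M, e * K + 21 * K + (4 * E + c + 8 + M), Nat.mul_pos e0 (by omega), ?_⟩
  intro q u w A A' _ _ _ _ Λ Λ' χ P z G G' H j L hS hE hC hG hF hP hL
  have sc := hS.sc
  have h8 : 8 ≤ u := sc.le (by omega)
  have up : ∀ {m : ℕ}, 0 < m → u ≤ u ^ m := fun h => Nat.le_self_pow h.ne' u
  have lv : ∀ {m K' : ℕ}, 0 < m → m * K ≤ e * K + 21 * K → K' ≤ K → Lv Λ (u ^ m) w a K' :=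
    fun m0 h h' => ((hS.pow m0 (h.trans (by omega)) (by omega)).lv (by omega)).down h' (by omega)
  have three : ∀ {v x y z : ℕ}, u ≤ v → x ≤ v → y ≤ v ^ (4 * a + 1) → z ≤ v ^ (4 * a + 1) →
      x + y + z ≤ v ^ (4 * a + 2) := fun {v x y z} hv hx hy hz => by
    have := Nat.le_self_pow (n := 4 * a + 1) (by omega) v
    calc _ ≤ 3 * v ^ (4 * a + 1) := by omega
      _ ≤ v * v ^ (4 * a + 1) := Nat.mul_le_mul_right _ (by omega)
      _ = _ := by ring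
  have w0 := cstp_win (hF.kp.sz.trans (by simpa using sc.om1 (x := 1) (by omega) (by omega)))
    hF.szc h8 hL Λ.ω (j Λ'.ω)
  set X0 := insert 0 (L ∪ (al P z Λ.ω).coeff.support ∪ (Dd P z Λ.ω (j Λ'.ω)).coeff.support ∪
      (ka P z Λ.ω (j Λ'.ω)).coeff.support) with hX
  obtain ⟨T0, c0, t0⟩ := cl_ex X0
  have t1 : #T0 ≤ u ^ 21 := t0.trans ((Nat.pow_le_pow_left w0 3).trans_eq (by ring))
  obtain ⟨L1, a1, a2⟩ := h0 q (u ^ 21) w A Λ χ P z G G' (j Λ'.ω) T0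
    (lv (by omega) (by omega) (by omega)) hE (hF.up (up (by omega)) le_rfl) t1
  obtain ⟨B0, a3, a4⟩ := a2 (T0 ∪ L1) subset_union_right
  obtain ⟨T1, c1, t2⟩ := cl_ex (T0 ∪ L1)
  have t3 : #T1 ≤ u ^ e := by
    rw [he, pow_mul, pow_mul]
    exact t2.trans (Nat.pow_le_pow_left ((card_union_le _ _).trans
      (three (z := 0) (up (by omega)) t1 a1 (Nat.zero_le _))) 3)
  have sV : Sz (Ej Λ' j) q n (u ^ e) := (sz_Ej hG j).up ((sc.le (by omega)).trans (up e0))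
  obtain ⟨L2, b1, b2⟩ := h1 q (u ^ e) w A Λ χ P z G G' H _ _ T1 (lv e0 (by omega) (by omega)) hE
    (hF.up (up e0) le_rfl) hP.pr (hP.sz.up (up e0)) sV t3
  obtain ⟨L3, d1, d2⟩ := h2 q (u ^ e) w A Λ χ P z G G' H _ _ T1 (lv e0 (by omega) (by omega)) hE
    (hF.up (up e0) le_rfl) hP.pr (hP.sz.up (up e0)) sV t3
  have t4 : #(L ∪ L2 ∪ L3) ≤ (u ^ e) ^ (4 * a + 2) := (card_union_le _ _).trans
    ((add_le_add (card_union_le _ _) le_rfl).trans (three (up e0) (hL.trans (up e0)) b1 d1))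
  obtain ⟨B1, b3, b4⟩ := b2 _ (subset_union_right.trans subset_union_left) t4
  obtain ⟨B2, d3, d4⟩ := d2 _ subset_union_right t4
  obtain ⟨-, -, f⟩ := hM q A Λ (sc.leq (by omega) (by omega)) hE hC
  have dn : ∀ {m : ℕ} {B : Finset (A × A)}, 0 < m → u ^ m * #B ≤ q ^ n → 4 * E * #B ≤ q ^ n :=
    fun m0 h => (Nat.mul_le_mul_right _ ((sc.le (by omega)).trans (up m0))).trans h
  have z0 : (0 : A) ∈ X0 := mem_insert_self _ _
  refine ⟨L ∪ L2 ∪ L3, subset_union_left.trans subset_union_left, (pow_mul u e _).symm ▸ t4, X0, T0,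
    T0 ∪ L1, T1, B0 ∪ B1 ∪ B2 ∪ {e ∈ Es Λ | ¬ (e.1 ∈ S0 Λ ∧ e.2 ∈ V0 Λ)},
    ⟨z0, fun x h => ?_, fun x h => ?_, fun x h => ?_, fun x h => ?_, c0, subset_union_left, c1⟩,
    ?_, fun x hx hB => ?_⟩
  iterate 4 simp only [hX, mem_insert, mem_union, h, true_or, or_true]
  · have := Ac.mul_card_union (Ac.mul_card_union (Ac.mul_card_union (dn (by omega) a3) (dn e0 b3))
      (dn e0 d3)) f
    rw [mul_assoc] at this
    omega
  · simp only [mem_union, mem_filter, not_or, hx, true_and, not_not] at hB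
    obtain ⟨⟨⟨n0, n1⟩, n2⟩, s1, s2⟩ := hB
    exact ⟨br_Ej (Λ' := Λ') j 1 ▸ b4 x hx n1 s1 s2, br_Ej (Λ' := Λ') j (n - 1) ▸ d4 x hx n2 s1 s2,
      a4 x hx n0 s1 s2⟩

end

end Pool.Agent.P.MP_9344a7_nt.Cy
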