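import Pool.Agent.P.MP_9344a7_nt.Cy.IfaceA

/-! Steps LUA, CHN, EXC, LUC, MID. -/

set_option linter.unusedVariables false
set_option linter.unusedSectionVars false

namespace Pool.Agent.P.MP_9344a7_nt.Cy

section

open Polynomial Finset
open Pool.Agent.P.MP_9344a7_nt.R
open Pool.Agent.P.MP_9344a7_nt.Hy
open Pool.Agent.P.MP_9344a7_nt.Od (GD Kp Fe)
open Pool.Agent.P.MP_9344a7_nt.Ac (Sb Pm Sp ED CD TD AD Sc Eg Dgs)
open scoped Classical ComplexConjugate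

theorem p_LUA (hSPLT : S_SPLT) (hPER : S_PER) :
    S_LUA := by
  intro A _ _ χ α D κ g1 g2 L X0 T0 X1 T1 S V G a b ε ε' η η' hχ hα hκ hz W hM hV hS hV' hE0
  have hE : ∀ p r, (p, r) ∈ G → Ed α D κ g1 g2 T0 X1 T1 (ε p) (ε' p) (η r) (η' r) p r :=
    fun p r h => hE0 _ h
  have x0 : X0 ⊆ T0 := W.c0.sub W.z
  have x1 : X0 ⊆ X1 := x0.trans W.s1
  have t1 : X1 ⊆ T1 := W.c1.sub (x1 W.z)
  have n0 : ∀ x, χ x ≠ 0 := fun x e => by simpa [e] using χ.norm_apply x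
  have sp : ∀ y, Sgl y L → ∀ t, (α * y - D).coeff t ≠ 0 → ∃ s ∈ X0, ∃ s' ∈ X0, t = s + s' :=
    fun y hy t ht => by
      by_cases e : D.coeff t = 0
      · rw [AddMonoidAlgebra.coeff_sub, Finsupp.sub_apply, e, sub_zero] at ht
        rcases hy with rfl | ⟨s, hs, rfl⟩
        · simp at ht
        · rw [mul_comm, coeff_sg_mul] at ht
          exact ⟨_, W.sα (Finsupp.mem_support_iff.2 ht), s, W.l hs, (sub_add_cancel _ _).symm⟩
      · exact ⟨t, W.sD (Finsupp.mem_support_iff.2 e), 0, W.z, (add_zero t).symm⟩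
  have A0 : ∀ y, Sgl y L → (∀ t ∈ T1, (α * y - D).coeff t = 0) → α * y - D = 0 :=
    fun y hy h => za_eq fun t => by
      by_contra e
      obtain ⟨s, hs, s', hs', rfl⟩ := sp y hy t e
      exact e (h _ (t1 (W.s1 (by simpa using W.c0 s hs s' hs' 0 W.z))))
  have A1 : ∀ p r, (p, r) ∈ G → r ∈ V → ε' p = 0 → α * η r - D = 0 := fun p r he h2 h0 =>
    A0 _ (hV' _ h2).1 fun t ht => by rw [(hE p r he).i1 t ht, h0, zero_mul]; rfl
  have A2 : ∀ p r, (p, r) ∈ G → p ∈ S → η' r = 0 → α * ε p - D = 0 := fun p r he h2 h0 =>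
    A0 _ (hS _ h2).1 fun t ht => by rw [(hE p r he).i2 t ht, h0, zero_mul]; rfl
  have B2 : ev χ κ ≠ 0 → ∀ p r, (p, r) ∈ G → p ∈ S → α * η r - D = 0 → ε' p = 0 :=
      fun hk p r he h1 h0 => by
    refine (hS _ h1).2.1.resolve_right fun ⟨s, hs, h2⟩ => hk ?_
    rw [za_eq (y := κ) (z := 0) fun t => ?_, map_zero]
    by_contra e1
    have ht := x0 (W.sκ (Finsupp.mem_support_iff.2 e1))
    refine e1 (((hE p r he).i0 t ht).trans ?_)
    rw [coeff_pat_mul]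
    refine sum_eq_zero fun s' hs' => ?_
    have := (hE p r he).i1 _ (W.c1 t (W.s1 ht) s (x1 (W.l hs)) s' hs')
    rw [h0, h2, coeff_sg_mul, show t + s - s' - s = t - s' by abel] at this
    rw [← this]
    exact mul_zero _
  have B2' : ev χ κ ≠ 0 → ∀ p r, (p, r) ∈ G → r ∈ V → α * ε p - D = 0 → η' r = 0 :=
    fun hk p r he h1 h0 => by
      refine (hV' _ h1).2.1.resolve_right fun ⟨s, hs, h2⟩ => hk ?_
      rw [za_eq (y := κ) (z := 0) fun t => ?_, map_zero]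
      by_contra e1
      refine e1 (((hE p r he).i0 t (x0 (W.sκ (Finsupp.mem_support_iff.2 e1)))).trans ?_)
      rw [pat_eq_zero.2 fun s' hs' => ?_, zero_mul]
      have := (hE p r he).i2 _ (W.c1 s' hs' s (x1 (W.l hs)) 0 (x1 W.z))
      rw [h0, h2, coeff_sg_mul, sub_zero, add_sub_cancel_right, coeff_loc] at this
      exact this.symm
  have SP : ∀ (f : A → ZA A) (U : Finset A), U ⊆ V → 2 * b < #U →
      (∀ r ∈ U, ∀ p ∈ S, ∀ p' ∈ S, (p, r) ∈ G → (p', r) ∈ G → f p = f p') →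
      ∃ y, #{p ∈ S | f p ≠ y} ≤ 3 * a := fun f U h1 h2 h3 =>
    (hSPLT A A (ZA A) S S V U G a b f hM Subset.rfl h1 h2 h3).imp fun y h =>
      (card_le_card fun p hp => by simpa only [mem_filter] using hp).trans h
  have MS : ∀ (U' : Finset A) (Q : A → Prop) [DecidablePred Q], U' ⊆ V → b < #U' →
      (∀ p r, (p, r) ∈ G → p ∈ S → r ∈ U' → ¬ Q p) → #{p ∈ S | Q p} ≤ a := fun U' Q _ h1 h2 h => by
    by_contra! e
    obtain ⟨e, he, h3, h4⟩ := hM _ (filter_subset _ _) U' h1 e h2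
    exact h e.1 e.2 he (mem_filter.1 h3).1 h4 (mem_filter.1 h3).2
  have fin : ∀ f : A → ZA A, (∀ p ∈ S, Sgl (f p) L) → #{p ∈ S | f p = 0} ≤ a →
      (∃ y, #{p ∈ S | f p ≠ y} ≤ 3 * a) → ∃ t, #{p ∈ S | f p ≠ sg t} ≤ 4 * a :=
    fun f h1 h2 ⟨y, h3⟩ => by
      by_cases e : ∃ t, y = sg t
      · obtain ⟨t, rfl⟩ := e
        exact ⟨t, by omega⟩
      refine ⟨0, le_trans (card_le_card (t := {p ∈ S | f p = 0} ∪ {p ∈ S | f p ≠ y}) fun p hp => ?_)
        ((card_union_le _ _).trans (by omega))⟩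
      have h4 := (mem_filter.1 hp).1
      rcases h1 p h4 with h | ⟨t, -, h⟩
      · exact mem_union_left _ (mem_filter.2 ⟨h4, h⟩)
      · exact mem_union_right _ (mem_filter.2 ⟨h4, fun h5 => e ⟨t, h5 ▸ h⟩⟩)
  rcases lt_or_ge (2 * b) #{r ∈ V | α * η r - D ≠ 0} with c1 | c1
  · refine .inr (.inl (fin ε' (fun p hp => (hS p hp).2.1) (MS _ _ (filter_subset _ _)
      (lt_of_le_of_lt (by omega) c1) fun p r he _ h2 h0 =>
        (mem_filter.1 h2).2 (A1 p r he (mem_filter.1 h2).1 h0))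
      (SP ε' _ (filter_subset _ _) c1
        fun r hr p hp p' hp' h1 h2 => ?_)))
    obtain ⟨r1, r2⟩ := mem_filter.1 hr
    obtain ⟨s, hs, e1⟩ := (hS p hp).2.1.resolve_left fun h => r2 (A1 p r h1 r1 h)
    obtain ⟨s', hs', e2⟩ := (hS p' hp').2.1.resolve_left fun h => r2 (A1 p' r h2 r1 h)
    rw [e1, e2, hPER A χ (α * η r - D) (loc g2 r).coeff T1 s s' hχ (fun h => r2 (hz _ h))
      (fun t ht => ?_) fun t ht => ⟨?_, ?_⟩]
    · obtain ⟨x, hx, y, hy, rfl⟩ := sp _ (hV' r r1).1 t ht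
      have := W.s1 (show x + y ∈ T0 by simpa using W.c0 x hx y hy 0 W.z)
      exact ⟨t1 this, W.c1 _ this _ (x1 (W.l hs)) _ (x1 (W.l hs')),
        W.c1 _ this _ (x1 (W.l hs')) _ (x1 (W.l hs))⟩
    · rw [(hE p r h1).i1 t ht, e1, coeff_sg_mul]
    · rw [(hE p' r h2).i1 t ht, e2, coeff_sg_mul]
  have c2 : #{r ∈ V | α * η r - D = 0} + #{r ∈ V | α * η r - D ≠ 0} = #V :=
    card_filter_add_card_filter_not _
  have z0 : ∀ y, Sgl y L → α * y = 0 → y = 0 := fun y hy h => hy.resolve_right fun ⟨s, _, e⟩ => by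
    have := congrArg (ev χ) h
    rw [e, map_mul, ev_sg, map_zero] at this
    exact mul_ne_zero hα (n0 s) this
  rcases le_or_gt #{p ∈ S | α * ε p - D ≠ 0} a with c3 | c3
  · by_cases hD : D = 0
    · refine .inr (.inr ⟨hD, le_trans (card_le_card
        (t := {p ∈ S | α * ε p - D ≠ 0} ∪ {p ∈ S | ε' p ≠ 0}) fun p hp => ?_)
        ((card_union_le _ _).trans ?_), le_trans (card_le_card fun r hr => ?_) c1⟩)
      · obtain ⟨h1, h2 | h2⟩ := mem_filter.1 hp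
        · exact mem_union_left _ (mem_filter.2 ⟨h1, fun h => h2 (z0 _ (hS p h1).1 (by simpa [hD] using h))⟩)
        · exact mem_union_right _ (mem_filter.2 ⟨h1, h2⟩)
      · have := MS {r ∈ V | α * η r - D = 0} (fun p => ε' p ≠ 0) (filter_subset _ _) (by omega)
          fun p r he h1 h2 h0 => h0 (B2 (hκ hD) p r he h1 (mem_filter.1 h2).2)
        omega
      · obtain ⟨h1, h2⟩ := mem_filter.1 hr
        exact mem_filter.2 ⟨h1, fun h => h2 (z0 _ (hV' r h1).1 (by simpa [hD] using h))⟩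
    have sg1 : ∀ p ∈ S, α * ε p - D = 0 → ∃ t, ε p = sg t ∧ ev χ α * χ t = ev χ D :=
      fun p hp h => by
        obtain ⟨t, -, e⟩ := (hS p hp).1.resolve_left fun e => hD (by simpa [e] using h)
        exact ⟨t, e, by rw [← sub_eq_zero.1 h, e, map_mul, ev_sg]⟩
    by_cases e : ∃ t, ev χ α * χ t = ev χ D
    · obtain ⟨t, e⟩ := e
      refine .inl ⟨t, le_trans (card_le_card fun p hp => ?_) (c3.trans (by omega))⟩
      refine mem_filter.2 ⟨(mem_filter.1 hp).1, fun h => (mem_filter.1 hp).2 ?_⟩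
      obtain ⟨t', e1, e2⟩ := sg1 p (mem_filter.1 hp).1 h
      rw [e1, mem_Fa.1 hχ (mul_left_cancel₀ hα (e2.trans e.symm))]
    · refine .inl ⟨0, le_trans (card_le_card fun p hp => ?_) (c3.trans (by omega))⟩
      exact mem_filter.2 ⟨(mem_filter.1 hp).1,
        fun h => e ((sg1 p (mem_filter.1 hp).1 h).imp fun _ h => h.2)⟩
  have c4 : #{r ∈ V | η' r = 0} ≤ b := by
    by_contra! e
    obtain ⟨e, he, h3, h4⟩ := hM _ (filter_subset _ _) _ (filter_subset _ _) c3 e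
    exact (mem_filter.1 h3).2 (A2 e.1 e.2 he (mem_filter.1 h3).1 (mem_filter.1 h4).2)
  have c5 : #{r ∈ V | η' r = 0} + #{r ∈ V | η' r ≠ 0} = #V := card_filter_add_card_filter_not _
  have c6 : 2 * b < #{r ∈ V | η' r ≠ 0} := by omega
  have hD : D = 0 := by
    obtain ⟨r, h1, h2⟩ := exists_mem_notMem_of_card_lt_card (c1.trans_lt c6)
    obtain ⟨h3, h4⟩ := mem_filter.1 h1
    by_contra e
    exact h2 (mem_filter.2 ⟨h3, by simpa [(hV' r h3).2.2.resolve_right h4] using e⟩)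
  have c7 : ∀ p r, (p, r) ∈ G → r ∈ {r ∈ V | η' r ≠ 0} → ε p ≠ 0 := fun p r he h1 h0 =>
    (mem_filter.1 h1).2 (B2' (hκ hD) p r he (mem_filter.1 h1).1 (by rw [h0, hD, mul_zero, sub_zero]))
  refine .inl (fin ε (fun p hp => (hS p hp).1) (MS _ _ (filter_subset _ _)
    (lt_of_le_of_lt (by omega) c6) fun p r he _ h2 => c7 p r he h2)
    (SP ε _ (filter_subset _ _) c6
      fun r hr p hp p' hp' h1 h2 => ?_))
  obtain ⟨s0, hs0, e0⟩ := (hV' r (mem_filter.1 hr).1).2.1.resolve_left (mem_filter.1 hr).2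
  have key : ∀ p, (p, r) ∈ G → ∀ s ∈ L, ε p = sg s → ∀ t ∈ T0,
      κ.coeff t = (sg (-s0) * α * loc g2 r).coeff (t - s) := fun p h s hs e t ht => by
    have : pat g1 p X1 = sg s * (sg (-s0) * α) := za_eq fun y => by
      rw [coeff_pat, coeff_sg_mul, coeff_sg_mul]
      split_ifs with hy
      · have := (hE p r h).i2 _ (W.c1 y hy s0 (x1 (W.l hs0)) 0 (x1 W.z))
        simp only [e, e0, hD, sub_zero] at this
        rw [coeff_sg_mul, add_sub_cancel_right, coeff_loc, mul_comm, coeff_sg_mul] at this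
        rw [← this]
        congr 1
        abel
      · by_contra e1
        have := W.s1 (W.c0 _ (W.sα (Finsupp.mem_support_iff.2 (Ne.symm e1))) s (W.l hs) s0 (W.l hs0))
        exact hy (by rwa [show y - s - -s0 + s - s0 = y by abel] at this)
    rw [(hE p r h).i0 t ht, this, mul_assoc, coeff_sg_mul]
  obtain ⟨s, hs, e1⟩ := (hS p hp).1.resolve_left (c7 p r h1 hr)
  obtain ⟨s', hs', e2⟩ := (hS p' hp').1.resolve_left (c7 p' r h2 hr)
  rw [e1, e2, hPER A χ κ _ T0 s s' hχ (hκ hD) (fun t ht => ?_)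
    fun t ht => ⟨key p h1 s hs e1 t ht, key p' h2 s' hs' e2 t ht⟩]
  have := W.sκ (Finsupp.mem_support_iff.2 ht)
  exact ⟨x0 this, W.c0 _ this _ (W.l hs) _ (W.l hs'), W.c0 _ this _ (W.l hs') _ (W.l hs)⟩

end

section

open Polynomial Finset
open Pool.Agent.P.MP_9344a7_nt.R
open Pool.Agent.P.MP_9344a7_nt.Hy
open Pool.Agent.P.MP_9344a7_nt.Od (GD Kp Fe)
open Pool.Agent.P.MP_9344a7_nt.Ac (Sb Pm Sp ED CD TD AD Sc Eg Dgs)
open scoped Classical ComplexConjugate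

theorem p_CHN :
    S_CHN := by
  intro α Φ R s m B L0 hm hB h0 h
  by_contra! hc
  have key : ∀ i ≤ m, ∃ L, L0 ⊆ L ∧ #L ≤ s i ∧ i * (B + 1) ≤ m * Φ L := by
    intro i
    induction i with
    | zero => exact fun _ => ⟨L0, Subset.rfl, h0, by simp⟩
    | succ i ih =>
      intro hi
      obtain ⟨L, a1, a2, a3⟩ := ih (by omega)
      obtain ⟨L', b1, b2, b3⟩ := h i hi L a2
      have := hc i hi L L' a1 b1 b2 b3
      exact ⟨L', a1.trans b1, b2, by rw [add_mul, one_mul]; omega⟩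
  obtain ⟨L, -, -, a⟩ := key m le_rfl
  have := Nat.le_of_mul_le_mul_left a hm
  have := hB L
  omega

end

section

open Polynomial Finset
open Pool.Agent.P.MP_9344a7_nt.R
open Pool.Agent.P.MP_9344a7_nt.Hy
open Pool.Agent.P.MP_9344a7_nt.Od (GD Kp Fe)
open Pool.Agent.P.MP_9344a7_nt.Ac (Sb Pm Sp ED CD TD AD Sc Eg Dgs)
open scoped Classical ComplexConjugate

theorem p_EXC :
    S_EXC := by
  intro q n c k A A' _ _ _ _ Λ' j L hE hj k0 kn
  have hI : #(({σ | j σ ∈ image₂ (· - ·) L L} : Finset A') ×ˢ L) ≤ 12 * #L ^ 3 := by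
    rw [card_product]
    refine (Nat.mul_le_mul_right _ ((card_pre hj _).trans
      (Nat.mul_le_mul_left _ (card_image₂_le _ _ _)))).trans_eq (by ring)
  have h := Ac.mul_card_biUnion (u := q) (y := c * q ^ k) (Z := fun e : A' × A =>
    image (fun y => j y - e.2)
      ({b | (Λ'.W k).coeff b ≠ 0 ∧ (Λ'.W k).coeff (e.1 - b) ≠ 0} : Finset A')) hI fun e _ =>
    (Nat.mul_le_mul_left _ card_image_le).trans (hE.clf' k0 kn e.1)
  refine le_trans (Nat.mul_le_mul_left _ (card_le_card fun x hx => ?_)) (h.trans_eq (by ring))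
  obtain ⟨h1, h2⟩ := (mem_filter.1 hx).2
  simp only [Fr, not_forall] at h1 h2
  obtain ⟨s, hs, h1⟩ := h1
  obtain ⟨t, ht, h2⟩ := h2
  obtain ⟨y, e1, a1⟩ := Ej_ne.1 h1
  obtain ⟨y', e2, a2⟩ := Ej_ne.1 h2
  rw [AddMonoidHom.neg_apply, neg_eq_iff_eq_neg] at e2
  refine mem_biUnion.2 ⟨(y + y', s), mem_product.2 ⟨mem_filter.2 ⟨mem_univ _, ?_⟩, hs⟩,
    mem_image.2 ⟨y, mem_filter.2 ⟨mem_univ _, a1, ?_⟩, ?_⟩⟩
  · refine mem_image₂.2 ⟨s, hs, t, ht, ?_⟩
    rw [map_add, e1, e2]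
    abel
  · rwa [add_sub_cancel_left]
  · rw [e1, add_sub_cancel_right]

end

section

open Polynomial Finset
open Pool.Agent.P.MP_9344a7_nt.R
open Pool.Agent.P.MP_9344a7_nt.Hy
open Pool.Agent.P.MP_9344a7_nt.Od (GD Kp Fe)
open Pool.Agent.P.MP_9344a7_nt.Ac (Sb Pm Sp ED CD TD AD Sc Eg Dgs)
open scoped Classical ComplexConjugate

/-- The number of points that are not free. -/
noncomputable def cluc_N {q n : ℕ} {A A' : Type} [AddCommGroup A] [Fintype A] [AddCommGroup A']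
    [Fintype A'] (Λ' : LD q n A') (j : A' →+ A) (k : ℕ) (X L : Finset A) : ℕ :=
  #{x ∈ X | ¬ Fr (Ej Λ' j k) x L} + #{x ∈ X | ¬ Fr (Ej Λ' (-j) k) x L}

lemma cluc_le {q n : ℕ} {A A' : Type} [AddCommGroup A] [Fintype A] [AddCommGroup A']
    [Fintype A'] (Λ' : LD q n A') (j : A' →+ A) (k : ℕ) (X L : Finset A) :
    cluc_N Λ' j k X L ≤ 2 * #X :=
  (add_le_add (card_filter_le _ _) (card_filter_le _ _)).trans_eq (two_mul _).symm

lemma cluc_num {E C m x a a' t q Y : ℕ} (hq : 0 < q) (hC : 0 < C) (h0 : a ≤ a')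
    (h1 : q * (x + a) ≤ q * a' + t * Y) (hm : 2 * E * C ≤ m) (h2 : m * a' ≤ m * a + C * Y)
    (ht : 2 * E * t ≤ q) : E * x ≤ Y := by
  obtain ⟨d, rfl⟩ := Nat.exists_eq_add_of_le h0
  have h3 : 2 * E * d ≤ Y := Nat.le_of_mul_le_mul_left (c := C) (by
    have := Nat.mul_le_mul_right d hm
    rw [mul_add] at h2
    rw [← mul_assoc, mul_comm C]
    omega) hC
  have h4 : q * x ≤ q * d + t * Y := by
    rw [mul_add, mul_add] at h1
    omega
  refine Nat.le_of_mul_le_mul_left (c := 2 * q) ?_ (by omega)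
  calc 2 * q * (E * x) = 2 * E * (q * x) := by ring
    _ ≤ 2 * E * (q * d + t * Y) := Nat.mul_le_mul_left _ h4
    _ = q * (2 * E * d) + 2 * E * t * Y := by ring
    _ ≤ q * Y + q * Y := add_le_add (Nat.mul_le_mul_left _ h3) (Nat.mul_le_mul_right _ ht)
    _ = _ := by ring

lemma cluc_key (hSGL : S_SGL) (hEXC : S_EXC) {q n c k : ℕ} {A A' : Type} [AddCommGroup A]
    [Fintype A] [AddCommGroup A'] [Fintype A'] {Λ' : LD q n A'} {j : A' →+ A} (k0 : 0 < k)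
    (kn : k < n) (dd : DD Λ' c) (ker : Nat.card j.ker ≤ 12) {L L' : Finset A} (hL : L ⊆ L')
    (X : Finset A) : ∃ S ⊆ X, cluc_N Λ' j k X L ≤ cluc_N Λ' j k X L' ∧
      q * (#(X \ S) + cluc_N Λ' j k X L) ≤ q * cluc_N Λ' j k X L' + 38 * c * #L' ^ 3 * q ^ k ∧
      ∀ p ∈ S, Sgl (pat (Ej Λ' j k) p L') L ∧ Sgl (pat (Ej Λ' (-j) k) p L') L ∧
        (ED Λ' c → Fr (Ej Λ' j k) p L' ∨ Fr (Ej Λ' (-j) k) p L') := by
  obtain ⟨Z, z1, z2⟩ : ∃ Z : Finset A, q * #Z ≤ 12 * c * #L' ^ 3 * q ^ k ∧ ∀ p ∉ Z,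
      ED Λ' c → Fr (Ej Λ' j k) p L' ∨ Fr (Ej Λ' (-j) k) p L' := by
    by_cases ed : ED Λ' c
    · refine ⟨_, hEXC q n c k A A' Λ' j L' ed ker k0 kn, fun p hp _ => ?_⟩
      by_contra e
      exact hp (mem_filter.2 ⟨mem_univ _, not_or.1 e⟩)
    · exact ⟨∅, by simp, fun _ _ e => absurd e ed⟩
  have sub : ∀ i : A' →+ A, ({x ∈ X | ¬ Fr (Ej Λ' i k) x L} : Finset A) ⊆
      {x ∈ X | ¬ Fr (Ej Λ' i k) x L'} := fun i x hx =>
    mem_filter.2 ⟨(mem_filter.1 hx).1, fun e => (mem_filter.1 hx).2 (e.mono hL)⟩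
  have g1 := hSGL q n c k A A' Λ' j L' dd ker kn.le
  have g2 := hSGL q n c k A A' Λ' (-j) L' dd (ker_neg j ▸ ker) kn.le
  have c1 := card_sdiff_add_card_eq_card (sub j)
  have c2 := card_sdiff_add_card_eq_card (sub (-j))
  refine ⟨X.filter _, filter_subset _ _, add_le_add (card_le_card (sub _)) (card_le_card (sub _)),
    ?_, fun p hp => (mem_filter.1 hp).2⟩
  have tot := Ac.mul_card_union (Ac.mul_card_union (Ac.mul_card_union g1 g2) z1)
    (Ac.mul_card_union (le_refl (q * #({x ∈ X | ¬ Fr (Ej Λ' j k) x L'} \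
      {x ∈ X | ¬ Fr (Ej Λ' j k) x L}))) (le_refl (q * #({x ∈ X | ¬ Fr (Ej Λ' (-j) k) x L'} \
        {x ∈ X | ¬ Fr (Ej Λ' (-j) k) x L}))))
  rw [mul_add]
  refine (Nat.add_le_add_right ((Nat.mul_le_mul_left _ (card_le_card fun p hp => ?_)).trans tot)
    _).trans_eq ?_
  · obtain ⟨p1, p2⟩ := mem_sdiff.1 hp
    by_contra e
    simp only [mem_union, mem_sdiff, mem_filter, mem_univ, p1, true_and, not_or, not_not, not_and]
      at e
    refine p2 (mem_filter.2 ⟨p1, e.1.1.1.close hL fun h => ?_, e.1.1.2.close hL fun h => ?_,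
      z2 p e.1.2⟩)
    · exact not_not.1 fun h' => e.2.1 h' h
    · exact not_not.1 fun h' => e.2.2 h' h
  · rw [cluc_N, cluc_N, ← c1, ← c2]
    ring

theorem p_LUC (hCHN : S_CHN) (hSGL : S_SGL) (hEXC : S_EXC) :
    S_LUC := by
  intro c n E hn
  refine ⟨2 * E * (4 + 2 * c) + 1, 76 * E * c + 4, Nat.succ_pos _,
    fun q v A A' _ _ _ _ Λ Λ' j s R L0 hK hq gd dd ker h0 hs hR => ?_⟩
  have v4 : v ^ 4 ≤ q := (Nat.pow_le_pow_right (by omega) (by omega)).trans hq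
  have q4 : 4 ≤ q := le_trans (by omega) ((Nat.le_self_pow (by omega) v).trans v4)
  have en : q ^ (n - 1) = q ^ (n - 2) * q ^ 1 := by
    rw [← pow_add]
    congr 1
    omega
  obtain ⟨i, hi, L, L', a1, a2, a3, a4, a5⟩ := hCHN A (fun L => q ^ (n - 2) *
    cluc_N Λ' j 1 Λ.S L + cluc_N Λ' j (n - 1) (Pi Λ (n - 1)) L) R s _ ((4 + 2 * c) * q ^ (n - 1))
    L0 (Nat.succ_pos _) (fun L => by
      have b1 := Nat.mul_le_mul_left (q ^ (n - 2)) ((cluc_le Λ' j 1 Λ.S L).trans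
        (Nat.mul_le_mul_left 2 (Ac.card_S Λ q4)))
      have b2 := (cluc_le Λ' j (n - 1) (Pi Λ (n - 1)) L).trans
        (Nat.mul_le_mul_left 2 (card_Pi gd (Nat.sub_le n 1)))
      refine (add_le_add b1 b2).trans_eq ?_
      rw [en]
      ring) h0 hR
  have ht : 2 * E * (38 * c * #L' ^ 3) ≤ q :=
    calc _ = 76 * E * c * #L' ^ 3 := by ring
      _ ≤ v * v ^ 3 := Nat.mul_le_mul (by omega) (Nat.pow_le_pow_left (a3.trans (hs _ hi)) 3)
      _ = v ^ 4 := by ring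
      _ ≤ q := v4
  obtain ⟨S, s1, s2, s3, s4⟩ := cluc_key hSGL hEXC one_pos (by omega) dd ker a2 Λ.S
  obtain ⟨V, v1, v2, v3, v4⟩ := cluc_key hSGL hEXC (k := n - 1) (by omega) (by omega) dd ker a2
    (Pi Λ (n - 1))
  have m1 := Nat.mul_le_mul_left ((2 * E * (4 + 2 * c) + 1) * q ^ (n - 2)) s2
  have m2 := Nat.mul_le_mul_left (2 * E * (4 + 2 * c) + 1) v2
  simp only [mul_add (2 * E * (4 + 2 * c) + 1), ← mul_assoc] at a5
  refine ⟨L, L', S, V, a1, a2, a4, s1, v1, ?_, cluc_num (C := 4 + 2 * c) (by omega) (by omega) v2 v3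
    (Nat.le_add_right _ 1) (by omega) ht, s4, v4⟩
  refine (cluc_num (C := 4 + 2 * c) (by omega) (by omega) s2 s3 (Nat.le_add_right _ 1)
    (Nat.le_of_mul_le_mul_left (c := q ^ (n - 2)) ?_ (Nat.pow_pos (by omega))) ht).trans_eq
      (pow_one q)
  rw [mul_add (q ^ (n - 2)), mul_left_comm _ (4 + 2 * c), ← en, ← mul_assoc, ← mul_assoc,
    mul_comm (q ^ (n - 2))]
  omega

end

section

open Polynomial Finset
open Pool.Agent.P.MP_9344a7_nt.R
open Pool.Agent.P.MP_9344a7_nt.Hy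
open Pool.Agent.P.MP_9344a7_nt.Od (GD Kp Fe)
open Pool.Agent.P.MP_9344a7_nt.Ac (Sb Pm Sp ED CD TD AD Sc Eg Dgs)
open scoped Classical ComplexConjugate

theorem p_MID (hCUM : S_CUM) (hPRD : S_PRD) (hPH : S_PH) (hPU : S_PU) :
    S_MID := by
  intro c n a hn
  obtain ⟨K1, h1⟩ := hCUM n a
  obtain ⟨K2, h2⟩ := hPU c a
  refine ⟨K1 + K2 + n + 5, fun q u w A _ _ Λ χ P z G G' H V ω' T lv ed fd pr sH sV hT => ?_⟩
  have sc := lv.sc
  have u5 : n + 5 ≤ u := sc.le (by omega)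
  have u0 : 0 < u := by omega
  have uu : u ≤ u ^ 2 := Nat.le_self_pow (by omega) u
  have o2 : om A ^ 2 ≤ u := (one_mul _).symm.trans_le (sc.om (by omega) (by omega))
  have o1 : om A ≤ u := (Nat.le_self_pow (by omega) _).trans o2
  have sP : ∀ k ≤ n, sz (P * G k) ≤ u ^ 2 * q ^ k := fun k hk => (sz_mul _ _).trans
    ((Nat.mul_le_mul (fd.kp.sz.trans o1) (fd.sz k hk)).trans_eq (by ring))
  have sP2 : ∀ k ≤ n, sz (P ^ 2 * G k) ≤ u ^ 2 * q ^ k := fun k hk => (sz_mul _ _).trans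
    ((Nat.mul_le_mul ((sz_pow P 2).trans ((Nat.pow_le_pow_left fd.kp.sz 2).trans o2))
      (fd.sz k hk)).trans_eq (by ring))
  have n1 : n - (n - 1) = 1 := by omega
  obtain ⟨B1, L1, a1, a2, a3⟩ := (hPRD q n c u a (n - 1) A Λ (V (n - 1)) (P ^ 2 * G 1) T hn u0 ed
    lv.td (sV.up uu _ (Nat.sub_le _ _)) (by rw [n1]; exact sP2 1 (by omega)) hT).1 _ _
    (.inr ⟨rfl, rfl, rfl⟩)
  obtain ⟨B2, L2, b1, b2, b3⟩ := (hPRD q n c u a 1 A Λ (V 1) (P ^ 2 * G (n - 1)) T hn u0 ed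
    lv.td (sV.up uu _ (by omega)) (sP2 _ (Nat.sub_le _ _)) hT).1 _ _ (.inl ⟨rfl, rfl, rfl⟩)
  obtain ⟨B3, c1, c2⟩ := h1 q c u w A Λ (P ^ 2 * G 1) G H T hn ed (lv.down (by omega) (by omega))
    (by simpa using sP2 1 (by omega)) fd.sz sH hT
  obtain ⟨B4, d1, d2⟩ := h2 q n u w A Λ (P * G 1) z (P * G (n - 1)) z T _ _ hn ed
    (lv.down (by omega) (by omega)) (by simpa using sP 1 (by omega)) (sP _ (Nat.sub_le _ _))
    (fd.szc.trans uu) fd.u1 fd.u2 hT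
  have key : ∀ k, k ∈ Ioo 1 (n - 1) → _ := fun k hk => (hPRD q n c u a k A Λ (P ^ 2 * G k)
    (H (n - k)) T hn u0 ed lv.td (sP2 k (by have := mem_Ioo.1 hk; omega))
    (sH.up uu _ (Nat.sub_le _ _)) hT).2 (mem_Ioo.1 hk).1 (mem_Ioo.1 hk).2
  choose! B5 e1 e2 using key
  have f1 : ∀ B : Finset (A × A), u ^ 4 * #B ≤ q ^ n → u ^ 2 * #B ≤ q ^ n := fun B h =>
    (Nat.mul_le_mul_right _ (Nat.pow_le_pow_right u0 (by omega))).trans h
  have f2 := Ac.mul_card_union (Ac.mul_card_union (Ac.mul_card_union (Ac.mul_card_union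
    (f1 _ a1) (f1 _ b1)) c1) d1) (Ac.mul_card_biUnion (I := Ioo 1 (n - 1)) (m := n)
      (by simp; omega) fun k hk => f1 _ (e1 k hk))
  refine ⟨L1 ∪ L2, _, (card_union_le _ _).trans ?_, Nat.le_of_mul_le_mul_left
    (((mul_assoc _ _ _).symm.trans (congrArg (· * _) (sq u).symm)).trans_le (f2.trans ?_)) u0,
    fun e he hB g1 g2 g3 g4 t ht => ?_⟩
  · rw [pow_succ]
    linarith [Nat.mul_le_mul_left (u ^ (4 * a)) (show 2 ≤ u by omega)]
  · linarith [Nat.mul_le_mul_right (q ^ n) u5, Nat.zero_le (q ^ n)]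
  simp only [mem_union, not_or, mem_biUnion, not_exists, not_and] at hB
  obtain ⟨⟨⟨⟨i1, i2⟩, i3⟩, i4⟩, i5⟩ := hB
  have j1 := a3 _ Subset.rfl e he i1 t ht
  have j2 := b3 _ Subset.rfl e he i2 t ht
  rw [pat_eq_zero.2 (g4.mono subset_union_left), zero_mul] at j1
  rw [pat_eq_zero.2 (g3.mono subset_union_right), zero_mul] at j2
  have j3 := c2 e he i3 t ht
  have j4 := d2 e he i4 g1 g2 t ht
  have j5 : P ^ 2 * md G H n = V (n - 1) * (P ^ 2 * G 1) + V 1 * (P ^ 2 * G (n - 1)) -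
      P ^ 2 * G 1 * md G H (n - 1) - (P * G 1 * (P * G (n - 1)) + P * G 1 * (P * G (n - 1))) +
        ∑ k ∈ Ioo 1 (n - 1), P ^ 2 * G k * H (n - k) := by
    have k1 := Ac.kp_eq fd.kp fd.fa (y := V (n - 1)) (z := G (n - 1) + H (n - 1) + md G H (n - 1))
      (by rw [pr.cv' (by omega) (Nat.sub_le _ _), map_add, map_add])
    have k2 := Ac.kp_eq fd.kp fd.fa (y := V 1) (z := G 1 + H 1)
      (by rw [pr.cv' one_pos (by omega), md_one, map_zero, add_zero, map_add])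
    have k3 : Ioo 0 n = insert 1 (insert (n - 1) (Ioo 1 (n - 1))) := by
      ext i
      simp only [mem_Ioo, mem_insert]
      omega
    rw [md, k3, sum_insert (by simp; omega), sum_insert (by simp), n1, mul_add, mul_add, mul_sum]
    simp only [← mul_assoc]
    linear_combination -(P * G 1 * k1) - P * G (n - 1) * k2
  rw [j5, two_mul, sq z]
  simp only [AddMonoidAlgebra.coeff_add, AddMonoidAlgebra.coeff_sub, AddMonoidAlgebra.coeff_neg,
    AddMonoidAlgebra.coeff_sum, Finsupp.finsetSum_apply, Finsupp.add_apply, Finsupp.sub_apply,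
    Finsupp.neg_apply, j1, j2, j3, j4]
  rw [sum_eq_zero fun k hk => e2 k hk e he (i5 k hk) t ht]
  simp

end

end Pool.Agent.P.MP_9344a7_nt.Cy
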