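import Pool.Agent.P.MP_9344a7_nt.Cy.IfaceA

/-! Steps PRM, PART, TOP, ESL, COV, CNT. -/

set_option linter.unusedVariables false
set_option linter.unusedSectionVars false

namespace Pool.Agent.P.MP_9344a7_nt.Cy

section

open Polynomial Finset
open Pool.Agent.P.MP_9344a7_nt.R
open Pool.Agent.P.MP_9344a7_nt.Hy
open Pool.Agent.P.MP_9344a7_nt.Od (GD Kp Fe)
open Pool.Agent.P.MP_9344a7_nt.Ac (Sb Pm Sp ED CD TD AD Sc Eg Dgs)
open scoped Classical ComplexConjugate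

lemma prm_one {q n c u a : ℕ} {A A' : Type} [AddCommGroup A] [Fintype A] [AddCommGroup A']
    [Fintype A'] {Λ : LD q n A} {Λ' : LD q n A'} {T : Finset A} (hn : 3 ≤ n) (ed : ED Λ c)
    (gd : GD Λ' c) (td : TD Λ (u ^ 4) a) (uc : c ≤ u) (hT : #T ≤ u) (j : A' →+ A) (s : A) :
    ∃ (L : Finset A) (B : Finset (A × A)), #L ≤ u ^ (4 * a) ∧ u ^ 4 * #B ≤ n * q ^ n ∧
      ∀ e ∈ Es Λ, e ∉ B → ∀ y, s + j y - (e.1 + e.2) ∈ T → Fr (Ej Λ' j 1) e.1 L →
        ∀ k, 0 < k → k < n → ∀ b, ¬ Sb Λ' n k y b := by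
  have h4 : u * c ≤ u ^ 4 := by
    rcases u.eq_zero_or_pos with rfl | h
    · simp
    exact (Nat.mul_le_mul_left _ uc).trans ((sq u).symm.trans_le
      (Nat.pow_le_pow_right h (by omega)))
  have h5 : c ≤ u ^ 4 := uc.trans (Nat.le_self_pow (by omega) u)
  have key : ∀ k, 0 < k → k < n → _ := fun k k0 kn => ev_edge hn ed td k0 kn
    (Y := (Ej Λ' j k).coeff.support) (Z := (Ej Λ' j (n - k)).coeff.support.image (s + ·)) (T := T)
    ((sz_Ej gd j k kn.le).trans (Nat.mul_le_mul_right _ h5))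
    ((Nat.mul_le_mul hT (card_image_le.trans (sz_Ej gd j _ (Nat.sub_le n k)))).trans
      ((mul_assoc _ _ _).symm.trans_le (Nat.mul_le_mul_right _ h4)))
  choose! B L a1 a2 a3 using key
  refine ⟨L 1, (Ioo 0 n).biUnion B, (a2 1 one_pos (by omega)).trans_eq (pow_mul _ _ _).symm,
    Ac.mul_card_biUnion (by simp) fun k hk => a1 k (mem_Ioo.1 hk).1 (mem_Ioo.1 hk).2,
    fun e he hB y hy hF => ?_⟩
  have h1 : ∀ k, 0 < k → k < n → ∀ b, Sb Λ' n k y b → k = n - 1 := fun k k0 kn b hb => by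
    rcases a3 k k0 kn e he (fun h => hB (mem_biUnion.2 ⟨k, mem_Ioo.2 ⟨k0, kn⟩, h⟩)) _ hy (j b)
      (Finsupp.mem_support_iff.2 (Ej_ne.2 ⟨b, rfl, hb.1⟩)) (mem_image.2 ⟨j (y - b),
        Finsupp.mem_support_iff.2 (Ej_ne.2 ⟨_, rfl, hb.2⟩), by rw [map_sub]; abel⟩) with
      ⟨rfl, h⟩ | h
    · exact absurd (hF _ h) (Ej_ne.2 ⟨b, by abel, hb.1⟩)
    · exact h.1
  intro k k0 kn b hb
  have h2 := h1 k k0 kn b hb
  have h3 := h1 (n - k) (by omega) (by omega) (y - b)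
    ⟨hb.2, by rw [Nat.sub_sub_self kn.le, sub_sub_cancel]; exact hb.1⟩
  omega

theorem p_PRM :
    S_PRM := by
  intro c n a hn
  refine ⟨c + 3 * n + 4, fun q u w A A' _ _ _ _ Λ Λ' j T lv ed dd hT => ?_⟩
  have sc := lv.sc
  have u3 : 3 * n ≤ u := sc.le (by omega)
  have uc : c ≤ u := sc.le (by omega)
  obtain ⟨L1, B1, a1, a2, a3⟩ := prm_one hn ed dd.gd lv.td uc hT j 0
  obtain ⟨L2, B2, b1, b2, b3⟩ := prm_one hn ed dd.gd lv.td uc hT (-j) (j Λ'.ω)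
  set Z := (T ×ˢ univ.filter fun b => (Λ'.W n).coeff b ≠ 0 ∧ (Λ'.W n).coeff b ≠ 1).image
    fun d => j d.2 - d.1
  have c1 : 3 * u * #{e ∈ Es Λ | e.1 + e.2 ∈ Z} ≤ q ^ n := by
    have d1 : u ^ 4 ≤ q := sc.pow (by omega) (by omega)
    have d2 : #{e ∈ Es Λ | e.1 + e.2 ∈ Z} ≤ u * _ := (es_sum hn ed Z).trans (card_image_le.trans
      ((card_product _ _).trans_le (Nat.mul_le_mul_right _ hT)))
    have d3 := dd.big le_rfl
    refine Nat.le_of_mul_le_mul_left ?_ (sc.leq (x := 1) (by omega) (by omega))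
    calc q * (3 * u * _) ≤ q * (u * u * (u * _)) := Nat.mul_le_mul_left _
          (Nat.mul_le_mul (Nat.mul_le_mul_right _ (by omega)) d2)
      _ = u ^ 3 * (q * _) := by ring
      _ ≤ u ^ 3 * (u * q ^ n) := Nat.mul_le_mul_left _ (d3.trans (Nat.mul_le_mul_right _ uc))
      _ = u ^ 4 * q ^ n := by ring
      _ ≤ _ := Nat.mul_le_mul_right _ d1
  have c2 : ∀ B : Finset (A × A), u ^ 4 * #B ≤ n * q ^ n → 3 * u * #B ≤ q ^ n := fun B h =>
    Nat.le_of_mul_le_mul_left (le_trans (by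
      rw [← mul_assoc, ← mul_assoc]
      exact Nat.mul_le_mul_right _ ((Nat.mul_le_mul_right u ((mul_comm _ _).trans_le u3)).trans
        ((sq u).symm.trans_le (Nat.pow_le_pow_right (by omega) (by omega))))) h) (show 0 < n by omega)
  refine ⟨L1 ∪ L2, B1 ∪ B2 ∪ {e ∈ Es Λ | e.1 + e.2 ∈ Z}, (card_union_le _ _).trans ?_,
    Nat.le_of_mul_le_mul_left ((mul_assoc _ _ _).symm.trans_le ((Ac.mul_card_union
      (Ac.mul_card_union (c2 _ a2) (c2 _ b2)) c1).trans_eq (by ring))) (show 0 < 3 by omega),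
    fun e he hB y hy h0 => ?_⟩
  · rw [pow_add]
    have : 2 ≤ u ^ 2 := by nlinarith
    linarith [Nat.mul_le_mul_left (u ^ (4 * a)) this]
  simp only [mem_union, not_or, mem_filter, he, true_and] at hB
  have h1 : (Λ'.W n).coeff y = 1 := by
    by_contra h
    exact hB.2 (mem_image.2 ⟨(_, y), mem_product.2 ⟨hy, mem_filter.2 ⟨mem_univ _, h0, h⟩⟩,
      sub_sub_cancel _ _⟩)
  exact ⟨fun h => ⟨h1, a3 e he hB.1.1 y (by rwa [zero_add]) (h.mono subset_union_left)⟩,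
    fun h => ⟨by rw [dd.sym, h1], b3 e he hB.1.2 _ (by simpa using hy)
      (h.mono subset_union_right)⟩⟩

end

section

open Polynomial Finset
open Pool.Agent.P.MP_9344a7_nt.R
open Pool.Agent.P.MP_9344a7_nt.Hy
open Pool.Agent.P.MP_9344a7_nt.Od (GD Kp Fe)
open Pool.Agent.P.MP_9344a7_nt.Ac (Sb Pm Sp ED CD TD AD Sc Eg Dgs)
open scoped Classical ComplexConjugate

theorem p_PART (hFTS : S_FTS) (hLU : S_LU) (hMID : S_MID) (hPRM : S_PRM) :
    S_PART := by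
  intro c n a E hn
  obtain ⟨M1, hF⟩ := hFTS c n (5 * E) hn
  obtain ⟨M2, K2, hL⟩ := hLU c n a (5 * E * (c + 2)) hn
  obtain ⟨K3, hM⟩ := hMID c n a hn
  obtain ⟨K4, hP⟩ := hPRM c n a hn
  refine ⟨M1 + M2, (4 * a + 3) * (K2 + 1) + (K3 + K4 + 4 + 5 * E + M1 + c),
    fun q u w A A' _ _ _ _ Λ Λ' χ P z G G' H j T T' hS ed cd ed' fd pd hz hT hT' => ?_⟩
  have sc := hS.sc
  have lv := hS.lv (by omega)
  have u2 : 2 ≤ u := sc.le (by omega)
  have uE : 5 * E ≤ u := sc.le (by omega)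
  obtain ⟨L1, B1, a1, a2, a3⟩ := hM q u w A Λ χ P z G G' H (Ej Λ' j) (j Λ'.ω) T
    (lv.down (by omega) (by omega)) ed fd pd.pr pd.sz ((sz_Ej ed'.gd j).up (sc.le (by omega))) hT
  obtain ⟨L2, B2, b1, b2, b3⟩ := hP q u w A A' Λ Λ' j T' (lv.down (by omega) (by omega)) ed
    (dd_of ed') hT'
  have uv : u ≤ u ^ (4 * a + 3) := Nat.le_self_pow (by omega) u
  have s1 := hS.pow (m := 4 * a + 3) (K' := K2 + 1) (by omega) le_self_add (by omega)
  have w0 : 0 < w := lt_of_lt_of_le (by omega) (hS.uw (by omega))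
  refine (hL q (u ^ (4 * a + 3)) w A A' Λ Λ' χ P z G G' H j (L1 ∪ L2) ⟨(s1.sc.down K2.le_succ).lo,
    (Nat.pow_le_pow_right (by positivity) K2.le_succ).trans s1.mid,
    (Nat.pow_le_pow_right w0 K2.le_succ).trans s1.hi, fun v d1 d2 => s1.td v d1
      (d2.trans (Nat.pow_le_pow_right w0 K2.le_succ))⟩ ed (cd.up le_rfl le_add_self) ed'
    (fd.up uv le_rfl) (pd.up uv) hz ((card_union_le _ _).trans ?_)).imp
      (·.down (by nlinarith)) fun ⟨c1, c2, c3⟩ => ⟨c1, ?_⟩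
  · have := Nat.pow_le_pow_right (show 0 < u by omega) (show 4 * a + 1 ≤ 4 * a + 2 by omega)
    rw [pow_succ u (4 * a + 2)]
    nlinarith
  obtain ⟨-, -, d1⟩ := hF q A Λ (sc.leq (by omega) (by omega)) ed (cd.up le_rfl le_self_add)
  set N1 := {p ∈ Λ.S | ¬ (Fr (Ej Λ' j 1) p (L1 ∪ L2) ∧ Fr (Ej Λ' (-j) 1) p (L1 ∪ L2))} with hN1
  set N2 := {r ∈ Pi Λ (n - 1) | ¬ Fr (Ej Λ' j (n - 1)) r (L1 ∪ L2)} with hN2
  have qn : q ^ n = q * q ^ (n - 1) := by rw [← pow_succ', Nat.sub_add_cancel (by omega)]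
  have d2 : 5 * E * #{e ∈ Es Λ | e.1 ∈ N1} ≤ q ^ n := by
    have := Nat.mul_le_mul_left (5 * E) (es_cnt1 ed.gd N1)
    have := Nat.mul_le_mul_right (q ^ (n - 1)) c2
    rw [qn]
    linarith [Nat.zero_le (E * #N1 * q ^ (n - 1))]
  have d3 : 5 * E * #{e ∈ Es Λ | e.2 ∈ N2} ≤ q ^ n := by
    have := Nat.mul_le_mul_left (5 * E) (es_cnt2 (Λ := Λ) (sc.leq (by omega) (by omega)) N2)
    have := Nat.mul_le_mul_left q c3
    rw [qn]
    linarith [Nat.zero_le (E * c * #N2 * q)]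
  have d4 := Ac.mul_card_union (Ac.mul_card_union (Ac.mul_card_union (Ac.mul_card_union
    ((Nat.mul_le_mul_right _ uE).trans a2) ((Nat.mul_le_mul_right _ uE).trans b2)) d1) d2) d3
  refine ⟨_, Nat.le_of_mul_le_mul_left ((mul_assoc _ _ _).symm.trans_le (d4.trans_eq (by ring)))
    (show 0 < 5 by omega), fun e he hB => ?_⟩
  simp only [mem_union, not_or, mem_filter, he, true_and, not_not, hN1, hN2, es_fst he,
    es_snd he] at hB
  obtain ⟨⟨⟨⟨e1, e2⟩, e3, e4⟩, e5, e6⟩, e7⟩ := hB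
  refine ⟨a3 e he e1 e3 e4 (e5.mono subset_union_left) (e7.mono subset_union_left),
    fun y hy h0 => mem_PP.2 ?_⟩
  exact (b3 e he e2 y hy h0).imp (· (e5.mono subset_union_right)) (· (e6.mono subset_union_right))

end

section

open Polynomial Finset
open Pool.Agent.P.MP_9344a7_nt.R
open Pool.Agent.P.MP_9344a7_nt.Hy
open Pool.Agent.P.MP_9344a7_nt.Od (GD Kp Fe)
open Pool.Agent.P.MP_9344a7_nt.Ac (Sb Pm Sp ED CD TD AD Sc Eg Dgs)
open scoped Classical ComplexConjugate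

theorem p_TOP :
    S_TOP := by
  intro n A _ _ χ P z z' G G' W H1 V1 H2 V2 ω ω1 ω2 hn hχ hP hs ha h1
  have hπ := hP.ne χ hχ
  have eπ : ev χ P = ev χ z + ev χ z' := by rw [← hs, map_add]
  have n0 : ∀ x, χ x ≠ 0 := fun x e => by simpa [e] using χ.norm_apply x
  have cj : ∀ x, conj (χ x) * χ x = 1 := fun x => by
    rw [← AddChar.map_neg_eq_conj, ← AddChar.map_add_eq_mul, neg_add_cancel,
      AddChar.map_zero_eq_one]
  have d1 : χ (ω - ω1) * χ ω1 = χ ω := by rw [← AddChar.map_add_eq_mul, sub_add_cancel]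
  rw [Ur, eπ, add_sub_cancel_left] at h1
  have hb : ev χ z' = -(χ (ω - ω1) * ev χ z) := by
    refine mul_left_cancel₀ (n0 ω1) ?_
    linear_combination h1 + ev χ z * d1
  refine ⟨hb ▸ neg_ne_zero.2 (mul_ne_zero (n0 _) ha), fun h2 p0 p1 p2 => ?_⟩
  rw [Ur, eπ, add_sub_cancel_right] at h2
  have d2 : χ ω2 = χ ω * χ (ω - ω1) := by
    refine mul_right_cancel₀ ha ?_
    linear_combination h2 - χ ω * hb
  refine ⟨?_, ?_, ?_, ?_⟩
  · rw [← AddChar.map_add_eq_mul] at d2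
    rw [mem_Fa.1 hχ d2, add_sub_cancel_left]
  · rintro rfl
    refine hπ ?_
    rw [eπ, hb, sub_self, AddChar.map_zero_eq_one]
    ring
  · simp only [map_sub, map_mul, map_pow, ev_sg, map_ofNat]
    rw [eπ, hb]
    ring
  · have s0 := p0.sy 0 n.zero_le
    have s1 := p1.sy 0 n.zero_le
    have s2 := p2.sy 0 n.zero_le
    simp only [p0.g0, p0.h0, p1.h0, p2.h0, map_one, one_mul, mul_one, Nat.sub_zero] at s0 s1 s2
    have := Ac.kp_eq hP hχ (y := P * (V2 n - sg (ω - ω1) * V1 n))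
      (z := P * (md G' H2 n - sg (ω - ω1) * md G H1 n)) (by
        simp only [map_sub, map_mul, ev_sg]
        rw [p2.cv' hn le_rfl, p1.cv' hn le_rfl, s2, s1, s0, map_mul, Complex.conj_conj, d2]
        linear_combination ev χ P * (χ (ω - ω1) * ev χ (G n) * cj ω - conj (ev χ (G n)) * d1))
    linear_combination this

end

section

open Polynomial Finset
open Pool.Agent.P.MP_9344a7_nt.R
open Pool.Agent.P.MP_9344a7_nt.Hy
open Pool.Agent.P.MP_9344a7_nt.Od (GD Kp Fe)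
open Pool.Agent.P.MP_9344a7_nt.Ac (Sb Pm Sp ED CD TD AD Sc Eg Dgs)
open scoped Classical ComplexConjugate

theorem p_ESL :
    S_ESL := by
  intro n E hn
  refine ⟨(E + 1) * (2 * n ^ 2 + 4), fun q c A _ _ Λ hq hC hX => ?_⟩
  set M := (E + 1) * (2 * n ^ 2 + 4) with hM
  have h1 := hC.mx (U := Λ.S) (V := Pi Λ (n - 1)) (E := Es Λ ∪ Λ.S.image fun p => (p, p))
    Subset.rfl (fun r hr => (mem_Pi.1 hr).1) fun p hp r hr h => by
      by_cases e : p = r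
      · exact mem_union_right _ (mem_image.2 ⟨p, hp, by rw [e]⟩)
      · exact mem_union_left _ (mem_Es.2 ⟨hp, mem_Pi.1 hr, e, h⟩)
  have h2 := hX.rp (n - 1) (by omega) (by omega)
  have h3 := (mul_le_mul_of_nonneg_left (neg_le_abs _) (Nat.cast_nonneg (α := ℤ) M)).trans hC.card
  have h4 : #(Es Λ ∪ Λ.S.image fun p => (p, p)) ≤ #(Es Λ) + 2 * q :=
    (card_union_le _ _).trans (add_le_add le_rfl (card_image_le.trans
      (Ac.card_S Λ (le_trans (by nlinarith) hq))))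
  obtain ⟨m, rfl⟩ : ∃ m, n = m + 3 := ⟨n - 3, by omega⟩
  rw [show m + 3 - 1 = m + 2 by omega] at h1 h2 ⊢
  have h5 : M * q ≤ M * #Λ.S + q := by
    zify
    linarith
  generalize #(Es Λ ∪ Λ.S.image fun p => (p, p)) = x at h1 h4
  generalize #(Es Λ) = y at h4 ⊢
  generalize #(Pi Λ (m + 2)) = z at h1 h2
  generalize #Λ.S = s at h1 h5
  have h6 : M * q ≤ q ^ (m + 2) := by
    rw [pow_succ]
    exact Nat.mul_le_mul_right _ (hq.trans (Nat.le_self_pow (by omega) q))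
  rw [pow_succ q (m + 2)] at h1 ⊢
  generalize q ^ (m + 2) = Q at h1 h2 h6 ⊢
  have M0 : 0 < M := by positivity
  have h7 : M * (s * z) ≤ M * ((m + 3) * y) + (2 * (m + 3) + 1) * (Q * q) := by
    have := Nat.mul_le_mul_left (2 * (m + 3)) (h6.trans (Nat.le_mul_of_pos_right Q (M0.trans_le hq)))
    nlinarith [Nat.mul_le_mul_left (M * (m + 3)) h4]
  obtain ⟨M', hM'⟩ : ∃ M', M = M' + 1 := ⟨M - 1, by omega⟩
  have h8 : M' * q * (M * Q) ≤ M * s * ((M + 1) * ((m + 2) * z)) :=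
    Nat.mul_le_mul (by rw [hM'] at h5 ⊢; nlinarith) h2
  have h9 : E * (M * (M + 1)) + (E + 1) * ((M + 1) * ((m + 2) * (2 * (m + 3) + 1))) ≤
      (E + 1) * (M' * M) := by
    have a1 : (m + 2) * (2 * (m + 3) + 1) ≤ M := by rw [hM]; nlinarith
    have a2 : (E + 1) * M' + (E + 1) = (E + 1) * M := by rw [hM']; ring
    have a3 : (E + 1) * ((m + 2) * (2 * (m + 3) + 1) + 3) ≤ M := by rw [hM]; nlinarith
    nlinarith [Nat.mul_le_mul_left (E + 1) a1, Nat.mul_le_mul_left M a3]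
  refine Nat.le_of_mul_le_mul_left ?_ (show 0 < M * (M + 1) by positivity)
  nlinarith [Nat.mul_le_mul_left (E + 1) h8, Nat.mul_le_mul_right (Q * q) h9,
    Nat.mul_le_mul_left ((E + 1) * ((M + 1) * (m + 2))) h7]

end

section

open Polynomial Finset
open Pool.Agent.P.MP_9344a7_nt.R
open Pool.Agent.P.MP_9344a7_nt.Hy
open Pool.Agent.P.MP_9344a7_nt.Od (GD Kp Fe)
open Pool.Agent.P.MP_9344a7_nt.Ac (Sb Pm Sp ED CD TD AD Sc Eg Dgs)
open scoped Classical ComplexConjugate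

theorem p_COV :
    S_COV := by
  intro q n c A A' _ _ _ _ Λ j Y T Z hG h
  choose! y hy using fun x hx => (h x hx).2
  have h1 : Z ⊆ {x ∈ Z | ∀ x' ∈ Z, y x' = y x → x' = x} ∪ ((T ×ˢ T).filter fun d => d.1 ≠ d.2).biUnion
      fun d => {a | (Λ.W n).coeff a ≠ 0 ∧ (Λ.W n).coeff (a + (d.1 - d.2)) ≠ 0} := fun x hx => by
    by_cases e : ∀ x' ∈ Z, y x' = y x → x' = x
    · exact mem_union_left _ (mem_filter.2 ⟨hx, e⟩)
    push Not at e
    obtain ⟨x', h2, h3, h4⟩ := e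
    refine mem_union_right _ (mem_biUnion.2 ⟨(j (y x) - x, j (y x') - x'), mem_filter.2
      ⟨mem_product.2 ⟨(hy x hx).2, (hy x' h2).2⟩, fun e => h4 ?_⟩, mem_filter.2
        ⟨mem_univ _, (h x hx).1, ?_⟩⟩)
    · rw [h3] at e
      exact (sub_right_injective e).symm
    · rw [h3, show x + (j (y x) - x - (j (y x) - x')) = x' by abel]
      exact (h x' h2).1
  refine (Nat.mul_le_mul_left _ (card_le_card h1)).trans ((Ac.mul_card_union (Nat.mul_le_mul_left _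
    (card_le_card_of_injOn y (fun x hx => (hy x (mem_filter.1 hx).1).1) fun x hx x' hx' e => by
      rw [mem_coe, mem_filter] at hx hx'
      exact hx'.2 x hx.1 e)) (Ac.mul_card_biUnion (m := #T ^ 2)
        ((card_filter_le _ _).trans_eq (by rw [card_product, sq])) fun d hd =>
          hG.pair le_rfl (sub_ne_zero.2 (mem_filter.1 hd).2))).trans_eq (by rw [mul_assoc]))

end

section

open Polynomial Finset
open Pool.Agent.P.MP_9344a7_nt.R
open Pool.Agent.P.MP_9344a7_nt.Hy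
open Pool.Agent.P.MP_9344a7_nt.Od (GD Kp Fe)
open Pool.Agent.P.MP_9344a7_nt.Ac (Sb Pm Sp ED CD TD AD Sc Eg Dgs)
open scoped Classical ComplexConjugate

lemma cnt_ar {m c M Q x y : ℕ} (f1 : 2 * (m + 1) ^ 3 * (4 * c + 2) ≤ M) (c9 : 0 < Q)
    (e1 : 2 * (m + 1) ^ 2 * Q ≤ (2 * (m + 1) ^ 2 + 1) * ((m + 1) * m * x))
    (c7 : M * x ≤ M * y + (4 * c + 1) * Q) (c8 : M * ((m + 1) ^ 2 * y) ≤ (M + 1) * Q) : False := by
  have d1 : (2 * (m + 1) ^ 2 + 1) * m * (M + 1 + (m + 1) ^ 2 * (4 * c + 1)) <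
      2 * (m + 1) ^ 3 * M := by
    have f2 : m * (1 + (m + 1) ^ 2 * (4 * c + 1)) < (m + 1) ^ 3 * (4 * c + 2) := by
      nlinarith [sq_nonneg m, Nat.zero_le (m ^ 2 * c), Nat.zero_le (m * c)]
    have f3 := Nat.mul_lt_mul_of_pos_left f2 (show 0 < 2 * (m + 1) ^ 2 + 1 by positivity)
    have f4 := Nat.mul_le_mul_left ((m + 1) ^ 2 + 1) f1
    have f5 : ((2 * (m + 1) ^ 2 + 1) * m + ((m + 1) ^ 2 + 1)) * M ≤ 2 * (m + 1) ^ 3 * M :=
      Nat.mul_le_mul_right _ (by nlinarith)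
    linarith [Nat.zero_le ((m + 1) ^ 3 * (4 * c + 2))]
  have d2 := Nat.mul_le_mul_left (M * (m + 1)) e1
  have d3 := Nat.mul_le_mul_left ((2 * (m + 1) ^ 2 + 1) * m * (m + 1) ^ 2) c7
  have d4 := Nat.mul_le_mul_left ((2 * (m + 1) ^ 2 + 1) * m) c8
  linarith [Nat.mul_lt_mul_of_pos_right d1 c9]

theorem p_CNT (hESL : S_ESL) (hCOV : S_COV) :
    S_CNT := by
  intro c n hn
  obtain ⟨M0, hE⟩ := hESL n (2 * n ^ 2) hn
  refine ⟨M0 + 2 * n ^ 3 * (4 * c + 2), fun q u A A' _ _ _ _ Λ Λ' j1 j2 T1 T2 B hu hq ed cd xd xd'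
    h1 h2 hB h => ?_⟩
  set M := M0 + 2 * n ^ 3 * (4 * c + 2) with hM
  have M1 : 0 < M := by positivity
  have u0 : 0 < u := M1.trans_le hu
  have uq : u ≤ q := (Nat.le_self_pow (by omega) u).trans hq
  have e1 := hE q c A Λ (le_self_add.trans (hu.trans uq)) (cd.up le_rfl le_self_add)
    (xd.down le_self_add)
  have key : ∀ (j : A' →+ A) (T : Finset A), #T ≤ u → ∃ Z : Finset A,
      M * #Z ≤ M * #(PP Λ') + 4 * c * q ^ n ∧ ∀ e ∈ Es Λ, Cv j (PP Λ') T (e.1 + e.2) →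
        e.1 + e.2 ∈ Z ∧ Λ.ω - (e.1 + e.2) ∈ Z := fun j T hT => by
    set T' := T ∪ T.image (j Λ'.ω - Λ.ω - ·)
    refine ⟨univ.filter fun x => (Λ.W n).coeff x ≠ 0 ∧ Cv j (PP Λ') T' x, ?_, fun e he ⟨y, hy, ht⟩ => ?_⟩
    · have a1 := hCOV q n c A A' Λ j (PP Λ') T' {x | (Λ.W n).coeff x ≠ 0 ∧ Cv j (PP Λ') T' x}
        ed.gd fun x hx => (mem_filter.1 hx).2
      have a2 : #T' ≤ 2 * u := (card_union_le _ _).trans
        ((add_le_add hT (card_image_le.trans hT)).trans_eq (two_mul u).symm)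
      refine Nat.le_of_mul_le_mul_left ?_ (u0.trans_le uq)
      have a3 : M * (#T' ^ 2 * c * q ^ n) ≤ q * (4 * c * q ^ n) :=
        calc _ ≤ u * ((2 * u) ^ 2 * c * q ^ n) := by gcongr
          _ = u ^ 3 * (4 * c * q ^ n) := by ring
          _ ≤ _ := by gcongr
      linarith [Nat.mul_le_mul_left M a1]
    · have a1 := (mem_Es.1 he).one ed
      rw [mem_PP] at hy
      refine ⟨mem_filter.2 ⟨mem_univ _, a1 ▸ one_ne_zero, y, mem_PP.2 hy, mem_union_left _ ht⟩,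
        mem_filter.2 ⟨mem_univ _, by rw [ed.sym, a1]; exact one_ne_zero, Λ'.ω - y,
          mem_PP.2 ⟨hy.2, by rw [sub_sub_cancel]; exact hy.1⟩,
          mem_union_right _ (mem_image.2 ⟨_, ht, ?_⟩)⟩⟩
      rw [map_sub]
      abel
  obtain ⟨Z1, a1, b1⟩ := key j1 T1 h1
  obtain ⟨Z2, a2, b2⟩ := key j2 T2 h2
  have c1 : ∀ e ∈ Es Λ \ B, e.1 + e.2 ∈ Z1 ∪ Z2 ∧ Λ.ω - (e.1 + e.2) ∈ Z1 ∪ Z2 := fun e he => by
    obtain ⟨d1, d2⟩ := mem_sdiff.1 he
    rcases h e d1 d2 with d | d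
    · exact ⟨mem_union_left _ (b1 e d1 d).1, mem_union_left _ (b1 e d1 d).2⟩
    · exact ⟨mem_union_right _ (b2 e d1 d).1, mem_union_right _ (b2 e d1 d).2⟩
  have c2 : #(Es Λ \ B) ≤ #{x ∈ Z1 ∪ Z2 | ¬ Pm Λ n x} :=
    card_le_card_of_injOn (fun e => e.1 + e.2) (fun e he => mem_filter.2 ⟨(c1 e he).1, fun d =>
      d.2 1 one_pos (by omega) _ (es_sb (mem_sdiff.1 he).1)⟩) fun e he e' he' =>
        es_inj hn ed (mem_sdiff.1 he).1 (mem_sdiff.1 he').1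
  have c3 : #(Es Λ \ B) ≤ #{x ∈ Z1 ∪ Z2 | Pm Λ n x} :=
    card_le_card_of_injOn (fun e => Λ.ω - (e.1 + e.2)) (fun e he => mem_filter.2 ⟨(c1 e he).2,
      (mem_Es.1 (mem_sdiff.1 he).1).res⟩) fun e he e' he' d =>
        es_inj hn ed (mem_sdiff.1 he).1 (mem_sdiff.1 he').1 (sub_right_injective d)
  have c4 : #{x ∈ Z1 ∪ Z2 | Pm Λ n x} + #{x ∈ Z1 ∪ Z2 | ¬ Pm Λ n x} = #(Z1 ∪ Z2) :=
    card_filter_add_card_filter_not _
  have c5 := card_union_le Z1 Z2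
  have c6 := le_card_sdiff B (Es Λ)
  have c7 : M * #(Es Λ) ≤ M * #(PP Λ') + (4 * c + 1) * q ^ n := by
    have : 2 * #(Es Λ) ≤ #Z1 + #Z2 + 2 * #B := by omega
    have := Nat.mul_le_mul_left M this
    linarith
  have c8 := xd'.pp
  have c9 : 0 < q ^ n := Nat.pow_pos (u0.trans_le uq)
  obtain ⟨m, rfl⟩ : ∃ m, n = m + 1 := ⟨n - 1, by omega⟩
  rw [Nat.add_sub_cancel] at e1
  exact cnt_ar le_add_self c9 e1 c7 c8

end

end Pool.Agent.P.MP_9344a7_nt.Cy
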