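import Pool.Agent.P.MP_9344a7_nt.Cy.IfaceA

/-! Steps GN4, PRB, ID2, SGL. -/

set_option linter.unusedVariables false
set_option linter.unusedSectionVars false

namespace Pool.Agent.P.MP_9344a7_nt.Cy

section

open Polynomial Finset
open Pool.Agent.P.MP_9344a7_nt.R
open Pool.Agent.P.MP_9344a7_nt.Hy
open Pool.Agent.P.MP_9344a7_nt.Od (GD Kp Fe)
open Pool.Agent.P.MP_9344a7_nt.Ac (Sb Pm Sp ED CD TD AD Sc Eg Dgs)
open scoped Classical ComplexConjugate

theorem p_GN4 (hNP2 : S_NP2) :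
    S_GN4 := by
  intro c n hn
  obtain ⟨K, hK, H0⟩ := hNP2 n (by omega)
  obtain ⟨M, hM⟩ := exists_nat_ge (100 * K + 100 + 100 * 2 ^ n)
  refine ⟨M, fun q A _ _ Λ H t hq hG hX hH h1 h2 => ?_⟩
  obtain ⟨a, ha⟩ : ∃ a, a ∉ H := by_contra fun h => hH (eq_top_iff.2 fun a _ => by_contra fun h' =>
    h ⟨a, h'⟩)
  obtain ⟨ψ, hψ⟩ := (AddChar.exists_apply_ne_zero (a := (a : A ⧸ H))).2
    (mt (QuotientAddGroup.eq_zero_iff a).1 ha)
  set ε := ψ.compAddMonoidHom (QuotientAddGroup.mk' H) with hε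
  have e0 : ε ≠ 0 := fun h => hψ (DFunLike.congr_fun h a)
  have e1 : ∀ x ∈ H, ε x = 1 := fun x hx => by
    rw [hε, AddChar.compAddMonoidHom_apply, QuotientAddGroup.mk'_apply,
      (QuotientAddGroup.eq_zero_iff x).2 hx, AddChar.map_zero_eq_one]
  have e2 : ∀ j : ℕ, ‖ε (-t) ^ j‖ = 1 := fun j => by rw [norm_pow, AddChar.norm_apply, one_pow]
  have p2 : (0 : ℝ) < 2 ^ n := by positivity
  have M0 : (0 : ℝ) < M := by linarith
  have hq' : (M : ℝ) ≤ q := by exact_mod_cast hq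
  have q0 : (0 : ℝ) < q := by linarith
  have df : ∀ j, ‖ε (-t) ^ j * ev ε (Λ.W j) - ev 0 (Λ.W j)‖ ≤
      2 * ((∑ x with x - j • t ∉ H, (Λ.W j).coeff x : ℤ) : ℝ) := fun j => by
    rw [ev_eq, ev_eq, mul_sum, ← sum_sub_distrib, Int.cast_sum, sum_filter, mul_sum]
    refine (norm_sum_le _ _).trans (sum_le_sum fun x _ => ?_)
    have h0 : (0 : ℝ) ≤ (((Λ.W j).coeff x : ℤ) : ℝ) := by exact_mod_cast Λ.nn j x
    rw [mul_left_comm, ← AddChar.map_nsmul_eq_pow, ← AddChar.map_add_eq_mul, smul_neg,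
      neg_add_eq_sub, ← mul_sub, norm_mul, Complex.norm_intCast, abs_of_nonneg h0, mul_comm]
    split_ifs with e
    · simp [e1 _ e]
    · refine mul_le_mul_of_nonneg_right ((norm_sub_le _ _).trans ?_) h0
      rw [AddChar.norm_apply, AddChar.norm_apply]; norm_num
  obtain ⟨s, hs, bs⟩ := hG.nw ε
  obtain ⟨s', hs', bs'⟩ := hG.nw 0
  have two : ∀ (t : ℕ → ℂ), (∀ m, m ≠ 0 → 10 * ‖t m‖ ≤ 11 * (q : ℝ) ^ m) →
      ∀ m, m ≠ 0 → ‖t m‖ ≤ 2 * (q : ℝ) ^ m := fun t ht m hm => by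
    have := ht m hm
    have : (0 : ℝ) ≤ (q : ℝ) ^ m := by positivity
    linarith
  obtain ⟨b1, b2⟩ := H0 (fun j => ε (-t) ^ j * ev ε (Λ.W j)) (fun j => ev 0 (Λ.W j))
    (fun m => ε (-t) ^ m * s m) s' q (2 / M) q0 (by positivity) (by simp [Λ.w0]) (by simp [Λ.w0])
    (fun m => by
      rw [mul_left_comm, hs m, mul_sum]
      refine sum_congr rfl fun j hj => ?_
      rw [mul_mul_mul_comm, ← pow_add, Nat.sub_add_cancel (mem_range.1 hj).le])
    hs' (fun m hm => by rw [norm_mul, e2, one_mul]; exact two s bs m hm) (two s' bs') fun j hj => by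
      refine (df j).trans ?_
      have : (M : ℝ) * ((∑ x with x - j • t ∉ H, (Λ.W j).coeff x : ℤ) : ℝ) ≤ q ^ j := by
        exact_mod_cast h1 j hj
      rw [div_mul_eq_mul_div, le_div_iff₀ M0]
      linarith
  simp only [norm_mul, e2, one_mul] at b1 b2
  have d1 := df n
  have d2 : (M : ℝ) * ((∑ x with x - n • t ∉ H, (Λ.W n).coeff x : ℤ) : ℝ) ≤
      M * #(PP Λ) + q ^ n := by exact_mod_cast h2
  have d3 : (M : ℝ) * (9 * #(PP Λ)) ≤ (M + 1) * q ^ n := by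
    exact_mod_cast le_trans (Nat.mul_le_mul_left M (Nat.mul_le_mul_right _
      (show 9 ≤ n ^ 2 by nlinarith))) hX.pp
  obtain ⟨m, rfl⟩ : ∃ m, n = m + 1 := ⟨n - 1, by omega⟩
  have fe := Λ.fe ε e0 m (by omega)
  rw [show 2 * (m + 1) - m = m + 1 + 1 by omega, show m + 1 - m = 1 by omega] at fe
  have p1 : (0 : ℝ) < (q : ℝ) ^ (m + 1) := by positivity
  have n1 : ‖ε (-t) ^ (m + 1 + 1) * ev ε (Λ.W (m + 1 + 1))‖ ≤ 2 ^ m * (q : ℝ) ^ (m + 1) := by
    rw [norm_mul, e2, one_mul, fe, norm_mul, norm_mul, AddChar.norm_apply, Complex.norm_conj,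
      pow_one, Complex.norm_natCast, mul_one]
    have := mul_le_mul_of_nonneg_left (b1 m) q0.le
    rw [mul_pow] at this
    rw [pow_succ]
    linarith
  have n2 := hG.ms
  have n3 := norm_sub_norm_le (ev (0 : AddChar A ℂ) (Λ.W (m + 1 + 1)))
    (ε (-t) ^ (m + 1 + 1) * ev ε (Λ.W (m + 1 + 1)))
  rw [norm_sub_rev] at n3
  have n4 := bs (m + 1 + 1) (by omega)
  have n5 := bs' (m + 1 + 1) (by omega)
  have n6 : (4 : ℝ) ≤ ((m + 1 : ℕ) : ℝ) + 1 := by
    have : ((3 : ℕ) : ℝ) ≤ ((m + 1 : ℕ) : ℝ) := by exact_mod_cast hn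
    push_cast at this ⊢
    linarith
  have n7 := bs' 1 one_ne_zero
  have n8 : K * (2 / M) ≤ 1 / 50 := by
    rw [← mul_div_assoc, div_le_div_iff₀ M0 (by norm_num)]
    linarith
  have n9 : ‖ε (-t) ^ (m + 1) * ev ε (Λ.W (m + 1)) - ev 0 (Λ.W (m + 1))‖ ≤ 1 / 4 * q ^ (m + 1) := by
    refine le_of_mul_le_mul_left ?_ M0
    nlinarith [mul_le_mul_of_nonneg_left d1 M0.le, mul_le_mul_of_nonneg_right
      (show (100 : ℝ) ≤ M by linarith) p1.le]
  have m1 := mul_le_mul (show ‖s' 1‖ ≤ 11 / 10 * q by rw [pow_one] at n7; linarith) n9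
    (norm_nonneg _) (by positivity)
  have m2 := mul_le_mul_of_nonneg_right n8 (mul_pos p1 q0).le
  have m3 := mul_le_mul_of_nonneg_right (show 100 * 2 ^ (m + 1) ≤ (q : ℝ) by linarith) p1.le
  rw [pow_succ (q : ℝ) (m + 1)] at n2 n4 n5 b2
  rw [pow_succ (2 : ℝ) m] at m3
  rw [mul_assoc (((m + 1 : ℕ) : ℝ) + 1)] at b2
  generalize ((m + 1 : ℕ) : ℝ) + 1 = N at *
  have m4 := mul_le_mul_of_nonneg_left m1 (show 0 ≤ N by linarith)
  have m5 := mul_le_mul_of_nonneg_left (show (89 / 100 * (q ^ (m + 1) * q) : ℝ) ≤ _ from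
    le_trans (by linarith only [n1, n2, m3, mul_pos p1 q0]) n3) (show 0 ≤ N by linarith)
  nlinarith [mul_le_mul_of_nonneg_right n6 (mul_pos p1 q0).le, mul_pos p1 q0]

end

section

open Polynomial Finset
open Pool.Agent.P.MP_9344a7_nt.R
open Pool.Agent.P.MP_9344a7_nt.Hy
open Pool.Agent.P.MP_9344a7_nt.Od (GD Kp Fe)
open Pool.Agent.P.MP_9344a7_nt.Ac (Sb Pm Sp ED CD TD AD Sc Eg Dgs)
open scoped Classical ComplexConjugate

/-- Division of a sequence by a sequence with constant term one. -/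
noncomputable def cprb_H {R : Type} [Ring R] (G V : ℕ → R) : ℕ → R
  | 0 => 1
  | m + 1 => V (m + 1) - ∑ i ∈ (range (m + 1)).attach, G (i.1 + 1) * cprb_H G V (m - i.1)
decreasing_by omega

theorem cprb_succ {R : Type} [Ring R] (G V : ℕ → R) (m : ℕ) : cprb_H G V (m + 1) =
    V (m + 1) - ∑ i ∈ range (m + 1), G (i + 1) * cprb_H G V (m - i) := by
  rw [cprb_H, sum_attach (range (m + 1)) fun i => G (i + 1) * cprb_H G V (m - i)]

theorem p_PRB :
    S_PRB := by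
  intro q n u A _ _ χ F B G V hn hu hF hB hG hV sG sV
  have h0 : cprb_H G V 0 = 1 := by rw [cprb_H]
  have hs : ∀ k ≤ n, sz (cprb_H G V k) ≤ u ^ (2 * k) * q ^ k := by
    intro k
    induction k using Nat.strong_induction_on with
    | _ k ih =>
      intro hk
      rcases k with _ | m
      · rw [h0]
        simpa [AddMonoidAlgebra.one_def] using sz_single (0 : A) 1
      · have hu1 : 1 ≤ u := by omega
        have h1 : ∀ i ∈ range (m + 1), sz (G (i + 1) * cprb_H G V (m - i)) ≤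
            u * u ^ (2 * m) * q ^ (m + 1) := by
          intro i hi
          have hi' := mem_range.1 hi
          refine (sz_mul _ _).trans ((Nat.mul_le_mul (sG (i + 1) (by omega))
            (ih (m - i) (by omega) (by omega))).trans ?_)
          rw [mul_mul_mul_comm, ← pow_add, show i + 1 + (m - i) = m + 1 by omega]
          exact Nat.mul_le_mul_right _ (Nat.mul_le_mul_left _
            (Nat.pow_le_pow_right hu1 (by omega)))
        have h2 := (sz_sum _ _).trans (sum_le_card_nsmul _ _ _ h1)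
        rw [card_range, smul_eq_mul] at h2
        have h3 : sz (V (m + 1)) ≤ u * u ^ (2 * m) * q ^ (m + 1) :=
          (sV (m + 1) hk).trans (Nat.mul_le_mul_right _
            (Nat.le_mul_of_pos_right _ (Nat.pow_pos hu1)))
        rw [cprb_succ]
        refine (sz_sub _ _).trans ((Nat.add_le_add h3 h2).trans ?_)
        rw [show u ^ (2 * (m + 1)) * q ^ (m + 1) = u * (u * u ^ (2 * m) * q ^ (m + 1)) by ring,
          ← one_add_mul]
        exact Nat.mul_le_mul_right _ (by omega)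
  refine ⟨cprb_H G V, h0, ?_, fun k hk => (hs k hk).trans (Nat.mul_le_mul_right _
    (Nat.pow_le_pow_right (by omega) (by omega)))⟩
  intro k
  induction k using Nat.strong_induction_on with
  | _ k ih =>
    intro hk
    rcases k with _ | m
    · rw [h0, map_one, hB]
    · rw [cprb_succ, map_sub, map_sum, hV _ hk, Polynomial.coeff_mul,
        Finset.Nat.sum_antidiagonal_eq_sum_range_succ (fun i j => F.coeff i * B.coeff j),
        sum_range_succ', hF, one_mul, Nat.sub_zero, sub_eq_iff_eq_add, add_comm]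
      congr 1
      refine sum_congr rfl fun i hi => ?_
      have hi' := mem_range.1 hi
      rw [map_mul, hG _ (by omega), ih (m - i) (by omega) (by omega), Nat.add_sub_add_right]

end

section

open Polynomial Finset
open Pool.Agent.P.MP_9344a7_nt.R
open Pool.Agent.P.MP_9344a7_nt.Hy
open Pool.Agent.P.MP_9344a7_nt.Od (GD Kp Fe)
open Pool.Agent.P.MP_9344a7_nt.Ac (Sb Pm Sp ED CD TD AD Sc Eg Dgs)
open scoped Classical ComplexConjugate

lemma cid2_sz {A : Type} [AddCommGroup A] [Fintype A] {P : ZA A} {q u K e : ℕ} (hP : Kp P)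
    (h : Sc A q u K) (h0 : 0 < K) (he : e ≤ K) (s : A) : sz (sg s * P ^ e) ≤ u :=
  (sz_sg_mul _ _).trans ((sz_pow _ _).trans
    ((Nat.pow_le_pow_left hP.sz _).trans (by simpa using h.om h0 he)))

lemma cid2_one {A : Type} [AddCommGroup A] [Fintype A] {χ : AddChar A ℂ} {P : ZA A} {n : ℕ}
    {G H V : ℕ → ZA A} {ω : A} (hn : 3 ≤ n) (hP : Kp P) (hχ : χ ∈ Fa A) (h : Pr2 χ n G H V ω) :
    P * (G (n - 1) * (V 1 - G 1)) =
      P * (sg ω * (br (G 1) * (br (V (n - 1)) - br (G (n - 1)) - br (md G H (n - 1))))) := by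
  have e1 := h.cv' (m := 1) one_pos (by omega)
  have e2 := h.cv' (m := n - 1) (by omega) (by omega)
  have e3 := h.sy (n - 1) (by omega)
  rw [md_one, map_zero, add_zero] at e1
  rw [show n - (n - 1) = 1 by omega] at e3
  refine Ac.kp_eq hP hχ ?_
  simp only [map_mul, map_sub, ev_br, ev_sg, e1, e2, map_add] at e3 ⊢
  linear_combination e3

lemma cid2_id {A : Type} [AddCommGroup A] [Fintype A] {χ : AddChar A ℂ} {P : ZA A} {n : ℕ}
    {G G' H V W : ℕ → ZA A} {ω ω' : A} (hn : 3 ≤ n) (hP : Kp P) (hχ : χ ∈ Fa A)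
    (h : Pr2 χ n G G' W ω) (h' : Pr2 χ n G H V ω') :
    br (V (n - 1)) * gb P (G 1) ω ω' =
      V 1 * (sg ω * P ^ 2 * (P * G (n - 1))) - sg ω * P ^ 1 * (P * G 1) * (P * G (n - 1)) -
        sg ω' * P ^ 2 * W 1 * (P * G (n - 1)) + sg ω' * P ^ 1 * (P * G 1) * (P * G (n - 1)) +
        gb P (G 1) ω ω' * md (fun i => br (G i)) (fun i => br (H i)) (n - 1) -
        gb P (G 1) ω ω' * md (fun i => br (G i)) (fun i => br (G' i)) (n - 1) +
        gb P (G 1) ω ω' * (sg 0 * br (W (n - 1))) := by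
  have s0 : (sg 0 : ZA A) = 1 := rfl
  have s1 : (sg (ω + ω') : ZA A) = sg ω * sg ω' := by
    simp [AddMonoidAlgebra.single_mul_single]
  rw [gb, s0, s1, ← br_md, ← br_md]
  linear_combination (sg ω' * P ^ 2) * cid2_one hn hP hχ h - (sg ω * P ^ 2) * cid2_one hn hP hχ h'

theorem p_ID2 (hCUM : S_CUM) (hPRD : S_PRD) (hPH : S_PH) (hPU : S_PU) :
    S_ID2 := by
  intro c n a b hn
  obtain ⟨K1, h1⟩ := hCUM n a
  obtain ⟨K2, h2⟩ := hPH c a (4 * a + b)
  obtain ⟨K3, h3⟩ := hPU c a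
  refine ⟨K1 + K2 + K3 + c + 8, fun q u w A _ _ Λ χ P z G G' H V ω' T hL hE hF hV sH sV hT => ?_⟩
  set K0 := K1 + K2 + K3 + 1 with hK0
  have hS := hL.sc
  have hC : Lv Λ u (u ^ K0) a K0 := hL.cut (by omega)
  have u0 : 0 < u := hS.pos (by omega)
  have u8 : 8 ≤ u := hS.le (by omega)
  have cu : c ≤ u := hS.le (by omega)
  have hq : 0 < q := hS.leq (x := 1) (by omega) (by omega)
  have hP := hF.kp
  have o : ∀ e ≤ 3, ∀ s : A, sz (sg s * P ^ e) ≤ u := fun e he s =>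
    cid2_sz hP hS (by omega) (by omega) s
  have szf : ∀ {e x : ℕ} {y : ZA A}, e ≤ 3 → sz y ≤ u * x → ∀ s : A,
      sz (sg s * P ^ e * y) ≤ u ^ 2 * x := fun he hy s =>
    (sz_mul _ _).trans ((Nat.mul_le_mul (o _ he s) hy).trans_eq (by ring))
  have szg : ∀ {e x : ℕ} {y : ZA A}, e ≤ 2 → sz y ≤ u * x → ∀ s : A,
      sz (sg s * P ^ e * (P * y)) ≤ u ^ 2 * x := fun {e} _ _ he hy s => by
    rw [← mul_assoc, mul_assoc (sg s), ← pow_succ]
    exact szf (by omega) hy s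
  have up : ∀ {x : ℕ} {y : ZA A}, sz y ≤ u * x → sz y ≤ u ^ 2 * x := fun hy =>
    hy.trans (Nat.mul_le_mul_right _ (Nat.le_self_pow two_ne_zero u))
  have g1 : sz (G 1) ≤ u * q := by simpa using hF.sz 1 (by omega)
  have g2 : sz (G (n - 1)) ≤ u * q ^ (n - 1) := hF.sz _ (by omega)
  have f2 : sz (P * G (n - 1)) ≤ u ^ 2 * q ^ (n - 1) := by
    have := szg (e := 0) (by omega) g2 0
    rwa [show (sg 0 : ZA A) = 1 from rfl, one_mul, pow_zero, one_mul] at this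
  have sg1 : sz (gb P (G 1) Λ.ω ω') ≤ u ^ 2 * q := szf le_rfl ((sz_br _).trans g1) _
  have w1 := (sz_W hE.gd).up cu
  have cw : ∀ e, e ≤ K0 + 1 → c * u ^ e ≤ q := fun e he =>
    (Nat.mul_le_mul_right _ cu).trans ((pow_succ' u e).symm.trans_le (hS.pow (by omega) (by omega)))
  have uw : ∀ e, e ≤ K0 + 1 → u ^ e ≤ w := fun e he =>
    (Nat.pow_le_pow_right u0 (by omega)).trans hL.mid
  have ov : ∀ e ≤ 3, ∀ s : A, u ^ K0 * sz (sg s * P ^ e) ≤ u ^ (K0 + 1) := fun e he s =>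
    (Nat.mul_le_mul_left _ (o e he s)).trans_eq (pow_succ u K0).symm
  have u2 := hF.u2.down (uw K0 (by omega))
  have hK : ∀ {K}, K ≤ K0 → Lv Λ u (u ^ K0) a K := fun h => hC.down h (by omega)
  have pu : ∀ s : A, ∃ B : Finset (A × A), u ^ 2 * #B ≤ q ^ n ∧ ∀ e ∈ Es Λ, e ∉ B → e.1 ∈ S0 Λ →
      e.2 ∈ V0 Λ → ∀ t ∈ T, (sg s * P ^ 1 * (P * G 1) * (P * G (n - 1))).coeff (e.1 + e.2 + t) =
        (sg s * P ^ 1 * z * z).coeff t := fun s =>
    h3 q n u _ A Λ _ _ _ _ T _ _ hn hE (hK (by omega)) (szg (by omega) g1 s) f2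
      (by simpa using szf (e := 1) (x := 1) (by omega) (hF.szc.trans_eq (mul_one u).symm) s)
      (hF.u1.mul _ ((ov 1 (by omega) s).trans (uw _ le_rfl))) u2 hT
  obtain ⟨B1, b1, c1⟩ := pu Λ.ω
  obtain ⟨B2, b2, c2⟩ := pu ω'
  obtain ⟨B3, b3, c3⟩ := h3 q n u _ A Λ (sg ω' * P ^ 2 * Λ.W 1) (sg ω' * P ^ 2 * 1) _ _ T _ _ hn hE
    (hK (by omega)) (szf (by omega) (by simpa using w1 1 (by omega)) _) f2
    (by rw [mul_one]; exact (o 2 (by omega) _).trans (Nat.le_self_pow two_ne_zero u))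
    (by simpa using (un_W hE.gd (show 1 ≤ n by omega) (fun x hx => Ac.w1_one (S0_sub hx))
      (cw _ le_rfl)).mul _ (ov 2 (by omega) ω')) u2 hT
  obtain ⟨B4, b4, c4⟩ := h1 q c u _ A Λ _ _ _ T hn hE (hK (by omega)) sg1 hF.sz.br sH.br hT
  obtain ⟨B5, b5, c5⟩ := h1 q c u _ A Λ _ _ _ T hn hE (hK (by omega)) sg1 hF.sz.br hF.sz'.br hT
  obtain ⟨L6, l6, d6⟩ := h2 q n u _ 1 A Λ (gb P (G 1) Λ.ω ω') (sg 0 * br (Λ.W (n - 1))) 0 T (V0 Λ)
    _ _ hn hE (hK (by omega)) (.inl ⟨rfl, rfl, rfl⟩) (by simpa using sg1)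
    (up ((sz_sg_mul _ _).trans ((sz_br _).trans (w1 _ (by omega)))))
    (un_brW hE hq (by omega) (by omega) (fun x hx => (mem_Pi.1 (V0_sub hx)).1)
      (cw _ (by omega)) _) hT
  obtain ⟨B6, b6, c6⟩ := d6 L6 le_rfl (l6.trans (Nat.pow_le_pow_right u0 (by omega)))
  obtain ⟨L7, l7, d7⟩ := h2 q n u _ 1 A Λ (V 1) (sg Λ.ω * P ^ 2 * (P * G (n - 1)))
    (al P z Λ.ω) T (V0 Λ) _ _ hn hE (hK (by omega)) (.inl ⟨rfl, rfl, rfl⟩) (up (sV 1 (by omega)))
    (szg le_rfl g2 _) (hF.u2.mul _ ((ov 2 (by omega) _).trans (uw _ le_rfl))) hT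
  obtain ⟨B8, L8, b8, l8, c8⟩ := (hPRD q n c u a (n - 1) A Λ (br (V (n - 1)))
    (gb P (G 1) Λ.ω ω') T hn u0 hE hL.td (up ((sz_br _).trans (sV _ (by omega))))
    (by rw [show n - (n - 1) = 1 by omega, pow_one]; exact sg1) hT).1 _ _ (.inr ⟨rfl, rfl, rfl⟩)
  refine ⟨L7 ∪ L8, (card_union_le _ _).trans ?_, fun L' hL' l' => ?_⟩
  · have := Nat.mul_le_mul_left (u ^ (4 * a)) u8
    rw [pow_succ]
    omega
  obtain ⟨B7, b7, c7⟩ := d7 L' (subset_union_left.trans hL')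
    (l'.trans (Nat.pow_le_pow_right u0 (by omega)))
  refine ⟨B1 ∪ B2 ∪ B3 ∪ B4 ∪ B5 ∪ B6 ∪ B7 ∪ B8, ?_, fun e he hB p1 p2 t ht => ?_⟩
  · have k : ∀ {m : ℕ} {B : Finset (A × A)}, 2 ≤ m → u ^ m * #B ≤ q ^ n → u ^ 2 * #B ≤ q ^ n :=
      fun hm h => (Nat.mul_le_mul_right _ (Nat.pow_le_pow_right u0 hm)).trans h
    have k := Ac.mul_card_union (Ac.mul_card_union (Ac.mul_card_union (Ac.mul_card_union
      (Ac.mul_card_union (Ac.mul_card_union (Ac.mul_card_union b1 b2) b3) b4) b5)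
      (k (by omega) b6)) (k (by omega) b7)) (k (by omega) b8)
    refine Nat.le_of_mul_le_mul_left ?_ u0
    rw [← mul_assoc, ← sq]
    exact k.trans ((show _ = 8 * q ^ n by ring).trans_le (Nat.mul_le_mul_right _ u8))
  · simp only [mem_union, not_or] at hB
    obtain ⟨⟨⟨⟨⟨⟨⟨f1, f2⟩, f3⟩, f4⟩, f5⟩, f6⟩, f7⟩, f8⟩ := hB
    rw [← c8 L' (subset_union_right.trans hL') e he f8 t ht, cid2_id hn hP hF.fa hF.pr hV,
      show al P z Λ.ω * pat (V 1) e.1 L' - Dd P z Λ.ω ω' = pat (V 1) e.1 L' * al P z Λ.ω -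
        sg Λ.ω * P ^ 1 * z * z - sg ω' * P ^ 2 * 1 * z + sg ω' * P ^ 1 * z * z by rw [Dd]; ring]
    simp only [AddMonoidAlgebra.coeff_add, AddMonoidAlgebra.coeff_sub, Finsupp.add_apply,
      Finsupp.sub_apply]
    rw [c1 e he f1 p1 p2 t ht, c2 e he f2 p1 p2 t ht, c3 e he f3 p1 p2 t ht, c4 e he f4 t ht,
      c5 e he f5 t ht, c6 e he f6 p2 t ht, c7 e he f7 p2 t ht, mul_zero]
    simp only [AddMonoidAlgebra.coeff_zero, Finsupp.coe_zero, Pi.zero_apply]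
    ring

end

section

open Polynomial Finset
open Pool.Agent.P.MP_9344a7_nt.R
open Pool.Agent.P.MP_9344a7_nt.Hy
open Pool.Agent.P.MP_9344a7_nt.Od (GD Kp Fe)
open Pool.Agent.P.MP_9344a7_nt.Ac (Sb Pm Sp ED CD TD AD Sc Eg Dgs)
open scoped Classical ComplexConjugate

lemma csgl_key {q n k : ℕ} {A A' : Type} [AddCommGroup A] [Fintype A] [AddCommGroup A']
    [Fintype A'] (Λ' : LD q n A') (j : A' →+ A) (L : Finset A) (x : A)
    (h1 : ∀ y, j y - x ∈ L → (Λ'.W k).coeff y ≠ 0 → (Λ'.W k).coeff y = 1)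
    (h2 : ∀ y y', j y - x ∈ L → j y' - x ∈ L → (Λ'.W k).coeff y ≠ 0 → (Λ'.W k).coeff y' ≠ 0 →
      y' = y) : Sgl (pat (Ej Λ' j k) x L) L := by
  by_cases e : Fr (Ej Λ' j k) x L
  · exact .inl (pat_eq_zero.2 e)
  simp only [Fr, not_forall] at e
  obtain ⟨t, ht, e⟩ := e
  obtain ⟨y, hy, e⟩ := Ej_ne.1 e
  have hy' : j y - x ∈ L := by rwa [hy, add_sub_cancel_left]
  refine .inr ⟨t, ht, za_eq fun s => ?_⟩
  rw [coeff_pat, coeff_sg]
  by_cases hs : s ∈ L
  · have h3 : ∀ y', j y' = x + s → y' ≠ y → (Λ'.W k).coeff y' = 0 := fun y' a b => by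
      by_contra c
      exact b (h2 y y' hy' (by rwa [a, add_sub_cancel_left]) e c)
    rw [if_pos hs, coeff_Ej]
    by_cases hts : t = s
    · rw [if_pos hts, sum_eq_single y (fun y' a b => h3 y' (mem_filter.1 a).2 b)
        (fun a => absurd (mem_filter.2 ⟨mem_univ _, hts ▸ hy⟩) a), h1 y hy' e]
    · rw [if_neg hts]
      refine sum_eq_zero fun y' a => h3 y' (mem_filter.1 a).2 fun b => hts ?_
      have := (mem_filter.1 a).2
      rw [b, hy] at this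
      exact add_left_cancel this
  · rw [if_neg hs, if_neg fun a : t = s => hs (a ▸ ht)]

theorem p_SGL :
    S_SGL := by
  intro q n c k A A' _ _ _ _ Λ' j L hD hj hk
  have hT : #(({d | j d ∈ image₂ (· - ·) L L} : Finset A').erase 0) ≤ 12 * #L ^ 2 :=
    card_erase_le.trans ((card_pre hj _).trans (Nat.mul_le_mul_left _
      ((card_image₂_le _ _ _).trans_eq (sq _).symm)))
  have hP := Ac.mul_card_biUnion (u := q) (Z := fun d =>
    ({a | (Λ'.W k).coeff a ≠ 0 ∧ (Λ'.W k).coeff (a + d) ≠ 0} : Finset A')) hT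
    fun d hd => hD.gd.pair hk (mem_erase.1 hd).1
  have hY := Ac.mul_card_union (hD.big hk) hP
  have hX := Ac.mul_card_biUnion (u := q) (I := L) (Z := fun t => image (fun y => j y - t) _)
    le_rfl fun t _ => (Nat.mul_le_mul_left q card_image_le).trans hY
  refine le_trans (Nat.mul_le_mul_left _ (card_le_card fun x hx => ?_)) (hX.trans ?_)
  · by_contra e
    have e' : ∀ y, j y - x ∈ L → y ∉ _ := fun y hy a =>
      e (mem_biUnion.2 ⟨j y - x, hy, mem_image.2 ⟨y, a, sub_sub_cancel _ _⟩⟩)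
    refine (mem_filter.1 hx).2 (csgl_key Λ' j L x (fun y hy a => ?_) fun y y' hy hy' a a' => ?_)
    · by_contra b
      exact e' y hy (mem_union_left _ (mem_filter.2 ⟨mem_univ _, a, b⟩))
    · by_contra b
      refine e' y hy (mem_union_right _ (mem_biUnion.2 ⟨y' - y, mem_erase.2
        ⟨sub_ne_zero.2 b, mem_filter.2 ⟨mem_univ _, mem_image₂.2 ⟨_, hy', _, hy, ?_⟩⟩⟩,
        mem_filter.2 ⟨mem_univ _, a, by rwa [add_sub_cancel]⟩⟩))
      rw [map_sub, sub_sub_sub_cancel_right]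
  · have h : #L ≤ #L ^ 3 := Nat.le_self_pow (by norm_num) _
    calc #L * (c * q ^ k + 12 * #L ^ 2 * (c * q ^ k))
        = #L * (c * q ^ k) + 12 * #L ^ 3 * (c * q ^ k) := by ring
      _ ≤ #L ^ 3 * (c * q ^ k) + 12 * #L ^ 3 * (c * q ^ k) :=
        Nat.add_le_add_right (Nat.mul_le_mul_right _ h) _
      _ = 13 * c * #L ^ 3 * q ^ k := by ring

end

end Pool.Agent.P.MP_9344a7_nt.Cy
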