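import Pool.Agent.P.MP_9344a7_nt.Cy.IfaceA

/-! Steps FTZ, RDG2, RED3, PTX, ID1. -/

set_option linter.unusedVariables false
set_option linter.unusedSectionVars false

namespace Pool.Agent.P.MP_9344a7_nt.Cy

section

open Polynomial Finset
open Pool.Agent.P.MP_9344a7_nt.R
open Pool.Agent.P.MP_9344a7_nt.Hy
open Pool.Agent.P.MP_9344a7_nt.Od (GD Kp Fe)
open Pool.Agent.P.MP_9344a7_nt.Ac (Sb Pm Sp ED CD TD AD Sc Eg Dgs)
open scoped Classical ComplexConjugate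

theorem p_FTZ :
    S_FTZ := by
  intro q n s w A _ _ Λ y z X hX hq hU hy h8 hw
  by_contra! hz
  obtain ⟨T, t1, t2⟩ := exists_subset_card_eq (s := z.coeff.support) (n := 4 * s + 1) hz
  have a1 := hU.win T
  have a2 := CoreC.shift_est Λ.sid y.coeff.support T
  set B := {x ∈ X | ∃ t ∈ T, y.coeff (x + t) ≠ z.coeff t}
  have a3 : #T * #(X \ B) ≤ ∑ b ∈ T, CoreC.uu Λ.S y.coeff.support b := by
    refine card_nsmul_le_sum _ _ _ fun t ht => card_le_card_of_injOn (· + t) (fun x hx => ?_)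
      fun _ _ _ _ => add_right_cancel
    obtain ⟨b1, b2⟩ := mem_sdiff.1 hx
    refine mem_filter.2 ⟨Finsupp.mem_support_iff.2 fun e => b2 (mem_filter.2 ⟨b1, t, ht, ?_⟩), ?_⟩
    · rw [e]
      exact (Finsupp.mem_support_iff.1 (t1 ht)).symm
    · simpa using hX b1
  have a4 := le_card_sdiff B X
  have a5 : #y.coeff.support ≤ s * q := hy
  rw [t2] at a1 a2 a3
  have a6 : 8 * (4 * s + 1) * #B ≤ q := Nat.le_of_mul_le_mul_left
    (le_trans (by nlinarith [Nat.mul_le_mul_right #B h8]) a1) (4 * s).succ_pos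
  have a7 : #X ≤ #(X \ B) + #B := by omega
  have a8 := Nat.mul_le_mul_left (4 * s + 1) (hq.trans (Nat.mul_le_mul_left 2 a7))
  nlinarith [Nat.zero_le (s * q), Nat.zero_le (s * s)]

end

section

open Polynomial Finset
open Pool.Agent.P.MP_9344a7_nt.R
open Pool.Agent.P.MP_9344a7_nt.Hy
open Pool.Agent.P.MP_9344a7_nt.Od (GD Kp Fe)
open Pool.Agent.P.MP_9344a7_nt.Ac (Sb Pm Sp ED CD TD AD Sc Eg Dgs)
open scoped Classical ComplexConjugate

theorem p_RDG2 (hGAM2 : S_GAM2) :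
    S_RDG2 := by
  intro q n r A _ _ Λ χ F G H hA hq hn hD l2 r3 hχ ⟨hF, hL, hG⟩ hH H0 Hd hFH
  obtain ⟨-, Γ, c1, c2⟩ := hGAM2 A r hA l2
  obtain ⟨f1, f2, -⟩ := Hy.a_FAC q n A Λ χ hχ
  have zF : Zc χ F := zc_iff.2 fun i => ⟨G i, hG i⟩
  obtain ⟨P, p0, rfl⟩ := f1 F zF hF.c0
  have fe : ∀ ψ ∈ Fa A, Fe q n (P.map (ev ψ)) := fun ψ hψ => by
    refine ⟨by rw [coeff_map, p0, map_one], natDegree_eq_of_le_of_coeff_ne_zero
      (natDegree_le_iff_coeff_eq_zero.2 fun k hk => ?_) fun e => ?_, fun i j hij => ?_⟩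
    · have := coeff_eq_zero_of_natDegree_lt (hF.deg.trans_lt hk)
      rw [coeff_map] at this ⊢
      exact (Ac.fa_tr hχ hψ (this.trans (map_zero _).symm)).trans (map_zero _)
    · rw [coeff_map] at e
      have := (Ac.fa_tr hψ hχ (e.trans (map_zero _).symm)).trans (map_zero _)
      rw [← coeff_map, ← hF.deg, coeff_natDegree, leadingCoeff_eq_zero] at this
      simpa [this] using hF.c0
    · have := hF.eq i j hij
      simp only [coeff_map, conj_ev] at this ⊢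
      simpa using Ac.fa_tr hχ hψ (y := (q : ZA A) ^ j * P.coeff i)
        (z := P.coeff n * pu (-AddMonoidHom.id A) (P.coeff j)) (by simpa using this)
  have dv : ∀ R : (ZA A)[X], P.map (ev χ) ∣ R.map (ev χ) → ∀ ψ ∈ Fa A,
      P.map (ev ψ) ∣ R.map (ev ψ) := fun R ⟨B, hB⟩ ψ hψ => by
    obtain ⟨B, rfl⟩ := zF.of_mul hF.c0 ⟨R, hB⟩
    rw [f2 R (P * B) (hB.trans (Polynomial.map_mul _).symm) ψ hψ, Polynomial.map_mul]
    exact dvd_mul_right _ _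
  have co : ∀ ψ ∈ Fa A, ∀ ψ' ∈ Fa A, P.map (ev ψ) ≠ P.map (ev ψ') →
      IsCoprime (P.map (ev ψ)) (P.map (ev ψ')) := fun ψ hψ ψ' hψ' hne => by
    rw [isCoprime_iff_aeval_ne_zero_of_isAlgClosed ℂ ℂ]
    intro α
    by_contra! e
    simp only [coe_aeval_eq_eval] at e
    obtain ⟨γ, hγ⟩ := ((Hy.a_KER A ψ hψ).1 ψ' hψ').2
    refine hne (eq_of_dvd (Ac.a_MSF.2 q n A Λ hq hn hD ψ hψ _ _ α ⟨P, rfl⟩ (fe ψ hψ)
      (dv Λ.LZ hL ψ hψ) ⟨P.map (pu (γ : A →+ A)), ?_⟩ (Ac.a_MSF.1 q n _ hq (fe ψ' hψ')) e.1 e.2)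
      (fe ψ hψ).c0 (fe ψ' hψ').c0 ((fe ψ' hψ').deg.trans (fe ψ hψ).deg.symm).le)
    ext i
    simp only [coeff_map, ev_pu, hγ]
  let ch : (A ≃+ A) → AddChar A ℂ := fun γ => χ.compAddMonoidHom (γ : A →+ A)
  have hch : ∀ γ, ch γ ∈ Fa A := fun γ => mem_Fa.2 ((mem_Fa.1 hχ).comp γ.injective)
  let f : (A ≃+ A) → ℂ[X] := fun γ => P.map (ev (ch γ))
  have dH : ∀ γ ∈ Γ, f γ ∣ H.map (ev χ) := fun γ hγ => by
    refine (dv H hFH _ (hch γ)).trans (dvd_of_eq (Eq.symm ?_))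
    ext i
    rw [coeff_map, coeff_map, ev_eq, ev_eq]
    refine sum_congr rfl fun b _ => ?_
    by_cases e : (H.coeff i).coeff b = 0
    · simp [e]
    · obtain ⟨a, rfl⟩ := hH i b e
      simp [ch, c2 γ hγ, -map_nsmul]
  have two : #(Γ.image f) ≤ 2 := not_lt.1 fun h => by
    obtain ⟨_, _, _, a1, a2, a3, b1, b2, b3⟩ := two_lt_card_iff.1 h
    obtain ⟨x, hx, rfl⟩ := mem_image.1 a1
    obtain ⟨y, hy, rfl⟩ := mem_image.1 a2
    obtain ⟨z, hz, rfl⟩ := mem_image.1 a3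
    have ne : ∀ γ, f γ ≠ 0 := fun γ e => by simpa [show P.map _ = 0 from e] using (fe _ (hch γ)).c0
    have := natDegree_le_of_dvd (((co _ (hch x) _ (hch z) b2).mul_left
      (co _ (hch y) _ (hch z) b3)).mul_dvd ((co _ (hch x) _ (hch y) b1).mul_dvd (dH x hx) (dH y hy))
      (dH z hz)) H0
    rw [natDegree_mul (mul_ne_zero (ne x) (ne y)) (ne z), natDegree_mul (ne x) (ne y),
      (fe _ (hch x)).deg, (fe _ (hch y)).deg, (fe _ (hch z)).deg] at this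
    omega
  obtain ⟨γ, hγ, g, hg, ne, eq⟩ := exists_ne_map_eq_of_card_lt_of_maps_to (t := Γ.image f) (f := f)
    (by omega) fun x hx => mem_image_of_mem f hx
  refine ⟨γ.trans g.symm, fun e => ne (AddEquiv.ext fun a => ?_), fun a => ?_,
    Ac.fa_tr (hch g) hχ ?_⟩
  · exact g.symm_apply_eq.1 (DFunLike.congr_fun e a)
  · rw [AddEquiv.trans_apply, c2 γ hγ, g.symm_apply_eq, c2 g hg]
  · have e : ∀ δ, ev (ch δ) (G 1) = (f δ).coeff 1 := fun δ => by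
      rw [coeff_map]
      exact Ac.fa_tr hχ (hch δ) ((hG 1).trans (coeff_map _ _))
    rw [ev_pu, e g, ← eq, ← e γ]
    congr 2
    ext a
    simp [ch]

end

section

open Polynomial Finset
open Pool.Agent.P.MP_9344a7_nt.R
open Pool.Agent.P.MP_9344a7_nt.Hy
open Pool.Agent.P.MP_9344a7_nt.Od (GD Kp Fe)
open Pool.Agent.P.MP_9344a7_nt.Ac (Sb Pm Sp ED CD TD AD Sc Eg Dgs)
open scoped Classical ComplexConjugate

theorem p_RED3 (hFTS : S_FTS) (hGAM2 : S_GAM2) (hRDG2 : S_RDG2) (hRDW : S_RDW) (hRDB : S_RDB) :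
    S_RED3 := by
  intro c n E hn
  obtain ⟨M, h1⟩ := hFTS c n (2 * E + 16) hn
  obtain ⟨K, h2⟩ := hRDB c n (by omega)
  refine ⟨M, M + K + 8 * E + 20, fun q u w A A' _ _ _ _ Λ Λ' χ P z F G G' j hA sc hw ed cd gn dg pq
    fd fp hz hc x1 dv => ?_⟩
  have q0 : 0 < q := sc.leq (by omega) (by omega)
  have u9 : 9 ≤ u := sc.le (by omega)
  have hr := j.range.card_mul_index
  have hk : Nat.card j.ker = j.range.index := by
    have := j.ker.card_mul_index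
    rw [AddSubgroup.index_ker, hc, ← hr, mul_comm] at this
    exact Nat.eq_of_mul_eq_mul_left Nat.card_pos this
  have l1 := Hy.a_LB q n A' Λ' q0 _ x1
  have s0 := (h1 q A Λ (sc.leq (by omega) (by omega)) ed cd).1
  have sp : ∀ r, r ∣ j.range.index → ∀ i b, ((Λ'.LZ.map (pu j)).coeff i).coeff b ≠ 0 →
      ∃ a, b = r • a := fun r h i b hb => by
    rw [coeff_map] at hb
    obtain ⟨v, -, hv⟩ := mem_image.1 (Finsupp.mapDomain_support (Finsupp.mem_support_iff.2 hb))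
    exact Od.ored_mul hA.cyc j.range hr h ⟨v, hv⟩
  have a1 : (Λ'.LZ.map (pu j)).map (ev χ) ≠ 0 := by
    rw [Ac.aadd1_map]
    exact fun e => by simpa [e] using l1.1
  have a2 : ((Λ'.LZ.map (pu j)).map (ev χ)).natDegree ≤ 2 * n := by
    rw [Ac.aadd1_map, l1.2.1]
  have a3 : F ∣ (Λ'.LZ.map (pu j)).map (ev χ) := by rwa [Ac.aadd1_map]
  have key : ∀ r, r ∣ j.range.index → 3 ≤ r.totient → ¬ r ≤ u ^ 5 := fun r h h3 h5 => by
    have hd : r ∣ Nat.card A := hr ▸ h.mul_left _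
    obtain ⟨δ, d1, d2, d3⟩ := hRDG2 q n r A Λ χ F G _ hA.cyc q0 (by omega) dg hd h3 fd.fa fp
      (sp r h) a1 a2 a3
    exact d1 (hRDW q n u w r E A Λ χ P z G G' δ fd hz gn
      ((Nat.mul_le_mul_right _ le_self_add).trans s0)
      ((one_mul _).symm.trans_le (sc.om1 (by omega) (by omega))) (sc.le (by omega))
      ((Nat.pow_le_pow_right (by omega) (by omega)).trans hw)
      ((hGAM2 A r hA.cyc hd).1.trans h5) d2 d3)
  have u5 : 9 ≤ u ^ 5 := u9.trans (Nat.le_self_pow (by omega) u)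
  refine hk ▸ Nat.le_of_dvd (by omega) ((Nat.dvd_iff_prime_pow_dvd_dvd _ _).2 fun p k hp h => ?_)
  rcases k.eq_zero_or_pos with rfl | k0
  · simp
  have h3 := (dvd_pow_self p k0.ne').trans h
  by_cases e : p < 4
  · have := hp.two_le
    interval_cases p
    · by_contra e
      have k3 : 3 ≤ k := by
        by_contra! k3
        interval_cases k <;> simp at e
      exact key 8 ((pow_dvd_pow 2 k3).trans h) (by decide) (by omega)
    · by_contra e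
      have k3 : 2 ≤ k := by
        by_contra! k3
        interval_cases k
        simp at e
      exact key 9 ((pow_dvd_pow 3 k3).trans h) (by decide) u5
  exact absurd (h2 q u w p A Λ χ P z F G G' _ hA (sc.down (by omega))
    ((Nat.le_self_pow (by omega) u).trans hw) ed dg pq fd fp (fun e => hz (by rw [e, map_zero]))
    ((Nat.mul_le_mul_right _ le_add_self).trans s0) hp (hr ▸ h3.mul_left _) (sp p h3) a1 a2 a3)
    (key p h3 (by rw [Nat.totient_prime hp]; omega))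

end

section

open Polynomial Finset
open Pool.Agent.P.MP_9344a7_nt.R
open Pool.Agent.P.MP_9344a7_nt.Hy
open Pool.Agent.P.MP_9344a7_nt.Od (GD Kp Fe)
open Pool.Agent.P.MP_9344a7_nt.Ac (Sb Pm Sp ED CD TD AD Sc Eg Dgs)
open scoped Classical ComplexConjugate

theorem p_PTX (hPRA : S_PRA) (hPRB : S_PRB) (hRED3 : S_RED3) :
    S_PTX := by
  intro c n E hn
  obtain ⟨M, K, h⟩ := hRED3 c n E hn
  refine ⟨M, K + c + 2 * n, fun q u w A A' _ _ _ _ Λ Λ' χ P z z' F B G G' hA sc hw ed cd gn gd sx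
    hz eP => ?_⟩
  have q0 : 0 < q := sc.leq (by omega) (by omega)
  have hc := card_eq q0 (by omega) eP
  have hχ := sx.d1.fa
  have := hA.nt
  obtain ⟨α, hα⟩ := IsAlgClosed.exists_root F
    (natDegree_pos_iff_degree_pos.1 (by rw [sx.p1.fe.deg]; omega)).ne'
  obtain ⟨j, x1, hα'⟩ := Ac.aadd1_root hc eP hχ (Fa_ne hχ)
    (eval_eq_zero_of_dvd_of_eval_eq_zero sx.p1.dv hα)
  have l1 := Hy.a_LB q n A' Λ' q0 _ x1
  obtain ⟨B', hB⟩ := Ac.a_MSF.2 q n A Λ q0 (by omega) sx.dg χ hχ F _ α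
    (zc_iff.2 fun i => ⟨G i, sx.p1.ev i⟩) sx.p1.fe sx.p1.dv ⟨_, Ac.aadd1_map Λ' χ j⟩ l1.2.2.1 hα hα'
  have hV : ∀ k ≤ n, ev χ (Ej Λ' j k) = (F * B').coeff k := fun k hk => by
    rw [← hB, Ej, ev_pu, Λ'.coeff_L _ (by omega)]
  have b0 : B'.coeff 0 = 1 := by
    have := l1.1
    rwa [hB, mul_coeff_zero, sx.p1.fe.c0, one_mul] at this
  obtain ⟨H, h0, h1, h2⟩ := hPRB q n u A χ F B' G (Ej Λ' j) (by omega) (sc.le (by omega))
    sx.p1.fe.c0 b0 (fun k _ => sx.p1.ev k) hV sx.d1.sz ((sz_Ej gd j).up (sc.le (by omega)))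
  have l2 := Od.a_FEB.1 q n A' Λ' q0 _ x1
  rw [hB] at l2
  exact ⟨j, H, B', ⟨h q u w A A' Λ Λ' χ P z F G G' j hA (sc.down (by omega))
    ((Nat.pow_le_pow_right (sc.pos (by omega)) (by omega)).trans hw) ed cd gn sx.dg sx.pq sx.d1
    sx.p1 hz hc x1 ⟨B', hB⟩, hPRA q n A χ F B' G H _ _ q0 sx.p1.fe l2.1 l2.2 sx.d1.pr.g0 h0
      (fun k _ => sx.p1.ev k) h1 hV, h2⟩, x1, hB, h1⟩

end

section

open Polynomial Finset
open Pool.Agent.P.MP_9344a7_nt.R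
open Pool.Agent.P.MP_9344a7_nt.Hy
open Pool.Agent.P.MP_9344a7_nt.Od (GD Kp Fe)
open Pool.Agent.P.MP_9344a7_nt.Ac (Sb Pm Sp ED CD TD AD Sc Eg Dgs)
open scoped Classical ComplexConjugate

section

variable {A : Type} [AddCommGroup A] [Fintype A] {n u Q : ℕ} {χ : AddChar A ℂ} {P : ZA A}
  {G G' H V W : ℕ → ZA A} {ω ω' : A}

lemma cid1_id (hn : 3 ≤ n) (hχ : χ ∈ Fa A) (hP : Kp P) (h : Pr2 χ n G G' W ω)
    (h' : Pr2 χ n G H V ω') :
    V (n - 1) * (sg ω * P ^ 2 * (P * G 1)) + sg ω' * P ^ 2 * (P * G 1) * md G G' (n - 1) +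
      P ^ 3 * br (G (n - 1)) * (sg (ω + ω') * br (W 1)) =
    (sg ω - sg ω') * P * (P * G 1) * (P * G (n - 1)) + sg ω * P ^ 2 * (P * G 1) * md G H (n - 1) +
      br (V 1) * gb P (G (n - 1)) ω ω' + sg ω' * P ^ 2 * (P * G 1) * W (n - 1) := by
  have e : P * (V (n - 1) * (sg ω * G 1) + sg ω' * G 1 * md G G' (n - 1) +
      br (G (n - 1)) * (sg (ω + ω') * br (W 1))) = P * ((sg ω - sg ω') * G 1 * G (n - 1) +
      sg ω * G 1 * md G H (n - 1) + br (V 1) * (sg (ω + ω') * br (G (n - 1))) +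
      sg ω' * G 1 * W (n - 1)) := by
    refine Ac.kp_eq hP hχ ?_
    have a1 := h.sy 1 (by omega)
    have a2 := h'.sy 1 (by omega)
    simp only [map_add, map_mul, map_sub, ev_br, ev_sg, AddChar.map_add_eq_mul,
      h.cv' one_pos (by omega : 1 ≤ n), h'.cv' one_pos (by omega : 1 ≤ n), md_one, map_zero,
      h.cv' (by omega : 0 < n - 1) (Nat.sub_le _ _),
      h'.cv' (by omega : 0 < n - 1) (Nat.sub_le _ _)] at a1 a2 ⊢
    linear_combination χ ω * a2 - χ ω' * a1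
  rw [gb]
  linear_combination P ^ 2 * e

lemma cid1_sz (hP : Kp P) (h3 : om A ^ 3 ≤ u) {y : ZA A} (hy : sz y ≤ u * Q) :
    sz (P ^ 3 * y) ≤ u ^ 2 * Q :=
  (sz_mul _ _).trans ((Nat.mul_le_mul ((sz_pow _ _).trans ((Nat.pow_le_pow_left hP.sz _).trans h3))
    hy).trans_eq (by ring))

lemma cid1_sz' (hP : Kp P) (h3 : om A ^ 3 ≤ u) {y : ZA A} (hy : sz y ≤ u * Q) (a : A) :
    sz (sg a * P ^ 2 * (P * y)) ≤ u ^ 2 * Q := by
  rw [show sg a * P ^ 2 * (P * y) = sg a * (P ^ 3 * y) by ring]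
  exact (sz_sg_mul _ _).trans (cid1_sz hP h3 hy)

end

theorem p_ID1 (hCUM : S_CUM) (hPRD : S_PRD) (hPH : S_PH) (hPU : S_PU) :
    S_ID1 := by
  intro c n a b hn
  obtain ⟨K1, h1⟩ := hCUM n a
  obtain ⟨K2, h2⟩ := hPH c a b
  obtain ⟨K3, h3⟩ := hPU c a
  refine ⟨K1 + K2 + K3 + c + 7, fun q u w A _ _ Λ χ P z G G' H V ω' T hL hE hF hH sH sV hT => ?_⟩
  set K := K1 + K2 + K3 + c + 6 with hK
  have u7 : 7 ≤ u := hL.sc.le (by omega)
  have o3 : om A ^ 3 ≤ u := by simpa using hL.sc.om (x := 1) (e := 3) (by omega) (by omega)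
  have o2 : 2 * om A ^ 2 ≤ u := hL.sc.om (by omega) (by omega)
  have o1 : om A ≤ om A ^ 2 := Nat.le_self_pow two_ne_zero _
  have uu : ∀ Q, u * Q ≤ u ^ 2 * Q := fun Q =>
    Nat.mul_le_mul_right _ (Nat.le_self_pow two_ne_zero _)
  have l0 : Lv Λ u (u ^ K) a K := hL.cut (by omega)
  have l1 := l0.down (K' := K1) (by omega) (by omega)
  have l2 := l0.down (K' := K2) (by omega) (by omega)
  have l3 := l0.down (K' := K3) (by omega) (by omega)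
  have w0 : ∀ s ≤ u, u ^ K * s ≤ w := fun s hs =>
    (Nat.mul_le_mul_left _ hs).trans ((pow_succ u K).symm.trans_le hL.mid)
  have cu : c ≤ u := hL.sc.le (by omega)
  have cq : c * u ^ K ≤ q :=
    (Nat.mul_le_mul_right _ cu).trans ((pow_succ' u K).symm.trans_le hL.sc.hi)
  have n1 : n - (n - 1) = 1 := by omega
  have g1 : sz (G 1) ≤ u * q := pow_one q ▸ hF.sz 1 (by omega)
  have gm := hF.sz (n - 1) (Nat.sub_le _ _)
  have p2 : ∀ s : A, sz (sg s * P ^ 2) ≤ u := fun s => (sz_sg_mul _ _).trans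
    ((sz_pow _ _).trans ((Nat.pow_le_pow_left hF.kp.sz _).trans (by omega)))
  have p1 : sz (sg Λ.ω - sg ω') ≤ 2 :=
    (sz_sub _ _).trans (add_le_add (sz_single _ _) (sz_single _ _))
  have p3 : sz ((sg Λ.ω - sg ω') * P) ≤ 2 * om A := (sz_mul _ _).trans (Nat.mul_le_mul p1 hF.kp.sz)
  have zz : ∀ y : ZA A, sz y ≤ u → sz (y * z) ≤ u ^ 2 := fun y hy =>
    (sz_mul _ _).trans ((Nat.mul_le_mul hy hF.szc).trans_eq (pow_two u).symm)
  obtain ⟨L1, c1, d1⟩ := h2 q n u _ (n - 1) A Λ (V (n - 1)) (sg Λ.ω * P ^ 2 * (P * G 1))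
    (sg Λ.ω * P ^ 2 * z) T (S0 Λ) _ _ hn hE l2
    (.inr ⟨rfl, rfl, rfl⟩) ((sV _ (Nat.sub_le _ _)).trans (uu _))
    (by rw [n1, pow_one]; exact cid1_sz' hF.kp o3 g1 Λ.ω)
    (by rw [n1, pow_one]; exact hF.u1.mul (sg Λ.ω * P ^ 2) (w0 _ (p2 _))) hT
  obtain ⟨L2, c2, d2⟩ := h2 q n u _ (n - 1) A Λ (P ^ 3 * br (G (n - 1)))
    (sg (Λ.ω + ω') * br (Λ.W 1)) 0 T (S0 Λ) _ _ hn hE l2
    (.inr ⟨rfl, rfl, rfl⟩) (cid1_sz hF.kp o3 ((sz_br _).trans gm))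
    (n1.symm ▸ (sz_sg_mul _ _).trans ((sz_br _).trans ((sz_W hE.gd 1 (by omega)).trans
      ((Nat.mul_le_mul_right _ cu).trans (uu _)))))
    (n1.symm ▸ un_brW hE (hL.sc.leq (x := 1) (by omega) (by omega)) one_pos (by omega)
      (fun x hx => Ac.w1_one (S0_sub hx)) cq (Λ.ω + ω')) hT
  obtain ⟨B3, L3, b3, c3, d3⟩ := (hPRD q n c u a 1 A Λ (br (V 1)) (gb P (G (n - 1)) Λ.ω ω') T hn
    (by omega) hE hL.td ((sz_br _).trans ((sV 1 (by omega)).trans (uu _)))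
    (by rw [gb, mul_assoc]; exact (sz_sg_mul _ _).trans (cid1_sz hF.kp o3 ((sz_br _).trans gm)))
    hT).1 _ _ (.inl ⟨rfl, rfl, rfl⟩)
  obtain ⟨B4, b4, d4⟩ := h1 q c u _ A Λ _ G G' T hn hE l1 (cid1_sz' hF.kp o3 g1 ω') hF.sz hF.sz' hT
  obtain ⟨B5, b5, d5⟩ := h1 q c u _ A Λ _ G H T hn hE l1 (cid1_sz' hF.kp o3 g1 Λ.ω) hF.sz sH hT
  obtain ⟨B6, b6, d6⟩ := h3 q n u _ A Λ _ _ _ _ T _ _ hn hE l3 (cid1_sz' hF.kp o3 g1 ω')
    ((sz_W hE.gd _ (Nat.sub_le _ _)).trans ((Nat.mul_le_mul_right _ cu).trans (uu _)))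
    (zz _ (p2 ω')) (hF.u1.mul (sg ω' * P ^ 2) (w0 _ (p2 _)))
    (un_W hE.gd (Nat.sub_le _ _) (fun x hx => (mem_Pi.1 (V0_sub hx)).1) cq) hT
  obtain ⟨B7, b7, d7⟩ := h3 q n u _ A Λ _ _ _ _ T _ _ hn hE l3
    ((sz_mul _ _).trans ((Nat.mul_le_mul p3 ((sz_mul _ _).trans (Nat.mul_le_mul hF.kp.sz g1))).trans
      ((by ring : _ = 2 * om A ^ 2 * (u * q)).trans_le
        ((Nat.mul_le_mul_right _ o2).trans_eq (by ring)))))
    ((sz_mul _ _).trans ((Nat.mul_le_mul (hF.kp.sz.trans (by omega : _ ≤ u)) gm).trans_eq (by ring)))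
    (zz _ (p3.trans (by omega))) (hF.u1.mul ((sg Λ.ω - sg ω') * P) (w0 _ (p3.trans (by omega))))
    (hF.u2.down (by simpa using w0 1 (by omega))) hT
  refine ⟨L1 ∪ L2 ∪ L3, ?_, fun L' hL' cL => ?_⟩
  · have := card_union_le (L1 ∪ L2) L3
    have := card_union_le L1 L2
    have := Nat.mul_le_mul_left (u ^ (4 * a)) u7
    rw [pow_succ]
    omega
  obtain ⟨B1, b1, e1⟩ := d1 L' ((subset_union_left.trans subset_union_left).trans hL') cL
  obtain ⟨B2, b2, e2⟩ := d2 L' ((subset_union_right.trans subset_union_left).trans hL') cL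
  have dn : ∀ {k x : ℕ}, 2 ≤ k → u ^ k * x ≤ q ^ n → u ^ 2 * x ≤ q ^ n := fun hk h =>
    (Nat.mul_le_mul_right _ (Nat.pow_le_pow_right (by omega) hk)).trans h
  refine ⟨B1 ∪ B2 ∪ B3 ∪ B4 ∪ B5 ∪ B6 ∪ B7, Nat.le_of_mul_le_mul_left ?_ (by omega : 0 < u),
    fun e he hB s1 s2 t ht => ?_⟩
  · rw [← mul_assoc, ← pow_two]
    refine (Ac.mul_card_union (Ac.mul_card_union (Ac.mul_card_union (Ac.mul_card_union
      (Ac.mul_card_union (Ac.mul_card_union (dn (by omega) b1) (dn (by omega) b2))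
      (dn (by omega) b3)) b4) b5) b6) b7).trans ?_
    have := Nat.mul_le_mul_right (q ^ n) u7
    omega
  simp only [mem_union, not_or] at hB
  obtain ⟨⟨⟨⟨⟨⟨f1, f2⟩, f3⟩, f4⟩, f5⟩, f6⟩, f7⟩ := hB
  have k := congrArg (·.coeff (e.1 + e.2 + t)) (cid1_id hn hF.fa hF.kp hF.pr hH)
  simp only [AddMonoidAlgebra.coeff_add, Finsupp.add_apply] at k
  rw [e1 e he f1 s1 t ht, e2 e he f2 s1 t ht, d3 L' (subset_union_right.trans hL') e he f3 t ht,
    d4 e he f4 t ht, d5 e he f5 t ht, d6 e he f6 s1 s2 t ht, d7 e he f7 s1 s2 t ht] at k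
  rw [show Dd P z Λ.ω ω' = (sg Λ.ω - sg ω') * P * z * z + sg ω' * P ^ 2 * z * 1 by rw [Dd]; ring,
    mul_comm, al]
  simp only [AddMonoidAlgebra.coeff_add, AddMonoidAlgebra.coeff_sub, Finsupp.add_apply,
    Finsupp.sub_apply, mul_zero, AddMonoidAlgebra.coeff_zero, Finsupp.zero_apply] at k ⊢
  linarith

end

end Pool.Agent.P.MP_9344a7_nt.Cy
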