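import Pool.Agent.P.MP_9344a7_nt.Cy.Base

/-! The additive steps for an arbitrary cyclic group. -/

namespace Pool.Agent.P.MP_9344a7_nt.Cy

open Polynomial Finset
open Pool.Agent.P.MP_9344a7_nt.R
open Pool.Agent.P.MP_9344a7_nt.Hy
open Pool.Agent.P.MP_9344a7_nt.Od (GD Kp Fe)
open Pool.Agent.P.MP_9344a7_nt.Ac (Sb Pm Sp ED CD TD AD Sc Eg Dgs)
open scoped Classical ComplexConjugate

set_option linter.unusedVariables false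

/-! ### The two factors -/

-- deps:
def S_PK4 : Prop := ∀ (A : Type) [AddCommGroup A] [Fintype A], IsAddCyclic A → ∃ P : ZA A, Pq P

-- deps:
def S_DEG2 : Prop := ∀ c n a : ℕ, 2 ≤ n → ∃ K : ℕ, ∀ (q u M : ℕ) (A : Type) [AddCommGroup A]
  [Fintype A] (Λ : LD q n A), Big A c q n 0 → Sc A q u K → AD Λ c M u a → Dgs Λ

-- deps:
def S_PRA : Prop := ∀ (q n : ℕ) (A : Type) [AddCommGroup A] [Fintype A] (χ : AddChar A ℂ)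
  (F B : ℂ[X]) (G H V : ℕ → ZA A) (w : A), 0 < q → Fe q n F → Fe q (2 * n) (F * B) →
  (F * B).coeff (2 * n) = q ^ n * χ w → G 0 = 1 → H 0 = 1 → (∀ k ≤ n, ev χ (G k) = F.coeff k) →
  (∀ k ≤ n, ev χ (H k) = B.coeff k) → (∀ k ≤ n, ev χ (V k) = (F * B).coeff k) → Pr2 χ n G H V w

-- deps:
def S_PRB : Prop := ∀ (q n u : ℕ) (A : Type) [AddCommGroup A] [Fintype A] (χ : AddChar A ℂ)
  (F B : ℂ[X]) (G V : ℕ → ZA A), 0 < n → 2 * n ≤ u → F.coeff 0 = 1 → B.coeff 0 = 1 →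
  (∀ k ≤ n, ev χ (G k) = F.coeff k) → (∀ k ≤ n, ev χ (V k) = (F * B).coeff k) → Sz G q n u →
  Sz V q n u → ∃ H : ℕ → ZA A, H 0 = 1 ∧ (∀ k ≤ n, ev χ (H k) = B.coeff k) ∧ Sz H q n (u ^ (2 * n))

/-! ### Evaluation at edges -/

-- deps:
def S_PRD : Prop := ∀ (q n c u a k : ℕ) (A : Type) [AddCommGroup A] [Fintype A] (Λ : LD q n A)
  (y z : ZA A) (T : Finset A), 3 ≤ n → 0 < u → ED Λ c → TD Λ (u ^ 4) a → sz y ≤ u ^ 2 * q ^ k →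
  sz z ≤ u ^ 2 * q ^ (n - k) → #T ≤ u →
  (∀ π π', Sd n k π π' → ∃ (B : Finset (A × A)) (L : Finset A), u ^ 4 * #B ≤ q ^ n ∧
    #L ≤ u ^ (4 * a) ∧ ∀ L', L ⊆ L' → ∀ e ∈ Es Λ, e ∉ B → ∀ t ∈ T,
      (y * z).coeff (e.1 + e.2 + t) = (pat y (π e) L' * loc z (π' e)).coeff t) ∧
  (1 < k → k < n - 1 → ∃ B : Finset (A × A), u ^ 4 * #B ≤ q ^ n ∧ ∀ e ∈ Es Λ, e ∉ B → ∀ t ∈ T,
    (y * z).coeff (e.1 + e.2 + t) = 0)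

-- deps:
def S_CUB : Prop := ∀ a : ℕ, ∃ K : ℕ, ∀ (q n c u w i k m : ℕ) (A : Type) [AddCommGroup A]
  [Fintype A] (Λ : LD q n A) (x y z : ZA A) (T : Finset A), 3 ≤ n → ED Λ c → Lv Λ u w a K →
  0 < i → 0 < k → 0 < m → i + k + m = n → sz x ≤ u ^ 2 * q ^ i → sz y ≤ u * q ^ k →
  sz z ≤ u * q ^ m → #T ≤ u → ∃ B : Finset (A × A), u ^ 3 * #B ≤ q ^ n ∧
    ∀ e ∈ Es Λ, e ∉ B → ∀ t ∈ T, (x * (y * z)).coeff (e.1 + e.2 + t) = 0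

-- deps: CUB
def S_CUM : Prop := ∀ n a : ℕ, ∃ K : ℕ, ∀ (q c u w : ℕ) (A : Type) [AddCommGroup A]
  [Fintype A] (Λ : LD q n A) (x : ZA A) (G H : ℕ → ZA A) (T : Finset A), 3 ≤ n → ED Λ c →
  Lv Λ u w a K → sz x ≤ u ^ 2 * q → Sz G q n u → Sz H q n u → #T ≤ u →
    ∃ B : Finset (A × A), u ^ 2 * #B ≤ q ^ n ∧
      ∀ e ∈ Es Λ, e ∉ B → ∀ t ∈ T, (x * md G H (n - 1)).coeff (e.1 + e.2 + t) = 0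

-- deps: PRD
def S_PH : Prop := ∀ c a b : ℕ, ∃ K : ℕ, ∀ (q n u w k : ℕ) (A : Type) [AddCommGroup A]
  [Fintype A] (Λ : LD q n A) (y z z0 : ZA A) (T X : Finset A) (π π' : A × A → A), 3 ≤ n →
  ED Λ c → Lv Λ u w a K → Sd n k π π' → sz y ≤ u ^ 2 * q ^ k → sz z ≤ u ^ 2 * q ^ (n - k) →
  Un z X z0 w (q ^ (n - k)) → #T ≤ u → ∃ L : Finset A, #L ≤ u ^ (4 * a) ∧ ∀ L', L ⊆ L' →
    #L' ≤ u ^ b → ∃ B : Finset (A × A), u ^ 3 * #B ≤ q ^ n ∧ ∀ e ∈ Es Λ, e ∉ B → π' e ∈ X →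
      ∀ t ∈ T, (y * z).coeff (e.1 + e.2 + t) = (pat y (π e) L' * z0).coeff t

-- deps: PH
def S_PU : Prop := ∀ c a : ℕ, ∃ K : ℕ, ∀ (q n u w : ℕ) (A : Type) [AddCommGroup A]
  [Fintype A] (Λ : LD q n A) (y y0 z z0 : ZA A) (T X Y : Finset A), 3 ≤ n → ED Λ c →
  Lv Λ u w a K → sz y ≤ u ^ 2 * q → sz z ≤ u ^ 2 * q ^ (n - 1) → sz y0 ≤ u ^ 2 → Un y X y0 w q →
  Un z Y z0 w (q ^ (n - 1)) → #T ≤ u → ∃ B : Finset (A × A), u ^ 2 * #B ≤ q ^ n ∧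
    ∀ e ∈ Es Λ, e ∉ B → e.1 ∈ X → e.2 ∈ Y → ∀ t ∈ T,
      (y * z).coeff (e.1 + e.2 + t) = (y0 * z0).coeff t

/-! ### The universal pattern -/

-- deps: CUM PH
def S_EDX : Prop := ∀ c n a : ℕ, 3 ≤ n → ∃ K : ℕ, ∀ (q v : ℕ) (A : Type) [AddCommGroup A]
  [Fintype A] (Λ : LD q n A) (χ : AddChar A ℂ) (P : ZA A) (G G' : ℕ → ZA A) (t : A),
  Sc A q v K → ED Λ c → TD Λ (v ^ 4) a → χ ∈ Fa A → Kp P → Pr2 χ n G G' Λ.W Λ.ω → Sz G q n v →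
  Sz G' q n v →
    v * #{e ∈ Es Λ | (P * G 1).coeff (e.1 + t) ≠ (P * G (n - 1)).coeff (e.2 + t)} ≤ q ^ n

-- deps:
def S_SPLT : Prop := ∀ (α β γ : Type) [Nonempty γ] (S U : Finset α) (V V1 : Finset β)
  (G : Finset (α × β)) (a b : ℕ) (f : α → γ), Mg S V G a b → U ⊆ S → V1 ⊆ V → 2 * b < #V1 →
  (∀ r ∈ V1, ∀ p ∈ U, ∀ p' ∈ U, (p, r) ∈ G → (p', r) ∈ G → f p = f p') →
    ∃ t, #{p ∈ U | f p ≠ t} ≤ 3 * a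

-- deps:
def S_MXE : Prop := ∀ n E : ℕ, 3 ≤ n → 0 < E → ∃ M : ℕ, ∀ (q c : ℕ) (A : Type) [AddCommGroup A]
  [Fintype A] (Λ : LD q n A) (B : Finset (A × A)), M ≤ q → CD Λ c M → M * #B ≤ q ^ n →
    Mg Λ.S (Pi Λ (n - 1)) (Es Λ \ B) (q / E) (q ^ (n - 1) / E)

-- deps:
def S_FTS : Prop := ∀ c n E : ℕ, 3 ≤ n → ∃ M : ℕ, ∀ (q : ℕ) (A : Type) [AddCommGroup A]
  [Fintype A] (Λ : LD q n A), M ≤ q → ED Λ c → CD Λ c M →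
    E * #(Λ.S \ S0 Λ) ≤ q ∧ E * #(Pi Λ (n - 1) \ V0 Λ) ≤ q ^ (n - 1) ∧
      E * #{e ∈ Es Λ | ¬ (e.1 ∈ S0 Λ ∧ e.2 ∈ V0 Λ)} ≤ q ^ n

-- deps: SPLT MXE
def S_FTA : Prop := ∀ c n : ℕ, 3 ≤ n → ∃ M : ℕ, ∀ (q : ℕ) (A : Type) [AddCommGroup A]
  [Fintype A] (Λ : LD q n A) (φ ψ : A → ℤ), M ≤ q → ED Λ c → CD Λ c M →
  M * #{e ∈ Es Λ | φ e.1 ≠ ψ e.2} ≤ q ^ n → ∃ v : ℤ,
    #(Pi Λ (n - 1)) * #{p ∈ S0 Λ | φ p ≠ v} ≤ 4 * n * #{e ∈ Es Λ | φ e.1 ≠ ψ e.2} ∧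
      #Λ.S * #{r ∈ V0 Λ | ψ r ≠ v} ≤ 4 * n * #{e ∈ Es Λ | φ e.1 ≠ ψ e.2}

-- deps:
def S_FTZ : Prop := ∀ (q n s w : ℕ) (A : Type) [AddCommGroup A] [Fintype A] (Λ : LD q n A)
  (y z : ZA A) (X : Finset A), X ⊆ Λ.S → q ≤ 2 * #X → Un y X z w q → sz y ≤ s * q →
  8 * (4 * s + 1) ^ 2 ≤ w → w ≤ q → sz z ≤ 4 * s

-- deps: EDX FTS FTA FTZ
def S_FT2 : Prop := ∀ c n a : ℕ, 3 ≤ n → ∃ M K : ℕ, ∀ (q u w s : ℕ) (A : Type) [AddCommGroup A]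
  [Fintype A] (Λ : LD q n A) (χ : AddChar A ℂ) (P : ZA A) (G G' : ℕ → ZA A), Sl Λ u w a K →
  ED Λ c → CD Λ c M → χ ∈ Fa A → Kp P → Pr2 χ n G G' Λ.W Λ.ω → Sz G q n s → Sz G' q n s →
  4 * (om A * s) ≤ u → ∃ z, Fd Λ χ P G G' z u w

-- deps: PK4 DEG2 PRA FTS FT2
def S_SPF : Prop := ∀ c n a C0 : ℕ, 3 ≤ n → ∃ M K : ℕ, ∀ (q u w : ℕ) (A A' : Type)
  [AddCommGroup A] [Fintype A] [AddCommGroup A'] [Fintype A'] (Λ : LD q n A) (Λ' : LD q n A'),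
  Big A c q n 0 → Sl Λ u w a K → ED Λ c → CD Λ c M → GD Λ' c → #Λ.S = #Λ'.S →
  ∏ χ ∈ univ.erase 0, Λ.L χ = ∏ χ ∈ univ.erase 0, Λ'.L χ →
    Fn Λ Λ' C0 ∨ ∃ χ P F B G G' z z', Sx Λ χ P F B G G' z z' u w ∧ ev χ z ≠ 0

/-! ### The points generate the group -/

-- deps:
def S_GN1 : Prop := ∀ c n E : ℕ, 3 ≤ n → ∃ M : ℕ, ∀ (q : ℕ) (A : Type) [AddCommGroup A]
  [Fintype A] (Λ : LD q n A) (H : AddSubgroup A) (t : A), M ≤ q → ED Λ c → CD Λ c M →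
  M * #{p ∈ Λ.S | p - t ∉ H} ≤ q → Cs Λ H (n - 1) (Λ.ω - (n + 1) • t) E

-- deps:
def S_GN2 : Prop := ∀ c n E : ℕ, 3 ≤ n → ∃ M : ℕ, ∀ (q : ℕ) (A : Type) [AddCommGroup A]
  [Fintype A] (Λ : LD q n A) (H : AddSubgroup A) (t κ : A), M ≤ q → ED Λ c →
  M * #{p ∈ Λ.S | p - t ∉ H} ≤ q → Cs Λ H (n - 1) κ M →
    κ - (n - 1) • t ∈ H ∧ ∀ i < n, Cs Λ H i (i • t) E

-- deps:
def S_GN3 : Prop := ∀ c n E : ℕ, 3 ≤ n → ∃ M : ℕ, ∀ (q : ℕ) (A : Type) [AddCommGroup A]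
  [Fintype A] (Λ : LD q n A) (H : AddSubgroup A) (t : A), M ≤ q → ED Λ c →
  Λ.ω - (2 * n) • t ∈ H → (∀ i < n, Cs Λ H i (i • t) M) →
    (∀ i < n, E * ∑ x with x - i • t ∉ H, (Λ.W i).coeff x ≤ q ^ i) ∧
      E * ∑ x with x - n • t ∉ H, (Λ.W n).coeff x ≤ E * #(PP Λ) + q ^ n

-- deps:
def S_NP2 : Prop := ∀ n : ℕ, 2 ≤ n → ∃ K : ℝ, 0 < K ∧ ∀ (a a' s s' : ℕ → ℂ) (x η : ℝ), 0 < x →
  0 ≤ η → a 0 = 1 → a' 0 = 1 → Newt a s → Newt a' s' → (∀ m, m ≠ 0 → ‖s m‖ ≤ 2 * x ^ m) →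
  (∀ m, m ≠ 0 → ‖s' m‖ ≤ 2 * x ^ m) → (∀ j < n, ‖a j - a' j‖ ≤ η * x ^ j) →
    (∀ j, ‖a j‖ ≤ (2 * x) ^ j) ∧ (n + 1) * ‖a (n + 1) - a' (n + 1)‖ ≤ ‖s (n + 1)‖ +
      ‖s' (n + 1)‖ + (n + 1) * ‖s' 1‖ * ‖a n - a' n‖ + K * η * x ^ (n + 1)

-- deps: NP2
def S_GN4 : Prop := ∀ c n : ℕ, 3 ≤ n → ∃ M : ℕ, ∀ (q : ℕ) (A : Type) [AddCommGroup A]
  [Fintype A] (Λ : LD q n A) (H : AddSubgroup A) (t : A), M ≤ q → GD Λ c → XD Λ M → H ≠ ⊤ →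
  (∀ i < n, M * ∑ x with x - i • t ∉ H, (Λ.W i).coeff x ≤ q ^ i) →
  M * ∑ x with x - n • t ∉ H, (Λ.W n).coeff x ≤ M * #(PP Λ) + q ^ n → False

-- deps: GN1 GN2 GN3 GN4
def S_GENL : Prop := ∀ c n : ℕ, 3 ≤ n → ∃ M : ℕ, ∀ (q : ℕ) (A : Type) [AddCommGroup A]
  [Fintype A] (Λ : LD q n A), M ≤ q → ED Λ c → CD Λ c M → XD Λ M → Gn Λ M

/-! ### The partner -/

-- deps:
def S_SUB3 : Prop := ∀ c n E : ℕ, ∃ N : ℕ, ∀ (q : ℕ) (A : Type) [AddCommGroup A] [Fintype A]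
  (Λ : LD q n A) (l : ℕ) (z : A), Big A c q n 0 → ED Λ c → l.Prime → l ∣ Nat.card A → N < l →
    E * #{p ∈ Λ.S | ∃ a, p = z + l • a} ≤ q

-- deps:
def S_GAM2 : Prop := ∀ (A : Type) [AddCommGroup A] [Fintype A] (r : ℕ), IsAddCyclic A →
  r ∣ Nat.card A → #{a : A | r • a = 0} ≤ r ∧ ∃ Γ : Finset (A ≃+ A), r.totient ≤ #Γ ∧
    ∀ γ ∈ Γ, ∀ a, γ (r • a) = r • a

-- deps: GAM2
def S_RDG2 : Prop := ∀ (q n r : ℕ) (A : Type) [AddCommGroup A] [Fintype A] (Λ : LD q n A)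
  (χ : AddChar A ℂ) (F : ℂ[X]) (G : ℕ → ZA A) (H : (ZA A)[X]), IsAddCyclic A → 0 < q → 0 < n →
  Dgs Λ → r ∣ Nat.card A → 3 ≤ r.totient → χ ∈ Fa A → Fp Λ χ F G →
  (∀ i b, (H.coeff i).coeff b ≠ 0 → ∃ a, b = r • a) → H.map (ev χ) ≠ 0 →
  (H.map (ev χ)).natDegree ≤ 2 * n → F ∣ H.map (ev χ) → ∃ δ : A ≃+ A, δ ≠ AddEquiv.refl A ∧
    (∀ a, δ (r • a) = r • a) ∧ ev χ (pu (δ : A →+ A) (G 1)) = ev χ (G 1)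

-- deps: PER
def S_RDW : Prop := ∀ (q n u w r E : ℕ) (A : Type) [AddCommGroup A] [Fintype A] (Λ : LD q n A)
  (χ : AddChar A ℂ) (P z : ZA A) (G G' : ℕ → ZA A) (δ : A ≃+ A), Fd Λ χ P G G' z u w →
  ev χ z ≠ 0 → Gn Λ E → 2 * E * #(Λ.S \ S0 Λ) ≤ q → om A ≤ u → 8 * E ≤ u → u ^ 20 ≤ w →
  #{a : A | r • a = 0} ≤ u ^ 5 → (∀ a, δ (r • a) = r • a) →
  ev χ (pu (δ : A →+ A) (G 1)) = ev χ (G 1) → δ = AddEquiv.refl A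

-- deps: SUB3
def S_RDB : Prop := ∀ c n : ℕ, 0 < n → ∃ K : ℕ, ∀ (q u w l : ℕ) (A : Type) [AddCommGroup A]
  [Fintype A] (Λ : LD q n A) (χ : AddChar A ℂ) (P z : ZA A) (F : ℂ[X]) (G G' : ℕ → ZA A)
  (H : (ZA A)[X]), Big A c q n 0 → Sc A q u K → u ≤ w → ED Λ c → Dgs Λ → Pq P →
  Fd Λ χ P G G' z u w → Fp Λ χ F G → z ≠ 0 → 16 * #(Λ.S \ S0 Λ) ≤ q → l.Prime →
  l ∣ Nat.card A → (∀ i b, (H.coeff i).coeff b ≠ 0 → ∃ a, b = l • a) → H.map (ev χ) ≠ 0 →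
  (H.map (ev χ)).natDegree ≤ 2 * n → F ∣ H.map (ev χ) → l ≤ u ^ 5

-- deps: FTS GAM2 RDG2 RDW RDB
def S_RED3 : Prop := ∀ c n E : ℕ, 3 ≤ n → ∃ M K : ℕ, ∀ (q u w : ℕ) (A A' : Type) [AddCommGroup A]
  [Fintype A] [AddCommGroup A'] [Fintype A'] (Λ : LD q n A) (Λ' : LD q n A') (χ : AddChar A ℂ)
  (P z : ZA A) (F : ℂ[X]) (G G' : ℕ → ZA A) (j : A' →+ A), Big A c q n 0 → Sc A q u K →
  u ^ K ≤ w → ED Λ c → CD Λ c M → Gn Λ E → Dgs Λ → Pq P → Fd Λ χ P G G' z u w → Fp Λ χ F G →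
  ev χ z ≠ 0 → Nat.card A' = Nat.card A → χ.compAddMonoidHom j ≠ 0 →
  F ∣ Λ'.L (χ.compAddMonoidHom j) → Nat.card j.ker ≤ 12

-- deps: PRA PRB RED3
def S_PTX : Prop := ∀ c n E : ℕ, 3 ≤ n → ∃ M K : ℕ, ∀ (q u w : ℕ) (A A' : Type) [AddCommGroup A]
  [Fintype A] [AddCommGroup A'] [Fintype A'] (Λ : LD q n A) (Λ' : LD q n A') (χ : AddChar A ℂ)
  (P z z' : ZA A) (F B : ℂ[X]) (G G' : ℕ → ZA A), Big A c q n 0 → Sc A q u K → u ^ K ≤ w →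
  ED Λ c → CD Λ c M → Gn Λ E → GD Λ' c → Sx Λ χ P F B G G' z z' u w → ev χ z ≠ 0 →
  ∏ χ ∈ univ.erase 0, Λ.L χ = ∏ χ ∈ univ.erase 0, Λ'.L χ → ∃ (j : A' →+ A) (H : ℕ → ZA A)
    (B' : ℂ[X]), Pd Λ' j χ G H (u ^ (2 * n)) ∧ χ.compAddMonoidHom j ≠ 0 ∧
      Λ'.L (χ.compAddMonoidHom j) = F * B' ∧ ∀ k ≤ n, ev χ (H k) = B'.coeff k

-- deps:
def S_FNC : Prop := ∀ (q n E : ℕ) (A A' : Type) [AddCommGroup A] [Fintype A] [AddCommGroup A']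
  [Fintype A'] (Λ : LD q n A) (Λ' : LD q n A') (j : A' →+ A), Gn Λ E →
  Nat.card A' = Nat.card A → Rel Λ Λ' j E → Fn Λ Λ' E

/-! ### The three identities -/

-- deps: CUM PRD PH PU
def S_ID0 : Prop := ∀ c n a b : ℕ, 3 ≤ n → ∃ K : ℕ, ∀ (q u w : ℕ) (A : Type) [AddCommGroup A]
  [Fintype A] (Λ : LD q n A) (χ : AddChar A ℂ) (P z : ZA A) (G G' : ℕ → ZA A) (ω' : A)
  (T : Finset A), Lv Λ u w a K → ED Λ c → Fd Λ χ P G G' z u w → #T ≤ u → ∃ L : Finset A,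
    #L ≤ u ^ (4 * a + 1) ∧ ∀ L', L ⊆ L' → ∃ B : Finset (A × A), u * #B ≤ q ^ n ∧
      ∀ e ∈ Es Λ, e ∉ B → e.1 ∈ S0 Λ → e.2 ∈ V0 Λ → ∀ t ∈ T, (ka P z Λ.ω ω').coeff t =
        (pat (gb P (G 1) Λ.ω ω') e.1 L' * loc (gb P (G (n - 1)) Λ.ω ω') e.2).coeff t

-- deps: CUM PRD PH PU
def S_ID1 : Prop := ∀ c n a b : ℕ, 3 ≤ n → ∃ K : ℕ, ∀ (q u w : ℕ) (A : Type) [AddCommGroup A]
  [Fintype A] (Λ : LD q n A) (χ : AddChar A ℂ) (P z : ZA A) (G G' H V : ℕ → ZA A) (ω' : A)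
  (T : Finset A), Lv Λ u w a K → ED Λ c → Fd Λ χ P G G' z u w → Pr2 χ n G H V ω' → Sz H q n u →
  Sz V q n u → #T ≤ u → ∃ L : Finset A, #L ≤ u ^ (4 * a + 1) ∧ ∀ L', L ⊆ L' → #L' ≤ u ^ b →
    ∃ B : Finset (A × A), u * #B ≤ q ^ n ∧ ∀ e ∈ Es Λ, e ∉ B → e.1 ∈ S0 Λ → e.2 ∈ V0 Λ → ∀ t ∈ T,
      (al P z Λ.ω * pat (V (n - 1)) e.2 L' - Dd P z Λ.ω ω').coeff t =
        (pat (br (V 1)) e.1 L' * loc (gb P (G (n - 1)) Λ.ω ω') e.2).coeff t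

-- deps: CUM PRD PH PU
def S_ID2 : Prop := ∀ c n a b : ℕ, 3 ≤ n → ∃ K : ℕ, ∀ (q u w : ℕ) (A : Type) [AddCommGroup A]
  [Fintype A] (Λ : LD q n A) (χ : AddChar A ℂ) (P z : ZA A) (G G' H V : ℕ → ZA A) (ω' : A)
  (T : Finset A), Lv Λ u w a K → ED Λ c → Fd Λ χ P G G' z u w → Pr2 χ n G H V ω' → Sz H q n u →
  Sz V q n u → #T ≤ u → ∃ L : Finset A, #L ≤ u ^ (4 * a + 1) ∧ ∀ L', L ⊆ L' → #L' ≤ u ^ b →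
    ∃ B : Finset (A × A), u * #B ≤ q ^ n ∧ ∀ e ∈ Es Λ, e ∉ B → e.1 ∈ S0 Λ → e.2 ∈ V0 Λ → ∀ t ∈ T,
      (al P z Λ.ω * pat (V 1) e.1 L' - Dd P z Λ.ω ω').coeff t =
        (pat (br (V (n - 1))) e.2 L' * loc (gb P (G 1) Λ.ω ω') e.1).coeff t

-- deps: FTS ID0 ID1 ID2
def S_STP : Prop := ∀ c n a E : ℕ, 3 ≤ n → ∃ b M K : ℕ, 0 < b ∧ ∀ (q u w : ℕ) (A A' : Type)
  [AddCommGroup A] [Fintype A] [AddCommGroup A'] [Fintype A'] (Λ : LD q n A) (Λ' : LD q n A')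
  (χ : AddChar A ℂ) (P z : ZA A) (G G' H : ℕ → ZA A) (j : A' →+ A) (L : Finset A),
  Sl Λ u w a K → ED Λ c → CD Λ c M → GD Λ' c → Fd Λ χ P G G' z u w → Pd Λ' j χ G H u → #L ≤ u →
    ∃ L', L ⊆ L' ∧ #L' ≤ u ^ b ∧ St Λ Λ' j P z G E L L'

-- deps:
def S_CHN : Prop := ∀ (α : Type) (Φ : Finset α → ℕ) (R : Finset α → Finset α → Prop) (s : ℕ → ℕ)
  (m B : ℕ) (L0 : Finset α), 0 < m → (∀ L, Φ L ≤ B) → #L0 ≤ s 0 →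
  (∀ i < m, ∀ L, #L ≤ s i → ∃ L', L ⊆ L' ∧ #L' ≤ s (i + 1) ∧ R L L') →
    ∃ i < m, ∃ L L', L0 ⊆ L ∧ L ⊆ L' ∧ #L' ≤ s (i + 1) ∧ R L L' ∧ m * Φ L' ≤ m * Φ L + B

-- deps:
def S_SGL : Prop := ∀ (q n c k : ℕ) (A A' : Type) [AddCommGroup A] [Fintype A] [AddCommGroup A']
  [Fintype A'] (Λ' : LD q n A') (j : A' →+ A) (L : Finset A), DD Λ' c → Nat.card j.ker ≤ 12 →
  k ≤ n → q * #{x | ¬ Sgl (pat (Ej Λ' j k) x L) L} ≤ 13 * c * #L ^ 3 * q ^ k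

-- deps:
def S_EXC : Prop := ∀ (q n c k : ℕ) (A A' : Type) [AddCommGroup A] [Fintype A] [AddCommGroup A']
  [Fintype A'] (Λ' : LD q n A') (j : A' →+ A) (L : Finset A), ED Λ' c → Nat.card j.ker ≤ 12 →
  0 < k → k < n →
    q * #{x | ¬ Fr (Ej Λ' j k) x L ∧ ¬ Fr (Ej Λ' (-j) k) x L} ≤ 12 * c * #L ^ 3 * q ^ k

-- deps:
def S_PER : Prop := ∀ (A : Type) [AddCommGroup A] [Fintype A] (χ : AddChar A ℂ) (z : ZA A)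
  (Ψ : A → ℤ) (T : Finset A) (s s' : A), χ ∈ Fa A → ev χ z ≠ 0 →
  (∀ b, z.coeff b ≠ 0 → b ∈ T ∧ b + s - s' ∈ T ∧ b + s' - s ∈ T) →
  (∀ t ∈ T, z.coeff t = Ψ (t - s) ∧ z.coeff t = Ψ (t - s')) → s = s'

-- deps: SPLT PER
def S_LUA : Prop := ∀ (A : Type) [AddCommGroup A] [Fintype A] (χ : AddChar A ℂ)
  (α D κ g1 g2 : ZA A) (L X0 T0 X1 T1 S V : Finset A) (G : Finset (A × A)) (a b : ℕ)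
  (ε ε' η η' : A → ZA A), χ ∈ Fa A → ev χ α ≠ 0 → (D = 0 → ev χ κ ≠ 0) →
  (∀ y, ev χ (α * y - D) = 0 → α * y - D = 0) → Wn α D κ L X0 T0 X1 T1 → Mg S V G a b →
  3 * b < #V → (∀ p ∈ S, Sgl (ε p) L ∧ Sgl (ε' p) L ∧ (ε p = 0 ∨ ε' p = 0)) →
  (∀ r ∈ V, Sgl (η r) L ∧ Sgl (η' r) L ∧ (η r = 0 ∨ η' r = 0)) →
  (∀ e ∈ G, Ed α D κ g1 g2 T0 X1 T1 (ε e.1) (ε' e.1) (η e.2) (η' e.2) e.1 e.2) →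
    (∃ t, #{p ∈ S | ε p ≠ sg t} ≤ 4 * a) ∨ (∃ t, #{p ∈ S | ε' p ≠ sg t} ≤ 4 * a) ∨
      (D = 0 ∧ #{p ∈ S | ε p ≠ 0 ∨ ε' p ≠ 0} ≤ 2 * a ∧ #{r ∈ V | η r ≠ 0} ≤ 2 * b)

-- deps: SGL EXC
def S_LUC : Prop := ∀ c n E : ℕ, 3 ≤ n → ∃ m K : ℕ, 0 < m ∧ ∀ (q v : ℕ) (A A' : Type)
  [AddCommGroup A] [Fintype A] [AddCommGroup A'] [Fintype A'] (Λ : LD q n A) (Λ' : LD q n A')
  (j : A' →+ A) (s : ℕ → ℕ) (R : Finset A → Finset A → Prop) (L0 : Finset A), K ≤ v →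
  v ^ K ≤ q → GD Λ c → DD Λ' c → Nat.card j.ker ≤ 12 → #L0 ≤ s 0 → (∀ i ≤ m, s i ≤ v) →
  (∀ i < m, ∀ L, #L ≤ s i → ∃ L', L ⊆ L' ∧ #L' ≤ s (i + 1) ∧ R L L') →
    ∃ L L' S V, L0 ⊆ L ∧ L ⊆ L' ∧ R L L' ∧ S ⊆ Λ.S ∧ V ⊆ Pi Λ (n - 1) ∧ E * #(Λ.S \ S) ≤ q ∧
      E * #(Pi Λ (n - 1) \ V) ≤ q ^ (n - 1) ∧
      (∀ p ∈ S, Sgl (pat (Ej Λ' j 1) p L') L ∧ Sgl (pat (Ej Λ' (-j) 1) p L') L ∧
        (ED Λ' c → Fr (Ej Λ' j 1) p L' ∨ Fr (Ej Λ' (-j) 1) p L')) ∧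
      ∀ r ∈ V, Sgl (pat (Ej Λ' j (n - 1)) r L') L ∧ Sgl (pat (Ej Λ' (-j) (n - 1)) r L') L ∧
        (ED Λ' c → Fr (Ej Λ' j (n - 1)) r L' ∨ Fr (Ej Λ' (-j) (n - 1)) r L')

-- redeps: LUC CHN SGL EXC

-- deps: MXE STP LUA LUC
def S_LU : Prop := ∀ c n a E : ℕ, 3 ≤ n → ∃ M K : ℕ, ∀ (q u w : ℕ) (A A' : Type)
  [AddCommGroup A] [Fintype A] [AddCommGroup A'] [Fintype A'] (Λ : LD q n A) (Λ' : LD q n A')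
  (χ : AddChar A ℂ) (P z : ZA A) (G G' H : ℕ → ZA A) (j : A' →+ A) (L0 : Finset A),
  Sl Λ u w a K → ED Λ c → CD Λ c M → ED Λ' c → Fd Λ χ P G G' z u w → Pd Λ' j χ G H u →
  ev χ z ≠ 0 → #L0 ≤ u → Rel Λ Λ' j E ∨ (Ur χ P z Λ.ω (j Λ'.ω) ∧
    E * #{p ∈ Λ.S | ¬ (Fr (Ej Λ' j 1) p L0 ∧ Fr (Ej Λ' (-j) 1) p L0)} ≤ q ∧
    E * #{r ∈ Pi Λ (n - 1) | ¬ Fr (Ej Λ' j (n - 1)) r L0} ≤ q ^ (n - 1))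

/-! ### The top degree -/

-- deps: CUM PRD PH PU
def S_MID : Prop := ∀ c n a : ℕ, 3 ≤ n → ∃ K : ℕ, ∀ (q u w : ℕ) (A : Type) [AddCommGroup A]
  [Fintype A] (Λ : LD q n A) (χ : AddChar A ℂ) (P z : ZA A) (G G' H V : ℕ → ZA A) (ω' : A)
  (T : Finset A), Lv Λ u w a K → ED Λ c → Fd Λ χ P G G' z u w → Pr2 χ n G H V ω' → Sz H q n u →
  Sz V q n u → #T ≤ u → ∃ (L : Finset A) (B : Finset (A × A)), #L ≤ u ^ (4 * a + 1) ∧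
    u * #B ≤ q ^ n ∧ ∀ e ∈ Es Λ, e ∉ B → e.1 ∈ S0 Λ → e.2 ∈ V0 Λ → Fr (V 1) e.1 L →
      Fr (V (n - 1)) e.2 L → ∀ t ∈ T,
        (P ^ 2 * md G H n).coeff (e.1 + e.2 + t) = (-(2 * z ^ 2)).coeff t

-- deps:
def S_PRM : Prop := ∀ c n a : ℕ, 3 ≤ n → ∃ K : ℕ, ∀ (q u w : ℕ) (A A' : Type) [AddCommGroup A]
  [Fintype A] [AddCommGroup A'] [Fintype A'] (Λ : LD q n A) (Λ' : LD q n A') (j : A' →+ A)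
  (T : Finset A), Lv Λ u w a K → ED Λ c → DD Λ' c → #T ≤ u →
    ∃ (L : Finset A) (B : Finset (A × A)), #L ≤ u ^ (4 * a + 2) ∧ u * #B ≤ q ^ n ∧
      ∀ e ∈ Es Λ, e ∉ B → ∀ y, j y - (e.1 + e.2) ∈ T → (Λ'.W n).coeff y ≠ 0 →
        (Fr (Ej Λ' j 1) e.1 L → Pm Λ' n y) ∧ (Fr (Ej Λ' (-j) 1) e.1 L → Pm Λ' n (Λ'.ω - y))

-- deps: FTS LU MID PRM
def S_PART : Prop := ∀ c n a E : ℕ, 3 ≤ n → ∃ M K : ℕ, ∀ (q u w : ℕ) (A A' : Type)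
  [AddCommGroup A] [Fintype A] [AddCommGroup A'] [Fintype A'] (Λ : LD q n A) (Λ' : LD q n A')
  (χ : AddChar A ℂ) (P z : ZA A) (G G' H : ℕ → ZA A) (j : A' →+ A) (T T' : Finset A),
  Sl Λ u w a K → ED Λ c → CD Λ c M → ED Λ' c → Fd Λ χ P G G' z u w → Pd Λ' j χ G H u →
  ev χ z ≠ 0 → #T ≤ u → #T' ≤ u → Rel Λ Λ' j E ∨ (Ur χ P z Λ.ω (j Λ'.ω) ∧
    ∃ B : Finset (A × A), E * #B ≤ q ^ n ∧ ∀ e ∈ Es Λ, e ∉ B →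
      (∀ t ∈ T, (P ^ 2 * md G H n).coeff (e.1 + e.2 + t) = (-(2 * z ^ 2)).coeff t) ∧
        ∀ y, j y - (e.1 + e.2) ∈ T' → (Λ'.W n).coeff y ≠ 0 → y ∈ PP Λ')

-- deps:
def S_TOP : Prop := ∀ (n : ℕ) (A : Type) [AddCommGroup A] [Fintype A] (χ : AddChar A ℂ)
  (P z z' : ZA A) (G G' W H1 V1 H2 V2 : ℕ → ZA A) (ω ω1 ω2 : A), 0 < n → χ ∈ Fa A → Kp P →
  z + z' = P → ev χ z ≠ 0 → Ur χ P z ω ω1 → ev χ z' ≠ 0 ∧ (Ur χ P z' ω ω2 → Pr2 χ n G G' W ω →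
    Pr2 χ n G H1 V1 ω1 → Pr2 χ n G' H2 V2 ω2 → ω2 - ω = ω - ω1 ∧ ω ≠ ω1 ∧
      (1 - χ (ω - ω1)) * ev χ (2 * sg (ω - ω1) * z ^ 2 - 2 * z' ^ 2) =
        2 * χ (ω - ω1) * ev χ P ^ 2 ∧
      P ^ 2 * V2 n - sg (ω - ω1) * (P ^ 2 * V1 n) =
        P ^ 2 * md G' H2 n - sg (ω - ω1) * (P ^ 2 * md G H1 n))

-- deps:
def S_ESL : Prop := ∀ n E : ℕ, 3 ≤ n → ∃ M : ℕ, ∀ (q c : ℕ) (A : Type) [AddCommGroup A]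
  [Fintype A] (Λ : LD q n A), M ≤ q → CD Λ c M → XD Λ M →
    E * q ^ n ≤ (E + 1) * (n * (n - 1) * #(Es Λ))

-- deps:
def S_COV : Prop := ∀ (q n c : ℕ) (A A' : Type) [AddCommGroup A] [Fintype A] [AddCommGroup A']
  [Fintype A'] (Λ : LD q n A) (j : A' →+ A) (Y : Finset A') (T Z : Finset A), GD Λ c →
  (∀ x ∈ Z, (Λ.W n).coeff x ≠ 0 ∧ Cv j Y T x) → q * #Z ≤ q * #Y + #T ^ 2 * c * q ^ n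

-- deps: ESL COV
def S_CNT : Prop := ∀ c n : ℕ, 3 ≤ n → ∃ M : ℕ, ∀ (q u : ℕ) (A A' : Type) [AddCommGroup A]
  [Fintype A] [AddCommGroup A'] [Fintype A'] (Λ : LD q n A) (Λ' : LD q n A') (j1 j2 : A' →+ A)
  (T1 T2 : Finset A) (B : Finset (A × A)), M ≤ u → u ^ 3 ≤ q → ED Λ c → CD Λ c M → XD Λ M →
  XD Λ' M → #T1 ≤ u → #T2 ≤ u → M * #B ≤ q ^ n →
  (∀ e ∈ Es Λ, e ∉ B → Cv j1 (PP Λ') T1 (e.1 + e.2) ∨ Cv j2 (PP Λ') T2 (e.1 + e.2)) → False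

-- deps: SPF GENL PTX FNC PART TOP CNT
def S_ADDN : Prop := ∀ c n a C0 : ℕ, 3 ≤ n → ∃ M K : ℕ, ∀ (q u w : ℕ) (A A' : Type)
  [AddCommGroup A] [Fintype A] [AddCommGroup A'] [Fintype A'] (Λ : LD q n A) (Λ' : LD q n A'),
  Big A c q n 0 → Sl Λ u w a K → ED Λ c → CD Λ c M → XD Λ M → ED Λ' c → XD Λ' M →
  #Λ.S = #Λ'.S → ∏ χ ∈ univ.erase 0, Λ.L χ = ∏ χ ∈ univ.erase 0, Λ'.L χ → Fn Λ Λ' C0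

end Pool.Agent.P.MP_9344a7_nt.Cy
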