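import Pool.Agent.P.MP_9344a7_nt.Cy.BaseH
import Pool.Agent.P.MP_9344a7_nt.Cy.IfaceA

/-! The additive steps for a hyperelliptic second curve. -/

namespace Pool.Agent.P.MP_9344a7_nt.Cy

open Polynomial Finset
open Pool.Agent.P.MP_9344a7_nt.R
open Pool.Agent.P.MP_9344a7_nt.Hy
open Pool.Agent.P.MP_9344a7_nt.Od (GD Kp Fe)
open Pool.Agent.P.MP_9344a7_nt.Ac (Sb Pm Sp ED CD TD AD Sc Eg Dgs)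
open scoped Classical ComplexConjugate

set_option linter.unusedVariables false

/-! ### The cofactor -/

-- deps:
def S_TWD : Prop := ∀ (q n : ℕ) (A A' : Type) [AddCommGroup A] [Fintype A] [AddCommGroup A']
  [Fintype A'] (Λ : LD q n A) (Λ' : LD q n A') (χ : AddChar A ℂ) (F B' : ℂ[X]) (G H : ℕ → ZA A)
  (j : A' →+ A) (κ : A'), 0 < q → 0 < n → Dgs Λ → χ ∈ Fa A → Fp Λ χ F G → Hs Λ' κ →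
  χ.compAddMonoidHom j ≠ 0 → Λ'.L (χ.compAddMonoidHom j) = F * B' →
  (∀ k ≤ n, ev χ (H k) = B'.coeff k) → Hk χ n G G (j κ) ∨ Hk χ n G H (j κ)

-- deps:
def S_PARX : Prop := ∀ (q n u : ℕ) (A : Type) [AddCommGroup A] [Fintype A] (χ : AddChar A ℂ)
  (P : ZA A) (G H V : ℕ → ZA A) (w : A), 0 < q → 0 < n → Kp P → χ ∈ Fa A → Pr2 χ n G H V w →
  Sz G q n u → Sz H q n u → ∃ X : Finset A, q * #X ≤ n * u ^ 2 * om A * q ^ n ∧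
    ∀ y ∉ X, Even ((P * V n).coeff y + (P * G n).coeff y + (P * H n).coeff y +
      (∑ k ∈ Ioo 0 n, V (n - k) * (P * G k)).coeff y)

-- deps: PARX
def S_HSF : Prop := ∀ c n : ℕ, 0 < n → ∃ K : ℕ, ∀ (q u : ℕ) (A A' : Type) [AddCommGroup A]
  [Fintype A] [AddCommGroup A'] [Fintype A'] (Λ' : LD q n A') (χ : AddChar A ℂ) (P : ZA A)
  (G H : ℕ → ZA A) (j : A' →+ A), Sc A q u K → GD Λ' c → χ ∈ Fa A → Kp P → Sz G q n u →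
  Pd Λ' j χ G H u → ev χ (H n) ≠ ev χ (G n)

-- deps: PTX TWD HSF
def S_PTH : Prop := ∀ c n E : ℕ, 3 ≤ n → ∃ M K : ℕ, ∀ (q u w : ℕ) (A A' : Type) [AddCommGroup A]
  [Fintype A] [AddCommGroup A'] [Fintype A'] (Λ : LD q n A) (Λ' : LD q n A') (χ : AddChar A ℂ)
  (P z z' : ZA A) (F B : ℂ[X]) (G G' : ℕ → ZA A) (κ : A'), Big A c q n 0 → Sc A q u K →
  u ^ K ≤ w → ED Λ c → CD Λ c M → Gn Λ E → GD Λ' c → Hs Λ' κ → Sx Λ χ P F B G G' z z' u w →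
  ev χ z ≠ 0 → ∏ χ ∈ univ.erase 0, Λ.L χ = ∏ χ ∈ univ.erase 0, Λ'.L χ →
    ∃ (j : A' →+ A) (H : ℕ → ZA A), Ph Λ' j χ G H κ (u ^ (2 * n))

/-! ### The identity at an edge -/

-- deps:
def S_PRT : Prop := ∀ (q n c u a : ℕ) (A : Type) [AddCommGroup A] [Fintype A] (Λ : LD q n A)
  (v y z : ZA A) (T : Finset A), 3 ≤ n → 0 < u → ED Λ c → TD Λ (u ^ 4) a → sz v ≤ u ^ 2 →
  sz y ≤ u * q → sz z ≤ u * q ^ (n - 1) → #T ≤ u → ∃ (B : Finset (A × A)) (L : Finset A),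
    u ^ 4 * #B ≤ 2 * q ^ n ∧ #L ≤ 2 * u ^ (4 * a) ∧ ∀ L', L ⊆ L' → ∀ e ∈ Es Λ, e ∉ B → ∀ t ∈ T,
      (v * (y * z)).coeff (e.1 + e.2 + t) = (v * (pat y e.1 L' * pat z e.2 L')).coeff t

-- deps: CUM PH PU PRT
def S_IDH : Prop := ∀ c n a b : ℕ, 3 ≤ n → ∃ K : ℕ, ∀ (q u w : ℕ) (A : Type) [AddCommGroup A]
  [Fintype A] (Λ : LD q n A) (χ : AddChar A ℂ) (P z : ZA A) (G G' H V : ℕ → ZA A) (k : A)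
  (T : Finset A), Lv Λ u w a K → ED Λ c → Fd Λ χ P G G' z u w → Pr2 χ n G H V (n • k) →
  Hk χ n G H k → Sz H q n u → Sz V q n u → #T ≤ u → ∃ L : Finset A, #L ≤ u ^ (4 * a + 1) ∧
    ∀ L', L ⊆ L' → #L' ≤ u ^ b → ∃ B : Finset (A × A), u * #B ≤ q ^ n ∧ ∀ e ∈ Es Λ, e ∉ B →
      e.1 ∈ S0 Λ → e.2 ∈ V0 Λ → ∀ t ∈ T, (sg (n • k) * (P * z - z ^ 2) + sg Λ.ω *
        ((P * pat (V 1) e.1 L' - z) * (P * pat (V (n - 1)) e.2 L' - z))).coeff t = 0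

-- deps: FTS IDH
def S_STH : Prop := ∀ c n a E : ℕ, 3 ≤ n → ∃ b M K : ℕ, 0 < b ∧ ∀ (q u w : ℕ) (A A' : Type)
  [AddCommGroup A] [Fintype A] [AddCommGroup A'] [Fintype A'] (Λ : LD q n A) (Λ' : LD q n A')
  (χ : AddChar A ℂ) (P z : ZA A) (G G' H : ℕ → ZA A) (j : A' →+ A) (κ : A') (L : Finset A),
  Sl Λ u w a K → ED Λ c → CD Λ c M → GD Λ' c → Hs Λ' κ → Fd Λ χ P G G' z u w →
  Ph Λ' j χ G H κ u → #L ≤ u → ∃ L', L ⊆ L' ∧ #L' ≤ u ^ b ∧ Sh Λ Λ' j χ P z E L L'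

-- deps: SPLT
def S_LUH : Prop := ∀ (A : Type) [AddCommGroup A] [Fintype A] (χ : AddChar A ℂ) (P z : ZA A)
  (ω ω' : A) (L S V : Finset A) (G : Finset (A × A)) (a b : ℕ) (ε η : A → ZA A), χ ∈ Fa A →
  ev χ P ≠ 0 → ev χ z ≠ 0 → Mg S V G a b → 4 * a < #S → 4 * b < #V → (∀ p ∈ S, Sgl (ε p) L) →
  (∀ r ∈ V, Sgl (η r) L) → (∀ e ∈ G, e.1 ∈ S → e.2 ∈ V →
    χ ω' * (ev χ P * ev χ z - ev χ z ^ 2) + χ ω * (ev χ P * ev χ (ε e.1) - ev χ z) *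
      (ev χ P * ev χ (η e.2) - ev χ z) = 0) →
    (∃ t, #{p ∈ S | ε p ≠ sg t} ≤ 3 * a) ∨ (∃ t, #{r ∈ V | η r ≠ sg t} ≤ 3 * b) ∨
      (Ur χ P z ω ω' ∧ #{p ∈ S | ε p ≠ 0} ≤ 3 * a ∧ #{r ∈ V | η r ≠ 0} ≤ 3 * b)

-- deps: MXE STH LUH LUC
def S_LH : Prop := ∀ c n a E : ℕ, 3 ≤ n → ∃ M K : ℕ, ∀ (q u w : ℕ) (A A' : Type)
  [AddCommGroup A] [Fintype A] [AddCommGroup A'] [Fintype A'] (Λ : LD q n A) (Λ' : LD q n A')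
  (χ : AddChar A ℂ) (P z : ZA A) (G G' H : ℕ → ZA A) (j : A' →+ A) (κ : A') (L0 : Finset A),
  Sl Λ u w a K → ED Λ c → CD Λ c M → DD Λ' c → Hs Λ' κ → Fd Λ χ P G G' z u w →
  Ph Λ' j χ G H κ u → ev χ z ≠ 0 → #L0 ≤ u → Rel Λ Λ' j E ∨
    (∃ τ, E * #{r ∈ Pi Λ (n - 1) | (Ej Λ' j (n - 1)).coeff (r + τ) = 0} ≤ q ^ (n - 1)) ∨
    (Ur χ P z Λ.ω (j Λ'.ω) ∧ E * #{p ∈ Λ.S | ¬ Fr (Ej Λ' j 1) p L0} ≤ q ∧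
      E * #{r ∈ Pi Λ (n - 1) | ¬ Fr (Ej Λ' j (n - 1)) r L0} ≤ q ^ (n - 1))

-- deps: FTS
def S_HRP : Prop := ∀ c n a E : ℕ, 3 ≤ n → ∃ M K : ℕ, ∀ (q u w : ℕ) (A A' : Type)
  [AddCommGroup A] [Fintype A] [AddCommGroup A'] [Fintype A'] (Λ : LD q n A) (Λ' : LD q n A')
  (j : A' →+ A) (τ : A), Lv Λ u w a K → ED Λ c → CD Λ c M → DD Λ' c →
    E * #{r ∈ Pi Λ (n - 1) | ∃ y, j y = r + τ ∧ (Λ'.W (n - 1)).coeff y ≠ 0 ∧ ¬ Pm Λ' (n - 1) y} ≤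
      q ^ (n - 1)

-- deps:
def S_HRR : Prop := ∀ c n : ℕ, 3 ≤ n → ∃ M : ℕ, ∀ (q : ℕ) (A A' : Type) [AddCommGroup A]
  [Fintype A] [AddCommGroup A'] [Fintype A'] (Λ : LD q n A) (Λ' : LD q n A') (j : A' →+ A)
  (κ : A') (τ : A), M ≤ q → ED Λ c → XD Λ M → UD Λ' M → Hs Λ' κ →
  M * #{r ∈ Pi Λ (n - 1) | ¬ ∃ y ∈ Pi Λ' (n - 1), j y = r + τ} ≤ q ^ (n - 1) → False

-- deps: FTS LH HRP HRR MID PRM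
def S_HPART : Prop := ∀ c n a E : ℕ, 3 ≤ n → ∃ M K : ℕ, ∀ (q u w : ℕ) (A A' : Type)
  [AddCommGroup A] [Fintype A] [AddCommGroup A'] [Fintype A'] (Λ : LD q n A) (Λ' : LD q n A')
  (χ : AddChar A ℂ) (P z : ZA A) (G G' H : ℕ → ZA A) (j : A' →+ A) (κ : A') (T : Finset A),
  Sl Λ u w a K → ED Λ c → CD Λ c M → XD Λ M → DD Λ' c → UD Λ' M → Hs Λ' κ →
  Fd Λ χ P G G' z u w → Ph Λ' j χ G H κ u → ev χ z ≠ 0 → #T ≤ u →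
    Rel Λ Λ' j E ∨ Hu Λ Λ' j χ P z G H T E

/-! ### Two unrelated partners -/

-- deps:
def S_HG1 : Prop := ∀ c n : ℕ, 3 ≤ n → ∃ K : ℕ, ∀ (q u w : ℕ) (A : Type) [AddCommGroup A]
  [Fintype A] (Λ : LD q n A) (χ : AddChar A ℂ) (P z z' : ZA A) (G G' H1 V1 H2 V2 : ℕ → ZA A)
  (w1 w2 k1 k2 : A) (T : Finset A), Sc A q u K → u ≤ w → ED Λ c → Fd Λ χ P G G' z u w →
  Fd Λ χ P G' G z' u w → Pr2 χ n G H1 V1 w1 → Pr2 χ n G' H2 V2 w2 → Hk χ n G H1 k1 →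
  Hk χ n G' H2 k2 → 8 * #(Λ.S \ S0 Λ) ≤ q → 8 * #{p ∈ Λ.S | ¬ Fr (V1 1) p T} ≤ q →
  8 * #{p ∈ Λ.S | ¬ Fr (V2 1) p T} ≤ q → (∀ t b, (sg k2 * z + sg k1 * z').coeff t ≠ 0 →
    P.coeff b ≠ 0 → t - k2 - b ∈ T ∧ t - k1 - b ∈ T) → sg k2 * z + sg k1 * z' = 0

-- deps:
def S_TWS : Prop := ∀ (A : Type) [AddCommGroup A] [Fintype A] (Q Ξ θ1 θ2 : ZA A) (T : Finset A),
  Q ≠ 0 → Sgl θ1 univ → Sgl θ2 univ → (∀ x b1 b2 b3 b4, Ξ.coeff x ≠ 0 → Q.coeff b1 ≠ 0 →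
    Q.coeff b2 ≠ 0 → Q.coeff b3 ≠ 0 → Q.coeff b4 ≠ 0 → x + (b1 - b2) + (b3 - b4) ∈ T) →
  (∀ t ∈ T, Ξ.coeff t = (Q * (θ2 - θ1)).coeff t) →
    ∃ y1 y2, (y1 = 0 ∨ y1 = θ1) ∧ (y2 = 0 ∨ y2 = θ2) ∧ Ξ = Q * (y2 - y1)

-- deps:
def S_ORD6 : Prop := ∀ (A : Type) [AddCommGroup A] [Fintype A] (χ : AddChar A ℂ) (y1 y2 : ZA A)
  (g : A), χ ∈ Fa A → Sgl y1 univ → Sgl y2 univ → (1 - χ g) * ev χ (y2 - y1) = 2 * χ g →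
    addOrderOf g ≤ 6 ∧ (addOrderOf g = 6 → y1 ≠ 0 ∧ y2 ≠ 0)

-- deps: ESL SGL TWS ORD6
def S_HTW : Prop := ∀ c n E : ℕ, 3 ≤ n → ∃ M K : ℕ, ∀ (q u : ℕ) (A A' : Type) [AddCommGroup A]
  [Fintype A] [AddCommGroup A'] [Fintype A'] (Λ : LD q n A) (Λ' : LD q n A') (χ : AddChar A ℂ)
  (P Ξ : ZA A) (j1 j2 : A' →+ A) (g : A) (T L : Finset A) (B : Finset (A × A)), Sc A q u K →
  ED Λ c → CD Λ c M → XD Λ M → DD Λ' c → Nat.card j1.ker ≤ 12 → Nat.card j2.ker ≤ 12 →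
  χ ∈ Fa A → Kp P → #L ≤ u → (1 - χ g) * ev χ Ξ = 2 * χ g * ev χ P ^ 2 →
  (∀ x b1 b2 b3 b4, Ξ.coeff x ≠ 0 → (P ^ 2).coeff b1 ≠ 0 → (P ^ 2).coeff b2 ≠ 0 →
    (P ^ 2).coeff b3 ≠ 0 → (P ^ 2).coeff b4 ≠ 0 → x + (b1 - b2) + (b3 - b4) ∈ T) →
  (∀ t ∈ T, ∀ b, (P ^ 2).coeff b ≠ 0 → t - b ∈ L ∧ t - g - b ∈ L) → M * #B ≤ q ^ n →
  (∀ e ∈ Es Λ, e ∉ B → ∀ t ∈ T, (P ^ 2 * Ej Λ' j2 n - sg g * (P ^ 2 * Ej Λ' j1 n)).coeff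
    (e.1 + e.2 + t) = Ξ.coeff t) → addOrderOf g ≤ 6 ∧ (addOrderOf g = 6 →
      ∃ B' : Finset (A × A), E * #B' ≤ q ^ n ∧ ∀ e ∈ Es Λ, e ∉ B' →
        ¬ Fr (Ej Λ' j1 n) (e.1 + e.2) L ∧ ¬ Fr (Ej Λ' j2 n) (e.1 + e.2) L)

-- deps:
def S_LAD : Prop := ∀ (A : Type) [AddCommGroup A] [Fintype A] (χ : AddChar A ℂ) (P : ZA A),
  IsAddCyclic A → χ ∈ Fa A → Pq P → ∃ F : Finset A, #F ≤ 75 * om A ∧ Lad χ F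

-- deps:
def S_HG3 : Prop := ∀ (q n u l : ℕ) (A : Type) [AddCommGroup A] [Fintype A] (Λ : LD q n A)
  (χ : AddChar A ℂ) (G G' H1 V1 H2 V2 : ℕ → ZA A) (w1 w2 k1 k2 : A) (F T : Finset A), 0 < n →
  16 * (u + 1) ≤ q → Λ.NH → Lad χ F → #F ≤ u → insert 0 F ⊆ T → Pr2 χ n G G' Λ.W Λ.ω →
  Pr2 χ n G H1 V1 w1 → Pr2 χ n G' H2 V2 w2 → Hk χ n G H1 k1 → Hk χ n G' H2 k2 →
  8 * #{p ∈ Λ.S | ¬ Fr (V1 1) p T} ≤ q → 8 * #{p ∈ Λ.S | ¬ Fr (V2 1) p T} ≤ q → l.Prime →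
  l ≤ 5 → l ^ 2 • (k2 - k1) = 0 → k2 - k1 = 0

-- deps:
def S_NWA : Prop := ∀ (q n c : ℕ) (A A' : Type) [AddCommGroup A] [Fintype A] [AddCommGroup A']
  [Fintype A'] (Λ : LD q n A) (Λ' : LD q n A') (χ : AddChar A ℂ) (N : ZA A) (N' : ZA A')
  (G G' H1 H2 : ℕ → ZA A) (j1 j2 : A' →+ A) (κ : A') (u : ℕ), 0 < n → NS Λ N c → NS Λ' N' c →
  Pr2 χ n G G' Λ.W Λ.ω → Ph Λ' j1 χ G H1 κ u → Ph Λ' j2 χ G' H2 κ u →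
    ∃ Y, ev χ (pu j1 N' + pu j2 N' - N - sg (n • j2 κ) * br N) =
      (1 - χ (n • (j2 κ - j1 κ))) * ev χ Y

-- deps:
def S_HC1 : Prop := ∀ c n : ℕ, ∃ K : ℕ, ∀ (q u : ℕ) (A A' : Type) [AddCommGroup A] [Fintype A]
  [AddCommGroup A'] [Fintype A'] (Λ : LD q n A) (Λ' : LD q n A') (χ : AddChar A ℂ) (N Y : ZA A)
  (N' : ZA A') (j1 j2 : A' →+ A) (g s : A) (F T : Finset A), Sc A q u K → ED Λ c → NS Λ N c →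
  NS Λ' N' c → Lad χ F → #F ≤ u → insert 0 F ⊆ T → g ≠ 0 → 3 ^ 2 • g = 0 → ¬ 3 ∣ n →
  ev χ (pu j1 N' + pu j2 N' - N - sg s * br N) = (1 - χ g) * ev χ Y →
    u * #{x ∈ Pi Λ n | ¬ Pm Λ n (Λ.ω - x) ∧ ¬ Cv j1 (Pi Λ' n) T x ∧ ¬ Cv j2 (Pi Λ' n) T x} ≤ q ^ n

-- deps: ESL COV
def S_HCT : Prop := ∀ c n : ℕ, 3 ≤ n → ∃ M : ℕ, ∀ (q u : ℕ) (A A' : Type) [AddCommGroup A]
  [Fintype A] [AddCommGroup A'] [Fintype A'] (Λ : LD q n A) (Λ' : LD q n A') (j1 j2 : A' →+ A)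
  (κ : A') (T : Finset A) (B : Finset (A × A)), M ≤ u → u ^ 3 ≤ q → ED Λ c → CD Λ c M → XD Λ M →
  UD Λ' M → Hs Λ' κ → #T ≤ u → M * #B ≤ q ^ n →
  (∀ e ∈ Es Λ, e ∉ B → Cv j1 (Pi Λ' n) T (e.1 + e.2) ∧ Cv j2 (Pi Λ' n) T (e.1 + e.2)) →
  M * #{x ∈ Pi Λ n | ¬ Pm Λ n (Λ.ω - x) ∧ ¬ Cv j1 (Pi Λ' n) T x ∧ ¬ Cv j2 (Pi Λ' n) T x} ≤ q ^ n →
    False

-- deps: FTS TOP HG1 HTW LAD HG3 NWA HC1 HCT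
def S_HFIN : Prop := ∀ c n : ℕ, 3 ≤ n → ∃ M K : ℕ, ∀ (q u w : ℕ) (A A' : Type)
  [AddCommGroup A] [Fintype A] [AddCommGroup A'] [Fintype A'] (Λ : LD q n A) (Λ' : LD q n A')
  (χ : AddChar A ℂ) (P z z' N : ZA A) (N' : ZA A') (F B : ℂ[X]) (G G' H1 H2 : ℕ → ZA A)
  (j1 j2 : A' →+ A) (κ : A'), IsAddCyclic A → Sc A q u K → u ≤ w → ED Λ c → CD Λ c M → XD Λ M →
  NS Λ N c → DD Λ' c → UD Λ' M → Hs Λ' κ → NS Λ' N' c → Sx Λ χ P F B G G' z z' u w →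
  ev χ z ≠ 0 → Ph Λ' j1 χ G H1 κ u → Ph Λ' j2 χ G' H2 κ u → ∃ T : Finset A, #T ≤ u ^ 12 ∧
    (Hu Λ Λ' j1 χ P z G H1 T M → Hu Λ Λ' j2 χ P z' G' H2 T M → False)

-- deps: SPF GENL PTH FNC HPART TOP HFIN
def S_ADDH : Prop := ∀ c n a C0 : ℕ, 3 ≤ n → ∃ M K : ℕ, ∀ (q u w : ℕ) (A A' : Type)
  [AddCommGroup A] [Fintype A] [AddCommGroup A'] [Fintype A'] (Λ : LD q n A) (Λ' : LD q n A')
  (N : ZA A) (N' : ZA A') (κ : A'), Big A c q n 0 → Sl Λ u w a K → ED Λ c → CD Λ c M → XD Λ M →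
  NS Λ N c → DD Λ' c → UD Λ' M → Hs Λ' κ → NS Λ' N' c → #Λ.S = #Λ'.S →
  ∏ χ ∈ univ.erase 0, Λ.L χ = ∏ χ ∈ univ.erase 0, Λ'.L χ → Fn Λ Λ' C0

end Pool.Agent.P.MP_9344a7_nt.Cy
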