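import Pool.Agent.P.MP_9344a7_nt.Cy.IfaceG
import Pool.Agent.P.MP_9344a7_nt.Cy.IfaceA
import Pool.Agent.P.MP_9344a7_nt.Cy.IfaceH

/-! Steps NHY, ALL. -/

set_option linter.unusedVariables false
set_option linter.unusedSectionVars false

namespace Pool.Agent.P.MP_9344a7_nt.Cy

section

open Polynomial Finset Module
open Pool.Agent.P.MP_6f117a_ag (Place FF)
open Pool.Agent.P.MP_ab3ecb_nt.Inv (Dv deg SA LS ord dv)
open Pool.Agent.P.MP_9344a7_nt.R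
open Pool.Agent.P.MP_9344a7_nt.Hy hiding pt
open Pool.Agent.P.MP_9344a7_nt.Od (GD Kp Fe)
open Pool.Agent.P.MP_9344a7_nt.Gt (pt lS Pr Can Bd Ch G12 Kb)
open Pool.Agent.P.MP_9344a7_nt.Ac (Sb Pm Sp ED CD TD AD Sc Eg Dgs)
open scoped Classical IntermediateField ComplexConjugate

theorem p_NHY :
    S_NHY := by
  intro k E _ _ _ _ _ H d l one
  obtain ⟨D, D0, rfl⟩ := ll_eff (x := H) (by omega)
  rw [ll_mk] at l
  obtain ⟨x, x1, x2⟩ := Gt.exists_of_lS_lt (D := 0) (D' := D) (by rw [Gt.lS_zero, lS]; omega)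
  have nc : ∀ c, algebraMap k E c ≠ x := fun c e => x2 (e ▸ Gt.const_mem_LS le_rfl c)
  have tx : Transcendental k x := fun a => by
    obtain ⟨c, e⟩ := minpoly.mem_range_of_degree_eq_one k x
      (IsAlgClosed.degree_eq_one_of_irreducible k (minpoly.irreducible a.isIntegral))
    exact nc c e
  have bd := fun n => Ac.a_BDF k E x n tx
  have h2 := (bd 2).1 ⟨D, D0, d.le, x1⟩
  refine ⟨x, le_antisymm h2 (not_lt.1 fun h => ?_)⟩
  obtain ⟨B, B0, B1, B2⟩ := (bd 1).2 (by omega)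
  have b0 : 0 ≤ deg B := by simpa using MP_ab3ecb_nt.Inv.deg_mono B0
  have b1 : lS B = 1 := by
    have p := Gt.lS_pos B0
    rcases (show deg B = 0 ∨ deg B = 1 by push_cast at B1; omega) with e | e
    · have := Gt.lS_le_deg b0
      omega
    · obtain ⟨P, hP⟩ := ll_deg1 (x := (B : Pic k E)) e (by rwa [ll_mk])
      exact (ll_mk B).symm.trans (hP ▸ one P)
  obtain ⟨c, e⟩ := const_of_finrank b1 B0 B2
  exact nc c e

end

section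

open Polynomial Finset Module
open Pool.Agent.P.MP_6f117a_ag (Place FF)
open Pool.Agent.P.MP_ab3ecb_nt.Inv (Dv deg SA LS ord dv)
open Pool.Agent.P.MP_9344a7_nt.R
open Pool.Agent.P.MP_9344a7_nt.Hy hiding pt
open Pool.Agent.P.MP_9344a7_nt.Od (GD Kp Fe)
open Pool.Agent.P.MP_9344a7_nt.Gt (pt lS Pr Can Bd Ch G12 Kb)
open Pool.Agent.P.MP_9344a7_nt.Ac (Sb Pm Sp ED CD TD AD Sc Eg Dgs)
open scoped Classical IntermediateField ComplexConjugate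

theorem p_ALL (hADDN : S_ADDN) (hADDH : S_ADDH) (hXDG : S_XDG) (hUDG : S_UDG) (hNSD : S_NSD) (hNHY : S_NHY) :
    S_ALL := by
  intro g hg
  obtain ⟨n, rfl⟩ : ∃ n, g = n + 1 := ⟨g - 1, by omega⟩
  have hn : 2 ≤ n := by omega
  obtain ⟨p1, H1⟩ := Nh.a_TWO n (by omega)
  obtain ⟨C0, p2, H2⟩ := Nh.a_FIN n hn
  obtain ⟨c1, p3, H3⟩ := hNSD n hn
  obtain ⟨c2, p4, H4⟩ := Ac.a_ED n hn
  obtain ⟨c3, H5⟩ := Ac.a_CD n hn
  obtain ⟨a, b, u0, p6, H6⟩ := Ac.a_TD n hn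
  obtain ⟨ch, p7, H7⟩ := Hy.a_HD n hn
  obtain ⟨c, hc, hc'⟩ : ∃ c, c1 + c2 + c3 ≤ c ∧ 2 ^ (n + 1) ≤ c :=
    ⟨_, Nat.le_add_right _ _, Nat.le_add_left _ _⟩
  obtain ⟨M1, K1, A1⟩ := hADDN c n a C0 (by omega)
  obtain ⟨M2, K2, A2⟩ := hADDH c n a C0 (by omega)
  obtain ⟨p5, H5⟩ := H5 (M1 + M2)
  obtain ⟨p8, H8⟩ := hXDG n (M1 + M2) hn
  obtain ⟨p9, H9⟩ := hUDG n M2 hn
  obtain ⟨K0, k0⟩ : ∃ K0, K0 = K1 + K2 + 1 := ⟨_, rfl⟩
  obtain ⟨q1, H0⟩ := Hy.a_SML (2 ^ (n + 1)) (n + 1) ((u0 + K0) ^ (K0 * K0 * (b + 1)))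
    (K0 * (K0 * K0 * (b + 1)))
  refine ⟨p1 + p2 + p3 + p4 + p5 + p6 + p7 + p8 + p9 + q1,
    fun F E E' _ _ _ _ _ _ C D hp g1 g2 nh cy hN ⟨e, e', d, d', hH⟩ => ?_⟩
  obtain ⟨_, _, σ, σ', K, K', _, _, Λ, Λ', T⟩ := H1 F E E' C D e e' (by omega) g1 g2 hN d d' hH
  have hq : ringChar F ≤ Fintype.card F :=
    Nat.le_of_dvd Fintype.card_pos ((ringChar.spec F _).1 (FiniteField.cast_card_eq_zero F))
  have hb := T.big cy 0 fun l h _ => h.pos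
  obtain ⟨-, ng⟩ := (Ac.a_NHG _ E K e.1 n σ _ Λ T.gb (by omega) T.fb T.il).resolve_right
    fun ⟨H, _, i2, i3⟩ => nh (hNHY _ E H i2 i3 T.gb.one)
  obtain ⟨u, hu⟩ : ∃ u, u = (u0 + K0) * om (J σ) ^ K0 := ⟨_, rfl⟩
  have u1 : u0 + K0 ≤ u := hu ▸ Nat.le_mul_of_pos_right _ (Nat.pow_pos Ac.one_le_om)
  have u2 : ((u ^ K0) ^ K0) ^ (b + 1) ≤ Fintype.card F := by
    rw [← pow_mul, ← pow_mul, ← mul_assoc, hu, mul_pow, ← pow_mul]
    exact H0 _ _ (by omega) Nat.card_pos.ne' hb.le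
  have sl : Sl Λ u (u ^ K0) a K0 := ⟨hu ▸ Nat.mul_le_mul_right _ (by omega), le_rfl,
    (Nat.le_self_pow b.succ_ne_zero _).trans u2, fun v v1 v2 => H6 F E K e.1 σ Λ v (by omega) T.gb
      T.fb T.il ng (by omega) ((Nat.pow_le_pow_right (by omega) b.le_succ).trans
        ((Nat.pow_le_pow_left v2 _).trans u2))⟩
  have s2 : ∀ K', K' ≤ K0 → Sl Λ u (u ^ K0) a K' := fun K' h =>
    ⟨(sl.sc.down h).lo, Nat.pow_le_pow_right (by omega) h, (Nat.pow_le_pow_right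
      (Nat.pow_pos (by omega)) h).trans sl.hi, fun v v1 v2 => sl.td v v1 (v2.trans
        (Nat.pow_le_pow_right (Nat.pow_pos (by omega)) h))⟩
  have bg : Big (J σ) c (Fintype.card F) n 0 :=
    ⟨hb.cyc, hb.nt, hb.le.trans (Nat.mul_le_mul_right _ hc'), hb.pr⟩
  have ed := (H4 F E K e.1 σ Λ (by omega) T.gb T.fb T.il ng).up (c' := c) (by omega)
  have cd := H5 F E K e.1 σ Λ (by omega) T.gb T.fb T.il ng
  have xd := H8 F E K e.1 σ Λ (by omega) T.gb T.fb T.il ng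
  suffices h : Fn Λ Λ' C0 by
    obtain ⟨θ, t, h⟩ := h
    refine H2 F E E' C D e e' σ σ' K K' Λ Λ' (by omega) g1 g2 (hN 1 one_pos) T θ t
      (le_trans (Nat.mul_le_mul_left _ (card_le_card fun s hs => ?_)) h)
    simpa using hs
  rcases Ac.a_NHG _ E' K' e'.1 n σ' _ Λ' T.gb' (by omega) T.fb' T.il' with ⟨-, ng'⟩ | ⟨H, i1, i2, i3⟩
  · exact A1 _ u _ _ _ Λ Λ' bg (s2 _ (by omega)) ed (cd.up (by omega) (by omega))
      (xd.down (by omega)) ((H4 F E' K' e'.1 σ' Λ' (by omega) T.gb' T.fb' T.il' ng').up (by omega))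
      ((H8 F E' K' e'.1 σ' Λ' (by omega) T.gb' T.fb' T.il' ng').down (by omega)) T.card T.eq
  obtain ⟨-, κ, b2⟩ := H7 F E' K' H e'.1 σ' Λ' (by omega) T.gb' T.fb' T.il' i1 i2 i3
  obtain ⟨-, N, b3⟩ := H3 F E K e.1 σ Λ (by omega) T.gb T.fb T.il
  obtain ⟨b4, N', b5⟩ := H3 F E' K' e'.1 σ' Λ' (by omega) T.gb' T.fb' T.il'
  exact A2 _ u _ _ _ Λ Λ' N N' κ bg (s2 _ (by omega)) ed (cd.up (by omega) (by omega))
    (xd.down (by omega)) (b3.up (by omega)) (b4.up (by omega))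
    (H9 F E' K' e'.1 σ' Λ' (by omega) T.gb' T.fb' T.il') (hs_of b2) (b5.up (by omega)) T.card T.eq

end

end Pool.Agent.P.MP_9344a7_nt.Cy
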