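import Pool.Agent.P.MP_9344a7_nt.Cy.IfaceG

/-! Steps UDG, NSD. -/

set_option linter.unusedVariables false
set_option linter.unusedSectionVars false

namespace Pool.Agent.P.MP_9344a7_nt.Cy

section

open Polynomial Finset Module
open Pool.Agent.P.MP_6f117a_ag (Place FF)
open Pool.Agent.P.MP_ab3ecb_nt.Inv (Dv deg SA LS ord dv)
open Pool.Agent.P.MP_9344a7_nt.R
open Pool.Agent.P.MP_9344a7_nt.Hy hiding pt
open Pool.Agent.P.MP_9344a7_nt.Od (GD Kp Fe)
open Pool.Agent.P.MP_9344a7_nt.Gt (pt lS Pr Can Bd Ch G12 Kb)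
open Pool.Agent.P.MP_9344a7_nt.Ac (Sb Pm Sp ED CD TD AD Sc Eg Dgs)
open scoped Classical IntermediateField ComplexConjugate

lemma cudg_key {k E : Type} [Field k] [Field E] [Algebra k E] [IsAlgClosed k] [FF k E]
    {K e : Pic k E} {σ : SA k E} {Q n m : ℕ} {Λ : LD Q n (J σ)} (fb : FB σ Q) (il : IsL σ K e Λ)
    (hm : m ≠ 0) : ∃ g : Place k E → J σ,
      (∀ P ∈ fx σ m, Nm σ.pl m P ∈ Eff σ.pl m ∧ (Nm σ.pl m P : Pic k E) = (g P).1 + m • e) ∧
      ∀ x, Pm Λ m x → #{P ∈ fx σ m | g P = x} = m := by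
  have cl : ∀ j, ∀ A ∈ Eff σ.pl j, ∃ x : J σ, (A : Pic k E) = x.1 + j • e := fun j A hA => by
    have d2 := sub_mem_J il.e1 il.e2 (ph_inv hA.2.1)
    rw [dg_mk, hA.2.2, natCast_zsmul] at d2
    exact ⟨⟨_, d2⟩, (sub_add_cancel _ _).symm⟩
  have ne : ∀ j, ∀ A ∈ Eff σ.pl j, ∀ x : J σ, (A : Pic k E) = x.1 + j • e →
      (Λ.W j).coeff x ≠ 0 := fun j A hA x hx => by
    rw [il.W, Nat.cast_ne_zero, card_ne_zero]
    exact ⟨A, mem_filter.2 ⟨(fb.ef _ _).2 hA, hx⟩⟩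
  have nE : ∀ j P, σ.pl^[j] P = P → Nm σ.pl j P ∈ Eff σ.pl j := fun j P h =>
    ⟨Nm_nonneg _ _, Nm_inv h, deg_Nm _ _⟩
  have ex : ∀ P, ∃ x : J σ, P ∈ fx σ m → (Nm σ.pl m P : Pic k E) = x.1 + m • e := fun P => by
    by_cases h : P ∈ fx σ m
    · exact (cl m _ (nE m P ((fb.fx m hm P).1 h))).imp fun _ a _ => a
    · exact ⟨0, fun a => absurd a h⟩
  choose g hg using ex
  refine ⟨g, fun P hP => ⟨nE m P ((fb.fx m hm P).1 hP), hg P hP⟩, fun x hx => ?_⟩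
  have h1 := hx.1
  rw [il.W, Nat.cast_eq_one, card_eq_one] at h1
  obtain ⟨A, hA⟩ := h1
  obtain ⟨a1, a2⟩ := mem_filter.1 (hA ▸ mem_singleton_self A)
  rw [fb.ef] at a1
  have loc : ∀ P ∈ A.support, σ.pl^[m] P = P ∧ Nm σ.pl m P ≤ A ∧ A P = 1 := fun P hP => by
    have c := count_loc a1 hP
    have s : ({j ∈ range m | σ.pl^[m - j] P = P ∧ Nm σ.pl (m - j) P ≤ A} : Finset ℕ) ⊆ {0} :=
      fun j hj => by
        obtain ⟨b1, b2, b3⟩ := mem_filter.1 hj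
        rw [mem_range] at b1
        by_contra j0
        obtain ⟨b, hb⟩ := cl j _ (sub_Nm a1 b1 b2 b3)
        refine hx.2 j (Nat.pos_of_ne_zero (by simpa using j0)) b1 b
          ⟨ne j _ (sub_Nm a1 b1 b2 b3) b hb, ne _ _ (nE _ P b2) _ ?_⟩
        rw [QuotientAddGroup.mk_sub, a2, sub_eq_iff_eq_add'] at hb
        have : m • e = (m - j) • e + j • e := by rw [← add_nsmul, Nat.sub_add_cancel b1.le]
        rw [this] at hb
        rw [AddSubgroup.coe_sub]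
        linear_combination (norm := abel) -hb
    have p0 := Finsupp.mem_support_iff.1 hP
    rcases subset_singleton_iff.1 s with s | s
    · rw [s] at c
      exact absurd c.symm p0
    · have := (mem_filter.1 (s ▸ mem_singleton_self 0)).2
      rw [s] at c
      exact ⟨this.1, this.2, c.symm⟩
  have e1 : {P ∈ fx σ m | g P = x} = A.support := by
    ext P
    refine ⟨fun h => ?_, fun h => ?_⟩
    · obtain ⟨b1, rfl⟩ := mem_filter.1 h
      have b2 := (fb.fx m hm P).1 b1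
      have : Nm σ.pl m P = A := mem_singleton.1
        (hA ▸ mem_filter.2 ⟨(fb.ef _ _).2 (nE m P b2), hg P b1⟩)
      rw [← this, Finsupp.mem_support_iff, Nm_self, Nat.cast_ne_zero]
      exact Nat.count_ne_iff_exists.2 ⟨0, Nat.pos_of_ne_zero hm, rfl⟩
    · obtain ⟨b1, b2, -⟩ := loc P h
      have b3 := (fb.fx m hm P).2 b1
      refine mem_filter.2 ⟨b3, Subtype.ext (add_right_cancel (b := m • e) ?_)⟩
      rw [← hg P b3, ← a2, ← sub_eq_zero.1 (MP_ab3ecb_nt.Inv.eq_zero_of_deg (sub_nonneg.2 b2)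
        (by rw [map_sub, a1.2.2, deg_Nm, sub_self]))]
  have := a1.2.2
  rw [MP_ab3ecb_nt.Inv.deg_eq, sum_congr rfl fun P hP => (loc P hP).2.2] at this
  rw [e1]
  simpa using this

theorem p_UDG :
    S_UDG := by
  intro n M hn
  obtain ⟨p, h⟩ := Nh.a_PHI (n + 1) M (by omega)
  refine ⟨p, fun F E _ _ _ _ _ K e σ Λ _ hp gb fb il m m0 _ => ?_⟩
  obtain ⟨g, -, hg⟩ := cudg_key fb il m0.ne'
  refine le_trans (Nat.mul_le_mul_left _ ?_) (h F E K e σ hp gb fb il.e1 il.e2 m m0.ne')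
  rw [mul_comm, ← smul_eq_mul, ← sum_const, ← sum_congr rfl fun x hx => hg x (mem_Pi.1 hx),
    sum_card_fiberwise_eq_card_filter]
  exact card_filter_le _ _

end

section

open Polynomial Finset Module
open Pool.Agent.P.MP_6f117a_ag (Place FF)
open Pool.Agent.P.MP_ab3ecb_nt.Inv (Dv deg SA LS ord dv)
open Pool.Agent.P.MP_9344a7_nt.R
open Pool.Agent.P.MP_9344a7_nt.Hy hiding pt
open Pool.Agent.P.MP_9344a7_nt.Od (GD Kp Fe)
open Pool.Agent.P.MP_9344a7_nt.Gt (pt lS Pr Can Bd Ch G12 Kb)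
open Pool.Agent.P.MP_9344a7_nt.Ac (Sb Pm Sp ED CD TD AD Sc Eg Dgs)
open scoped Classical IntermediateField ComplexConjugate

lemma cnsd_key {k E : Type} [Field k] [Field E] [Algebra k E] [IsAlgClosed k] [FF k E]
    {K e : Pic k E} {σ : SA k E} {Q n m : ℕ} {Λ : LD Q n (J σ)} (fb : FB σ Q) (il : IsL σ K e Λ)
    (hm : m ≠ 0) : ∃ g : Place k E → J σ,
      (∀ P ∈ fx σ m, Nm σ.pl m P ∈ Eff σ.pl m ∧ (Nm σ.pl m P : Pic k E) = (g P).1 + m • e) ∧
      ∀ x, Pm Λ m x → #{P ∈ fx σ m | g P = x} = m := by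
  have cl : ∀ j, ∀ A ∈ Eff σ.pl j, ∃ x : J σ, (A : Pic k E) = x.1 + j • e := fun j A hA => by
    have d2 := sub_mem_J il.e1 il.e2 (ph_inv hA.2.1)
    rw [dg_mk, hA.2.2, natCast_zsmul] at d2
    exact ⟨⟨_, d2⟩, (sub_add_cancel _ _).symm⟩
  have ne : ∀ j, ∀ A ∈ Eff σ.pl j, ∀ x : J σ, (A : Pic k E) = x.1 + j • e →
      (Λ.W j).coeff x ≠ 0 := fun j A hA x hx => by
    rw [il.W, Nat.cast_ne_zero, card_ne_zero]
    exact ⟨A, mem_filter.2 ⟨(fb.ef _ _).2 hA, hx⟩⟩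
  have nE : ∀ j P, σ.pl^[j] P = P → Nm σ.pl j P ∈ Eff σ.pl j := fun j P h =>
    ⟨Nm_nonneg _ _, Nm_inv h, deg_Nm _ _⟩
  have ex : ∀ P, ∃ x : J σ, P ∈ fx σ m → (Nm σ.pl m P : Pic k E) = x.1 + m • e := fun P => by
    by_cases h : P ∈ fx σ m
    · exact (cl m _ (nE m P ((fb.fx m hm P).1 h))).imp fun _ a _ => a
    · exact ⟨0, fun a => absurd a h⟩
  choose g hg using ex
  refine ⟨g, fun P hP => ⟨nE m P ((fb.fx m hm P).1 hP), hg P hP⟩, fun x hx => ?_⟩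
  have h1 := hx.1
  rw [il.W, Nat.cast_eq_one, card_eq_one] at h1
  obtain ⟨A, hA⟩ := h1
  obtain ⟨a1, a2⟩ := mem_filter.1 (hA ▸ mem_singleton_self A)
  rw [fb.ef] at a1
  have loc : ∀ P ∈ A.support, σ.pl^[m] P = P ∧ Nm σ.pl m P ≤ A ∧ A P = 1 := fun P hP => by
    have c := count_loc a1 hP
    have s : ({j ∈ range m | σ.pl^[m - j] P = P ∧ Nm σ.pl (m - j) P ≤ A} : Finset ℕ) ⊆ {0} :=
      fun j hj => by
        obtain ⟨b1, b2, b3⟩ := mem_filter.1 hj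
        rw [mem_range] at b1
        by_contra j0
        obtain ⟨b, hb⟩ := cl j _ (sub_Nm a1 b1 b2 b3)
        refine hx.2 j (Nat.pos_of_ne_zero (by simpa using j0)) b1 b
          ⟨ne j _ (sub_Nm a1 b1 b2 b3) b hb, ne _ _ (nE _ P b2) _ ?_⟩
        rw [QuotientAddGroup.mk_sub, a2, sub_eq_iff_eq_add'] at hb
        have : m • e = (m - j) • e + j • e := by rw [← add_nsmul, Nat.sub_add_cancel b1.le]
        rw [this] at hb
        rw [AddSubgroup.coe_sub]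
        linear_combination (norm := abel) -hb
    have p0 := Finsupp.mem_support_iff.1 hP
    rcases subset_singleton_iff.1 s with s | s
    · rw [s] at c
      exact absurd c.symm p0
    · have := (mem_filter.1 (s ▸ mem_singleton_self 0)).2
      rw [s] at c
      exact ⟨this.1, this.2, c.symm⟩
  have e1 : {P ∈ fx σ m | g P = x} = A.support := by
    ext P
    refine ⟨fun h => ?_, fun h => ?_⟩
    · obtain ⟨b1, rfl⟩ := mem_filter.1 h
      have b2 := (fb.fx m hm P).1 b1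
      have : Nm σ.pl m P = A := mem_singleton.1
        (hA ▸ mem_filter.2 ⟨(fb.ef _ _).2 (nE m P b2), hg P b1⟩)
      rw [← this, Finsupp.mem_support_iff, Nm_self, Nat.cast_ne_zero]
      exact Nat.count_ne_iff_exists.2 ⟨0, Nat.pos_of_ne_zero hm, rfl⟩
    · obtain ⟨b1, b2, -⟩ := loc P h
      have b3 := (fb.fx m hm P).2 b1
      refine mem_filter.2 ⟨b3, Subtype.ext (add_right_cancel (b := m • e) ?_)⟩
      rw [← hg P b3, ← a2, ← sub_eq_zero.1 (MP_ab3ecb_nt.Inv.eq_zero_of_deg (sub_nonneg.2 b2)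
        (by rw [map_sub, a1.2.2, deg_Nm, sub_self]))]
  have := a1.2.2
  rw [MP_ab3ecb_nt.Inv.deg_eq, sum_congr rfl fun P hP => (loc P hP).2.2] at this
  rw [e1]
  simpa using this

theorem p_NSD :
    S_NSD := by
  intro n hn
  obtain ⟨c, p1, -, h1⟩ := Od.a_GD n (by omega)
  obtain ⟨p2, h2⟩ := Nh.a_PHI (n + 1) 1 (by omega)
  refine ⟨c + 2 * n, max p1 p2, fun F E _ _ _ _ _ K e σ Λ _ hp gb fb il => ?_⟩
  have n0 : n ≠ 0 := by omega
  obtain ⟨-, -, pw⟩ := Od.a_PW _ E K e n σ _ Λ gb fb il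
  have dd : DD Λ c := ⟨h1 F E K e σ Λ ((le_max_left _ _).trans_lt hp) gb fb il,
    fun j a => (pw j a).2.2, (Ac.a_ED1 _ E K e n σ _ Λ gb fb il).2.1⟩
  have up := h2 F E K e σ ((le_max_right _ _).trans_lt hp) gb fb il.e1 il.e2
  obtain ⟨g, g1, g2⟩ := cnsd_key fb il n0
  have cf : ∀ x, (∑ P ∈ fx σ n, sg (g P)).coeff x = #{P ∈ fx σ n | g P = x} := fun x => by
    simp only [AddMonoidAlgebra.coeff_sum, Finsupp.finsetSum_apply, coeff_sg, card_filter]
    push_cast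
    exact sum_congr rfl fun P _ => by split_ifs <;> rfl
  refine ⟨dd.up (by omega), ∑ P ∈ fx σ n, sg (g P), fun χ hχ => ⟨_, il.nw χ hχ, ?_⟩,
    fun x hx => by rw [cf, g2 x hx], ?_⟩
  · rw [sm, map_sum]
    refine sum_congr rfl fun P hP => ?_
    rw [ev_sg, ← mk_Nm]
    exact ext_eq il.e2 χ _ n (by rw [(g1 P hP).2, natCast_zsmul])
  have Q0 : 0 < Fintype.card F := Fintype.card_pos
  clear h1 h2
  generalize Fintype.card F = Q at *
  have a2 : ({x | (∑ P ∈ fx σ n, sg (g P)).coeff x ≠ 0 ∧ ¬ Pm Λ n x} : Finset (J σ)) ⊆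
      ({b | (Λ.W n).coeff b ≠ 0 ∧ (Λ.W n).coeff b ≠ 1} : Finset (J σ)) ∪
        ((Ico 1 n).biUnion (fx σ)).image g := by
    intro x hx
    obtain ⟨-, b0, b⟩ := mem_filter.1 hx
    rw [cf, Nat.cast_ne_zero, card_ne_zero] at b0
    obtain ⟨P, hP'⟩ := b0
    obtain ⟨hP, rfl⟩ := mem_filter.1 hP'
    obtain ⟨d1, hx⟩ := g1 P hP
    by_contra con
    rw [mem_union, not_or] at con
    have d4 : (Λ.W n).coeff (g P) = 1 := by
      by_contra d
      refine con.1 (mem_filter.2 ⟨mem_univ _, ?_, d⟩)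
      rw [il.W, Nat.cast_ne_zero, card_ne_zero]
      exact ⟨_, mem_filter.2 ⟨(fb.ef _ _).2 d1, hx⟩⟩
    have gd := Od.ogt_good n0 ((fb.fx n n0 P).1 hP) fun i hi i0 e => con.2 (mem_image_of_mem _
      (mem_biUnion.2 ⟨i, mem_Ico.2 (by omega), (fb.fx i i0 P).2 e⟩))
    refine b ⟨d4, fun j j0 jn a => ?_⟩
    rintro ⟨c1, c2⟩
    rw [il.W, Nat.cast_ne_zero, card_ne_zero] at c1 c2
    obtain ⟨A, hA⟩ := c1
    obtain ⟨A', hA'⟩ := c2
    obtain ⟨b1, b2⟩ := mem_filter.1 hA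
    obtain ⟨b3, b4⟩ := mem_filter.1 hA'
    rw [fb.ef] at b1 b3
    have d5 : A + A' = Nm σ.pl n P := by
      refine eff_unique ((ll_mk _).symm.trans ?_) d1.1 (add_nonneg b1.1 b3.1) (mk_eq.1 ?_)
      · rw [hx]
        exact (pw n _).2.1.1 d4
      · rw [QuotientAddGroup.mk_add, b2, b4, hx, AddSubgroup.coe_sub, add_add_add_comm, ← add_nsmul,
          Nat.add_sub_cancel' jn.le, add_sub_cancel]
    obtain ⟨R, hR⟩ := Finsupp.support_nonempty_iff.2 fun e : A = 0 => by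
      have := b1.2.2
      rw [e, map_zero] at this
      omega
    have hR := Finsupp.mem_support_iff.1 hR
    have d6 := MP_ab3ecb_nt.Inv.deg_mono (gd.2 R (by
      have u1 : 0 ≤ A R := b1.1 R
      have u2 : 0 ≤ A' R := b3.1 R
      rw [← d5, Finsupp.add_apply]
      omega) _ A b1 hR)
    rw [b1.2.2, d1.2.2] at d6
    omega
  have a4 := dd.big le_rfl
  obtain ⟨m, rfl⟩ : ∃ m, n = m + 1 := ⟨n - 1, by omega⟩
  have a5 : #((Ico 1 (m + 1)).biUnion (fx σ)) ≤ m * (2 * Q ^ m) :=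
    (card_biUnion_le_card_mul _ _ (2 * Q ^ m) fun i hi => by
      have := mem_Ico.1 hi
      have := up i (by omega)
      have := Nat.pow_le_pow_right Q0 (show i ≤ m by omega)
      omega).trans (by simp)
  have a7 := Nat.mul_le_mul_left Q ((card_le_card a2).trans ((card_union_le _ _).trans
    (Nat.add_le_add_left (card_image_le.trans a5) _)))
  rw [pow_succ Q m] at a4 ⊢
  nlinarith [Nat.zero_le (Q ^ m * Q)]

end

end Pool.Agent.P.MP_9344a7_nt.Cy
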