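import Pool.Agent.P.MP_9344a7_nt.Cy.IfaceG

/-! Steps XDG. -/

set_option linter.unusedVariables false
set_option linter.unusedSectionVars false

namespace Pool.Agent.P.MP_9344a7_nt.Cy

section

open Polynomial Finset Module
open Pool.Agent.P.MP_6f117a_ag (Place FF)
open Pool.Agent.P.MP_ab3ecb_nt.Inv (Dv deg SA LS ord dv)
open Pool.Agent.P.MP_9344a7_nt.R
open Pool.Agent.P.MP_9344a7_nt.Hy hiding pt
open Pool.Agent.P.MP_9344a7_nt.Od (GD Kp Fe)
open Pool.Agent.P.MP_9344a7_nt.Gt (pt lS Pr Can Bd Ch G12 Kb)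
open Pool.Agent.P.MP_9344a7_nt.Ac (Sb Pm Sp ED CD TD AD Sc Eg Dgs)
open scoped Classical IntermediateField ComplexConjugate

theorem ppc_type {ι : Type} [Fintype ι] {n : ℕ} (hn : 2 ≤ n) (hc : Fintype.card ι = 2 * n)
    (π : Equiv.Perm ι) (h : ∀ i, #{l | π.SameCycle i l} = n) : π.cycleType = {n, n} := by
  have mv : ∀ i, π i ≠ i := fun i hi => by
    have : ({l | π.SameCycle i l} : Finset ι) ⊆ {i} := fun l hl =>
      mem_singleton.2 ((mem_filter.1 hl).2.eq_of_left hi).symm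
    have := card_le_card this
    rw [h, card_singleton] at this
    omega
  have h1 : ∀ a ∈ π.cycleType, a = n := fun a ha => by
    rw [Equiv.Perm.cycleType_def, Multiset.mem_map] at ha
    obtain ⟨c, hc, rfl⟩ := ha
    obtain ⟨i, hi⟩ := (Equiv.Perm.mem_cycleFactorsFinset_iff.1 hc).1.nonempty_support
    rw [Function.comp, Equiv.Perm.cycle_is_cycleOf hi hc, ← h i]
    congr 1
    ext l
    rw [Equiv.Perm.mem_support_cycleOf_iff, mem_filter_univ, Equiv.Perm.mem_support]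
    exact and_iff_left (mv i)
  have h2 := Multiset.eq_replicate_of_mem h1
  have h3 := Equiv.Perm.sum_cycleType π
  rw [eq_univ_iff_forall.2 fun i => Equiv.Perm.mem_support.2 (mv i), card_univ, hc, h2,
    Multiset.sum_replicate, smul_eq_mul] at h3
  rw [h2, Nat.eq_of_mul_eq_mul_right (by omega) h3]
  rfl

theorem ppc {ι : Type} [Fintype ι] {n : ℕ} (hn : 2 ≤ n) (hc : Fintype.card ι = 2 * n) :
    2 * n ^ 2 * #{π : Equiv.Perm ι | ∀ i, #{l | π.SameCycle i l} = n} ≤ (2 * n).factorial := by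
  have h := Equiv.Perm.card_of_cycleType_mul_eq ι {n, n}
  rw [if_pos (by simp; omega), hc] at h
  rw [← h, mul_comm]
  refine Nat.mul_le_mul (card_le_card fun π hπ => mem_filter.2 ⟨mem_univ _,
    ppc_type hn hc π (mem_filter.1 hπ).2⟩) (le_of_eq ?_)
  simp [two_mul, sq]
  ring

/-- A reduced divisor of degree `2 n` with an orbit whose length is not `n`. -/
def Ot {k E : Type} [Field k] [Field E] [Algebra k E] (σ : SA k E) (n : ℕ) (H : Dv k E) : Prop :=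
  ∃ (π : Equiv.Perm (Fin (2 * n))) (T : Fin (2 * n) → Place k E), Ac.Ob σ π T ∧
    H = ∑ i, pt (T i) ∧ ¬ ∀ i, #{l | π.SameCycle i l} = n

lemma ppa_fib {k E ι : Type} [Field k] [Field E] [Algebra k E] [Fintype ι]
    (Z : Finset (ι → Place k E)) (H : Dv k E)
    (h : ∀ T ∈ Z, Function.Injective T ∧ H = ∑ i, pt (T i)) : #Z ≤ (Fintype.card ι).factorial := by
  rcases Z.eq_empty_or_nonempty with rfl | ⟨T0, h0⟩
  · simp
  rw [← Fintype.card_perm]
  refine (card_le_card (t := univ.image fun ρ : Equiv.Perm ι => T0 ∘ ρ) fun T hT => ?_).trans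
    card_image_le
  have : ∀ i, ∃ j, T0 j = T i := fun i => by_contra fun c => by
    have := Gt.sum_pt_eq_zero.2 (not_exists.1 c)
    rw [← (h T0 h0).2, (h T hT).2, Gt.sum_pt_self (h T hT).1] at this
    exact one_ne_zero this
  choose f hf using this
  have hi : Function.Injective f := fun i j e => (h T hT).1 (by rw [← hf, ← hf, e])
  exact mem_image.2 ⟨.ofBijective f (Finite.injective_iff_bijective.1 hi), mem_univ _, funext hf⟩

theorem ppa (n N : ℕ) (hn : 2 ≤ n) : ∃ p0 : ℕ, ∀ (F : Type) [Field F]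
    [Fintype F] (C : Gt.Cv F (n + 1)) (x y : C.E), p0 < ringChar F → x ∈ C.E0 → y ∈ C.E0 →
    x ∈ LS C.W → y ∈ LS C.W → Ac.Gp n C.W x y → (2 * n ^ 2 - 1) * N * Fintype.card F ≤
      2 * n ^ 2 * (N + 1) *
        #{t : F | x - C.c t * y ≠ 0 ∧ Ot C.σ n (dv (Kb F) (x - C.c t * y) + C.W)} := by
  obtain ⟨p0, h1⟩ := Ac.a_CH1 (n + 1) (2 * n) N (by omega)
  refine ⟨p0, fun F _ _ C x y hp hx hy mx my G => ?_⟩
  have dW : deg C.W = (2 * n : ℕ) := by rw [C.can.deg_W]; push_cast; ring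
  obtain ⟨a1, a2, a3, a4⟩ := Ac.a_PEN _ _ C.W x y (2 * n) (by omega) dW mx my G.bpf
    fun a b e => (G.sb a b e).1
  have e1 : ∀ c : Kb F, x - c • y ≠ 0 ∧ 2 * n ≤ #(dv (Kb F) (x - c • y) + C.W).support + 1 :=
    fun c => by simpa only [one_smul, neg_smul, ← sub_eq_add_neg] using G.sb 1 (-c) (.inl one_ne_zero)
  have e2 : ∀ t : F, C.c t * y = algebraMap F (Kb F) t • y := fun t => (Algebra.smul_def _ _).symm
  have cd : Fintype.card (Fin (2 * n)) = 2 * n := Fintype.card_fin _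
  choose X b1 b2 using fun π => h1 F (Fin (2 * n)) C (x / y) π hp cd (div_mem hx hy) a1
    ⟨fun c => ⟨_, (e1 c).2, fun P => (a2 c P).1⟩, _,
      by simpa only [zero_smul, one_smul, zero_add] using (G.sb 0 1 (.inr one_ne_zero)).2,
      fun P => (a3 P).1⟩
  set Y : Finset (Equiv.Perm (Fin (2 * n))) := {π | ¬ ∀ i, #{l | π.SameCycle i l} = n} with hY
  have key : ∀ T ∈ Y.biUnion X, ∃ t : F, dv (Kb F) (x - C.c t * y) + C.W = ∑ i, pt (T i) :=
    fun T hT => by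
    obtain ⟨π, -, hT⟩ := mem_biUnion.1 hT
    obtain ⟨c, hc⟩ := (b2 π T hT).fb
    have := C.σ.ev_pl (T ⟨0, by omega⟩) (x / y)
    rw [(b2 π T hT).fr, Gt.Cv.mem_E0.1 (div_mem hx hy), MP_ab3ecb_nt.Inv.ev_eq (hc _),
      MP_ab3ecb_nt.Inv.ev_eq (hc _), C.fr.2.2] at this
    obtain ⟨t, rfl⟩ := Gt.mem_range_iff.1 this.symm
    exact ⟨t, by rw [e2, a4 _ T _ cd (b2 π T hT).inj hc]⟩
  choose! τ hτ using key
  have c1 := card_le_mul_card_image_of_maps_to (f := τ) (s := Y.biUnion X)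
    (t := {t : F | x - C.c t * y ≠ 0 ∧ Ot C.σ n (dv (Kb F) (x - C.c t * y) + C.W)})
    (fun T hT => by
      obtain ⟨π, p1, p2⟩ := mem_biUnion.1 hT
      exact mem_filter.2 ⟨mem_univ _, e2 _ ▸ (e1 _).1, π, T, (b2 π T p2).toOb, hτ T hT,
        (mem_filter.1 p1).2⟩) (2 * n).factorial fun t _ =>
      (ppa_fib _ (dv (Kb F) (x - C.c t * y) + C.W) fun T hT => by
        obtain ⟨a, rfl⟩ := mem_filter.1 hT
        obtain ⟨π, -, p2⟩ := mem_biUnion.1 a
        exact ⟨(b2 π T p2).inj, hτ T a⟩).trans_eq (by rw [cd])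
  have c2 : #Y * (N * Fintype.card F) ≤ (N + 1) * #(Y.biUnion X) := by
    rw [card_biUnion fun π _ π' _ e => disjoint_left.2 fun T h h' => e (Equiv.ext fun i =>
      (b2 π T h).inj (((b2 π T h).fr i).symm.trans ((b2 π' T h').fr i))), mul_sum]
    exact card_nsmul_le_sum _ _ _ fun π _ => b1 π
  have c3 := ppc hn cd
  have c4 := card_filter_add_card_filter_not (s := univ)
    fun π : Equiv.Perm (Fin (2 * n)) => ∀ i, #{l | π.SameCycle i l} = n
  rw [card_univ, Fintype.card_perm, cd, ← hY] at c4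
  refine Nat.le_of_mul_le_mul_left ?_ (2 * n).factorial_pos
  obtain ⟨s, hs⟩ : ∃ s, 2 * n ^ 2 = s + 1 := ⟨2 * n ^ 2 - 1, by
    have : 0 < n ^ 2 := by positivity
    omega⟩
  rw [hs] at c3 ⊢
  rw [Nat.add_sub_cancel]
  have c5 : s * (2 * n).factorial ≤ (s + 1) * #Y := by
    have c6 : ∀ a b c : ℕ, (s + 1) * a ≤ c → a + b = c → s * c ≤ (s + 1) * b :=
      fun a b c h e => by subst e; nlinarith
    exact c6 _ _ _ (le_trans (Nat.mul_le_mul_left _ (card_le_card fun π => by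
      simp only [mem_filter, mem_univ, true_and, card_filter, ite_eq_or_eq]
      intro h i
      exact Eq.trans (sum_congr rfl fun l _ => by split_ifs <;> rfl) (h i))) c3) c4
  calc _ = s * (2 * n).factorial * (N * Fintype.card F) := by ring
    _ ≤ (s + 1) * (#Y * (N * Fintype.card F)) := (Nat.mul_le_mul_right _ c5).trans_eq (mul_assoc _ _ _)
    _ ≤ (s + 1) * ((N + 1) * ((2 * n).factorial * _)) :=
      Nat.mul_le_mul_left _ (c2.trans (Nat.mul_le_mul_left _ c1))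
    _ = _ := by ring

theorem ppb (n N : ℕ) (hn : 2 ≤ n) : ∃ p0 : ℕ,
    ∀ (F : Type) [Field F] [Fintype F] (C : Gt.Cv F (n + 1)), p0 < ringChar F → 0 ≤ C.W →
    ¬ G12 (Kb F) C.E → ∃ Y : Finset (Dv (Kb F) C.E),
      (2 * n ^ 2 - 1) * N ^ 2 * Fintype.card F ^ (n + 1) ≤
        2 * n ^ 2 * (N + 1) ^ 2 * ((Fintype.card F - 1) * #Y) ∧
      ∀ H ∈ Y, Pr (H - C.W) ∧ Ot C.σ n H := by
  obtain ⟨p1, H1⟩ := ppa n N hn
  obtain ⟨p2, H2⟩ := Ac.a_GEN0 n (N + 1) hn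
  refine ⟨p1 + p2, fun F _ _ C hp hW hG => ?_⟩
  obtain ⟨e, e1, e2⟩ : ∃ e : Fin (n + 1) → C.E, (∀ i, e i ∈ C.E0 ∧ e i ∈ LS C.W) ∧
      LinearIndependent (Kb F) e := by
    have := Gt.a_DES F _ C C.W Gt.Cv.W_mem
    rw [C.can.lS_W] at this
    exact this.imp fun _ h => ⟨h.1, h.2.1⟩
  have g := H2 F C e (by omega) hW hG e1 e2
  have l0 : ∀ z : Fin (n + 1) → F, ∑ i, C.c (z i) * e i = ∑ i, algebraMap F (Kb F) (z i) • e i :=
    fun z => by simp only [Algebra.smul_def, Gt.Cv.c_apply]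
  obtain ⟨h, hh⟩ : ∃ h : (Fin (n + 1) → F) → C.E, ∀ z, ∑ i, C.c (z i) * e i = h z := ⟨_, fun _ => rfl⟩
  simp only [hh] at g
  have l1 : ∀ x y t, h (x - t • y) = h x - C.c t * h y := fun x y t => by
    simp [← hh, sub_mul, mul_sum, mul_assoc]
  have l2 : ∀ z, h z ∈ C.E0 := fun z => hh z ▸ sum_mem fun i _ => mul_mem (Gt.Cv.c_mem _) (e1 i).1
  have l3 : ∀ z, h z ∈ LS C.W := fun z => by
    rw [← hh, l0]
    exact sum_mem fun i _ => Submodule.smul_mem _ _ (e1 i).2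
  have l4 : ∀ z, h z = 0 → z = 0 := fun z a => funext fun i => by
    rw [← hh, l0] at a
    simpa using Fintype.linearIndependent_iff.1 e2 _ a i
  set q := Fintype.card F with hq
  have q0 : 0 < q := Fintype.card_pos
  set G : Finset ((Fin (n + 1) → F) × (Fin (n + 1) → F)) := {x | Ac.Gp n C.W (h x.1) (h x.2)} with hG'
  set Z : Finset (Fin (n + 1) → F) := {z | h z ≠ 0 ∧ Ot C.σ n (dv (Kb F) (h z) + C.W)} with hZ
  have a1 : N * q ^ (2 * (n + 1)) ≤ (N + 1) * #G := by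
    have := card_filter_add_card_filter_not (s := univ)
      fun x : (Fin (n + 1) → F) × (Fin (n + 1) → F) => Ac.Gp n C.W (h x.1) (h x.2)
    rw [card_univ, Fintype.card_prod, Fintype.card_fun, Fintype.card_fin, ← hq, ← pow_add,
      ← two_mul, ← hG'] at this
    rw [← this] at g ⊢
    nlinarith
  have a2 : #G * ((2 * n ^ 2 - 1) * N * q) ≤
      2 * n ^ 2 * (N + 1) * #(G.sigma fun x => ({t | x.1 - t • x.2 ∈ Z} : Finset F)) := by
    rw [card_sigma, mul_sum]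
    refine card_nsmul_le_sum _ _ _ fun x hx => ?_
    simp only [hZ, mem_filter_univ, l1]
    exact H1 F C _ _ (by omega) (l2 _) (l2 _) (l3 _) (l3 _) (mem_filter.1 hx).2
  have a3 : #(G.sigma fun x => ({t | x.1 - t • x.2 ∈ Z} : Finset F)) ≤ #Z * (q ^ (n + 1) * q) := by
    refine (card_le_card_of_injOn (t := Z ×ˢ univ) (fun y => (y.1.1 - y.2 • y.1.2, y.1.2, y.2))
      (fun y hy => ?_) ?_).trans_eq (by simp [hq])
    · exact mem_coe.2 (mem_product.2 ⟨(mem_filter.1 (mem_sigma.1 hy).2).2, mem_univ _⟩)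
    · rintro ⟨⟨x, y⟩, t⟩ - ⟨⟨x', y'⟩, t'⟩ - a
      simp only [Prod.mk.injEq] at a
      obtain ⟨a, rfl, rfl⟩ := a
      rw [sub_left_inj.1 a]
  have a4 : #Z ≤ (q - 1) * #(Z.image fun z => dv (Kb F) (h z) + C.W) := by
    refine card_le_mul_card_image _ _ fun b hb => ?_
    obtain ⟨z0, z1, rfl⟩ := mem_image.1 hb
    refine (card_le_card (t := (univ.erase 0).image fun a : F => a • z0) fun z hz => ?_).trans
      (card_image_le.trans_eq (by rw [card_erase_of_mem (mem_univ _), card_univ]))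
    obtain ⟨z2, z3⟩ := mem_filter.1 hz
    have n0 := ((mem_filter_univ _).1 z1).1
    have n1 := ((mem_filter_univ _).1 z2).1
    obtain ⟨a, ha⟩ := MP_ab3ecb_nt.Inv.const_of_dv (k := Kb F) (z := h z / h z0) (by
      rw [MP_ab3ecb_nt.Inv.dv_div n1 n0, add_right_cancel z3, sub_self])
    have := Gt.Cv.mem_E0.1 (div_mem (l2 z) (l2 z0))
    rw [← ha, C.σ.h, C.fr.2.2] at this
    obtain ⟨a, rfl⟩ := Gt.mem_range_iff.1 ((algebraMap _ C.E).injective this)
    refine mem_image.2 ⟨a, mem_erase.2 ⟨?_, mem_univ _⟩, (sub_eq_zero.1 (l4 _ ?_)).symm⟩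
    · rintro rfl
      rw [map_zero, map_zero] at ha
      exact div_ne_zero n1 n0 ha.symm
    rw [l1, Gt.Cv.c_apply, ha, div_mul_cancel₀ _ n0, sub_self]
  refine ⟨Z.image fun z => dv (Kb F) (h z) + C.W, ?_, fun H hH => ?_⟩
  · refine Nat.le_of_mul_le_mul_left ?_ (show 0 < q ^ (n + 1) * q by positivity)
    calc _ = N * q ^ (2 * (n + 1)) * ((2 * n ^ 2 - 1) * N * q) := by ring
      _ ≤ (N + 1) * (#G * ((2 * n ^ 2 - 1) * N * q)) :=
        (Nat.mul_le_mul_right _ a1).trans_eq (mul_assoc _ _ _)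
      _ ≤ (N + 1) * (2 * n ^ 2 * (N + 1) * ((q - 1) *
          #(Z.image fun z => dv (Kb F) (h z) + C.W) * (q ^ (n + 1) * q))) :=
        Nat.mul_le_mul_left _
          (a2.trans (Nat.mul_le_mul_left _ (a3.trans (Nat.mul_le_mul_right _ a4))))
      _ = _ := by ring
  · obtain ⟨z, z1, rfl⟩ := mem_image.1 hH
    obtain ⟨z2, z3⟩ := (mem_filter_univ _).1 z1
    exact ⟨⟨_, z2, (add_sub_cancel_right _ _).symm⟩, z3⟩

lemma xdg_prime {k E : Type} [Field k] [Field E] [Algebra k E] [IsAlgClosed k] [FF k E]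
    {K e : Pic k E} {n Q m : ℕ} {σ : SA k E} {Λ : LD Q n (J σ)} (fb : FB σ Q)
    (il : IsL σ K e Λ) {x : J σ} (hx : Pm Λ m x) {A B : Dv k E} (hA : A ∈ Eff σ.pl m)
    (ex : (A : Pic k E) = x.1 + m • e) (h0 : 0 ≤ B) (hB : ∀ P, B (σ.pl P) = B P) (le : B ≤ A) :
    B = 0 ∨ B = A := by
  obtain ⟨j, hj⟩ := Int.eq_ofNat_of_zero_le (MP_ab3ecb_nt.Inv.deg_nonneg h0)
  have jm := MP_ab3ecb_nt.Inv.deg_mono le
  rw [hj, hA.2.2, Nat.cast_le] at jm
  have a2 : A - B ∈ Eff σ.pl (m - j) := ⟨sub_nonneg.2 le, fun P => by simp [hA.2.1, hB], by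
    rw [map_sub, hA.2.2, hj, Nat.cast_sub jm]⟩
  obtain ⟨b, hb⟩ := Ac.cdic_cls il (show B ∈ Eff σ.pl j from ⟨h0, hB, hj⟩)
  rcases j.eq_zero_or_pos with rfl | j0
  · exact .inl (MP_ab3ecb_nt.Inv.eq_zero_of_deg h0 hj)
  rcases jm.eq_or_lt with rfl | j1
  · exact .inr (sub_eq_zero.1 (MP_ab3ecb_nt.Inv.eq_zero_of_deg a2.1 (by simpa using a2.2.2))).symm
  refine absurd ⟨(Ac.cdic_ne fb il).2 ⟨B, ⟨h0, hB, hj⟩, hb⟩, (Ac.cdic_ne fb il).2 ⟨_, a2, ?_⟩⟩
    (hx.2 j j0 j1 b)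
  rw [QuotientAddGroup.mk_sub, ex, hb, AddSubgroup.coe_sub, sub_nsmul _ jm]
  abel

theorem ppu {k E : Type} [Field k] [Field E] [Algebra k E] [IsAlgClosed k] [FF k E]
    {e : Pic k E} {W : Dv k E} {n Q : ℕ} {σ : SA k E} {Λ : LD Q n (J σ)} [Fintype (J σ)]
    (hn : 0 < n) (gb : GB (W : Pic k E) (n + 1)) (fb : FB σ Q) (il : IsL σ W e Λ)
    {Y : Finset (Dv k E)} (hY : ∀ H ∈ Y, Pr (H - W) ∧ Ot σ n H) :
    (Q - 1) * #(PP Λ) + 2 * ((Q - 1) * #Y) ≤ 2 * Q ^ (n + 1) := by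
  have c0 := fb.cnt (2 * n) W (gb.phK σ) (by rw [gb.dgK]; push_cast; ring)
  rw [gb.llK] at c0
  set T := (ef σ (2 * n)).filter fun A : Dv k E => (A : Pic k E) = W with hT
  have c1 : Y ⊆ T := fun H hH => by
    obtain ⟨pr, π, T, o, rfl, -⟩ := hY H hH
    exact mem_filter.2 ⟨(Ac.cch0_cls fb il.e1 il.e2 o).1, mk_eq.2 pr⟩
  choose! A a1 a2 using fun x (hx : Pm Λ n x) =>
    (Ac.cdic_ne fb il).1 (show (Λ.W n).coeff x ≠ 0 from hx.1 ▸ one_ne_zero)
  have pr := fun x (hx : Pm Λ n x) {B} => xdg_prime fb il hx (a1 x hx) (a2 x hx) (B := B)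
  have inj : ∀ x y, Pm Λ n x → Pm Λ n y → A x = A y → x = y := fun x y hx hy h =>
    Subtype.ext (add_right_cancel ((a2 x hx).symm.trans (h ▸ a2 y hy)))
  have c2 : #(PP Λ) ≤ 2 * #(T \ Y) := by
    refine card_le_mul_card_image_of_maps_to (f := fun x => A x + A (Λ.ω - x)) (fun x hx => ?_) 2
      fun H _ => ?_
    · obtain ⟨x1, x2⟩ := mem_PP.1 hx
      obtain ⟨u1, u2, u3⟩ := a1 x x1
      obtain ⟨v1, v2, v3⟩ := a1 _ x2
      refine mem_sdiff.2 ⟨mem_filter.2 ⟨(fb.ef _ _).2 ⟨add_nonneg u1 v1, fun P => by simp [u2, v2],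
        by rw [map_add, u3, v3]; push_cast; ring⟩, ?_⟩, fun hH => ?_⟩
      · rw [QuotientAddGroup.mk_add, a2 x x1, a2 _ x2, AddSubgroup.coe_sub, il.ω, two_mul, add_nsmul]
        abel
      obtain ⟨-, π, T, o, h1, h2⟩ := hY _ hH
      refine h2 fun i => ?_
      set I : Finset (Fin (2 * n)) := {l | π.SameCycle i l} with hI
      have b1 := Ac.cdic_eff o I fun l => by simp [hI]
      have key : ∀ y, Pm Λ n y → A y (T i) ≠ 0 → #I = n := fun y hy h => by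
        obtain ⟨w1, w2, w3⟩ := a1 y hy
        have u3 : ∀ r : ℕ, A y (T ((π ^ r) i)) = A y (T i) := fun r => by
          induction r with
          | zero => rfl
          | succ r ih => rw [pow_succ', Equiv.Perm.mul_apply, ← o.fr, w2, ih]
        have le : ∑ l ∈ I, pt (T l) ≤ A y := fun P => by
          have p0 : 0 ≤ A y P := w1 P
          by_cases c : ∃ l ∈ I, T l = P
          · obtain ⟨l, hl, rfl⟩ := c
            obtain ⟨r, -, rfl⟩ := ((mem_filter_univ _).1 hl).exists_pow_eq'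
            have p1 : (∑ l ∈ I, pt (T l)) (T ((π ^ r) i)) ≤ (∑ l, pt (T l)) (T ((π ^ r) i)) :=
              sum_le_sum_of_subset_of_nonneg (f := fun l => pt (T l)) (subset_univ I)
                (fun _ _ _ => Finsupp.single_nonneg.2 zero_le_one) _
            rw [Gt.sum_pt_self o.inj] at p1
            rw [u3] at p0 ⊢
            omega
          · rwa [Finsupp.finsetSum_apply, sum_eq_zero fun l hl =>
              Finsupp.single_eq_of_ne' fun e => c ⟨l, hl, e⟩]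
        have d := b1.2.2
        have : 0 < #I := card_pos.2 ⟨i, by simpa [hI] using .rfl⟩
        rcases pr y hy b1.1 b1.2.1 le with c | c <;> rw [c] at d
        · rw [map_zero] at d
          omega
        · omega
      have h3 := DFunLike.congr_fun h1 (T i)
      rw [Gt.sum_pt_self o.inj, Finsupp.add_apply] at h3
      by_cases h4 : A x (T i) = 0
      · exact key _ x2 (by omega)
      · exact key _ x1 h4
    rcases ({x ∈ PP Λ | A x + A (Λ.ω - x) = H} : Finset _).eq_empty_or_nonempty with c | ⟨x, hx⟩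
    · simp [c]
    obtain ⟨hx', rfl⟩ := mem_filter.1 hx
    obtain ⟨x1, x2⟩ := mem_PP.1 hx'
    refine (card_le_card (t := {x, Λ.ω - x}) fun y hy => ?_).trans card_le_two
    obtain ⟨hy, h⟩ := mem_filter.1 hy
    obtain ⟨y1, y2⟩ := mem_PP.1 hy
    have h0 : 0 ≤ A x ⊓ A y := le_inf (a1 x x1).1 (a1 y y1).1
    have h1 : ∀ R, (A x ⊓ A y) (σ.pl R) = (A x ⊓ A y) R := fun R => by
      simp only [Finsupp.inf_apply, (a1 x x1).2.1 R, (a1 y y1).2.1 R]
    rw [mem_insert, mem_singleton]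
    by_cases h2 : A x ⊓ A y = 0
    · refine .inr (inj _ _ y1 x2 ((pr _ x2 (a1 y y1).1 (a1 y y1).2.1 fun P => ?_).resolve_left
        fun c => ?_))
      · have e1 := DFunLike.congr_fun h P
        have e2 := DFunLike.congr_fun h2 P
        have e3 : 0 ≤ A (Λ.ω - y) P := (a1 _ y2).1 P
        have e4 : 0 ≤ A (Λ.ω - x) P := (a1 _ x2).1 P
        simp only [Finsupp.add_apply, Finsupp.inf_apply, Finsupp.zero_apply] at e1 e2
        omega
      · have := (a1 y y1).2.2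
        rw [c, map_zero] at this
        omega
    · exact .inl (inj _ _ y1 x1 (((pr y y1 h0 h1 inf_le_right).resolve_left h2).symm.trans
        ((pr x x1 h0 h1 inf_le_left).resolve_left h2)))
  have c3 := card_sdiff_add_card_eq_card c1
  have c4 := Nat.mul_le_mul_left (Q - 1) c2
  rw [← c3] at c0
  nlinarith

theorem rp2 {k E : Type} [Field k] [Field E] [Algebra k E] [IsAlgClosed k] [FF k E]
    {K e : Pic k E} {N Q n : ℕ} {σ : SA k E} {Λ : LD Q N (J σ)} [Fintype (J σ)] (Q0 : 0 < Q)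
    (gb : GB K (N + 1)) (fb : FB σ Q) (il : IsL σ K e Λ) (hn : 0 < n) (hN : n ≤ N)
    (h2 : ∀ i, i ≠ 0 → #(fx σ i) ≤ 2 * Q ^ i) :
    #(fx σ n) ≤ n * #(Pi Λ n) + N * (2 ^ (2 * N + 1) + 2) * Q ^ (n - 1) := by
  obtain ⟨-, -, pw⟩ := Od.a_PW k E K e N σ Q Λ gb fb il
  have g1 := (Od.a_G01 k E K e N σ Q Λ gb fb il).1 n hN
  set T := Pi Λ n with hT
  set G := {P ∈ fx σ n | ∀ i < n, i ≠ 0 → σ.pl^[i] P ≠ P} with hG
  let F : J σ → Finset (Dv k E) := fun x =>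
    (ef σ n).filter fun A : Dv k E => (A : Pic k E) = x.1 + n • e
  have hF : ∀ x, (Λ.W n).coeff x = #(F x) := il.W n
  set B : Finset (J σ) := {x | Q ≤ #(F x)} with hB
  have gd := fun P (hP : P ∈ G) =>
    Od.ogt_good hn.ne' ((fb.fx n hn.ne' P).1 (mem_filter.1 hP).1) (mem_filter.1 hP).2
  have a1 : #G ≤ n * #(G.image (Nm σ.pl n)) := card_le_mul_card_image G n fun D hD => by
    obtain ⟨P, hP, rfl⟩ := mem_image.1 hD
    have := hd3_card (Nm_nonneg (τ := σ.pl) n P)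
    rw [deg_Nm] at this
    refine (card_le_card fun R hR => ?_).trans (Nat.cast_le.1 this)
    obtain ⟨a, b⟩ := mem_filter.1 hR
    exact Finsupp.mem_support_iff.2 (b ▸ (gd R a).1)
  have a2 : G.image (Nm σ.pl n) ⊆ T.biUnion F ∪ B.biUnion F := fun D hD => by
    obtain ⟨P, hP, rfl⟩ := mem_image.1 hD
    have d1 : Nm σ.pl n P ∈ Eff σ.pl n :=
      ⟨Nm_nonneg _ _, Nm_inv ((fb.fx n hn.ne' P).1 (mem_filter.1 hP).1), deg_Nm _ _⟩
    have d2 := sub_mem_J il.e1 il.e2 (ph_inv d1.2.1)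
    rw [dg_mk, d1.2.2, natCast_zsmul] at d2
    obtain ⟨x, hx⟩ : ∃ x : J σ, (Nm σ.pl n P : Pic k E) = x.1 + n • e :=
      ⟨⟨_, d2⟩, (sub_add_cancel _ _).symm⟩
    have d3 : Nm σ.pl n P ∈ F x := mem_filter.2 ⟨(fb.ef _ _).2 d1, hx⟩
    rcases (pw n x).2.2 with c | c
    swap
    · rw [hF] at c
      exact mem_union_right _ (mem_biUnion.2 ⟨x, mem_filter.2 ⟨mem_univ _, Nat.cast_le.1 c⟩, d3⟩)
    have d4 : (Λ.W n).coeff x = 1 := by
      have := card_pos.2 ⟨_, d3⟩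
      have := hF x
      omega
    refine mem_union_left _ (mem_biUnion.2 ⟨x, mem_Pi.2 ⟨d4, fun j j0 jn a => ?_⟩,
      d3⟩)
    rintro ⟨c1, c2⟩
    rw [il.W, Nat.cast_ne_zero, card_ne_zero] at c1 c2
    obtain ⟨A, hA⟩ := c1
    obtain ⟨A', hA'⟩ := c2
    obtain ⟨b1, b2⟩ := mem_filter.1 hA
    obtain ⟨b3, b4⟩ := mem_filter.1 hA'
    rw [fb.ef] at b1 b3
    have d5 : A + A' = Nm σ.pl n P := by
      refine eff_unique ((ll_mk _).symm.trans ?_) d1.1 (add_nonneg b1.1 b3.1) (mk_eq.1 ?_)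
      · rw [hx]
        exact (pw n x).2.1.1 d4
      · rw [QuotientAddGroup.mk_add, b2, b4, hx, AddSubgroup.coe_sub, add_add_add_comm, ← add_nsmul,
          Nat.add_sub_cancel' jn.le, add_sub_cancel]
    obtain ⟨R, hR⟩ := Finsupp.support_nonempty_iff.2 fun e : A = 0 => by
      have := b1.2.2
      rw [e, map_zero] at this
      omega
    have hR := Finsupp.mem_support_iff.1 hR
    have d6 := Pool.Agent.P.MP_ab3ecb_nt.Inv.deg_mono ((gd P hP).2 R (by
      have u1 : 0 ≤ A R := b1.1 R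
      have u2 : 0 ≤ A' R := b3.1 R
      rw [← d5, Finsupp.add_apply]
      omega) _ A b1 hR)
    rw [b1.2.2, d1.2.2] at d6
    omega
  have a3 : #(T.biUnion F) ≤ #T := (card_biUnion_le_card_mul T F 1 fun x hx => by
    have := (mem_Pi.1 hx).1
    have := hF x
    omega).trans (mul_one _).le
  have a4 : Q * #(B.biUnion F) ≤ 2 ^ (2 * N + 1) * Q ^ n := by
    refine (Nat.mul_le_mul_left Q card_biUnion_le).trans ?_
    rw [mul_sum]
    refine (sum_le_sum (g := fun x => #(F x) ^ 2) fun x hx => ?_).trans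
      ((sum_le_sum_of_subset (subset_univ B)).trans ?_)
    · rw [sq]
      exact Nat.mul_le_mul_right _ (mem_filter.1 hx).2
    · simp only [hF] at g1
      exact_mod_cast g1
  obtain ⟨m, rfl⟩ : ∃ m, n = m + 1 := ⟨n - 1, by omega⟩
  have a5 : #((Ico 1 (m + 1)).biUnion (fx σ)) ≤ m * (2 * Q ^ m) :=
    (card_biUnion_le_card_mul _ _ (2 * Q ^ m) fun i hi => by
      have := mem_Ico.1 hi
      have := h2 i (by omega)
      have := Nat.pow_le_pow_right Q0 (show i ≤ m by omega)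
      omega).trans (by simp)
  have a6 := (card_le_card (s := fx σ (m + 1)) (t := G ∪ (Ico 1 (m + 1)).biUnion (fx σ))
    fun P hP => mem_union.2 (or_iff_not_imp_right.2 fun c => mem_filter.2 ⟨hP, fun i hi i0 e =>
      c (mem_biUnion.2 ⟨i, mem_Ico.2 (by omega), (fb.fx i i0 P).2 e⟩)⟩)).trans (card_union_le _ _)
  have a7 := (card_le_card a2).trans (card_union_le _ _)
  rw [pow_succ Q m, ← mul_assoc, mul_comm Q] at a4
  have a8 := Nat.le_of_mul_le_mul_right a4 Q0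
  have a10 := Nat.mul_le_mul_left (m + 1) (a7.trans (add_le_add a3 a8))
  rw [Nat.add_sub_cancel]
  generalize 2 ^ (2 * N + 1) = c at *
  nlinarith [Nat.mul_le_mul_right ((c + 2) * Q ^ m) hN, Nat.zero_le (Q ^ m)]

lemma xdg_ar {n M N q x y : ℕ} (hn : 0 < n) (hN : 2 * (2 * n ^ 2) * (2 * M + 1) = N + 1)
    (hq : 2 * M + 2 ≤ q)
    (y1 : (2 * n ^ 2 - 1) * N ^ 2 * q ^ (n + 1) ≤ 2 * n ^ 2 * (N + 1) ^ 2 * ((q - 1) * y))
    (y3 : (q - 1) * x + 2 * ((q - 1) * y) ≤ 2 * q ^ (n + 1)) :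
    M * (n ^ 2 * x) ≤ (M + 1) * q ^ n := by
  obtain ⟨r, rfl⟩ : ∃ r, q = r + 1 := ⟨q - 1, by omega⟩
  obtain ⟨s, hs⟩ : ∃ s, 2 * n ^ 2 = s + 1 :=
    ⟨_, (Nat.sub_add_cancel (Nat.succ_le_of_lt (by positivity))).symm⟩
  rw [hs, Nat.add_sub_cancel, Nat.add_sub_cancel] at y1
  rw [Nat.add_sub_cancel] at y3
  rw [hs] at hN
  generalize r * y = y' at *
  rw [pow_succ (r + 1)] at y1 y3
  generalize (r + 1) ^ n = Q at *
  have z1 : (s + 1) * (N + 1) * (r * x) ≤ 2 * (N + 1 + 2 * (s + 1)) * (Q * (r + 1)) := by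
    refine Nat.le_of_mul_le_mul_left ?_ N.succ_pos
    generalize Q * (r + 1) = R at *
    nlinarith [Nat.mul_le_mul_left ((s + 1) * (N + 1) ^ 2) y3, Nat.zero_le (N * R), Nat.zero_le R,
      Nat.zero_le (s * R)]
  have z2 : (2 * M + 1) * (r * (n ^ 2 * x)) ≤ (2 * M + 2) * (Q * (r + 1)) := by
    refine Nat.le_of_mul_le_mul_left ?_ (show 0 < 4 * (s + 1) by omega)
    rw [← hN] at z1
    calc _ = 2 * n ^ 2 * (2 * (s + 1) * (2 * M + 1)) * (r * x) := by ring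
      _ ≤ _ := by
        rw [hs]
        exact z1.trans_eq (by ring)
  have z3 : (2 * M + 1) * (r + 1) ≤ (2 * M + 2) * r := by nlinarith
  have z4 : (2 * M + 1) ^ 2 * (n ^ 2 * x) ≤ (2 * M + 2) ^ 2 * Q := by
    refine Nat.le_of_mul_le_mul_left ?_ (show 0 < r by omega)
    nlinarith [Nat.mul_le_mul_left (2 * M + 1) z2, Nat.mul_le_mul_left ((2 * M + 2) * Q) z3]
  refine Nat.le_of_mul_le_mul_left ?_ (show 0 < (2 * M + 1) ^ 2 by positivity)
  nlinarith [Nat.mul_le_mul_left M z4, Nat.zero_le (M * Q), Nat.zero_le Q]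

theorem p_XDG :
    S_XDG := by
  intro n M hn
  obtain ⟨N, hN⟩ : ∃ N, 2 * (2 * n ^ 2) * (2 * M + 1) = N + 1 :=
    ⟨_, (Nat.sub_add_cancel (Nat.succ_le_of_lt (by positivity))).symm⟩
  obtain ⟨p1, h1⟩ := ppb n N hn
  obtain ⟨p2, h2⟩ := Nh.a_PLO (n + 1) (2 * M + 1) (by omega)
  obtain ⟨p3, h3⟩ := Nh.a_PHI (n + 1) 1 (by omega)
  refine ⟨p1 + p2 + p3 + (2 * M + 2) * (n * (2 ^ (2 * n + 1) + 2) + 1),
    fun F E _ _ _ _ _ K e σ Λ _ hp gb fb il nh => ?_⟩
  obtain ⟨W, rfl, w0, can, inv⟩ := Nh.a_CVB F E K (n + 1) σ n.succ_pos gb fb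
  let C : Gt.Cv F (n + 1) := { E := E, σ := σ, fr := fb.fr, W := W, can := can, inv := inv }
  have hq := Gt.char_le (F := F)
  refine ⟨?_, fun m m0 mn => ?_⟩
  · obtain ⟨Y, y1, y2⟩ := h1 F C (by omega) w0 nh
    have y3 := ppu (by omega) gb fb il y2
    have hq' : 2 * M + 2 ≤ Fintype.card F := by nlinarith [Nat.zero_le (n * (2 ^ (2 * n + 1) + 2))]
    exact xdg_ar (by omega) hN hq' y1 y3
  · have a1 := h2 F E _ σ (by omega) gb fb m m0.ne'
    have a2 := rp2 Fintype.card_pos gb fb il m0 mn fun i hi => by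
      simpa using h3 F E _ e σ (by omega) gb fb il.e1 il.e2 i hi
    obtain ⟨m, rfl⟩ : ∃ j, m = j + 1 := ⟨m - 1, by omega⟩
    rw [Nat.add_sub_cancel] at a2
    have a3 := Nat.mul_le_mul_right (Fintype.card F ^ m)
      (show (2 * M + 2) * (n * (2 ^ (2 * n + 1) + 2) + 1) ≤ Fintype.card F by omega)
    rw [pow_succ (Fintype.card F)] at a1 ⊢
    nlinarith [Nat.mul_le_mul_left (2 * M + 2) a2, Nat.zero_le (M * Fintype.card F ^ m)]

end

end Pool.Agent.P.MP_9344a7_nt.Cy
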