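import Pool.Agent.P.MP_9344a7_nt.Cy.IfaceH
import Pool.Agent.P.MP_9344a7_nt.Cy.IfaceA

/-! Steps HSF, PRT, IDH, HPART, TWS. -/

set_option linter.unusedVariables false
set_option linter.unusedSectionVars false

namespace Pool.Agent.P.MP_9344a7_nt.Cy

section

open Polynomial Finset
open Pool.Agent.P.MP_9344a7_nt.R
open Pool.Agent.P.MP_9344a7_nt.Hy
open Pool.Agent.P.MP_9344a7_nt.Od (GD Kp Fe)
open Pool.Agent.P.MP_9344a7_nt.Ac (Sb Pm Sp ED CD TD AD Sc Eg Dgs)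
open scoped Classical ComplexConjugate

lemma chsf_ne {q n k : ℕ} {A A' : Type} [AddCommGroup A] [Fintype A] [AddCommGroup A']
    [Fintype A'] {Λ' : LD q n A'} {j : A' →+ A} {Y : ZA A} {x : A'}
    (h : (Ej Λ' j k * Y).coeff (j x) ≠ 0) :
    ∃ a, j a ∈ Y.coeff.support ∧ (Λ'.W k).coeff (x - a) ≠ 0 := by
  obtain ⟨b, b1, b2⟩ := Od.mul_ne (mul_comm Y _ ▸ h)
  obtain ⟨y, y1, y2⟩ := Ej_ne.1 b2
  exact ⟨x - y, by rw [map_sub, y1, sub_sub_cancel]; exact Finsupp.mem_support_iff.2 b1,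
    by rwa [sub_sub_cancel]⟩

lemma chsf_one {q n k : ℕ} {A A' : Type} [AddCommGroup A] [Fintype A] [AddCommGroup A']
    [Fintype A'] {Λ' : LD q n A'} {j : A' →+ A} {P : ZA A} {x : A'} (h0 : P.coeff 0 = 1)
    (hx : (Λ'.W k).coeff x = 1)
    (h : ∀ a, a ≠ 0 → j a ∈ P.coeff.support → (Λ'.W k).coeff (x - a) = 0) :
    (P * Ej Λ' j k).coeff (j x) = 1 := by
  have h1 : ∀ b, P.coeff b ≠ 0 → ∀ y, j y = j x - b → y ≠ x → (Λ'.W k).coeff y = 0 :=
    fun b hb y e1 e2 => by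
      have := h (x - y) (sub_ne_zero.2 e2.symm)
        (by rw [map_sub, e1, sub_sub_cancel]; exact Finsupp.mem_support_iff.2 hb)
      rwa [sub_sub_cancel] at this
  rw [Hy.coeff_mul, sum_eq_single 0 (fun b _ hb => ?_) (by simp), h0, one_mul, coeff_Ej,
    sum_eq_single x (fun y hy => h1 0 (h0 ▸ one_ne_zero) y (mem_filter.1 hy).2) (by simp), hx]
  by_cases e : P.coeff b = 0
  · rw [e, zero_mul]
  rw [coeff_Ej, sum_eq_zero fun y hy => h1 b e y (mem_filter.1 hy).2 ?_, mul_zero]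
  rintro rfl
  exact hb (sub_eq_self.1 (mem_filter.1 hy).2.symm)

theorem p_HSF (hPARX : S_PARX) :
    S_HSF := by
  intro c n hn
  refine ⟨12 * n * c + 12 * n + 12 * c + 4, ?_⟩
  intro q u A A' _ _ _ _ Λ' χ P G H j hS hG hχ hP hz hD e
  have u0 : 0 < u := hS.pos (by omega)
  have q0 : 0 < q := u0.trans_le (hS.uq (by omega))
  obtain ⟨X, x1, x2⟩ := hPARX q n u A χ P G H (Ej Λ' j) _ q0 hn hP hχ hD.pr hz hD.sz
  obtain ⟨T, t1, t2, t3⟩ := hG.pr
  let Z : ℕ → A' → Finset A' := fun k a => {x ∈ T | (Λ'.W k).coeff (x - a) ≠ 0}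
  let I : ZA A → Finset A' := fun Y => {a | j a ∈ Y.coeff.support}
  have hI : ∀ Y, #(I Y) ≤ 12 * sz Y := fun Y => card_pre hD.ker _
  have b1 : q * #{y | j y ∈ X} ≤ 12 * (n * u ^ 2 * om A * q ^ n) :=
    (Nat.mul_le_mul_left _ (card_pre hD.ker X)).trans
      ((mul_left_comm _ _ _).trans_le (Nat.mul_le_mul_left _ x1))
  have b2 : q * #(((I P).erase 0).biUnion (Z n)) ≤ 12 * om A * (c * q ^ n) :=
    Ac.mul_card_biUnion (card_erase_le.trans ((hI P).trans (Nat.mul_le_mul_left _ hP.sz)))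
      fun a ha => t3 n hn le_rfl a fun _ => ne_of_mem_erase ha
  have b3 : q * #((Ioo 0 n).biUnion fun k => (I (P * G k)).biUnion (Z (n - k))) ≤
      n * (12 * om A * u * c * q ^ n) := by
    refine Ac.mul_card_biUnion (by simp) fun k hk => ?_
    obtain ⟨k0, kn⟩ := mem_Ioo.1 hk
    refine (Ac.mul_card_biUnion ((hI _).trans (Nat.mul_le_mul_left _ ((sz_mul _ _).trans
      (Nat.mul_le_mul hP.sz (hz k kn.le))))) fun a _ =>
        t3 (n - k) (by omega) (by omega) a (by omega)).trans_eq ?_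
    rw [← pow_mul_pow_sub q kn.le]
    ring
  have b4 := (Nat.mul_le_mul_left q (card_le_card (s := T) fun x hx => ?_)).trans
    (Ac.mul_card_union (Ac.mul_card_union b1 b2) b3)
  · have c1 : 12 * n * om A ≤ u := hS.om1 (by omega) (by omega)
    have c2 : 12 * c * om A ≤ u := hS.om1 (by omega) (by omega)
    have c3 : 12 * n * c * om A ≤ u := hS.om1 (by omega) (by omega)
    have c4 : 3 * c + 1 ≤ u := hS.le (by omega)
    have c5 : u ^ 4 ≤ q := hS.pow (by omega) (by omega)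
    have c6 : 12 * n * om A * u ^ 2 + 12 * c * om A + 12 * n * c * om A * u ≤ 3 * u ^ 3 := by
      have := Nat.le_self_pow (n := 3) (by omega) u
      have := Nat.pow_le_pow_right u0 (show 2 ≤ 3 by omega)
      nlinarith [Nat.mul_le_mul_right (u ^ 2) c1, Nat.mul_le_mul_right u c3]
    have c7 : q * #T ≤ 3 * u ^ 3 * q ^ n :=
      (b4.trans_eq (by ring)).trans (Nat.mul_le_mul_right _ c6)
    have c8 : q * q ^ n ≤ c * (3 * u ^ 3) * q ^ n := by
      nlinarith [Nat.mul_le_mul_left q t1, Nat.mul_le_mul_left c c7]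
    have c9 := Nat.le_of_mul_le_mul_right c8 (Nat.pow_pos q0)
    nlinarith [Nat.mul_le_mul_right (u ^ 3) c4, Nat.pow_pos (n := 3) u0]
  by_contra hb
  simp only [mem_union, not_or, mem_biUnion, not_exists, not_and, Z, I, mem_filter, mem_univ,
    true_and, mem_erase, hx, not_not, and_imp] at hb
  have := x2 (j x) hb.1.1
  rw [chsf_one hP.c0 (t2 x hx) hb.1.2, Ac.kp_eq hP hχ e, AddMonoidAlgebra.coeff_sum,
    Finsupp.finsetSum_apply, sum_eq_zero fun k hk => by_contra fun h =>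
      (chsf_ne h).elim fun a ha => ha.2 (hb.2 k hk a ha.1), Int.even_iff] at this
  omega

end

section

open Polynomial Finset
open Pool.Agent.P.MP_9344a7_nt.R
open Pool.Agent.P.MP_9344a7_nt.Hy
open Pool.Agent.P.MP_9344a7_nt.Od (GD Kp Fe)
open Pool.Agent.P.MP_9344a7_nt.Ac (Sb Pm Sp ED CD TD AD Sc Eg Dgs)
open scoped Classical ComplexConjugate

theorem p_PRT :
    S_PRT := by
  intro q n c u a A _ _ Λ v y z T hn u0 ed td hv hy hz hT
  have u4 : u ≤ u ^ 4 := Nat.le_self_pow (by omega) u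
  have t3 : #(image₂ (· - ·) T v.coeff.support) ≤ u ^ 3 :=
    (card_image₂_le _ _ _).trans ((Nat.mul_le_mul hT hv).trans_eq (by ring))
  obtain ⟨B1, L1, a1, b1, c1⟩ := ev_edge hn ed td one_pos (by omega) (Y := y.coeff.support)
    (Z := z.coeff.support) (hy.trans (Nat.mul_le_mul u4 (pow_one q).ge))
    ((Nat.mul_le_mul t3 hz).trans_eq (by ring))
  obtain ⟨B2, L2, a2, b2, c2⟩ := ev_edge hn ed td (k := n - 1) (by omega) (by omega)
    (Y := z.coeff.support) (Z := y.coeff.support) (hz.trans (Nat.mul_le_mul_right _ u4))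
    ((Nat.mul_le_mul t3 hy).trans_eq (by rw [show n - (n - 1) = 1 by omega]; ring))
  rw [← pow_mul] at b1 b2
  refine ⟨B1 ∪ B2, L1 ∪ L2, (Ac.mul_card_union a1 a2).trans_eq (two_mul _).symm,
    (card_union_le _ _).trans (by omega), fun L' hL e he hB t ht => ?_⟩
  rw [mem_union, not_or] at hB
  rw [Hy.coeff_mul, Hy.coeff_mul]
  refine sum_congr rfl fun b _ => ?_
  by_cases hb : v.coeff b = 0
  · rw [hb, zero_mul, zero_mul]
  have hs := mem_image₂_of_mem (f := (· - ·)) ht (Finsupp.mem_support_iff.2 hb)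
  rw [add_sub_assoc, Hy.coeff_mul, Hy.coeff_mul, ← Equiv.sum_comp (Equiv.addLeft e.1)]
  refine congrArg _ (sum_congr rfl fun s _ => ?_)
  have e1 : e.1 + e.2 + (t - b) - (e.1 + s) = e.2 + (t - b - s) := by abel
  rw [Equiv.coe_addLeft, e1, coeff_pat, coeff_pat]
  by_cases h1 : y.coeff (e.1 + s) = 0
  · rw [h1, ite_self, zero_mul, zero_mul]
  by_cases h2 : z.coeff (e.2 + (t - b - s)) = 0
  · rw [h2, ite_self, mul_zero, mul_zero]
  have d1 := (c1 e he hB.1 _ hs _ (Finsupp.mem_support_iff.2 h1)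
    (e1 ▸ Finsupp.mem_support_iff.2 h2)).resolve_right fun h => by omega
  have d2 := (c2 e he hB.2 _ hs _ (Finsupp.mem_support_iff.2 h2) (by
    rw [← e1, sub_sub_cancel]
    exact Finsupp.mem_support_iff.2 h1)).resolve_left fun h => by omega
  rw [add_sub_cancel_left] at d1 d2
  rw [if_pos (hL (mem_union_left _ d1.2)), if_pos (hL (mem_union_right _ d2.2))]

end

section

open Polynomial Finset
open Pool.Agent.P.MP_9344a7_nt.R
open Pool.Agent.P.MP_9344a7_nt.Hy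
open Pool.Agent.P.MP_9344a7_nt.Od (GD Kp Fe)
open Pool.Agent.P.MP_9344a7_nt.Ac (Sb Pm Sp ED CD TD AD Sc Eg Dgs)
open scoped Classical ComplexConjugate

theorem p_IDH (hCUM : S_CUM) (hPH : S_PH) (hPU : S_PU) (hPRT : S_PRT) :
    S_IDH := by
  intro c n a b hn
  obtain ⟨K1, H1⟩ := hCUM n a
  obtain ⟨K2, H2⟩ := hPH c a b
  obtain ⟨K3, H3⟩ := hPU c a
  refine ⟨K1 + K2 + K3 + 1 + (c + 10),
    fun q u w A _ _ Λ χ P z G G' H V k T lv ed fd pr hk sH sV hT => ?_⟩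
  have sc := lv.sc
  have u0 : c + 10 ≤ u := sc.le (by omega)
  have q0 : 0 < q := sc.leq (x := 1) (by omega) (by omega)
  have l0 := lv.cut (Nat.le_add_right (K1 + K2 + K3 + 1) _)
  obtain ⟨v, hv⟩ : ∃ v, v = u ^ (K1 + K2 + K3 + 1) := ⟨_, rfl⟩
  have vw : v * u ≤ w := by
    rw [hv, ← pow_succ]
    exact (Nat.pow_le_pow_right (by omega) (by omega)).trans lv.mid
  have vq : c * (v * u) ≤ q := by
    refine (Nat.mul_le_mul_right _ (show c ≤ u by omega)).trans ?_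
    rw [hv, ← pow_succ, ← pow_succ']
    exact sc.pow (by omega) (by omega)
  rw [← hv] at l0
  have uu : u ≤ u ^ 2 := Nat.le_self_pow two_ne_zero u
  have o2 : 2 * om A ^ 2 ≤ u := sc.om (by omega) (by omega)
  have s1 : sz P ≤ u := fd.kp.sz.trans ((Nat.le_self_pow two_ne_zero _).trans (by omega))
  have s2 : 2 * sz (P ^ 2) ≤ u := (Nat.mul_le_mul_left _ ((sz_pow P 2).trans
    (Nat.pow_le_pow_left fd.kp.sz 2))).trans o2
  have sm : ∀ {x y : ZA A} {m : ℕ}, sz x ≤ u → sz y ≤ u * m → sz (x * y) ≤ u ^ 2 * m :=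
    fun h h' => (sz_mul _ _).trans ((Nat.mul_le_mul h h').trans_eq (by ring))
  have so : ∀ {x : ZA A} (s : A), sz x ≤ u → sz (sg s * x) ≤ u := fun s h =>
    (sz_sg_mul _ _).trans h
  have n1 : n - (n - 1) = 1 := by omega
  have g1 : sz (G 1) ≤ u * q := by simpa using fd.sz 1 (by omega)
  have g2 := fd.sz (n - 1) (by omega)
  have v1 : sz (V 1) ≤ u * q := by simpa using sV 1 (by omega)
  have v2 := sV (n - 1) (by omega)
  have w1 : ∀ m ≤ n, sz (Λ.W m) ≤ u * q ^ m := (sz_W ed.gd).up (by omega)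
  have pu := fun (s : A) y y0 a1 a2 => H3 q n u v A Λ (sg s * (P * G 1)) (sg s * z) y y0 T _ (V0 Λ) hn ed
    (l0.down (by omega) (by omega)) ((sz_sg_mul _ _).trans (sm s1 g1)) a1
    ((so s fd.szc).trans uu) (fd.u1.mul _ ((Nat.mul_le_mul_left _ ((sz_single s 1).trans
      (show 1 ≤ u by omega))).trans vw)) a2 hT
  have uf : Un (P * G (n - 1)) (V0 Λ) z v (q ^ (n - 1)) :=
    fd.u2.down ((Nat.le_mul_of_pos_right _ (by omega)).trans vw)
  obtain ⟨B1, a1, c1⟩ := pu (n • k) (P * Λ.W (n - 1)) (P * 1) (sm s1 (w1 _ (by omega)))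
    ((un_W ed.gd (by omega) (fun x hx => (mem_Pi.1 (V0_sub hx)).1) vq).mul P
      (Nat.mul_le_mul_left _ s1))
  obtain ⟨B2, a2, c2⟩ := pu (n • k) _ _ (sm s1 g2) uf
  obtain ⟨B7, a7, c7⟩ := pu Λ.ω _ _ (sm s1 g2) uf
  have cum := fun x G H => H1 q c u v A Λ x G H T hn ed (l0.down (by omega) (by omega))
  obtain ⟨B3, a3, c3⟩ := cum (sg (n • k) * P ^ 2 * G 1) G G' (sm (so _ (by omega)) g1) fd.sz
    fd.sz' hT
  obtain ⟨B8, a8, c8⟩ := cum (sg Λ.ω * (P ^ 2 * (V 1 - G 1))) G H ((sz_sg_mul _ _).trans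
    ((sz_mul _ _).trans ((Nat.mul_le_mul_left _ ((sz_sub _ _).trans (add_le_add v1 g1))).trans (by
      rw [← two_mul, ← mul_assoc, mul_comm _ 2, sq u, mul_assoc u]
      exact Nat.mul_le_mul_right _ s2)))) fd.sz sH hT
  obtain ⟨B4, L4, a4, b4, c4⟩ := hPRT q n c u a A Λ (sg Λ.ω * P ^ 2) (V 1) (V (n - 1)) T hn
    (by omega) ed lv.td ((so _ (by omega)).trans uu) v1 v2 hT
  have ph := fun i y z z0 X π π' => H2 q n u v i A Λ y z z0 T X π π' hn ed
    (l0.down (by omega) (by omega))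
  have e2 : ∀ y, sg Λ.ω * P * (P * y) = sg Λ.ω * P ^ 2 * y := fun y => by ring
  have um := (Nat.mul_le_mul_left v (so Λ.ω s1)).trans vw
  obtain ⟨L5, b5, c5⟩ := ph 1 (V 1) (sg Λ.ω * P * (P * G (n - 1))) _ _ _ _ (.inl ⟨rfl, rfl, rfl⟩)
    (v1.trans (Nat.mul_le_mul uu (pow_one q).ge)) (e2 _ ▸ sm (so _ (by omega)) g2)
    (fd.u2.mul _ um) hT
  obtain ⟨L6, b6, c6⟩ := ph (n - 1) (V (n - 1)) (sg Λ.ω * P * (P * G 1)) (sg Λ.ω * P * z) (S0 Λ)
    _ _ (.inr ⟨rfl, rfl, rfl⟩) (v2.trans (Nat.mul_le_mul_right _ uu))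
    (by rw [n1, pow_one, e2]; exact sm (so _ (by omega)) g1)
    (by rw [n1, pow_one]; exact fd.u1.mul _ um) hT
  obtain ⟨L9, b9, c9⟩ := ph (n - 1) (P ^ 2 * br (G (n - 1))) (sg (Λ.ω + n • k) * br (Λ.W 1)) 0
    (S0 Λ) _ _ (.inr ⟨rfl, rfl, rfl⟩) (sm (by omega) ((sz_br _).trans g2))
    (by
      rw [n1]
      exact (sz_sg_mul _ _).trans ((sz_br _).trans ((w1 1 (by omega)).trans
        (Nat.mul_le_mul_right _ uu))))
    (by
      rw [n1]
      exact (un_brW ed q0 one_pos (by omega) (fun x hx => Ac.w1_one (S0_sub hx)) vq _).down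
        (Nat.le_mul_of_pos_right _ (by omega))) hT
  have id : sg (n • k) * (P * G 1) * (P * Λ.W (n - 1)) + sg Λ.ω * P ^ 2 * (V 1 * V (n - 1)) +
      sg Λ.ω * (P * G 1) * (P * G (n - 1)) = sg (n • k) * (P * G 1) * (P * G (n - 1)) +
        sg (n • k) * P ^ 2 * G 1 * md G G' (n - 1) + V 1 * (sg Λ.ω * P * (P * G (n - 1))) +
        V (n - 1) * (sg Λ.ω * P * (P * G 1)) + sg Λ.ω * (P ^ 2 * (V 1 - G 1)) * md G H (n - 1) +
        P ^ 2 * br (G (n - 1)) * (sg (Λ.ω + n • k) * br (Λ.W 1)) := by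
    have := kp_zero fd.kp fd.fa (y := sg (n • k) * (G 1 * (Λ.W (n - 1) - G (n - 1) -
      md G G' (n - 1))) + sg Λ.ω * ((V 1 - G 1) * (V (n - 1) - G (n - 1) - md G H (n - 1))) -
        br (G (n - 1)) * (sg (Λ.ω + n • k) * br (Λ.W 1))) (by
      have t1 := fd.pr.sy 1 (by omega)
      have t2 := fd.pr.cv' one_pos (by omega)
      have t3 := fd.pr.cv' (m := n - 1) (by omega) (by omega)
      have t4 := pr.cv' one_pos (by omega)
      have t5 := pr.cv' (m := n - 1) (by omega) (by omega)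
      have t6 : χ (n • k) = χ (1 • k) * χ ((n - 1) • k) := by
        rw [← AddChar.map_add_eq_mul, ← add_nsmul, Nat.add_sub_cancel' (by omega)]
      rw [md_one, map_zero, add_zero] at t2 t4
      rw [hk 1 (by omega)] at t4
      rw [hk (n - 1) (by omega)] at t5
      simp only [map_add, map_mul, map_sub, ev_br, ev_sg, AddChar.map_add_eq_mul, t2, t3, t4, t5,
        t6] at t1 ⊢
      linear_combination ev χ P * χ (1 • k) * χ ((n - 1) • k) * t1)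
    linear_combination P * this
  refine ⟨L4 ∪ L5 ∪ (L6 ∪ L9), ((card_union_le _ _).trans (add_le_add (card_union_le _ _)
    (card_union_le _ _))).trans (by
      have := Nat.mul_le_mul_left (u ^ (4 * a)) (show 5 ≤ u by omega)
      rw [pow_succ]
      omega), fun L' hL hb => ?_⟩
  simp only [union_subset_iff] at hL
  obtain ⟨B5, a5, c5⟩ := c5 L' hL.1.2 hb
  obtain ⟨B6, a6, c6⟩ := c6 L' hL.2.1 hb
  obtain ⟨B9, a9, c9⟩ := c9 L' hL.2.2 hb
  have dn : ∀ {x : ℕ}, u ^ 3 * x ≤ q ^ n → u ^ 2 * x ≤ q ^ n := fun h =>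
    (Nat.mul_le_mul_right _ (Nat.pow_le_pow_right (by omega) (by omega))).trans h
  have a4' := (Nat.mul_le_mul_right _ (Nat.pow_le_pow_right (by omega) (show 2 ≤ 4 by omega))).trans
    a4
  have tot := Ac.mul_card_union (Ac.mul_card_union (Ac.mul_card_union (Ac.mul_card_union a1 a2)
    (Ac.mul_card_union a3 a4')) (Ac.mul_card_union (Ac.mul_card_union (dn a5) (dn a6))
      (Ac.mul_card_union a7 a8))) (dn a9)
  rw [sq, mul_assoc] at tot
  refine ⟨_, Nat.le_of_mul_le_mul_left (tot.trans (le_trans (by omega)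
    (Nat.mul_le_mul_right (q ^ n) (show 10 ≤ u by omega)))) (by omega),
    fun e he hB p0 r0 t ht => ?_⟩
  simp only [mem_union, not_or] at hB
  obtain ⟨⟨⟨⟨d1, d2⟩, d3, d4⟩, ⟨d5, d6⟩, d7, d8⟩, d9⟩ := hB
  have := congrArg (·.coeff (e.1 + e.2 + t)) id
  simp only [AddMonoidAlgebra.coeff_add, Finsupp.add_apply] at this
  rw [c1 e he d1 p0 r0 t ht, c2 e he d2 p0 r0 t ht, c3 e he d3 t ht, c4 L' hL.1.1 e he d4 t ht,
    c5 e he d5 r0 t ht, c6 e he d6 p0 t ht, c7 e he d7 p0 r0 t ht, c8 e he d8 t ht,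
    c9 e he d9 p0 t ht, mul_zero] at this
  rw [show sg (n • k) * (P * z - z ^ 2) + sg Λ.ω * ((P * pat (V 1) e.1 L' - z) *
      (P * pat (V (n - 1)) e.2 L' - z)) = sg (n • k) * z * (P * 1) + sg Λ.ω * P ^ 2 *
        (pat (V 1) e.1 L' * pat (V (n - 1)) e.2 L') + sg Λ.ω * z * z - (sg (n • k) * z * z +
          pat (V 1) e.1 L' * (sg Λ.ω * P * z) + pat (V (n - 1)) e.2 L' * (sg Λ.ω * P * z)) by ring]
  simp only [AddMonoidAlgebra.coeff_add, AddMonoidAlgebra.coeff_sub, Finsupp.add_apply,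
    Finsupp.sub_apply, AddMonoidAlgebra.coeff_zero, Finsupp.zero_apply, add_zero] at this ⊢
  rw [this, sub_self]

end

section

open Polynomial Finset
open Pool.Agent.P.MP_9344a7_nt.R
open Pool.Agent.P.MP_9344a7_nt.Hy
open Pool.Agent.P.MP_9344a7_nt.Od (GD Kp Fe)
open Pool.Agent.P.MP_9344a7_nt.Ac (Sb Pm Sp ED CD TD AD Sc Eg Dgs)
open scoped Classical ComplexConjugate

theorem p_HPART (hFTS : S_FTS) (hLH : S_LH) (hHRP : S_HRP) (hHRR : S_HRR) (hMID : S_MID) (hPRM : S_PRM) :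
    S_HPART := by
  intro c n a E hn
  obtain ⟨M0, hR⟩ := hHRR c n hn
  obtain ⟨M1, hF⟩ := hFTS c n (5 * E) hn
  obtain ⟨M2, K2, hL⟩ := hLH c n a (5 * E * (c + 2) + 2 * M0) hn
  obtain ⟨K3, hM⟩ := hMID c n a hn
  obtain ⟨K4, hP⟩ := hPRM c n a hn
  obtain ⟨M5, K5, hQ⟩ := hHRP c n a (2 * M0) hn
  refine ⟨M0 + M1 + M2 + M5, (4 * a + 3) * (K2 + 1) + (K3 + K4 + K5 + 4 + 5 * E + M0 + M1 + c),
    fun q u w A A' _ _ _ _ Λ Λ' χ P z G G' H j κ T hS ed cd xd dd ud hs fd ph hz hT => ?_⟩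
  have pd := ph.pd
  have sc := hS.sc
  have lv := hS.lv (by omega)
  have u3 : 3 ≤ u := sc.le (by omega)
  have uE : 5 * E ≤ u := sc.le (by omega)
  obtain ⟨L1, B1, a1, a2, a3⟩ := hM q u w A Λ χ P z G G' H (Ej Λ' j) (j Λ'.ω) T
    (lv.down (by omega) (by omega)) ed fd pd.pr pd.sz ((sz_Ej dd.gd j).up (sc.le (by omega))) hT
  obtain ⟨L2, B2, b1, b2, b3⟩ := hP q u w A A' Λ Λ' j T (lv.down (by omega) (by omega)) ed dd hT
  have uv : u ≤ u ^ (4 * a + 3) := Nat.le_self_pow (by omega) u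
  have s1 := hS.pow (m := 4 * a + 3) (K' := K2 + 1) (by omega) le_self_add (by omega)
  have w0 : 0 < w := lt_of_lt_of_le (by omega) (hS.uw (by omega))
  have hL0 : #(L1 ∪ L2 ∪ T) ≤ u ^ (4 * a + 3) := by
    have := Nat.pow_le_pow_right (show 0 < u by omega) (show 4 * a + 1 ≤ 4 * a + 2 by omega)
    have := Nat.le_self_pow (show 4 * a + 2 ≠ 0 by omega) u
    have := card_union_le (L1 ∪ L2) T
    have := card_union_le L1 L2
    rw [pow_succ u (4 * a + 2)]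
    nlinarith
  rcases hL q (u ^ (4 * a + 3)) w A A' Λ Λ' χ P z G G' H j κ (L1 ∪ L2 ∪ T)
    ⟨(s1.sc.down K2.le_succ).lo,
    (Nat.pow_le_pow_right (by positivity) K2.le_succ).trans s1.mid,
    (Nat.pow_le_pow_right w0 K2.le_succ).trans s1.hi, fun v d1 d2 => s1.td v d1
      (d2.trans (Nat.pow_le_pow_right w0 K2.le_succ))⟩ ed (cd.up le_rfl (by omega)) dd hs
    (fd.up uv le_rfl) (ph.up uv) hz hL0 with h | ⟨τ, h⟩ | ⟨c1, c2, c3⟩
  · exact .inl (h.down (by nlinarith))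
  · refine (hR q A A' Λ Λ' j κ τ (sc.leq (by omega) (by omega)) ed (xd.down (by omega))
      (ud.down (by omega)) hs ?_).elim
    have d := Ac.mul_card_union ((Nat.mul_le_mul_right _ le_add_self).trans h)
      (hQ q u w A A' Λ Λ' j τ (lv.down (by omega) (by omega)) ed (cd.up le_rfl (by omega)) dd)
    refine Nat.le_of_mul_le_mul_left (((mul_assoc _ _ _).symm.trans_le (Nat.mul_le_mul_left _
      (card_le_card fun r hr => ?_))).trans (d.trans_eq (two_mul _).symm)) two_pos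
    obtain ⟨r1, r2⟩ := mem_filter.1 hr
    by_cases e : (Ej Λ' j (n - 1)).coeff (r + τ) = 0
    · exact mem_union_left _ (mem_filter.2 ⟨r1, e⟩)
    · obtain ⟨y, y1, y2⟩ := Ej_ne.1 e
      exact mem_union_right _ (mem_filter.2 ⟨r1, y, y1, y2, fun y3 => r2 ⟨y, mem_Pi.2 y3, y1⟩⟩)
  replace c2 := (Nat.mul_le_mul_right _ le_self_add).trans c2
  replace c3 := (Nat.mul_le_mul_right _ le_self_add).trans c3
  refine .inr ⟨c1, le_trans (Nat.mul_le_mul (by nlinarith) (card_le_card fun p hp => ?_)) c2, ?_⟩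
  · exact mem_filter.2 ((mem_filter.1 hp).imp_right fun h h' => h (h'.mono subset_union_right))
  obtain ⟨-, -, d1⟩ := hF q A Λ (sc.leq (by omega) (by omega)) ed (cd.up le_rfl (by omega))
  set N1 := {p ∈ Λ.S | ¬ Fr (Ej Λ' j 1) p (L1 ∪ L2 ∪ T)} with hN1
  set N2 := {r ∈ Pi Λ (n - 1) | ¬ Fr (Ej Λ' j (n - 1)) r (L1 ∪ L2 ∪ T)} with hN2
  have qn : q ^ n = q * q ^ (n - 1) := by rw [← pow_succ', Nat.sub_add_cancel (by omega)]
  have d2 : 5 * E * #{e ∈ Es Λ | e.1 ∈ N1} ≤ q ^ n := by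
    have := Nat.mul_le_mul_left (5 * E) (es_cnt1 ed.gd N1)
    have := Nat.mul_le_mul_right (q ^ (n - 1)) c2
    rw [qn]
    linarith [Nat.zero_le (E * #N1 * q ^ (n - 1))]
  have d3 : 5 * E * #{e ∈ Es Λ | e.2 ∈ N2} ≤ q ^ n := by
    have := Nat.mul_le_mul_left (5 * E) (es_cnt2 (Λ := Λ) (sc.leq (by omega) (by omega)) N2)
    have := Nat.mul_le_mul_left q c3
    rw [qn]
    linarith [Nat.zero_le (E * c * #N2 * q)]
  have d4 := Ac.mul_card_union (Ac.mul_card_union (Ac.mul_card_union (Ac.mul_card_union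
    ((Nat.mul_le_mul_right _ uE).trans a2) ((Nat.mul_le_mul_right _ uE).trans b2)) d1) d2) d3
  refine ⟨_, Nat.le_of_mul_le_mul_left ((mul_assoc _ _ _).symm.trans_le (d4.trans_eq (by ring)))
    (show 0 < 5 by omega), fun e he hB => ?_⟩
  simp only [mem_union, not_or, mem_filter, he, true_and, not_not, hN1, hN2, es_fst he,
    es_snd he] at hB
  obtain ⟨⟨⟨⟨e1, e2⟩, e3, e4⟩, e5⟩, e7⟩ := hB
  have i1 : L1 ⊆ L1 ∪ L2 ∪ T := subset_union_left.trans subset_union_left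
  exact ⟨a3 e he e1 e3 e4 (e5.mono i1) (e7.mono i1), fun y hy h0 =>
    (b3 e he e2 y hy h0).1 (e5.mono (subset_union_right.trans subset_union_left))⟩

end

section

open Polynomial Finset
open Pool.Agent.P.MP_9344a7_nt.R
open Pool.Agent.P.MP_9344a7_nt.Hy
open Pool.Agent.P.MP_9344a7_nt.Od (GD Kp Fe)
open Pool.Agent.P.MP_9344a7_nt.Ac (Sb Pm Sp ED CD TD AD Sc Eg Dgs)
open scoped Classical ComplexConjugate

theorem ctws_one {A : Type} (f a1 a2 : A → ℤ) (T : Finset A) (h0 : ∀ x, f x ≠ 0 → x ∈ T)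
    (h1 : ∀ x x', f x ≠ 0 → a1 x ≠ 0 → a1 x' ≠ 0 → x' ∈ T)
    (h2 : ∀ x x', f x ≠ 0 → a2 x ≠ 0 → a2 x' ≠ 0 → x' ∈ T)
    (h3 : ∀ x x' x'', f x ≠ 0 → a2 x ≠ 0 → a2 x' ≠ 0 → a1 x' ≠ 0 → a1 x'' ≠ 0 → x'' ∈ T)
    (h : ∀ t ∈ T, f t = a2 t - a1 t) (hn : ¬ ∀ x, a1 x ≠ 0 → x ∈ T) :
    (∀ t, f t = a2 t) ∨ ∀ t, f t = 0 := by
  have e1 : ∀ x, f x ≠ 0 → a1 x = 0 := fun x hx => by
    by_contra e
    exact hn fun x' => h1 x x' hx e
  by_cases e : ∃ x, f x ≠ 0 ∧ a2 x ≠ 0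
  · obtain ⟨x, hx, hx2⟩ := e
    refine .inl fun t => ?_
    by_cases ht : t ∈ T
    · by_cases e2 : a1 t = 0
      · rw [h t ht, e2, sub_zero]
      · rw [not_not.1 fun e3 => e2 (e1 t e3),
          not_not.1 fun e3 : a2 t ≠ 0 => hn fun x'' => h3 x t x'' hx hx2 e3 e2]
    · rw [not_not.1 fun e3 => ht (h0 t e3), not_not.1 fun e3 => ht (h2 x t hx hx2 e3)]
  · refine .inr fun t => ?_
    by_contra e2
    refine e2 ?_
    rw [h t (h0 t e2), e1 t e2, not_not.1 fun e3 => e ⟨t, e2, e3⟩, sub_zero]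

theorem ctws_dif {A : Type} [AddCommGroup A] {Q θ : ZA A} [Fintype A] (h : Sgl θ univ) {x x' : A}
    (hx : (Q * θ).coeff x ≠ 0) (hx' : (Q * θ).coeff x' ≠ 0) :
    ∃ b1 b2, Q.coeff b1 ≠ 0 ∧ Q.coeff b2 ≠ 0 ∧ x' = x + (b1 - b2) := by
  rcases h with rfl | ⟨s, -, rfl⟩
  · simp at hx
  · rw [mul_comm, coeff_sg_mul] at hx hx'
    exact ⟨_, _, hx', hx, by abel⟩

theorem p_TWS :
    S_TWS := by
  intro A _ _ Q Ξ θ1 θ2 T hQ s1 s2 hT h
  obtain ⟨b, hb⟩ : ∃ b, Q.coeff b ≠ 0 := by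
    by_contra e
    exact hQ (za_eq fun t => not_not.1 fun e2 => e ⟨t, e2⟩)
  have h0 : ∀ x, Ξ.coeff x ≠ 0 → x ∈ T := fun x hx => by simpa using hT x b b b b hx hb hb hb hb
  have h1 : ∀ θ, Sgl θ univ → ∀ x x', Ξ.coeff x ≠ 0 → (Q * θ).coeff x ≠ 0 →
      (Q * θ).coeff x' ≠ 0 → x' ∈ T := fun θ s x x' hx a1 a2 => by
    obtain ⟨b1, b2, c1, c2, rfl⟩ := ctws_dif s a1 a2
    simpa using hT x b1 b2 b b hx c1 c2 hb hb
  have h3 : ∀ θ θ', Sgl θ univ → Sgl θ' univ → ∀ x x' x'', Ξ.coeff x ≠ 0 → (Q * θ).coeff x ≠ 0 →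
      (Q * θ).coeff x' ≠ 0 → (Q * θ').coeff x' ≠ 0 → (Q * θ').coeff x'' ≠ 0 → x'' ∈ T :=
    fun θ θ' s s' x x' x'' hx a1 a2 a3 a4 => by
      obtain ⟨b1, b2, c1, c2, rfl⟩ := ctws_dif s a1 a2
      obtain ⟨b3, b4, c3, c4, rfl⟩ := ctws_dif s' a3 a4
      exact hT x b1 b2 b3 b4 hx c1 c2 c3 c4
  have hs : ∀ y1 y2 : ZA A, ∀ t, (Q * (y2 - y1)).coeff t = (Q * y2).coeff t - (Q * y1).coeff t :=
    fun y1 y2 t => by simp [mul_sub]
  by_cases e1 : ∀ x, (Q * θ1).coeff x ≠ 0 → x ∈ T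
  · by_cases e2 : ∀ x, (Q * θ2).coeff x ≠ 0 → x ∈ T
    · refine ⟨θ1, θ2, .inr rfl, .inr rfl, za_eq fun t => ?_⟩
      by_cases ht : t ∈ T
      · exact h t ht
      · rw [hs, not_not.1 fun e => ht (h0 t e), not_not.1 fun e => ht (e1 t e),
          not_not.1 fun e => ht (e2 t e), sub_zero]
    · rcases ctws_one (fun t => -Ξ.coeff t) (Q * θ2).coeff (Q * θ1).coeff T
        (fun x hx => h0 x (neg_ne_zero.1 hx)) (fun x x' hx => h1 θ2 s2 x x' (neg_ne_zero.1 hx))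
        (fun x x' hx => h1 θ1 s1 x x' (neg_ne_zero.1 hx))
        (fun x x' x'' hx => h3 θ1 θ2 s1 s2 x x' x'' (neg_ne_zero.1 hx))
        (fun t ht => by rw [h t ht, hs, neg_sub]) e2 with e | e
      · refine ⟨θ1, 0, .inr rfl, .inl rfl, za_eq fun t => ?_⟩
        rw [hs, ← e t]
        simp
      · refine ⟨0, 0, .inl rfl, .inl rfl, za_eq fun t => ?_⟩
        rw [neg_eq_zero.1 (e t)]
        simp
  · rcases ctws_one Ξ.coeff (Q * θ1).coeff (Q * θ2).coeff T h0 (h1 θ1 s1) (h1 θ2 s2)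
      (h3 θ2 θ1 s2 s1) (fun t ht => by rw [h t ht, hs]) e1 with e | e
    · exact ⟨0, θ2, .inl rfl, .inr rfl, za_eq fun t => by rw [sub_zero, e t]⟩
    · refine ⟨0, 0, .inl rfl, .inl rfl, za_eq fun t => ?_⟩
      rw [e t]
      simp

end

end Pool.Agent.P.MP_9344a7_nt.Cy
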