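import Pool.Agent.P.MP_9344a7_nt.Cy.IfaceH
import Pool.Agent.P.MP_9344a7_nt.Cy.IfaceA

/-! Steps HTW. -/

set_option linter.unusedVariables false
set_option linter.unusedSectionVars false

namespace Pool.Agent.P.MP_9344a7_nt.Cy

section

open Polynomial Finset
open Pool.Agent.P.MP_9344a7_nt.R
open Pool.Agent.P.MP_9344a7_nt.Hy
open Pool.Agent.P.MP_9344a7_nt.Od (GD Kp Fe)
open Pool.Agent.P.MP_9344a7_nt.Ac (Sb Pm Sp ED CD TD AD Sc Eg Dgs)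
open scoped Classical ComplexConjugate

lemma chtw_one (hTWS : S_TWS) (hORD6 : S_ORD6) {A : Type} [AddCommGroup A] [Fintype A]
    {χ : AddChar A ℂ} {P Ξ y z : ZA A} {g x : A} {T L : Finset A} (hχ : χ ∈ Fa A) (hP : Kp P)
    (h1 : (1 - χ g) * ev χ Ξ = 2 * χ g * ev χ P ^ 2)
    (h2 : ∀ x b1 b2 b3 b4, Ξ.coeff x ≠ 0 → (P ^ 2).coeff b1 ≠ 0 → (P ^ 2).coeff b2 ≠ 0 →
      (P ^ 2).coeff b3 ≠ 0 → (P ^ 2).coeff b4 ≠ 0 → x + (b1 - b2) + (b3 - b4) ∈ T)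
    (h3 : ∀ t ∈ T, ∀ b, (P ^ 2).coeff b ≠ 0 → t - b ∈ L ∧ t - g - b ∈ L)
    (h4 : ∀ t ∈ T, (P ^ 2 * z - sg g * (P ^ 2 * y)).coeff (x + t) = Ξ.coeff t)
    (s1 : Sgl (pat y x L) L) (s2 : Sgl (pat z x L) L) :
    addOrderOf g ≤ 6 ∧ (addOrderOf g = 6 → ¬ Fr y x L ∧ ¬ Fr z x L) := by
  have p0 := pow_ne_zero 2 (hP.ne χ hχ)
  have t1 : Sgl (sg g * pat y x L) univ := by
    rcases s1 with h | ⟨t, -, h⟩
    · exact .inl (by rw [h, mul_zero])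
    · exact .inr ⟨g + t, mem_univ _, by rw [h, AddMonoidAlgebra.single_mul_single, one_mul]⟩
  have t2 : Sgl (pat z x L) univ := s2.imp_right fun ⟨t, _, h⟩ => ⟨t, mem_univ _, h⟩
  obtain ⟨y1, y2, a1, a2, a3⟩ := hTWS A (P ^ 2) Ξ _ _ T
    (fun h => p0 (by rw [← map_pow, h, map_zero])) t1 t2 h2 fun t ht => by
      rw [← h4 t ht, mul_left_comm, ← mul_sub, Hy.coeff_mul, Hy.coeff_mul]
      refine sum_congr rfl fun b _ => ?_
      by_cases hb : (P ^ 2).coeff b = 0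
      · rw [hb, zero_mul, zero_mul]
      obtain ⟨b1, b2⟩ := h3 t ht b hb
      simp only [AddMonoidAlgebra.coeff_sub, Finsupp.sub_apply, coeff_sg_mul, coeff_pat]
      rw [if_pos b1, sub_right_comm t b g, if_pos b2, add_sub_assoc, add_sub_assoc,
        sub_right_comm t b g]
  rw [a3, map_mul, map_pow, mul_left_comm, mul_comm] at h1
  obtain ⟨c1, c2⟩ := hORD6 A χ y1 y2 g hχ (a1.elim .inl fun h => h ▸ t1)
    (a2.elim .inl fun h => h ▸ t2) (mul_right_cancel₀ p0 h1)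
  refine ⟨c1, fun h => ⟨fun f => (c2 h).1 ?_, fun f => (c2 h).2 ?_⟩⟩
  · rwa [pat_eq_zero.2 f, mul_zero, or_self] at a1
  · rwa [pat_eq_zero.2 f, or_self] at a2

theorem p_HTW (hESL : S_ESL) (hSGL : S_SGL) (hTWS : S_TWS) (hORD6 : S_ORD6) :
    S_HTW := by
  intro c n E hn
  obtain ⟨M, hM⟩ := hESL n 1 hn
  obtain ⟨F, hF⟩ : ∃ F, F = E + 2 * (n * (n - 1)) + 1 := ⟨_, rfl⟩
  refine ⟨M + 3 * F, M + 3 * F + 13 * c + 5, fun q u A A' _ _ _ _ Λ Λ' χ P Ξ j1 j2 g T L B hS hE hC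
    hX hD k1 k2 hχ hP hL h1 h2 h3 hB h4 => ?_⟩
  have a1 := hM q c A Λ (hS.leq (by omega) (by omega)) (hC.up le_rfl (by omega))
    (hX.down (by omega))
  have a2 : ∀ j : A' →+ A, Nat.card j.ker ≤ 12 → 3 * F * #{e ∈ Es Λ |
      e.1 + e.2 ∈ ({x | ¬ Sgl (pat (Ej Λ' j n) x L) L} : Finset A)} ≤ q ^ n := fun j k => by
    refine (Nat.mul_le_mul (hS.le (by omega)) (es_sum hn hE _)).trans
      (hS.tiny (e := 4) (by omega) ((hSGL q n c n A A' Λ' j L hD k le_rfl).trans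
        (Nat.mul_le_mul_right _ ?_)))
    rw [pow_succ' u]
    exact Nat.mul_le_mul (hS.le (by omega)) (Nat.pow_le_pow_left hL 3)
  obtain ⟨B', b1, b2⟩ : ∃ B' : Finset (A × A), F * #B' ≤ q ^ n ∧ ∀ e ∈ Es Λ, e ∉ B' →
      addOrderOf g ≤ 6 ∧ (addOrderOf g = 6 →
        ¬ Fr (Ej Λ' j1 n) (e.1 + e.2) L ∧ ¬ Fr (Ej Λ' j2 n) (e.1 + e.2) L) := by
    have b1 := a2 j1 k1
    have b2 := a2 j2 k2
    have b3 := (Nat.mul_le_mul_right _ (Nat.le_add_left _ M)).trans hB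
    have b4 : ∀ X Y : Finset (A × A), 3 * F * #X ≤ q ^ n → 3 * F * #Y ≤ q ^ n →
        F * #(B ∪ X ∪ Y) ≤ q ^ n := fun X Y x y => by
      have := Nat.mul_le_mul_left F ((card_union_le (B ∪ X) Y).trans
        (Nat.add_le_add_right (card_union_le _ _) _))
      rw [mul_add, mul_add] at this
      rw [mul_assoc] at x y b3
      omega
    refine ⟨_, b4 _ _ b1 b2, fun e he hB => ?_⟩
    simp only [mem_union, mem_filter, mem_univ, he, true_and, not_or, not_not] at hB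
    exact chtw_one hTWS hORD6 hχ hP h1 h2 h3 (h4 e he hB.1.1) hB.1.2 hB.2
  obtain ⟨e, he, he'⟩ : ∃ e ∈ Es Λ, e ∉ B' := by
    by_contra! h
    have c1 := (Nat.mul_le_mul_left F (card_le_card h)).trans b1
    have c2 : 0 < q ^ n := Nat.pow_pos (hS.leq (x := 1) (by omega) (by omega))
    rw [hF, add_mul, add_mul, mul_assoc] at c1
    rcases (#(Es Λ)).eq_zero_or_pos with h0 | h0
    · rw [h0] at a1; omega
    · omega
  exact ⟨(b2 e he he').1, fun h => ⟨B', (Nat.mul_le_mul_right _ (by omega)).trans b1,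
    fun e he he' => (b2 e he he').2 h⟩⟩

end

end Pool.Agent.P.MP_9344a7_nt.Cy
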