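import Pool.Agent.P.MP_9344a7_nt.Cy.IfaceH
import Pool.Agent.P.MP_9344a7_nt.Cy.IfaceA

/-! Steps LH, HRP, ORD6, LAD, HC1. -/

set_option linter.unusedVariables false
set_option linter.unusedSectionVars false

namespace Pool.Agent.P.MP_9344a7_nt.Cy

section

open Polynomial Finset
open Pool.Agent.P.MP_9344a7_nt.R
open Pool.Agent.P.MP_9344a7_nt.Hy
open Pool.Agent.P.MP_9344a7_nt.Od (GD Kp Fe)
open Pool.Agent.P.MP_9344a7_nt.Ac (Sb Pm Sp ED CD TD AD Sc Eg Dgs)
open scoped Classical ComplexConjugate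

lemma clh_down {q n u w a K K' : ℕ} {A : Type} [AddCommGroup A] [Fintype A] {Λ : LD q n A}
    (h : Sl Λ u w a K) (hK : K' ≤ K) (h0 : 0 < K) : Sl Λ u w a K' :=
  have w0 : 0 < w := (h.pos h0).trans_le (h.uw h0)
  ⟨(h.sc.down hK).lo, (Nat.pow_le_pow_right (h.pos h0) hK).trans h.mid,
    (Nat.pow_le_pow_right w0 hK).trans h.hi,
    fun s a b => h.td s a (b.trans (Nat.pow_le_pow_right w0 hK))⟩

lemma clh_cnt {α : Type} [DecidableEq α] {S U : Finset α} {f g : α → Prop} [DecidablePred f]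
    [DecidablePred g] {E F Q k : ℕ} (hF : 5 * E ≤ F)
    (h1 : F * #(S \ U) ≤ Q) (h2 : #{x ∈ U | g x} ≤ k * (Q / F)) (hk : k ≤ 4)
    (h : ∀ x ∈ U, f x → g x) : E * #{x ∈ S | f x} ≤ Q := by
  have a1 : #{x ∈ S | f x} ≤ #(S \ U) + #{x ∈ U | g x} := by
    refine (card_le_card fun x hx => ?_).trans (card_union_le _ _)
    obtain ⟨a, b⟩ := mem_filter.1 hx
    by_cases e : x ∈ U
    · exact mem_union_right _ (mem_filter.2 ⟨e, h x e b⟩)
    · exact mem_union_left _ (mem_sdiff.2 ⟨a, e⟩)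
  have a2 : F * #{x ∈ U | g x} ≤ 4 * Q :=
    calc _ ≤ F * (4 * (Q / F)) := Nat.mul_le_mul_left _ (h2.trans (Nat.mul_le_mul_right _ hk))
      _ = 4 * (F * (Q / F)) := by ring
      _ ≤ _ := Nat.mul_le_mul_left _ (Nat.mul_div_le _ _)
  have a3 := Nat.mul_le_mul hF a1
  rw [mul_add, mul_assoc] at a3
  omega

lemma clh_sg {A : Type} [AddCommGroup A] {y : ZA A} {p t : A} {L : Finset A}
    (h : y.coeff (p + t) = 0) : pat y p L ≠ sg t := fun e => by
  have := congrArg (·.coeff t) e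
  simp [coeff_pat, h] at this

theorem p_LH (hMXE : S_MXE) (hSTH : S_STH) (hLUH : S_LUH) (hLUC : S_LUC) :
    S_LH := by
  intro c n a E hn
  obtain ⟨F, hF⟩ : ∃ F, F = 8 * (E + c + 1) := ⟨_, rfl⟩
  obtain ⟨M1, h1⟩ := hMXE n F hn (by omega)
  obtain ⟨b, M2, K2, b0, h2⟩ := hSTH c n a M1 hn
  obtain ⟨m, K3, -, h3⟩ := hLUC c n F hn
  refine ⟨M1 + M2, b ^ m * (K2 + 1) + b ^ m * K3 + (K3 + M1 + 1), ?_⟩
  intro q u w A A' _ _ _ _ Λ Λ' χ P z G G' H j κ L0 hS hE hC hE' hs hD hP hz hL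
  have sc := hS.sc
  have u0 : 0 < u := sc.pos (by omega)
  have q0 : 0 < q := sc.leq (x := 1) (by omega) (by omega)
  have up : ∀ i, u ≤ u ^ b ^ i := fun i => Nat.le_self_pow (Nat.pow_pos b0).ne' u
  obtain ⟨L, L', S, V, l0, l1, ⟨B, hB, hEd⟩, sS, sV, cS, cV, pS, pV⟩ :=
    h3 q (u ^ b ^ m) A A' Λ Λ' j (fun i => u ^ b ^ i) (Sh Λ Λ' j χ P z M1) L0
      ((sc.le (by omega)).trans (up m)) ((pow_mul u _ _).symm.trans_le (sc.pow (by omega) (by omega)))
      hE.gd hE' hP.pd.ker (hL.trans (up 0))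
      (fun i hi => Nat.pow_le_pow_right u0 (Nat.pow_le_pow_right b0 hi)) fun i hi L hL => by
        rw [pow_succ b, pow_mul]
        have := Nat.mul_le_mul_right (K2 + 1) (Nat.pow_le_pow_right b0 hi.le)
        exact h2 q _ w A A' Λ Λ' χ P z G G' H j κ L (clh_down (hS.pow (K' := K2 + 1)
          (Nat.pow_pos b0) (by omega) (by omega)) (by omega) (by omega)) hE
          (hC.up le_rfl (by omega)) hE'.gd hs (hD.up (up i) le_rfl) (hP.up (up i)) hL
  have mg := h1 q c A Λ B (sc.leq (by omega) (by omega)) (hC.up le_rfl (by omega)) hB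
  have big : ∀ {X Y : Finset A} {Q d : ℕ}, X ⊆ Y → F * #(Y \ X) ≤ Q → 0 < Q → Q ≤ d * #Y →
      5 * d < F → 4 * (Q / F) < #X := fun {X Y Q d} sV cV Q0 a1 hd => by
    by_contra! h
    have a2 := card_sdiff_add_card_eq_card sV
    have a3 := Nat.mul_div_le Q F
    have a4 : F * #Y ≤ 5 * Q := by
      have := Nat.mul_le_mul_left F h
      rw [← a2, mul_add]
      linarith
    have a5 : F * Q ≤ 5 * d * Q :=
      calc _ ≤ F * (d * _) := Nat.mul_le_mul_left _ a1
        _ = d * (F * _) := by ring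
        _ ≤ d * _ := Nat.mul_le_mul_left _ a4
        _ = _ := by ring
    have := Nat.le_of_mul_le_mul_right a5 Q0
    omega
  have bS : 4 * (q / F) < #S := by
    by_contra! h
    have a2 := card_sdiff_add_card_eq_card sS
    have a3 := Nat.mul_div_le q F
    have a4 := Nat.mul_le_mul_left F h
    have a5 := Nat.mul_le_mul_left F Λ.lo
    have a6 := Nat.mul_le_mul_right q (show 8 ≤ F by omega)
    rw [← a2] at a5
    linarith
  have l2 := l0.trans l1
  have f5 : 5 * E ≤ F := by omega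
  have f3 : 3 ≤ 4 := by omega
  rcases hLUH A χ P z Λ.ω (j Λ'.ω) L S V (Es Λ \ B) (q / F) (q ^ (n - 1) / F)
    (fun p => pat (Ej Λ' j 1) p L') (fun r => pat (Ej Λ' j (n - 1)) r L') hD.fa
    (hD.kp.ne χ hD.fa) hz (fun U a U' a' => mg U (a.trans sS) U' (a'.trans sV)) bS
    (big sV cV (Nat.pow_pos q0) hE.rp (by omega)) (fun p hp => (pS p hp).1)
    (fun r hr => (pV r hr).1) (fun e he a a' => hEd e (mem_sdiff.1 he).1 (mem_sdiff.1 he).2
      (pS _ a).1 (pV _ a').1) with ⟨t, h⟩ | ⟨t, h⟩ | ⟨h, h', h''⟩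
  · exact .inl ⟨j, .inl rfl, t, clh_cnt f5 cS h f3 fun _ _ => clh_sg⟩
  · exact .inr (.inl ⟨t, clh_cnt f5 cV h f3 fun _ _ => clh_sg⟩)
  · exact .inr (.inr ⟨h, clh_cnt f5 cS h' f3 fun p _ e e' => e ((pat_eq_zero.1 e').mono l2),
      clh_cnt f5 cV h'' f3 fun r _ e e' => e ((pat_eq_zero.1 e').mono l2)⟩)

end

section

open Polynomial Finset
open Pool.Agent.P.MP_9344a7_nt.R
open Pool.Agent.P.MP_9344a7_nt.Hy
open Pool.Agent.P.MP_9344a7_nt.Od (GD Kp Fe)
open Pool.Agent.P.MP_9344a7_nt.Ac (Sb Pm Sp ED CD TD AD Sc Eg Dgs)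
open scoped Classical ComplexConjugate

variable {q n c v a : ℕ} {A A' : Type} [AddCommGroup A] [Fintype A] [AddCommGroup A'] [Fintype A']
  {Λ : LD q n A} {Λ' : LD q n A'}

lemma chrp_one (hn : 3 ≤ n) (hE : ED Λ c) (hT : TD Λ v a) (hD : GD Λ' c) (hq : 4 ≤ q)
    (hv : 2 * c ≤ v) (j : A' →+ A) (τ : A) (m : ℕ) : ∃ B : Finset (A × A), v * #B ≤ q ^ n ∧
      (0 < m → m < n - 1 → ∀ r y b, j y = r + τ → Sb Λ' (n - 1) m y b →
        #{e ∈ Es Λ | e.2 = r} ≤ #{e ∈ B | e.2 = r} + v ^ a) := by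
  by_cases hm : 0 < m ∧ m < n - 1
  swap
  · exact ⟨∅, by simp, fun h1 h2 => (hm ⟨h1, h2⟩).elim⟩
  obtain ⟨m0, m1⟩ := hm
  have hY : #(Ej Λ' j m).coeff.support ≤ v * q ^ m :=
    (sz_Ej hD j m (by omega)).trans (Nat.mul_le_mul_right _ (by omega))
  have hZ : #({τ} : Finset A) * #(image₂ (· + ·) Λ.S (Ej Λ' j (n - 1 - m)).coeff.support) ≤
      v * q ^ (n - m) := by
    rw [card_singleton, one_mul, show n - m = n - 1 - m + 1 by omega, pow_succ]
    calc _ ≤ (2 * q) * (c * q ^ (n - 1 - m)) := (card_image₂_le _ _ _).trans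
          (Nat.mul_le_mul (Ac.card_S Λ hq) (sz_Ej hD j _ (by omega)))
      _ = 2 * c * (q ^ (n - 1 - m) * q) := by ring
      _ ≤ _ := Nat.mul_le_mul_right _ hv
  obtain ⟨B, L, h1, h2, h3⟩ := ev_edge hn hE hT m0 (by omega) hY hZ
  refine ⟨B, h1, fun _ _ r y b hy hb => ?_⟩
  rw [← card_filter_add_card_filter_not (s := {e ∈ Es Λ | e.2 = r}) (· ∈ B)]
  refine Nat.add_le_add (card_le_card fun e he => ?_) (le_trans (card_le_card_of_injOn
    (fun e => j b - e.1) (fun e he => ?_) fun e he e' he' h => ?_) h2)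
  · exact mem_filter.2 ⟨(mem_filter.1 he).2, (mem_filter.1 (mem_filter.1 he).1).2⟩
  · obtain ⟨he1, he2⟩ := mem_filter.1 (mem_coe.1 he)
    obtain ⟨he3, he4⟩ := mem_filter.1 he1
    have e1 : e.1 + e.2 + τ - j b = e.1 + j (y - b) := by rw [map_sub, hy, he4]; abel
    rcases h3 e he3 he2 τ (mem_singleton_self τ) (j b)
      (Finsupp.mem_support_iff.2 (Ej_ne.2 ⟨b, rfl, hb.1⟩))
      (e1 ▸ mem_image₂_of_mem (es_fst he3)
        (Finsupp.mem_support_iff.2 (Ej_ne.2 ⟨_, rfl, hb.2⟩))) with h | h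
    · exact h.2
    · omega
  · exact Prod.ext (sub_right_injective h) ((mem_filter.1 (mem_filter.1 (mem_coe.1 he)).1).2.trans
      (mem_filter.1 (mem_filter.1 (mem_coe.1 he')).1).2.symm)

theorem p_HRP (hFTS : S_FTS) :
    S_HRP := by
  intro c n a E hn
  obtain ⟨M, hM⟩ := hFTS c n (3 * E) hn
  refine ⟨M, M + 4 * a + 8 * n + 3 * E * (4 * n * n) + 3 * E * c + 2 * c + 4,
    fun q u w A A' _ _ _ _ Λ Λ' j τ hL hE hC hD => ?_⟩
  have hS := hL.sc
  have u0 : 0 < u := hS.pos (by omega)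
  have u4 : u ≤ u ^ 4 := Nat.le_self_pow (by omega) u
  have hq : 4 ≤ q := hS.leq (by omega) (by omega)
  obtain ⟨-, f1, -⟩ := hM q A Λ (hS.leq (by omega) (by omega)) hE hC
  choose B hB hB' using chrp_one hn hE hL.td hD.gd hq ((hS.le (by omega)).trans u4) j τ
  have b1 : u ^ 4 * #((range n).biUnion B) ≤ n * q ^ n :=
    Ac.mul_card_biUnion (card_range n).le fun m _ => hB m
  have hu : 8 * n * (u ^ 4) ^ a ≤ q := by
    refine le_trans ?_ (hS.pow (e := 4 * a + 1) (by omega) (by omega))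
    rw [← pow_mul, pow_succ']
    exact Nat.mul_le_mul_right _ (hS.le (by omega))
  set R3 : Finset A := {r ∈ V0 Λ | ∃ m y b, 0 < m ∧ m < n - 1 ∧ j y = r + τ ∧
    Sb Λ' (n - 1) m y b} with hR3
  have f3 : q * #R3 ≤ 4 * n * #((range n).biUnion B) := by
    refine le_trans ?_ (Nat.mul_le_mul_left _ ((sum_card_fiberwise_eq_card_filter
      ((range n).biUnion B) R3 Prod.snd).trans_le (card_filter_le _ _)))
    rw [mul_sum, mul_comm, ← smul_eq_mul]
    refine card_nsmul_le_sum _ _ _ fun r hr => ?_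
    obtain ⟨r0, m, y, b, m0, m1, hy, hb⟩ := mem_filter.1 hr
    have a1 := (mem_filter.1 r0).2
    have a2 := (hB' m m0 m1 r y b hy hb).trans (Nat.add_le_add_right (card_le_card
      (filter_subset_filter _ (subset_biUnion_of_mem B (mem_range.2 (by omega : m < n))))) _)
    have a3 := Nat.mul_le_mul_left (8 * n) a2
    have a4 := Λ.lo
    nlinarith
  have f4 : 3 * E * #R3 ≤ q ^ (n - 1) := by
    refine Ac.small_le (u := u ^ 4) (x := 4 * n * n) (by positivity) ?_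
      ((hS.le (by omega)).trans u4)
    refine Nat.le_of_mul_le_mul_left ?_ (by omega : 0 < q)
    calc q * (u ^ 4 * #R3) = u ^ 4 * (q * #R3) := by ring
      _ ≤ u ^ 4 * (4 * n * #((range n).biUnion B)) := Nat.mul_le_mul_left _ f3
      _ = 4 * n * (u ^ 4 * #((range n).biUnion B)) := by ring
      _ ≤ 4 * n * (n * q ^ n) := Nat.mul_le_mul_left _ b1
      _ = _ := by
        conv_lhs => rw [show n * q ^ n = n * q ^ (n - 1 + 1) by rw [Nat.sub_add_cancel (by omega)]]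
        ring
  set R2 : Finset A := image (fun y => j y - τ)
    {b | (Λ'.W (n - 1)).coeff b ≠ 0 ∧ (Λ'.W (n - 1)).coeff b ≠ 1} with hR2
  have f2 : 3 * E * #R2 ≤ q ^ (n - 1) := Ac.small_le (u := q) (x := c) (by omega)
    ((Nat.mul_le_mul_left _ card_image_le).trans (hD.big (Nat.sub_le _ _)))
    (hS.leq (by omega) (by omega))
  have f5 := Ac.mul_card_union (Ac.mul_card_union f1 f2) f4
  refine Nat.le_of_mul_le_mul_left (le_trans ?_ (f5.trans_eq (by ring))) (by omega : 0 < 3)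
  rw [← mul_assoc]
  refine Nat.mul_le_mul_left _ (card_le_card fun r hr => ?_)
  obtain ⟨r0, y, hy, y0, y1⟩ := mem_filter.1 hr
  by_cases h1 : r ∈ V0 Λ
  swap
  · exact mem_union_left _ (mem_union_left _ (mem_sdiff.2 ⟨r0, h1⟩))
  by_cases h2 : (Λ'.W (n - 1)).coeff y = 1
  swap
  · exact mem_union_left _ (mem_union_right _ (mem_image.2 ⟨y, mem_filter.2 ⟨mem_univ _, y0, h2⟩,
      by rw [hy, add_sub_cancel_right]⟩))
  refine mem_union_right _ (mem_filter.2 ⟨h1, ?_⟩)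
  by_contra h3
  exact y1 ⟨h2, fun m m0 m1 b hb => h3 ⟨m, y, b, m0, m1, hy, hb⟩⟩

end

section

open Polynomial Finset
open Pool.Agent.P.MP_9344a7_nt.R
open Pool.Agent.P.MP_9344a7_nt.Hy
open Pool.Agent.P.MP_9344a7_nt.Od (GD Kp Fe)
open Pool.Agent.P.MP_9344a7_nt.Ac (Sb Pm Sp ED CD TD AD Sc Eg Dgs)
open scoped Classical ComplexConjugate

theorem p_ORD6 :
    S_ORD6 := by
  intro A _ _ χ y1 y2 g hχ h1 h2 e
  have n1 : ∀ (ψ : AddChar A ℂ) y, Sgl y univ → ‖ev ψ y‖ ≤ 1 := fun ψ y h => by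
    rcases h with rfl | ⟨t, -, rfl⟩
    · simp
    · rw [ev_sg, ψ.norm_apply]
  have key : ∀ ψ ∈ Fa A, 2 ≤ ‖ψ g - 1‖ * (‖ev ψ y2‖ + ‖ev ψ y1‖) := fun ψ hψ => by
    have := congrArg norm (Ac.fa_tr hχ hψ (y := (1 - sg g) * (y2 - y1)) (z := 2 * sg g)
      (by simpa only [map_mul, map_sub, map_one, ev_sg, map_ofNat] using e))
    simp only [map_mul, map_sub, map_one, ev_sg, map_ofNat, norm_mul, ψ.norm_apply, mul_one,
      Complex.norm_ofNat] at this
    rw [← this, norm_sub_rev]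
    exact mul_le_mul_of_nonneg_left (norm_sub_le _ _) (norm_nonneg _)
  have o0 : addOrderOf g ≠ 0 := (addOrderOf_pos g).ne'
  obtain ⟨ψ, hψ, hg⟩ : ∃ ψ ∈ Fa A, ‖ψ g - 1‖ ≤ 2 * Real.pi / addOrderOf g := by
    have p1 : IsPrimitiveRoot (χ g) (addOrderOf g) := ⟨by
      rw [← AddChar.map_nsmul_eq_pow, addOrderOf_nsmul_eq_zero, AddChar.map_zero_eq_one],
      fun l hl => addOrderOf_dvd_of_nsmul_eq_zero (AddChar.injective_iff.1 (mem_Fa.1 hχ)
        (by rwa [AddChar.map_nsmul_eq_pow]))⟩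
    have p2 := Complex.isPrimitiveRoot_exp _ o0
    have : NeZero (addOrderOf g) := ⟨o0⟩
    have : NeZero (Nat.card A) := ⟨Nat.card_pos.ne'⟩
    obtain ⟨k, -, hk⟩ := p1.eq_pow_of_pow_eq_one p2.pow_eq_one
    obtain ⟨v, hv⟩ := ZMod.unitsMap_surjective (addOrderOf_dvd_natCard g) (ZMod.unitOfCoprime k
      ((p1.pow_iff_coprime (addOrderOf_pos g) k).1 (hk ▸ p2)))
    have p3 : (v : ZMod (Nat.card A)).val ≡ k [MOD addOrderOf g] := by
      rw [← ZMod.natCast_eq_natCast_iff, ZMod.natCast_val]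
      simpa [ZMod.unitsMap_def] using congrArg Units.val hv
    refine ⟨χ.compAddMonoidHom (nsmulAddMonoidHom (v : ZMod (Nat.card A)).val),
      mem_Fa.2 ((mem_Fa.1 hχ).comp (ZMod.val_coe_unit_coprime v).symm.nsmul_right_bijective.1), ?_⟩
    rw [AddChar.compAddMonoidHom_apply, nsmulAddMonoidHom_apply, nsmul_eq_nsmul_iff_modEq.2 p3,
      AddChar.map_nsmul_eq_pow, hk, show (2 * Real.pi * Complex.I / addOrderOf g : ℂ) =
        Complex.I * (2 * Real.pi / addOrderOf g : ℝ) by push_cast; ring]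
    exact Real.norm_exp_I_mul_ofReal_sub_one_le.trans_eq (Real.norm_of_nonneg (by positivity))
  have h3 := (key ψ hψ).trans (mul_le_mul_of_nonneg_right hg (by positivity))
  have h4 := Real.pi_lt_d2
  have h5 := n1 ψ y1 h1
  have h6 := n1 ψ y2 h2
  have h7 := Real.pi_pos
  rw [div_mul_eq_mul_div, le_div_iff₀ (by positivity)] at h3
  refine ⟨Nat.le_of_lt_succ (by exact_mod_cast (show (addOrderOf g : ℝ) < 7 by nlinarith)),
    fun h => ⟨?_, ?_⟩⟩ <;> rintro rfl <;> rw [h, map_zero, norm_zero] at h3 <;> push_cast at h3 <;>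
    nlinarith

end

section

open Polynomial Finset
open Pool.Agent.P.MP_9344a7_nt.R
open Pool.Agent.P.MP_9344a7_nt.Hy
open Pool.Agent.P.MP_9344a7_nt.Od (GD Kp Fe)
open Pool.Agent.P.MP_9344a7_nt.Ac (Sb Pm Sp ED CD TD AD Sc Eg Dgs)
open scoped Classical ComplexConjugate

/-- The sum over a coset. -/
lemma lad_shift {A : Type} [AddCommGroup A] [Fintype A] (k : ℕ) (x g : A) (hg : k • g = 0)
    (f : A → ℤ) : ∑ η ∈ univ.filter (fun η : A => k • η = 0), f (x + η - g) =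
      ∑ η ∈ univ.filter (fun η : A => k • η = 0), f (x + η) := by
  refine sum_bij' (fun η _ => η - g) (fun η _ => η + g) (fun η h => ?_) (fun η h => ?_)
    (fun η _ => by simp) (fun η _ => by simp) fun η _ => by rw [add_sub_assoc]
  · simp only [mem_filter, mem_univ, true_and] at h ⊢
    rw [smul_sub, h, hg, sub_zero]
  · simp only [mem_filter, mem_univ, true_and] at h ⊢
    rw [smul_add, h, hg, add_zero]

lemma lad_dvd {A : Type} [AddCommGroup A] [Fintype A] (l : ℕ) (hl : l.Prime) (g : A)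
    (hg : addOrderOf g = l) (T : Finset A) (hT : ∀ y ∈ T, y + g ∈ T) (f : A → ℤ)
    (hf : ∀ y, f (y + g) = f y) : (l : ℤ) ∣ ∑ y ∈ T, f y := by
  have hk : ∀ k : ℕ, (∀ y ∈ T, y + k • g ∈ T) ∧ ∀ y, f (y + k • g) = f y := fun k => by
    induction k with
    | zero => simp
    | succ k ih =>
      refine ⟨fun y hy => ?_, fun y => ?_⟩
      · rw [succ_nsmul, ← add_assoc]; exact hT _ (ih.1 y hy)
      · rw [succ_nsmul, ← add_assoc, hf, ih.2]
  rw [← sum_fiberwise_of_maps_to (s := T) (t := univ)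
    (g := fun y => (QuotientAddGroup.mk y : A ⧸ AddSubgroup.zmultiples g)) fun _ _ => mem_univ _]
  refine dvd_sum fun c _ => ?_
  rcases (T.filter fun y => (QuotientAddGroup.mk y : A ⧸ AddSubgroup.zmultiples g) = c).eq_empty_or_nonempty
    with e | ⟨y0, h0⟩
  · rw [e]; simp
  obtain ⟨h1, rfl⟩ := mem_filter.1 h0
  have : (T.filter fun y => (QuotientAddGroup.mk y : A ⧸ AddSubgroup.zmultiples g) =
      QuotientAddGroup.mk y0) = (range l).image fun k => y0 + k • g := by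
    ext y
    simp only [mem_filter, mem_image, mem_range]
    constructor
    · rintro ⟨-, h⟩
      rw [eq_comm, QuotientAddGroup.eq, mem_zmultiples_iff_mem_range_addOrderOf, hg] at h
      obtain ⟨k, hk, e⟩ := mem_image.1 h
      exact ⟨k, mem_range.1 hk, by rw [e]; abel⟩
    · rintro ⟨k, -, rfl⟩
      refine ⟨(hk k).1 _ h1, ?_⟩
      rw [eq_comm, QuotientAddGroup.eq]
      simp
  rw [this, sum_image fun a ha b hb e => nsmul_injOn_Iio_addOrderOf (x := g)
    (by simpa [hg] using ha) (by simpa [hg] using hb) (add_left_cancel e)]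
  simp [(hk _).2]

lemma lad_one {A : Type} [AddCommGroup A] [Fintype A] {χ : AddChar A ℂ} {P : ZA A} (l : ℕ)
    (hA : IsAddCyclic A) (hχ : χ ∈ Fa A) (hP : Pq P) (hl : l.Prime) (hd : l ∣ Nat.card A) :
    ∃ F : Finset A, 0 ∉ F ∧ #F ≤ l ^ 2 * om A ∧ ∀ (g x : A) (Z Y : ZA A), l ^ 2 • g = 0 →
      ev χ Z = (1 - χ g) * ev χ Y → (∀ t ∈ F, Z.coeff (x + t) = 0) → (l : ℤ) ∣ Z.coeff x := by
  obtain ⟨g0, P', m, ho, rfl, hs, h0, hm, hb⟩ := hP.fac l hl hd
  set H := univ.filter fun η : A => l ^ 2 • η = 0 with hH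
  refine ⟨((H ×ˢ P'.coeff.support).image fun z => z.1 - z.2).erase 0, notMem_erase _ _,
    card_erase_le.trans (card_image_le.trans ?_), fun g x Z Y hg e hc => ?_⟩
  · rw [card_product]
    exact Nat.mul_le_mul (IsAddCyclic.card_nsmul_eq_zero_le (pow_pos hl.pos 2)) hs
  have h1 := Ac.kp_eq hP.kp hχ (y := Z) (z := (1 - sg g) * Y) (by simpa using e)
  have h2 : ∀ (a : A) (V : ZA A) (y : A), ((1 - sg a) * V).coeff y =
      V.coeff y - V.coeff (y - a) := fun a V y => by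
    rw [sub_mul, one_mul, AddMonoidAlgebra.coeff_sub, Finsupp.sub_apply, coeff_sg_mul]
  have h3 : ∀ y, (P' * Z - (1 - sg g) * (P' * Y)).coeff (x + (y + g0)) =
      (P' * Z - (1 - sg g) * (P' * Y)).coeff (x + y) := fun y => by
    have := h2 g0 (P' * Z - (1 - sg g) * (P' * Y)) (x + (y + g0))
    rw [show (1 - sg g0) * (P' * Z - (1 - sg g) * (P' * Y)) = (0 : ZA A) by
      linear_combination h1, add_sub_assoc, add_sub_cancel_right] at this
    exact (sub_eq_zero.1 this.symm)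
  have h4 := lad_dvd l hl g0 ho H (fun y hy => by
    simp only [hH, mem_filter, mem_univ, true_and] at hy ⊢
    rw [smul_add, hy, sq, mul_nsmul, ← ho, addOrderOf_nsmul_eq_zero, smul_zero, add_zero])
    (fun y => (P' * Z - (1 - sg g) * (P' * Y)).coeff (x + y)) h3
  simp only [AddMonoidAlgebra.coeff_sub, Finsupp.sub_apply, h2, sum_sub_distrib] at h4
  rw [lad_shift _ x g hg, sub_self, sub_zero] at h4
  refine h4.trans (dvd_of_eq ?_)
  simp only [Hy.coeff_mul]
  rw [← sum_product', sum_eq_single (0, 0)]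
  · simp [h0]
  · rintro ⟨η, b⟩ h5 h6
    by_contra h7
    have h8 := left_ne_zero_of_mul h7
    refine right_ne_zero_of_mul h7 (add_sub_assoc x η b ▸ hc _ (mem_erase.2 ⟨fun h9 => h6 ?_,
      mem_image.2 ⟨(η, b), mem_product.2 ⟨(mem_product.1 h5).1, Finsupp.mem_support_iff.2 h8⟩,
        rfl⟩⟩))
    obtain rfl := sub_eq_zero.1 h9
    have h10 : addOrderOf η ∣ Nat.gcd m (l ^ 2) := Nat.dvd_gcd
      (addOrderOf_dvd_of_nsmul_eq_zero (hb η h8))
      (addOrderOf_dvd_of_nsmul_eq_zero (mem_filter.1 (mem_product.1 h5).1).2)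
    rw [hm.pow_right 2, Nat.dvd_one, AddMonoid.addOrderOf_eq_one_iff] at h10
    rw [h10]
  · simp [hH]

theorem p_LAD :
    S_LAD := by
  intro A _ _ χ P hA hχ hP
  choose! F h1 h2 h3 using fun l => lad_one l hA hχ hP
  have hs : ∀ l ∈ ({2, 3, 5} : Finset ℕ).filter (· ∣ Nat.card A), l.Prime ∧ l ≤ 5 := fun l hl => by
    have := (mem_filter.1 hl).1
    simp only [mem_insert, mem_singleton] at this
    rcases this with rfl | rfl | rfl <;> norm_num
  refine ⟨(({2, 3, 5} : Finset ℕ).filter (· ∣ Nat.card A)).biUnion F, ?_, fun h => ?_,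
    fun l hl l5 g x Z Y g0 hg e h => ?_⟩
  · refine (card_biUnion_le_card_mul _ _ (5 ^ 2 * om A) fun l hl => (h2 l (hs l hl).1
      (mem_filter.1 hl).2).trans (by have := (hs l hl).2; gcongr)).trans
        ((Nat.mul_le_mul_right _ ((card_filter_le _ _).trans card_le_three)).trans_eq (by ring))
  · obtain ⟨l, hl, h⟩ := mem_biUnion.1 h
    exact h1 l (hs l hl).1 (mem_filter.1 hl).2 h
  have hd : l ∣ Nat.card A := by
    by_contra hd
    have := Nat.dvd_gcd (addOrderOf_dvd_of_nsmul_eq_zero hg) (addOrderOf_dvd_natCard g)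
    rw [((Nat.Prime.coprime_iff_not_dvd hl).2 hd).pow_left 2, Nat.dvd_one,
      AddMonoid.addOrderOf_eq_one_iff] at this
    exact g0 this
  refine h3 l hl hd g x Z Y hg e fun t ht => h t (mem_biUnion.2 ⟨l, mem_filter.2 ⟨?_, hd⟩, ht⟩)
  have := hl.two_le
  interval_cases l <;> first | decide | exact absurd hl (by decide)

end

section

open Polynomial Finset
open Pool.Agent.P.MP_9344a7_nt.R
open Pool.Agent.P.MP_9344a7_nt.Hy
open Pool.Agent.P.MP_9344a7_nt.Od (GD Kp Fe)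
open Pool.Agent.P.MP_9344a7_nt.Ac (Sb Pm Sp ED CD TD AD Sc Eg Dgs)
open scoped Classical ComplexConjugate

lemma chc1_pu {A A' : Type} [AddCommGroup A] [AddCommGroup A'] [Fintype A'] (j : A' →+ A)
    (N : ZA A') (x : A) (h : ∀ y, j y = x → N.coeff y = 0) : (pu j N).coeff x = 0 := by
  rw [← sum_single N, map_sum]
  simp only [pu_single, AddMonoidAlgebra.coeff_sum, Finsupp.finsetSum_apply,
    AddMonoidAlgebra.coeff_single, Finsupp.single_apply]
  exact sum_eq_zero fun y _ => by split_ifs with e; exacts [h y e, rfl]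

lemma chc1_inj {A : Type} [Fintype A] {f : A → A} (hf : Function.Injective f) {B : Finset A}
    {q y : ℕ} (h : q * #B ≤ y) : q * #{x | f x ∈ B} ≤ y :=
  (Nat.mul_le_mul_left _ (card_le_card_of_injOn f (fun _ h => (mem_filter.1 h).2) hf.injOn)).trans h

lemma chc1_pair {q n c : ℕ} {A : Type} [AddCommGroup A] [Fintype A] {Λ : LD q n A} (h : GD Λ c)
    (b : A) : q * #{a | b ≠ 0 ∧ (Λ.W n).coeff a ≠ 0 ∧ (Λ.W n).coeff (a + b) ≠ 0} ≤ c * q ^ n := by
  rcases eq_or_ne b 0 with rfl | hb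
  · simp
  · simpa [hb] using h.pair le_rfl hb

theorem p_HC1 :
    S_HC1 := by
  intro c n
  refine ⟨12 * c + 3, fun q u A A' _ _ _ _ Λ Λ' χ N Y N' j1 j2 g s F T sc hE hN hN' hL hF hT g0 g9
    n3 hev => ?_⟩
  have im : ∀ j : A' →+ A, q * #(({y | N'.coeff y ≠ 0 ∧ ¬ Pm Λ' n y} : Finset A').image j) ≤
      c * q ^ n := fun j => (Nat.mul_le_mul_left _ card_image_le).trans hN'.few
  have b := Ac.mul_card_biUnion (I := insert 0 F) ((card_insert_le _ _).trans (Nat.succ_le_succ hF))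
    fun t _ => Ac.mul_card_union (Ac.mul_card_union (Ac.mul_card_union
      (chc1_inj (add_left_injective t) (im j1)) (chc1_inj (add_left_injective t) (im j2)))
      (Ac.mul_card_union (chc1_inj (add_left_injective t) hN.few)
      (chc1_inj (f := fun x => s - t - x) sub_right_injective hN.few)))
      (Ac.mul_card_union (chc1_pair hE.gd t) (chc1_pair hE.gd (Λ.ω - s + t)))
  refine sc.tiny (e := 2) (by omega) (le_trans (Nat.mul_le_mul_left _ (card_le_card fun x hx => ?_))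
    (b.trans ?_))
  · obtain ⟨x1, x2, x3, x4⟩ := mem_filter.1 hx
    have x0 := mem_Pi.1 x1
    have w0 : (Λ.W n).coeff x ≠ 0 := x0.1 ▸ one_ne_zero
    by_contra e
    simp only [mem_biUnion, mem_union, mem_filter, mem_univ, true_and, not_exists, not_and,
      not_or, mem_image, not_not] at e
    have pj : ∀ (j : A' →+ A) t, t ∈ insert 0 F → ¬ Cv j (Pi Λ' n) T x →
        (∀ y, (N'.coeff y ≠ 0 ∧ ¬ Pm Λ' n y) → ¬ j y = x + t) → (pu j N').coeff (x + t) = 0 :=
      fun j t ht a d => chc1_pu j N' _ fun y hy => by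
        by_contra e2
        refine d y ⟨e2, fun e3 => a ⟨y, mem_Pi.2 e3, ?_⟩⟩ hy
        rw [hy, add_sub_cancel_left]
        exact hT ht
    have z : ∀ t ∈ insert 0 F, (pu j1 N' + pu j2 N' - N - sg s * br N).coeff (x + t) =
        -N.coeff (x + t) := fun t ht => by
      obtain ⟨⟨⟨e1, e2⟩, -, e4⟩, -, e6⟩ := e t ht
      have a : N.coeff (s - t - x) = 0 := by
        by_contra e7
        have p := e4 e7
        by_cases e8 : Λ.ω - s + t = 0
        · exact x2 (by rwa [show Λ.ω - x = Λ.ω - s + t + (s - t - x) by abel, e8, zero_add])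
        · have e9 := e6 e8 w0
          rw [show x + (Λ.ω - s + t) = Λ.ω - (s - t - x) by abel, hE.sym, p.1] at e9
          exact one_ne_zero e9
      simp only [AddMonoidAlgebra.coeff_sub, AddMonoidAlgebra.coeff_add, Finsupp.sub_apply,
        Finsupp.add_apply, pj j1 t ht x3 e1, pj j2 t ht x4 e2, coeff_sg_mul, coeff_br]
      rw [show -(x + t - s) = s - t - x by abel, a]
      ring
    have d := hL.2 3 Nat.prime_three (by omega) g x _ Y g0 g9 hev fun t ht => by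
      obtain ⟨⟨-, e3, -⟩, e5, -⟩ := e t (mem_insert_of_mem ht)
      rw [z t (mem_insert_of_mem ht), neg_eq_zero]
      by_contra e7
      have e9 := e5 (fun e8 => hL.1 (e8 ▸ ht)) w0
      rw [(e3 e7).1] at e9
      exact one_ne_zero e9
    have z0 := z 0 (mem_insert_self _ _)
    rw [add_zero, hN.pm x x0] at z0
    rw [z0, dvd_neg] at d
    exact n3 (Int.natCast_dvd_natCast.1 d)
  · have a : 12 * c ≤ u := sc.le (by omega)
    have a1 : 1 ≤ u := sc.le (by omega)
    calc _ = (u + 1) * (6 * c) * q ^ n := by rw [Nat.succ_eq_add_one]; ring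
      _ ≤ _ := Nat.mul_le_mul_right _ (by nlinarith)

end

end Pool.Agent.P.MP_9344a7_nt.Cy
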