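import Pool.Agent.P.MP_9344a7_nt.Cy.IfaceH
import Pool.Agent.P.MP_9344a7_nt.Cy.IfaceA

/-! Steps HFIN, ADDH. -/

set_option linter.unusedVariables false
set_option linter.unusedSectionVars false

namespace Pool.Agent.P.MP_9344a7_nt.Cy

section

open Polynomial Finset
open Pool.Agent.P.MP_9344a7_nt.R
open Pool.Agent.P.MP_9344a7_nt.Hy
open Pool.Agent.P.MP_9344a7_nt.Od (GD Kp Fe)
open Pool.Agent.P.MP_9344a7_nt.Ac (Sb Pm Sp ED CD TD AD Sc Eg Dgs)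
open scoped Classical ComplexConjugate

lemma sc_pow_hfin {q u K K' m : ℕ} {A : Type} [AddCommGroup A] [Fintype A] (h : Sc A q u K)
    (m0 : 0 < m) (hK : m * K' ≤ K) (h0 : 0 < K) : Sc A q (u ^ m) K' :=
  ⟨(h.down ((Nat.le_mul_of_pos_left _ m0).trans hK)).lo.trans (Nat.le_self_pow m0.ne' u),
    (pow_mul u m K').symm.trans_le (h.pow h0 hK)⟩

lemma six_hfin {m : ℕ} (h0 : 0 < m) (h6 : m ≤ 6) (h2 : ¬ m ∣ 2 ^ 2) (h3 : ¬ m ∣ 3 ^ 2)
    (h5 : ¬ m ∣ 5 ^ 2) : m = 6 := by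
  interval_cases m <;> simp_all

/-- The windows. -/
lemma win_hfin {A : Type} [AddCommGroup A] (P Ξ Θ : ZA A) (g k1 k2 : A) (F : Finset A) {u : ℕ}
    (u4 : 4 ≤ u) (hP : sz P ≤ u) (hQ : sz (P ^ 2) ≤ u) (hΞ : sz Ξ ≤ u ^ 3) (hΘ : sz Θ ≤ u ^ 2)
    (hF : #F ≤ u) : ∃ T0 L T : Finset A, #T ≤ u ^ 12 ∧ L ⊆ T ∧ insert 0 F ⊆ T ∧
      (∀ t ∈ T0, t ∈ T ∧ t - g ∈ T) ∧
      (∀ x b1 b2 b3 b4, Ξ.coeff x ≠ 0 → (P ^ 2).coeff b1 ≠ 0 → (P ^ 2).coeff b2 ≠ 0 →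
        (P ^ 2).coeff b3 ≠ 0 → (P ^ 2).coeff b4 ≠ 0 → x + (b1 - b2) + (b3 - b4) ∈ T0) ∧
      (∀ t ∈ T0, ∀ b, (P ^ 2).coeff b ≠ 0 → t - b ∈ L ∧ t - g - b ∈ L) ∧
      ∀ t b, Θ.coeff t ≠ 0 → P.coeff b ≠ 0 → t - k2 - b ∈ T ∧ t - k1 - b ∈ T := by
  set S := (P ^ 2).coeff.support
  set D := image₂ (· - ·) S S
  set T0 := image₂ (· + ·) (image₂ (· + ·) Ξ.coeff.support D) D
  set T1 := image₂ (· - ·) T0 {0, g}
  set L := image₂ (· - ·) T1 S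
  set T2 := image₂ (· - ·) (image₂ (· - ·) Θ.coeff.support {k2, k1}) P.coeff.support
  have c1 : #D ≤ u * u := (card_image₂_le _ _ _).trans (Nat.mul_le_mul hQ hQ)
  have c2 : #T0 ≤ u ^ 3 * (u * u) * (u * u) := (card_image₂_le _ _ _).trans
    (Nat.mul_le_mul ((card_image₂_le _ _ _).trans (Nat.mul_le_mul hΞ c1)) c1)
  have c3 : #T1 ≤ u ^ 3 * (u * u) * (u * u) * u := (card_image₂_le _ _ _).trans
    (Nat.mul_le_mul c2 (card_le_two.trans (by omega)))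
  have c4 : #L ≤ u ^ 3 * (u * u) * (u * u) * u * u := (card_image₂_le _ _ _).trans
    (Nat.mul_le_mul c3 hQ)
  have c5 : #T2 ≤ u ^ 2 * u * u := (card_image₂_le _ _ _).trans (Nat.mul_le_mul
    ((card_image₂_le _ _ _).trans (Nat.mul_le_mul hΘ (card_le_two.trans (by omega)))) hP)
  have m1 : ∀ t ∈ T0, t ∈ T1 ∧ t - g ∈ T1 := fun t ht =>
    ⟨sub_zero t ▸ mem_image₂_of_mem ht (by simp), mem_image₂_of_mem ht (by simp)⟩
  refine ⟨T0, L, L ∪ T1 ∪ T2 ∪ insert 0 F, ?_, fun t ht => by simp [ht], subset_union_right,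
    fun t ht => ⟨by simp [m1 t ht], by simp [m1 t ht]⟩, fun x b1 b2 b3 b4 a0 a1 a2 a3 a4 => ?_,
    fun t ht b hb => ?_, fun t b ht hb => ?_⟩
  · have p : ∀ {i j}, i ≤ j → u ^ i ≤ u ^ j := Nat.pow_le_pow_right (by omega)
    have e1 : #L ≤ u ^ 11 := c4.trans ((le_of_eq (by ring)).trans (p (show 9 ≤ 11 by omega)))
    have e2 : #T1 ≤ u ^ 11 := c3.trans ((le_of_eq (by ring)).trans (p (show 8 ≤ 11 by omega)))
    have e3 : #T2 ≤ u ^ 11 := c5.trans ((le_of_eq (by ring)).trans (p (show 4 ≤ 11 by omega)))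
    have e4 : #(insert 0 F) ≤ u ^ 11 :=
      (card_insert_le _ _).trans (le_trans (by nlinarith) (p (show 2 ≤ 11 by omega)))
    have := card_union_le (L ∪ T1 ∪ T2) (insert 0 F)
    have := card_union_le (L ∪ T1) T2
    have := card_union_le L T1
    rw [pow_succ u 11]
    nlinarith
  · rw [← Finsupp.mem_support_iff] at a0 a1 a2 a3 a4
    exact mem_image₂_of_mem (mem_image₂_of_mem a0 (mem_image₂_of_mem a1 a2))
      (mem_image₂_of_mem a3 a4)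
  · rw [← Finsupp.mem_support_iff] at hb
    exact (m1 t ht).imp (mem_image₂_of_mem · hb) (mem_image₂_of_mem · hb)
  · rw [← Finsupp.mem_support_iff] at ht hb
    have : ∀ k ∈ ({k2, k1} : Finset A), t - k - b ∈ L ∪ T1 ∪ T2 ∪ insert 0 F := fun k hk =>
      mem_union_left _ (mem_union_right _ (mem_image₂_of_mem (mem_image₂_of_mem ht hk) hb))
    exact ⟨this _ (by simp), this _ (by simp)⟩

theorem p_HFIN (hFTS : S_FTS) (hTOP : S_TOP) (hHG1 : S_HG1) (hHTW : S_HTW) (hLAD : S_LAD) (hHG3 : S_HG3) (hNWA : S_NWA) (hHC1 : S_HC1) (hHCT : S_HCT) :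
    S_HFIN := by
  intro c n hn
  obtain ⟨M1, h1⟩ := hFTS c n 8 hn
  obtain ⟨K2, h2⟩ := hHG1 c n hn
  obtain ⟨M3, h3⟩ := hHCT c n hn
  obtain ⟨M4, K4, h4⟩ := hHTW c n (3 * M3) hn
  obtain ⟨K5, h5⟩ := hHC1 c n
  refine ⟨M1 + 3 * M3 + 2 * M4 + 8, 12 * (K4 + 3) + (K2 + K5 + M1 + M3 + 75),
    fun q u w A A' _ _ _ _ Λ Λ' χ P z z' N N' F B G G' H1 H2 j1 j2 κ cyc sc uw ed cd xd ns dd ud hs
      ns' sx hz p1 p2 => ?_⟩
  have fa := sx.d1.fa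
  have kp := sx.d1.kp
  have inj := mem_Fa.1 fa
  have u75 : 75 ≤ u := sc.le (by omega)
  have sc' := sc_pow_hfin sc (m := 12) (K' := K4 + 3) (by omega) le_self_add (by omega)
  obtain ⟨F0, f1, f2⟩ := hLAD A χ P cyc fa sx.pq
  have f3 : #F0 ≤ u := f1.trans (sc.om1 (by omega) (by omega))
  set g := Λ.ω - j1 Λ'.ω with hg
  have z2 : ∀ y : ZA A, sz y ≤ u → sz (2 * y ^ 2) ≤ u ^ 2 := fun y hy =>
    (sz_cast 2 _).trans ((sz_pow _ _).trans (Nat.pow_le_pow_left hy 2))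
  obtain ⟨T0, L, T, t1, t2, t3, t4, t5, t6, t7⟩ := win_hfin P (2 * sg g * z ^ 2 - 2 * z' ^ 2)
    (sg (j2 κ) * z + sg (j1 κ) * z') g (j1 κ) (j2 κ) F0 (u := u) (by omega)
    (kp.sz.trans ((one_mul _).symm.trans_le (sc.om1 (by omega) (by omega))))
    ((sz_pow _ _).trans ((Nat.pow_le_pow_left kp.sz 2).trans ((one_mul _).symm.trans_le
      (sc.om (by omega) (by omega)))))
    ((sz_sub _ _).trans (by
      have := z2 z sx.d1.szc
      have := z2 z' sx.d2.szc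
      have := sz_sg_mul g (2 * z ^ 2)
      rw [mul_comm 2 (sg g), mul_assoc]
      nlinarith))
    ((sz_add _ _).trans (by
      have := (sz_sg_mul (j2 κ) z).trans sx.d1.szc
      have := (sz_sg_mul (j1 κ) z').trans sx.d2.szc
      nlinarith)) f3
  refine ⟨T, t1, fun ⟨r1, a1, B1, b1, c1⟩ ⟨r2, a2, B2, b2, c2⟩ => ?_⟩
  replace a1 := (Nat.mul_le_mul_right _ le_add_self).trans a1
  replace a2 := (Nat.mul_le_mul_right _ le_add_self).trans a2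
  obtain ⟨-, top⟩ := hTOP n A χ P z z' G G' Λ.W H1 (Ej Λ' j1) H2 (Ej Λ' j2) Λ.ω (j1 Λ'.ω) (j2 Λ'.ω)
    (by omega) fa kp sx.sum hz r1
  obtain ⟨o1, o2, o3, o4⟩ := top r2 sx.d1.pr p1.pd.pr p2.pd.pr
  rw [← hg] at o1 o3 o4
  have g0 : g ≠ 0 := sub_ne_zero.2 o2
  have e1 := congrArg (ev χ) (h2 q u w A Λ χ P z z' G G' H1 (Ej Λ' j1) H2 (Ej Λ' j2) _ _ (j1 κ)
    (j2 κ) T (sc.down (by omega)) uw ed sx.d1 sx.d2 p1.pd.pr p2.pd.pr p1.hk p2.hk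
    (h1 q A Λ (sc.leq (by omega) (by omega)) ed (cd.up le_rfl (by omega))).1 a1 a2 t7)
  have e2 : j2 κ - j1 κ = g := by
    rw [map_add, map_mul, map_mul, ev_sg, ev_sg, map_zero] at e1
    unfold Ur at r1
    rw [← sx.sum, map_add, add_sub_cancel_left] at r1
    rw [hg, sub_eq_sub_iff_add_eq_add]
    apply inj
    rw [AddChar.map_add_eq_mul, AddChar.map_add_eq_mul]
    apply mul_right_cancel₀ hz
    linear_combination χ (j1 Λ'.ω) * e1 - χ (j1 κ) * r1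
  have e3 : n • g = 2 • g := by
    calc n • g = j2 Λ'.ω - j1 Λ'.ω := by rw [← e2, hs.om, map_nsmul, map_nsmul, nsmul_sub]
      _ = 2 • g := by rw [two_nsmul]; nth_rewrite 1 [← o1]; rw [hg]; abel
  have hB : 2 * M4 * #(B1 ∪ B2) ≤ q ^ n + q ^ n := Ac.mul_card_union
    ((Nat.mul_le_mul_right _ (by omega)).trans b1) ((Nat.mul_le_mul_right _ (by omega)).trans b2)
  obtain ⟨d1, d2⟩ := h4 q (u ^ 12) A A' Λ Λ' χ P _ j1 j2 g T0 L (B1 ∪ B2) (sc'.down le_self_add) ed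
    (cd.up le_rfl (by omega)) (xd.down (by omega)) dd p1.pd.ker p2.pd.ker fa kp
    ((card_le_card t2).trans t1) o3 t5 t6 (by linarith) fun e he hb t ht => by
      rw [mem_union, not_or] at hb
      rw [o4, AddMonoidAlgebra.coeff_sub, Finsupp.sub_apply, coeff_sg_mul, add_sub_assoc,
        (c1 e he hb.1).1 _ (t4 t ht).2, (c2 e he hb.2).1 _ (t4 t ht).1, ← coeff_sg_mul,
        ← Finsupp.sub_apply, ← AddMonoidAlgebra.coeff_sub]
      congr 2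
      ring
  have small : ∀ l : ℕ, l.Prime → l ≤ 5 → ¬ addOrderOf g ∣ l ^ 2 := fun l l1 l2 l3 => g0 (e2 ▸
    hHG3 q n u l A Λ χ G G' H1 (Ej Λ' j1) H2 (Ej Λ' j2) _ _ (j1 κ) (j2 κ) F0 T (by omega)
      (le_trans (by nlinarith) (sc.pow (e := 2) (by omega) (by omega))) ed.nh f2 f3 t3 sx.d1.pr
      p1.pd.pr p2.pd.pr p1.hk p2.hk a1 a2 l1 l2 (e2 ▸ addOrderOf_dvd_iff_nsmul_eq_zero.1 l3))
  have o6 : addOrderOf g = 6 := six_hfin (addOrderOf_pos g) d1 (small 2 Nat.prime_two (by omega))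
    (small 3 Nat.prime_three (by omega)) (small 5 Nat.prime_five le_rfl)
  obtain ⟨B3, b3, c3⟩ := d2 o6
  obtain ⟨Y, hY⟩ := hNWA q n c A A' Λ Λ' χ N N' G G' H1 H2 j1 j2 κ u (by omega) ns ns' sx.d1.pr p1 p2
  rw [e2, e3] at hY
  have n6 : n ≡ 2 [MOD 6] := o6 ▸ nsmul_eq_nsmul_iff_modEq.1 e3
  have hC := h5 q u A A' Λ Λ' χ N Y N' j1 j2 (2 • g) _ F0 T (sc.down (by omega)) ed ns ns' f2 f3 t3
    (fun h => by simpa [o6] using addOrderOf_dvd_iff_nsmul_eq_zero.2 h)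
    (by rw [← mul_nsmul']; exact addOrderOf_dvd_iff_nsmul_eq_zero.1 (by rw [o6]; norm_num))
    (by unfold Nat.ModEq at n6; omega) hY
  have hB' : 3 * M3 * #(B1 ∪ B2 ∪ B3) ≤ q ^ n + q ^ n + q ^ n := Ac.mul_card_union
    (Ac.mul_card_union ((Nat.mul_le_mul_right _ (by omega)).trans b1)
      ((Nat.mul_le_mul_right _ (by omega)).trans b2)) b3
  have uM : M3 ≤ u := sc.le (by omega)
  refine h3 q (u ^ 12) A A' Λ Λ' j1 j2 κ T (B1 ∪ B2 ∪ B3) (uM.trans (Nat.le_self_pow (by omega) u))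
    (sc'.pow (by omega) le_add_self) ed (cd.up le_rfl (by omega)) (xd.down (by omega))
    (ud.down (by omega)) hs t1 (by linarith) (fun e he hb => ?_)
    ((Nat.mul_le_mul_right _ uM).trans hC)
  simp only [mem_union, not_or] at hb
  have cov : ∀ {j : A' →+ A}, ¬ Fr (Ej Λ' j n) (e.1 + e.2) L → (∀ y, j y - (e.1 + e.2) ∈ T →
      (Λ'.W n).coeff y ≠ 0 → Pm Λ' n y) → Cv j (Pi Λ' n) T (e.1 + e.2) := fun h h' => by
    simp only [Fr, not_forall] at h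
    obtain ⟨t, ht, h⟩ := h
    obtain ⟨y, y1, y2⟩ := Ej_ne.1 h
    have y3 := t2 ht
    rw [← add_sub_cancel_left (e.1 + e.2) t, ← y1] at y3
    exact ⟨y, mem_Pi.2 (h' y y3 y2), y3⟩
  exact ⟨cov (c3 e he hb.2).1 (c1 e he hb.1.1).2, cov (c3 e he hb.2).2 (c2 e he hb.1.2).2⟩

end

section

open Polynomial Finset
open Pool.Agent.P.MP_9344a7_nt.R
open Pool.Agent.P.MP_9344a7_nt.Hy
open Pool.Agent.P.MP_9344a7_nt.Od (GD Kp Fe)
open Pool.Agent.P.MP_9344a7_nt.Ac (Sb Pm Sp ED CD TD AD Sc Eg Dgs)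
open scoped Classical ComplexConjugate

lemma caddh_down {q n u w a K K' : ℕ} {A : Type} [AddCommGroup A] [Fintype A] {Λ : LD q n A}
    (h : Sl Λ u w a K) (hK : K' ≤ K) (h0 : 0 < K) : Sl Λ u w a K' :=
  have hw : w ^ K' ≤ w ^ K := Nat.pow_le_pow_right ((h.pos h0).trans_le (h.uw h0)) hK
  ⟨(h.sc.down hK).lo, (Nat.pow_le_pow_right (h.pos h0) hK).trans h.mid, hw.trans h.hi,
    fun s a b => h.td s a (b.trans hw)⟩

theorem p_ADDH (hSPF : S_SPF) (hGENL : S_GENL) (hPTH : S_PTH) (hFNC : S_FNC) (hHPART : S_HPART) (hTOP : S_TOP) (hHFIN : S_HFIN) :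
    S_ADDH := by
  intro c n a C0 hn
  obtain ⟨M1, K1, H1⟩ := hSPF c n a C0 hn
  obtain ⟨M2, H2⟩ := hGENL c n hn
  obtain ⟨M3, K3, H3⟩ := hPTH c n (M2 + C0) hn
  obtain ⟨M5, K5, H5⟩ := hHFIN c n hn
  obtain ⟨M4, K4, H4⟩ := hHPART c n a (M2 + C0 + M5) hn
  refine ⟨M1 + M2 + M3 + M4 + M5, K1 + M2 + K3 + 2 * n * 12 * (K4 + 1) + 2 * n * (K5 + 1) + 1,
    fun q u w A A' _ _ _ _ Λ Λ' N N' κ big sl ed cd xd ns dd ud hs ns' hS eP => ?_⟩
  have sc := sl.sc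
  have q0 : 0 < q := sc.leq (x := 1) (by omega) (by omega)
  have u0 := sl.pos (by omega)
  rcases H1 q u w A A' Λ Λ' big (caddh_down sl (by omega) (by omega)) ed (cd.up le_rfl (by omega))
    dd.gd hS eP with h | ⟨χ, P, F, B, G, G', z, z', sx, hz⟩
  · exact h
  have gn : Gn Λ (M2 + C0) := (H2 q A Λ (sc.leq (by omega) (by omega)) ed (cd.up le_rfl (by omega))
    (xd.down (by omega))).up (by omega)
  have fn : ∀ j, Rel Λ Λ' j (M2 + C0 + M5) → Fn Λ Λ' C0 := fun j h => by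
    obtain ⟨θ, t, h⟩ := hFNC q n _ A A' Λ Λ' j gn (card_eq q0 (by omega) eP) (h.down (by omega))
    exact ⟨θ, t, (Nat.mul_le_mul_right _ (by omega)).trans h⟩
  have pt := fun z z' F B G G' sx hz => H3 q u w A A' Λ Λ' χ P z z' F B G G' κ big
    (sc.down (by omega)) (caddh_down (K' := K3) sl (by omega) (by omega)).mid ed
    (cd.up le_rfl (by omega)) gn dd.gd hs sx hz eP
  have s1 := sl.pow (m := 2 * n) (K' := K5 + 1) (by omega) (by omega) (by omega)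
  have s2 := sl.pow (m := 2 * n * 12) (K' := K4 + 1) (by omega) (by omega) (by omega)
  have e1 : u ≤ u ^ (2 * n) := Nat.le_self_pow (by omega) u
  have e2 : u ^ (2 * n) ≤ u ^ (2 * n * 12) := Nat.pow_le_pow_right u0 (by omega)
  have pa := fun z G G' H j T (fd : Fd Λ χ P G G' z u w) (ph : Ph Λ' j χ G H κ (u ^ (2 * n))) =>
    H4 q _ w A A' Λ Λ' χ P z G G' H j κ T (caddh_down s2 (by omega) (by omega)) ed
      (cd.up le_rfl (by omega)) (xd.down (by omega)) dd (ud.down (by omega)) hs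
      (fd.up (e1.trans e2) le_rfl) (ph.up e2)
  obtain ⟨j1, Y1, p1⟩ := pt z z' F B G G' sx hz
  by_cases hz' : ev χ z' = 0
  · exact (pa z G G' Y1 j1 ∅ sx.d1 p1 hz (Nat.zero_le _)).elim (fn j1) fun h => absurd hz'
      (hTOP n A χ P z z' G G G G G G G _ _ 0 (by omega) sx.d1.fa sx.d1.kp sx.sum hz h.1).1
  obtain ⟨j2, Y2, p2⟩ := pt z' z B F G' G sx.symm hz'
  obtain ⟨T, t1, t2⟩ := H5 q _ w A A' Λ Λ' χ P z z' N N' F B G G' Y1 Y2 j1 j2 κ big.cyc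
    (s1.sc.down (by omega)) (s1.uw (by omega)) ed (cd.up le_rfl (by omega)) (xd.down (by omega)) ns
    dd (ud.down (by omega)) hs ns' (sx.up e1) hz p1 p2
  rw [← pow_mul] at t1
  exact (pa z G G' Y1 j1 T sx.d1 p1 hz t1).elim (fn j1) fun h1 =>
    (pa z' G' G Y2 j2 T sx.d2 p2 hz' t1).elim (fn j2) fun h2 =>
      (t2 (h1.down (by omega)) (h2.down (by omega))).elim

end

end Pool.Agent.P.MP_9344a7_nt.Cy
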