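import Pool.Agent.P.MP_9344a7_nt.Cy.IfaceH
import Pool.Agent.P.MP_9344a7_nt.Cy.IfaceA

/-! Steps PARX, PTH, STH. -/

set_option linter.unusedVariables false
set_option linter.unusedSectionVars false

namespace Pool.Agent.P.MP_9344a7_nt.Cy

section

open Polynomial Finset
open Pool.Agent.P.MP_9344a7_nt.R
open Pool.Agent.P.MP_9344a7_nt.Hy
open Pool.Agent.P.MP_9344a7_nt.Od (GD Kp Fe)
open Pool.Agent.P.MP_9344a7_nt.Ac (Sb Pm Sp ED CD TD AD Sc Eg Dgs)
open scoped Classical ComplexConjugate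

theorem p_PARX :
    S_PARX := by
  intro q n u A _ _ χ P G H W w hq hn hP hχ h g1 g2
  have p1 := hP.sz
  have cv := Od.opar_conv P W G H n fun k hk => Ac.kp_eq hP hχ (by
    rw [h.cv k hk, map_sum]
    exact sum_congr rfl fun i _ => by rw [map_mul])
  have w0 : P * W 0 = P * 1 := Ac.kp_eq hP hχ (by simp [h.cv 0 hn.le, h.g0, h.h0])
  generalize om A = R at *
  have sq : ∀ m, ∃ z v, m < n → ∑ i ∈ range (m + 1 + 1), G i * G (m + 1 - i) = 2 * z + v ∧
      sz v ≤ u * q ^ m := fun m => by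
    obtain ⟨z, v, e, rfl | ⟨i, a, rfl⟩⟩ := Od.opar_mid (m + 1) G
    · exact ⟨z, 0, fun _ => ⟨e, by simp [sz]⟩⟩
    · obtain ⟨w, hw⟩ := Od.opar_sq (G i)
      exact ⟨z + w, _, fun hm => ⟨by rw [e, hw]; ring, (sz_pu _ _).trans ((g1 i (by omega)).trans
        (Nat.mul_le_mul_left _ (Nat.pow_le_pow_right (by omega) (by omega))))⟩⟩
  choose z v e using sq
  let V := ∑ j ∈ range n, P * H j * v (n - j - 1)
  refine ⟨V.coeff.support, ?_, fun y hy => ?_⟩
  · refine (Nat.mul_le_mul_left _ (sz_sum _ _)).trans ?_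
    rw [mul_sum]
    refine (sum_le_card_nsmul _ _ (R * u * u * q ^ n) fun j hj => ?_).trans_eq
      (by rw [card_range, smul_eq_mul]; ring)
    have j1 := mem_range.1 hj
    refine (Nat.mul_le_mul_left _ ((sz_mul _ _).trans (Nat.mul_le_mul ((sz_mul _ _).trans
      (Nat.mul_le_mul p1 (g2 j j1.le))) (e _ (by omega)).2))).trans_eq ?_
    obtain ⟨m, rfl⟩ : ∃ m, n = j + m + 1 := ⟨n - j - 1, by omega⟩
    rw [show j + m + 1 - j - 1 = m by omega]
    ring
  have c3 : ∑ j ∈ range n, P * H j * ∑ i ∈ range (n - j + 1), G i * G (n - j - i) =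
      2 • ∑ j ∈ range n, P * H j * z (n - j - 1) + V := by
    rw [two_nsmul, ← sum_add_distrib, ← sum_add_distrib]
    refine sum_congr rfl fun j hj => ?_
    have := (e (n - j - 1) (by omega)).1
    rw [show n - j - 1 + 1 = n - j by have := mem_range.1 hj; omega] at this
    rw [this]
    ring
  have c4 : ∑ k ∈ range n, P * G k * W (n - k) =
      P * W n + ∑ k ∈ Ioo 0 n, W (n - k) * (P * G k) := by
    rw [range_eq_Ico, ← Ioo_insert_left hn, sum_insert (by simp), h.g0, mul_one, Nat.sub_zero]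
    exact congrArg _ (sum_congr rfl fun k _ => mul_comm _ _)
  rw [sum_range_succ, sum_range_succ, c3, c4, Nat.sub_self, mul_right_comm P (G n), w0,
    sum_range_one, h.g0] at cv
  simp only [mul_one] at cv
  have z1 := congrArg (fun x : ZA A => x.coeff y) cv
  simp only [two_nsmul, AddMonoidAlgebra.coeff_add, Finsupp.add_apply,
    Finsupp.notMem_support_iff.1 hy] at z1
  exact ⟨(∑ j ∈ range n, P * H j * z (n - j - 1)).coeff y + (P * H n).coeff y, by omega⟩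

end

section

open Polynomial Finset
open Pool.Agent.P.MP_9344a7_nt.R
open Pool.Agent.P.MP_9344a7_nt.Hy
open Pool.Agent.P.MP_9344a7_nt.Od (GD Kp Fe)
open Pool.Agent.P.MP_9344a7_nt.Ac (Sb Pm Sp ED CD TD AD Sc Eg Dgs)
open scoped Classical ComplexConjugate

theorem p_PTH (hPTX : S_PTX) (hTWD : S_TWD) (hHSF : S_HSF) :
    S_PTH := by
  intro c n E hn
  obtain ⟨M, K1, h1⟩ := hPTX c n E hn
  obtain ⟨K2, h2⟩ := hHSF c n (by omega)
  refine ⟨M, K1 + 2 * n * K2 + K2 + 1, ?_⟩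
  intro q u w A A' _ _ _ _ Λ Λ' χ P z z' F B G G' κ hb hs hw he hc hg hd hh hx hz hp
  have k0 : 0 < K1 + 2 * n * K2 + K2 + 1 := by omega
  have u0 := hs.pos k0
  have uu : u ≤ u ^ (2 * n) := Nat.le_self_pow (by omega) u
  obtain ⟨j, H, B', a1, a2, a3, a4⟩ := h1 q u w A A' Λ Λ' χ P z z' F B G G' hb (hs.down (by omega))
    ((Nat.pow_le_pow_right u0 (by omega)).trans hw) he hc hg hd hx hz hp
  refine ⟨j, H, a1, ?_, a2⟩
  refine (hTWD q n A A' Λ Λ' χ F B' G H j κ (u0.trans_le (hs.uq k0)) (by omega) hx.dg hx.d1.fa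
    hx.p1 hh a2 a3 a4).resolve_left fun h => ?_
  refine h2 q (u ^ (2 * n)) A A' Λ' χ P G H j ⟨(hs.down (by omega)).lo.trans uu,
    (pow_mul u (2 * n) K2).symm.trans_le (hs.pow k0 (by omega))⟩ hd hx.d1.fa hx.d1.kp
    (hx.d1.sz.up uu) a1 ?_
  have e := a1.pr.sy 0 (Nat.zero_le n)
  rw [a1.pr.g0, a1.pr.h0, map_one, one_mul, mul_one, Nat.sub_zero, hh.om, map_nsmul] at e
  have e' := h n le_rfl
  rw [map_mul, ev_br, ev_sg] at e'
  exact e.trans e'.symm

end

section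

open Polynomial Finset
open Pool.Agent.P.MP_9344a7_nt.R
open Pool.Agent.P.MP_9344a7_nt.Hy
open Pool.Agent.P.MP_9344a7_nt.Od (GD Kp Fe)
open Pool.Agent.P.MP_9344a7_nt.Ac (Sb Pm Sp ED CD TD AD Sc Eg Dgs)
open scoped Classical ComplexConjugate

/-- A window that contains the supports for all choices of labels. -/
lemma csth_win {A : Type} [AddCommGroup A] {P z : ZA A} {u : ℕ} (hP : sz P ≤ u) (hz : sz z ≤ u)
    (h8 : 8 ≤ u) {L : Finset A} (hL : #L ≤ u) (ω ω' : A) : ∃ T : Finset A, #T ≤ u ^ 5 ∧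
      ∀ ε η, Sgl ε L → Sgl η L → ∀ t ∉ T,
        (sg ω' * (P * z - z ^ 2) + sg ω * ((P * ε - z) * (P * η - z))).coeff t = 0 := by
  set Y : Finset (ZA A) := insert 0 (L.image sg)
  have y1 : ∀ ε, Sgl ε L → ε ∈ Y := by
    rintro ε (rfl | ⟨t, ht, rfl⟩)
    exacts [mem_insert_self _ _, mem_insert_of_mem (mem_image_of_mem _ ht)]
  have y2 : ∀ ε ∈ Y, sz (P * ε - z) ≤ u + u := fun ε h => by
    refine (sz_sub _ _).trans (add_le_add ?_ hz)
    rcases mem_insert.1 h with rfl | h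
    · simp [sz]
    · obtain ⟨t, -, rfl⟩ := mem_image.1 h
      exact mul_comm P _ ▸ (sz_sg_mul _ _).trans hP
  have y3 : #Y ≤ u + 1 := (card_insert_le _ _).trans (Nat.succ_le_succ (card_image_le.trans hL))
  refine ⟨(Y ×ˢ Y).biUnion fun x => (sg ω' * (P * z - z ^ 2) +
    sg ω * ((P * x.1 - z) * (P * x.2 - z))).coeff.support, ?_, fun ε η a b t ht => ?_⟩
  · refine (card_biUnion_le_card_mul _ _ (u * u + u ^ 2 + (u + u) * (u + u)) fun x hx => ?_).trans ?_
    · exact (sz_add _ _).trans (add_le_add ((sz_sg_mul _ _).trans ((sz_sub _ _).trans (add_le_add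
        ((sz_mul _ _).trans (Nat.mul_le_mul hP hz)) ((sz_pow _ _).trans (Nat.pow_le_pow_left hz 2)))))
        ((sz_sg_mul _ _).trans ((sz_mul _ _).trans (Nat.mul_le_mul (y2 _ (mem_product.1 hx).1)
          (y2 _ (mem_product.1 hx).2)))))
    · rw [card_product]
      calc _ ≤ (u + 1) * (u + 1) * _ := Nat.mul_le_mul_right _ (Nat.mul_le_mul y3 y3)
        _ = 6 * ((u + 1) * (u + 1)) * u ^ 2 := by ring
        _ ≤ u * (u * u) * u ^ 2 := Nat.mul_le_mul_right _ (by nlinarith [Nat.mul_le_mul_right (u * u) h8])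
        _ = _ := by ring
  · by_contra e
    exact ht (mem_biUnion.2 ⟨(ε, η), mem_product.2 ⟨y1 ε a, y1 η b⟩, Finsupp.mem_support_iff.2 e⟩)

theorem p_STH (hFTS : S_FTS) (hIDH : S_IDH) :
    S_STH := by
  intro c n a E hn
  obtain ⟨M, hM⟩ := hFTS c n (2 * E) hn
  obtain ⟨K0, h0⟩ := hIDH c n a (4 * a + 2) hn
  refine ⟨5 * (4 * a + 2), M, 5 * (K0 + 4) + (2 * E + c + 8 + M), by omega, ?_⟩
  intro q u w A A' _ _ _ _ Λ Λ' χ P z G G' H j κ L hS hE hC hG hs hF hP hL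
  have sc := hS.sc
  have h8 : 8 ≤ u := sc.le (by omega)
  have up : u ≤ u ^ 5 := Nat.le_self_pow (by omega) u
  have eo : j Λ'.ω = n • j κ := by rw [hs.om, map_nsmul]
  obtain ⟨T, t1, t2⟩ := csth_win (hF.kp.sz.trans (by simpa using sc.om1 (x := 1) (by omega) (by omega)))
    hF.szc h8 hL Λ.ω (n • j κ)
  obtain ⟨L1, a1, a2⟩ := h0 q (u ^ 5) w A Λ χ P z G G' H (Ej Λ' j) (j κ) T
    (((hS.pow (K' := K0 + 4) (by omega) le_self_add (by omega)).lv (by omega)).down (by omega)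
      (by omega)) hE (hF.up up le_rfl) (eo ▸ hP.pd.pr) hP.hk (hP.pd.sz.up up)
    ((sz_Ej hG j).up ((sc.le (by omega)).trans up)) t1
  have t4 : #(L ∪ L1) ≤ (u ^ 5) ^ (4 * a + 2) := by
    have := Nat.le_self_pow (n := 4 * a + 1) (by omega) (u ^ 5)
    have := card_union_le L L1
    calc _ ≤ 2 * (u ^ 5) ^ (4 * a + 1) := by omega
      _ ≤ u ^ 5 * (u ^ 5) ^ (4 * a + 1) := Nat.mul_le_mul_right _ (by omega)
      _ = _ := by ring
  obtain ⟨B, b1, b2⟩ := a2 _ subset_union_right t4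
  obtain ⟨-, -, f⟩ := hM q A Λ (sc.leq (by omega) (by omega)) hE hC
  refine ⟨L ∪ L1, subset_union_left, (pow_mul u 5 _).symm ▸ t4,
    B ∪ {e ∈ Es Λ | ¬ (e.1 ∈ S0 Λ ∧ e.2 ∈ V0 Λ)}, ?_, fun x hx hB s1 s2 => ?_⟩
  · have := Ac.mul_card_union
      ((Nat.mul_le_mul_right _ ((sc.le (x := 2 * E) (by omega)).trans up)).trans b1) f
    rw [mul_assoc] at this
    omega
  · simp only [mem_union, mem_filter, not_or, hx, true_and, not_not] at hB
    have e := congrArg (ev χ) (za_eq (z := 0) fun t => (em (t ∈ T)).elim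
      (b2 x hx hB.1 hB.2.1 hB.2.2 t) (t2 _ _ s1 s2 t))
    simp only [map_add, map_mul, map_sub, map_pow, ev_sg, map_zero] at e
    rw [eo]
    linear_combination e

end

end Pool.Agent.P.MP_9344a7_nt.Cy
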