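import Pool.Agent.P.MP_9344a7_nt.Cy.IfaceH
import Pool.Agent.P.MP_9344a7_nt.Cy.IfaceA

/-! Steps TWD, LUH, HRR, HG1. -/

set_option linter.unusedVariables false
set_option linter.unusedSectionVars false

namespace Pool.Agent.P.MP_9344a7_nt.Cy

section

open Polynomial Finset
open Pool.Agent.P.MP_9344a7_nt.R
open Pool.Agent.P.MP_9344a7_nt.Hy
open Pool.Agent.P.MP_9344a7_nt.Od (GD Kp Fe)
open Pool.Agent.P.MP_9344a7_nt.Ac (Sb Pm Sp ED CD TD AD Sc Eg Dgs)
open scoped Classical ComplexConjugate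

lemma ctwd_mul (k : ℂ) (M N : ℂ[X]) : tw k (M * N) = tw k M * tw k N := by
  rw [tw, tw, tw, Polynomial.map_mul, mul_comp]

lemma ctwd_fe {q n : ℕ} {F : ℂ[X]} {l : ℂ} (h1 : conj l * l = 1) (hF : Fe q n F) :
    Fe q n (tw l F) := by
  have l0 : l ≠ 0 := right_ne_zero_of_mul (h1.trans_ne one_ne_zero)
  refine ⟨by simp [coeff_tw, hF.c0], natDegree_eq_of_le_of_coeff_ne_zero
    (natDegree_le_iff_coeff_eq_zero.2 fun k hk => ?_) fun e => ?_, fun i j hij => ?_⟩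
  · rw [coeff_tw, coeff_eq_zero_of_natDegree_lt (hF.deg.trans_lt hk), map_zero, zero_mul]
  · rw [coeff_tw, mul_eq_zero, or_iff_left (pow_ne_zero _ l0), map_eq_zero, ← hF.deg,
      coeff_natDegree, leadingCoeff_eq_zero] at e
    simpa [e] using hF.c0
  · have h2 := congrArg conj (hF.eq i j hij)
    have h3 : conj l ^ j * l ^ j = 1 := by rw [← mul_pow, h1, one_pow]
    have h4 : l ^ n = l ^ i * l ^ j := by rw [← hij, pow_add]
    simp only [coeff_tw, map_mul, map_pow, map_natCast, Complex.conj_conj] at h2 ⊢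
    rw [h4]
    linear_combination l ^ i * h2 - conj (F.coeff n) * l ^ i * F.coeff j * h3

lemma ctwd_fix {q n : ℕ} {A : Type} [AddCommGroup A] [Fintype A] (Λ : LD q n A) {κ : A}
    (hq : 0 < q) (hs : Hs Λ κ) {ψ : AddChar A ℂ} (h0 : ψ ≠ 0) (h1 : conj (ψ κ) * ψ κ = 1) :
    tw (ψ κ) (Λ.L ψ) = Λ.L ψ := by
  have s1 : ∀ k ≤ n, ev ψ (Λ.W k) = conj (ev ψ (Λ.W k)) * ψ κ ^ k := fun k hk => by
    rw [ev_eq, map_sum, sum_mul, ← Equiv.sum_comp (Equiv.subLeft (k • κ))]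
    refine sum_congr rfl fun b _ => ?_
    rw [Equiv.subLeft_apply, hs.sym k hk, sub_eq_add_neg, AddChar.map_add_eq_mul,
      AddChar.map_nsmul_eq_pow, AddChar.map_neg_eq_conj, map_mul, map_intCast]
    ring
  ext k
  rw [coeff_tw]
  rcases le_or_gt k n with hk | hk
  · rw [Λ.coeff_L ψ (by omega)]
    exact (s1 k hk).symm
  rcases le_or_gt k (2 * n) with hk' | hk'
  · obtain ⟨i, hi, rfl⟩ : ∃ i ≤ n, k = 2 * n - i := ⟨2 * n - k, by omega, by omega⟩
    have h2 : ψ κ ^ (2 * n - i) * ψ κ ^ i = ψ κ ^ n * ψ κ ^ n := by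
      rw [← pow_add, ← pow_add]; congr 1; omega
    have h3 : conj (ψ κ) ^ n * ψ κ ^ n = 1 := by rw [← mul_pow, h1, one_pow]
    rw [Λ.coeff_L ψ hk', Λ.fe ψ h0 i hi, hs.om, AddChar.map_nsmul_eq_pow]
    simp only [map_mul, map_pow, map_natCast, Complex.conj_conj]
    linear_combination ((q : ℂ) ^ (n - i) * conj (ψ κ) ^ n * ψ κ ^ (2 * n - i)) * s1 i hi +
      ((q : ℂ) ^ (n - i) * conj (ψ κ) ^ n * conj (ev ψ (Λ.W i))) * h2 +
      ((q : ℂ) ^ (n - i) * conj (ev ψ (Λ.W i)) * ψ κ ^ n) * h3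
  · rw [coeff_eq_zero_of_natDegree_lt ((Hy.a_LB q n A Λ hq ψ h0).2.1.trans_lt hk'), map_zero,
      zero_mul]

theorem p_TWD :
    S_TWD := by
  intro q n A A' _ _ _ _ Λ Λ' χ F B' G H j κ hq hn hD hχ hF hs h0 hE hH
  have h1 : conj (χ (j κ)) * χ (j κ) = 1 := by
    rw [← AddChar.map_neg_eq_conj, ← AddChar.map_add_eq_mul, neg_add_cancel, AddChar.map_zero_eq_one]
  have h2 : tw (χ (j κ)) (F * B') = F * B' := hE ▸ ctwd_fix Λ' hq hs h0 h1
  obtain ⟨e0, ed, -⟩ := Hy.a_LB q n A' Λ' hq _ h0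
  rw [hE] at e0 ed
  have fe := ctwd_fe h1 hF.fe
  have hv : ∀ i, ev χ (sg (i • j κ) * br (G i)) = (tw (χ (j κ)) F).coeff i := fun i => by
    rw [map_mul, ev_sg, ev_br, hF.ev, coeff_tw, AddChar.map_nsmul_eq_pow, mul_comm]
  have f0 : F ≠ 0 := fun e => by simpa [e] using hF.fe.c0
  have g0 : tw (χ (j κ)) F ≠ 0 := fun e => by simpa [e] using fe.c0
  by_cases co : IsCoprime F (tw (χ (j κ)) F)
  · have h3 : F * tw (χ (j κ)) F = F * B' := eq_of_dvd
      (co.mul_dvd (dvd_mul_right _ _) ⟨_, h2.symm.trans (ctwd_mul _ _ _)⟩)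
      (by rw [mul_coeff_zero, hF.fe.c0, fe.c0, one_mul]) e0
      (by rw [ed, natDegree_mul f0 g0, hF.fe.deg, fe.deg, two_mul])
    exact Or.inr fun i hi => by rw [hH i hi, hv, mul_left_cancel₀ f0 h3]
  · rw [isCoprime_iff_aeval_ne_zero_of_isAlgClosed ℂ ℂ] at co
    push Not at co
    obtain ⟨α, a1, a2⟩ := co
    rw [coe_aeval_eq_eval] at a1 a2
    have h3 := eq_of_dvd (Ac.a_MSF.2 q n A Λ hq hn hD χ hχ F _ α
      (zc_iff.2 fun i => ⟨G i, hF.ev i⟩) hF.fe hF.dv (zc_iff.2 fun i => ⟨_, hv i⟩)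
      (Ac.a_MSF.1 q n _ hq fe) a1 a2) hF.fe.c0 fe.c0 (fe.deg.trans hF.fe.deg.symm).le
    exact Or.inl fun i _ => by rw [hv, ← h3, hF.ev]

end

section

open Polynomial Finset
open Pool.Agent.P.MP_9344a7_nt.R
open Pool.Agent.P.MP_9344a7_nt.Hy
open Pool.Agent.P.MP_9344a7_nt.Od (GD Kp Fe)
open Pool.Agent.P.MP_9344a7_nt.Ac (Sb Pm Sp ED CD TD AD Sc Eg Dgs)
open scoped Classical ComplexConjugate

lemma cluh_inj {A : Type} [AddCommGroup A] [Fintype A] {χ : AddChar A ℂ} (hχ : χ ∈ Fa A)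
    {y y' : ZA A} {L L' : Finset A} (h : Sgl y L) (h' : Sgl y' L') (e : ev χ y = ev χ y') :
    y = y' := by
  rcases h with rfl | ⟨t, -, rfl⟩ <;> rcases h' with rfl | ⟨t', -, rfl⟩
  · rfl
  · rw [map_zero, ev_sg] at e
    exact absurd e.symm (χ.val_isUnit t').ne_zero
  · rw [map_zero, ev_sg] at e
    exact absurd e (χ.val_isUnit t).ne_zero
  · rw [ev_sg, ev_sg] at e
    rw [mem_Fa.1 hχ e]

lemma cluh_swap {α β : Type} {S : Finset α} {V : Finset β} {G : Finset (α × β)} {a b : ℕ}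
    (h : Mg S V G a b) : Mg V S (G.image Prod.swap) b a := fun U hU U' hU' h1 h2 => by
  obtain ⟨e, he, h3, h4⟩ := h U' hU' U hU h2 h1
  exact ⟨e.swap, mem_image_of_mem _ he, h4, h3⟩

lemma cluh_big {α : Type} {S : Finset α} {f : α → Prop} [DecidablePred f] {a : ℕ} (h : 4 * a < #S)
    (h' : #(S.filter f) ≤ 3 * a) : a < #{p ∈ S | ¬ f p} := by
  have := card_filter_add_card_filter_not (s := S) f
  omega

lemma cluh_le {α : Type} {S : Finset α} {f g : α → Prop} {_ : DecidablePred f} [DecidablePred g]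
    {a : ℕ} (h' : #(S.filter f) ≤ a) (h : ∀ p, g p → f p) : #(S.filter g) ≤ a :=
  (card_le_card (monotone_filter_right _ fun p _ => h p)).trans h'

theorem p_LUH (hSPLT : S_SPLT) :
    S_LUH := by
  intro A _ _ χ P z ω ω' L S V G a b ε η hχ hP hz hM ha hb hε hη hG
  have hω := (χ.val_isUnit ω).ne_zero
  have hω' := (χ.val_isUnit ω').ne_zero
  by_cases h0 : ev χ z = ev χ P
  · by_contra hc
    simp only [not_or, not_exists, not_le] at hc
    obtain ⟨e, he, h1, h2⟩ := hM _ (filter_subset _ _) _ (filter_subset _ _)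
      (lt_of_le_of_lt (by omega) (hc.1 0)) (lt_of_le_of_lt (by omega) (hc.2.1 0))
    obtain ⟨h1, h3⟩ := mem_filter.1 h1
    obtain ⟨h2, h4⟩ := mem_filter.1 h2
    have h5 := hG e he h1 h2
    have h6 : Sgl (sg (0 : A)) {0} := .inr ⟨0, mem_singleton_self _, rfl⟩
    have h7 : ev χ (sg (0 : A)) = 1 := by rw [ev_sg, χ.map_zero_eq_one]
    have h8 : χ ω * ev χ P ^ 2 * ((ev χ (ε e.1) - 1) * (ev χ (η e.2) - 1)) = 0 := by
      rw [h0] at h5
      linear_combination h5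
    rcases mul_eq_zero.1 ((mul_eq_zero.1 h8).resolve_left
      (mul_ne_zero hω (pow_ne_zero 2 hP))) with h9 | h9
    · exact h3 (cluh_inj hχ (hε _ h1) h6 ((sub_eq_zero.1 h9).trans h7.symm))
    · exact h4 (cluh_inj hχ (hη _ h2) h6 ((sub_eq_zero.1 h9).trans h7.symm))
  have hK : χ ω' * (ev χ P * ev χ z - ev χ z ^ 2) ≠ 0 := by
    rw [show ev χ P * ev χ z - ev χ z ^ 2 = ev χ z * (ev χ P - ev χ z) by ring]
    exact mul_ne_zero hω' (mul_ne_zero hz (sub_ne_zero.2 (Ne.symm h0)))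
  obtain ⟨t, ht⟩ := hSPLT A A (ZA A) S S V V G a b ε hM subset_rfl subset_rfl (by omega)
    fun r hr p hp p' hp' h1 h2 => by
      have e1 := hG _ h1 hp hr
      have e2 := hG _ h2 hp' hr
      have e3 : ev χ P * ev χ (η r) - ev χ z ≠ 0 := fun e => hK (by
        simpa only [e, mul_zero, add_zero] using e1)
      refine cluh_inj hχ (hε p hp) (hε p' hp') (mul_left_cancel₀
        (mul_ne_zero (mul_ne_zero hω hP) e3) ?_)
      linear_combination e1 - e2
  obtain ⟨s, hs⟩ := hSPLT A A (ZA A) V V S S _ b a η (cluh_swap hM) subset_rfl subset_rfl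
    (by omega) fun p hp r hr r' hr' h1 h2 => by
      have hsw : ∀ r, (r, p) ∈ G.image Prod.swap → (p, r) ∈ G := fun r h => by
        obtain ⟨e, h1, h2⟩ := mem_image.1 h
        rwa [← Prod.swap_swap e, h2] at h1
      have e1 := hG _ (hsw _ h1) hp hr
      have e2 := hG _ (hsw _ h2) hp hr'
      have e3 : ev χ P * ev χ (ε p) - ev χ z ≠ 0 := fun e => hK (by
        simpa only [e, mul_zero, zero_mul, add_zero] using e1)
      refine cluh_inj hχ (hη r hr) (hη r' hr') (mul_left_cancel₀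
        (mul_ne_zero (mul_ne_zero hω hP) e3) ?_)
      linear_combination e1 - e2
  replace ht : #{p ∈ S | ε p ≠ t} ≤ 3 * a := cluh_le ht fun _ h => h
  replace hs : #{p ∈ V | η p ≠ s} ≤ 3 * b := cluh_le hs fun _ h => h
  obtain ⟨e, he, h1, h2⟩ := hM _ (filter_subset _ _) _ (filter_subset _ _)
    (cluh_big ha ht) (cluh_big hb hs)
  rw [mem_filter, not_not] at h1 h2
  obtain ⟨h1, rfl⟩ := h1
  obtain ⟨h2, rfl⟩ := h2
  rcases hε _ h1 with h3 | ⟨t, -, h3⟩
  swap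
  · exact .inl ⟨t, cluh_le ht fun p h => h3 ▸ h⟩
  rcases hη _ h2 with h4 | ⟨t, -, h4⟩
  swap
  · exact .inr (.inl ⟨t, cluh_le hs fun p h => h4 ▸ h⟩)
  refine .inr (.inr ⟨?_, cluh_le ht fun p h => h3 ▸ h, cluh_le hs fun p h => h4 ▸ h⟩)
  have h5 := hG e he h1 h2
  rw [h3, h4, map_zero] at h5
  refine mul_left_cancel₀ hz ?_
  linear_combination h5

end

section

open Polynomial Finset
open Pool.Agent.P.MP_9344a7_nt.R
open Pool.Agent.P.MP_9344a7_nt.Hy
open Pool.Agent.P.MP_9344a7_nt.Od (GD Kp Fe)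
open Pool.Agent.P.MP_9344a7_nt.Ac (Sb Pm Sp ED CD TD AD Sc Eg Dgs)
open scoped Classical ComplexConjugate

theorem chrr_num {c n M q Q a b r u i : ℕ} (hM : M = 8 * n + 2 * c * n + 8) (hq : M ≤ q)
    (hQ : 0 < Q) (h1 : M * Q ≤ (M + 1) * (n * a)) (h2 : M * (n * b) ≤ (M + 1) * Q)
    (h3 : M * u ≤ Q) (h4 : a ≤ r + u) (h5 : 2 * r ≤ b + i) (h6 : q * i ≤ c * Q) : False := by
  have e1 : M * i ≤ c * Q := (Nat.mul_le_mul_right _ hq).trans h6
  have e2 : 2 * a ≤ b + i + 2 * u := by omega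
  have e3 : M * (n * (2 * a)) ≤ M * (n * (b + i + 2 * u)) :=
    Nat.mul_le_mul_left _ (Nat.mul_le_mul_left _ e2)
  have e4 : M * (n * (2 * a)) ≤ (M + 1) * Q + n * (c * Q) + 2 * n * Q := by
    have a1 := Nat.mul_le_mul_left n e1
    have a2 := Nat.mul_le_mul_left (2 * n) h3
    nlinarith
  have e5 : 2 * M * M * Q ≤ (M + 1) * (M + 1 + n * c + 2 * n) * Q := by
    have a1 := Nat.mul_le_mul_left (2 * M) h1
    have a2 := Nat.mul_le_mul_left (M + 1) e4
    nlinarith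
  have e6 := Nat.le_of_mul_le_mul_right e5 hQ
  have e7 : 2 * (n * c + 2 * n) + 8 ≤ M := by rw [hM]; nlinarith
  rw [add_assoc (M + 1)] at e6
  generalize n * c + 2 * n = x at e6 e7
  nlinarith

theorem p_HRR :
    S_HRR := by
  intro c n hn
  refine ⟨8 * (n - 1) + 2 * c * (n - 1) + 8, ?_⟩
  intro q A A' _ _ _ _ Λ Λ' j κ τ hq hE hX hU hH hu
  set R := {r ∈ Pi Λ (n - 1) | ∃ y ∈ Pi Λ' (n - 1), j y = r + τ} with hR
  have ex : ∀ r ∈ R, ∃ y ∈ Pi Λ' (n - 1), j y = r + τ := fun r hr => (mem_filter.1 hr).2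
  choose! y hy hj using ex
  have inj : Set.InjOn y R := fun r hr r' hr' e =>
    add_right_cancel ((hj r hr).symm.trans (e ▸ hj r' hr'))
  set I := R.image y with hI
  set J := I.image fun b => (n - 1) • κ - b with hJ
  have cI : #I = #R := card_image_of_injOn inj
  have cJ : #J = #I := card_image_of_injective _ sub_right_injective
  have sI : I ⊆ Pi Λ' (n - 1) := image_subset_iff.2 hy
  have sJ : J ⊆ Pi Λ' (n - 1) := image_subset_iff.2 fun b hb =>
    mem_Pi.2 (hH.pm (Nat.sub_le _ _) (mem_Pi.1 (sI hb)))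
  have h5 : 2 * #R ≤ #(Pi Λ' (n - 1)) + #(I ∩ J) := by
    have a1 := card_union_add_card_inter I J
    have a2 := card_le_card (union_subset sI sJ)
    omega
  have one : ∀ r ∈ R, (Λ.W (n - 1)).coeff r ≠ 0 := fun r hr =>
    (mem_Pi.1 (mem_filter.1 hr).1).1 ▸ one_ne_zero
  have h6 : #(I ∩ J) ≤ #{b | (Λ.W (n - 1)).coeff b ≠ 0 ∧
      (Λ.W (n - 1)).coeff (j ((n - 1) • κ) - τ - τ - b) ≠ 0} := by
    refine card_le_card_of_injOn (fun b => j b - τ) (fun b hb => ?_) fun b hb b' hb' e => ?_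
    · obtain ⟨b1, b2⟩ := mem_inter.1 hb
      obtain ⟨r, hr, rfl⟩ := mem_image.1 b1
      obtain ⟨b', b3, e⟩ := mem_image.1 b2
      obtain ⟨r', hr', rfl⟩ := mem_image.1 b3
      refine mem_filter.2 ⟨mem_univ _, ?_, ?_⟩ <;> beta_reduce
      · rw [hj r hr, add_sub_cancel_right]; exact one r hr
      · rw [← e, map_sub j, hj r' hr', show j ((n - 1) • κ) - τ - τ -
          (j ((n - 1) • κ) - (r' + τ) - τ) = r' by abel]
        exact one r' hr'
    · obtain ⟨r, hr, rfl⟩ := mem_image.1 (mem_inter.1 hb).1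
      obtain ⟨r', hr', rfl⟩ := mem_image.1 (mem_inter.1 hb').1
      simp only [hj r hr, hj r' hr', add_sub_cancel_right] at e
      rw [e]
  refine chrr_num rfl hq (Nat.pow_pos (by omega)) (hX.rp (n - 1) (by omega) (Nat.sub_le _ _))
    (hU (n - 1) (by omega) (Nat.sub_le _ _)) hu
    ((card_le_card fun r hr => ?_).trans (card_union_le _ _)) h5
    ((Nat.mul_le_mul_left _ h6).trans (hE.clf' (by omega) (by omega) _))
  by_cases e : ∃ y ∈ Pi Λ' (n - 1), j y = r + τ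
  · exact mem_union_left _ (mem_filter.2 ⟨hr, e⟩)
  · exact mem_union_right _ (mem_filter.2 ⟨hr, e⟩)

end

section

open Polynomial Finset
open Pool.Agent.P.MP_9344a7_nt.R
open Pool.Agent.P.MP_9344a7_nt.Hy
open Pool.Agent.P.MP_9344a7_nt.Od (GD Kp Fe)
open Pool.Agent.P.MP_9344a7_nt.Ac (Sb Pm Sp ED CD TD AD Sc Eg Dgs)
open scoped Classical ComplexConjugate

theorem p_HG1 :
    S_HG1 := by
  intro c n hn
  refine ⟨16 * c + 16, ?_⟩
  intro q u w A _ _ Λ χ P z z' G G' H1 V1 H2 V2 w1 w2 k1 k2 T hS huw hE d1 d2 p1 p2 h1 h2 b0 b1 b2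
    hT
  by_contra hne
  obtain ⟨t, ht⟩ : ∃ t, (sg k2 * z + sg k1 * z').coeff t ≠ 0 := by
    by_contra e
    exact hne (za_eq fun t => not_not.1 fun e' => e ⟨t, e'⟩)
  have hq : 0 < q := hS.leq (x := 1) (by omega) (by omega)
  have h16 : 16 ≤ w := (hS.le (by omega)).trans huw
  have key : P * (sg k2 * V1 1 + sg k1 * V2 1) =
      P * (sg k2 * G 1 + sg k1 * G' 1 + sg (k1 + k2) * br (Λ.W 1)) := by
    refine Ac.kp_eq d1.kp d1.fa ?_
    have e1 := p1.cv' one_pos (by omega)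
    have e2 := p2.cv' one_pos (by omega)
    have e3 := d1.pr.cv' one_pos (by omega)
    have e4 := h1 1 (by omega)
    have e5 := h2 1 (by omega)
    rw [md_one, map_zero, add_zero] at e1 e2 e3
    rw [one_smul] at e4 e5
    simp only [map_add, map_mul, e1, e2, e4, e5, ev_br, e3, ev_sg, AddChar.map_add_eq_mul]
    ring
  have u3 := (d1.u1.down h16) (t - k2)
  have u4 := (d2.u1.down h16) (t - k1)
  have u5 := ((un_brW (w := 16 * om A) hE hq one_pos (by omega) (X := S0 Λ)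
    (fun x hx => Ac.w1_one (S0_sub hx)) (le_trans (le_of_eq (by ring))
      ((hS.om1 (x := 16 * c) (by omega) (by omega)).trans (hS.uq (by omega)))) (k1 + k2)).mul
    (w' := 16) P (Nat.mul_le_mul_left _ d1.kp.sz)) t
  rw [pow_one] at u5
  have hsub : Λ.S ⊆ (Λ.S \ S0 Λ) ∪ {p ∈ Λ.S | ¬ Fr (V1 1) p T} ∪ {p ∈ Λ.S | ¬ Fr (V2 1) p T} ∪
      {x ∈ S0 Λ | (P * G 1).coeff (x + (t - k2)) ≠ z.coeff (t - k2)} ∪
      {x ∈ S0 Λ | (P * G' 1).coeff (x + (t - k1)) ≠ z'.coeff (t - k1)} ∪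
      {x ∈ S0 Λ | (P * (sg (k1 + k2) * br (Λ.W 1))).coeff (x + t) ≠ (P * 0).coeff t} := by
    intro p hp
    by_contra e
    simp only [mem_union, mem_sdiff, mem_filter, hp, true_and, not_or, not_not, not_and] at e
    obtain ⟨⟨⟨⟨⟨e0, e1⟩, e2⟩, e3⟩, e4⟩, e5⟩ := e
    have l : (P * (sg k2 * V1 1 + sg k1 * V2 1)).coeff (p + t) = 0 := by
      rw [Hy.coeff_mul]
      refine sum_eq_zero fun b _ => ?_
      by_cases hb : P.coeff b = 0
      · rw [hb, zero_mul]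
      · obtain ⟨a1, a2⟩ := hT t b ht hb
        rw [AddMonoidAlgebra.coeff_add, Finsupp.add_apply, coeff_sg_mul, coeff_sg_mul,
          show p + t - b - k2 = p + (t - k2 - b) by abel,
          show p + t - b - k1 = p + (t - k1 - b) by abel, e1 _ a1, e2 _ a2, add_zero, mul_zero]
    rw [key, mul_add, mul_add, mul_left_comm P (sg k2), mul_left_comm P (sg k1),
      AddMonoidAlgebra.coeff_add, AddMonoidAlgebra.coeff_add, Finsupp.add_apply,
      Finsupp.add_apply, coeff_sg_mul, coeff_sg_mul, add_sub_assoc, add_sub_assoc, e3 e0, e4 e0,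
      e5 e0, mul_zero] at l
    refine ht ?_
    rw [AddMonoidAlgebra.coeff_add, Finsupp.add_apply, coeff_sg_mul, coeff_sg_mul]
    simpa using l
  have hc := (card_le_card hsub).trans ((card_union_le _ _).trans (Nat.add_le_add_right
    ((card_union_le _ _).trans (Nat.add_le_add_right ((card_union_le _ _).trans
      (Nat.add_le_add_right ((card_union_le _ _).trans
        (Nat.add_le_add_right (card_union_le _ _) _)) _)) _)) _))
  have := Λ.lo
  omega

end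

end Pool.Agent.P.MP_9344a7_nt.Cy
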