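import Pool.Agent.P.MP_9344a7_nt.Cy.IfaceH
import Pool.Agent.P.MP_9344a7_nt.Cy.IfaceA

/-! Steps HG3, NWA, HCT. -/

set_option linter.unusedVariables false
set_option linter.unusedSectionVars false

namespace Pool.Agent.P.MP_9344a7_nt.Cy

section

open Polynomial Finset
open Pool.Agent.P.MP_9344a7_nt.R
open Pool.Agent.P.MP_9344a7_nt.Hy
open Pool.Agent.P.MP_9344a7_nt.Od (GD Kp Fe)
open Pool.Agent.P.MP_9344a7_nt.Ac (Sb Pm Sp ED CD TD AD Sc Eg Dgs)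
open scoped Classical ComplexConjugate

theorem p_HG3 :
    S_HG3 := by
  intro q n u l A _ _ Λ χ G G' H1 V1 H2 V2 w1 w2 k1 k2 F T hn hq nh hL hF hT p0 p1 p2 h1 h2 f1 f2
    lp l5 lg
  by_contra g0
  have e0 := p0.cv' one_pos hn
  have e1 := p1.cv' one_pos hn
  have e2 := p2.cv' one_pos hn
  have e3 := h1 1 hn
  have e4 := h2 1 hn
  rw [md_one, map_zero, add_zero] at e0 e1 e2
  simp only [one_nsmul, map_mul, ev_sg, ev_br] at e3 e4
  have e5 : χ (k2 - k1) * χ k1 = χ k2 := by rw [← χ.map_add_eq_mul, sub_add_cancel]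
  have ez : ev χ (V1 1 + V2 1 - Λ.W 1 - sg k2 * br (Λ.W 1)) =
      (1 - χ (k2 - k1)) * ev χ (sg k1 * br (G 1)) := by
    simp only [map_sub, map_add, map_mul, ev_sg, ev_br, e0, e1, e2, e3, e4]
    linear_combination conj (ev χ (G 1)) * e5
  have c1 : #(F.biUnion fun t => {p ∈ Λ.S | p + t ∈ Λ.S}) ≤ #F * 2 :=
    card_biUnion_le_card_mul _ _ 2 fun t ht => CoreC.sid_two Λ.sid (b := 0) (b' := -t)
      (fun e => hL.1 (by rwa [← neg_eq_zero.1 e.symm])) fun z hz => by simpa using hz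
  have c2 : #((insert 0 F).biUnion fun t => {p ∈ Λ.S | k2 - t - p ∈ Λ.S}) ≤ #(insert 0 F) * 2 :=
    card_biUnion_le_card_mul _ _ 2 fun t _ => by
      have a1 := Λ.two (k2 - t)
      have a2 := nh (k2 - t)
      have a3 : (#{p ∈ Λ.S | k2 - t - p ∈ Λ.S} : ℤ) ≤ (Λ.W 1 ^ 2).coeff (k2 - t) := by
        rw [sq, Hy.coeff_mul, card_eq_sum_ones, Nat.cast_sum]
        refine (sum_le_sum fun p hp => ?_).trans (sum_le_univ_sum_of_nonneg fun p =>
          mul_nonneg (Λ.nn _ _) (Λ.nn _ _))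
        rw [Ac.w1_one (mem_filter.1 hp).1, Ac.w1_one (mem_filter.1 hp).2]
        simp
      omega
  have c3 := card_insert_le (0 : A) F
  have c4 := Λ.lo
  obtain ⟨p, hp, np⟩ := exists_mem_notMem_of_card_lt_card (t := Λ.S) (s :=
    ({p ∈ Λ.S | ¬ Fr (V1 1) p T} ∪ {p ∈ Λ.S | ¬ Fr (V2 1) p T}) ∪
      ((F.biUnion fun t => {p ∈ Λ.S | p + t ∈ Λ.S}) ∪
        (insert 0 F).biUnion fun t => {p ∈ Λ.S | k2 - t - p ∈ Λ.S}))
    (((card_union_le _ _).trans (add_le_add (card_union_le _ _) (card_union_le _ _))).trans_lt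
      (by omega))
  simp only [mem_union, mem_biUnion, mem_filter, hp, true_and, not_or, not_not, not_exists,
    not_and] at np
  obtain ⟨⟨n1, n2⟩, n3, n4⟩ := np
  have v : ∀ t ∈ insert 0 F, (V1 1 + V2 1 - Λ.W 1 - sg k2 * br (Λ.W 1)).coeff (p + t) =
      -(Λ.W 1).coeff (p + t) := fun t ht => by
    have a : (Λ.W 1).coeff (-(p + t - k2)) = 0 := by
      rw [show -(p + t - k2) = k2 - t - p by abel]
      exact not_not.1 fun e => n4 t ht (Ac.w1_ne.1 e)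
    simp only [AddMonoidAlgebra.coeff_sub, AddMonoidAlgebra.coeff_add, Finsupp.sub_apply,
      Finsupp.add_apply, coeff_sg_mul, coeff_br, n1 t (hT ht), n2 t (hT ht), a]
    ring
  have d := hL.2 l lp l5 _ p _ _ g0 lg ez fun t ht => by
    rw [v t (mem_insert_of_mem ht), not_not.1 fun e => n3 t ht (Ac.w1_ne.1 e), neg_zero]
  have v0 := v 0 (mem_insert_self _ _)
  rw [add_zero, Ac.w1_one hp] at v0
  rw [v0, dvd_neg] at d
  exact lp.ne_one (by exact_mod_cast Int.eq_one_of_dvd_one (by omega) d)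

end

section

open Polynomial Finset
open Pool.Agent.P.MP_9344a7_nt.R
open Pool.Agent.P.MP_9344a7_nt.Hy
open Pool.Agent.P.MP_9344a7_nt.Od (GD Kp Fe)
open Pool.Agent.P.MP_9344a7_nt.Ac (Sb Pm Sp ED CD TD AD Sc Eg Dgs)
open scoped Classical ComplexConjugate

lemma cnwa_eq {a a' s s' : ℕ → ℂ} {n : ℕ} (h : Newt a s) (h' : Newt a' s') (h0 : a 0 = 1)
    (e : ∀ m ≤ n, a' m = a m) : ∀ m ≤ n, m ≠ 0 → s' m = s m := fun m => by
  induction m using Nat.strong_induction_on with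
  | _ m ih =>
    intro hm m0
    obtain ⟨m, rfl⟩ := Nat.exists_eq_succ_of_ne_zero m0
    have e1 := h (m + 1)
    have e2 := h' (m + 1)
    rw [e _ hm, e1, sum_range_succ', sum_range_succ', e 0 (by omega), h0, sum_congr rfl
      fun i hi => by
        have := mem_range.1 hi
        rw [← e _ (by omega), ← ih _ (by omega) (by omega) (by omega)]] at e2
    simpa using e2.symm

lemma cnwa_sum {a b c sa sb sc : ℕ → ℂ} {n : ℕ} (hn : n ≠ 0) (ha : Newt a sa) (hb : Newt b sb)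
    (hc : Newt c sc) (a0 : a 0 = 1) (b0 : b 0 = 1)
    (e : ∀ m ≤ n, c m = ∑ i ∈ range (m + 1), a i * b (m - i)) : sc n = sa n + sb n := by
  refine cnwa_eq (s := sa + sb) ?_ hc (by simp [a0, b0]) e n le_rfl hn
  have e1 : (PowerSeries.mk fun m => ∑ i ∈ range (m + 1), a i * b (m - i)) =
      PowerSeries.mk a * PowerSeries.mk b := by
    ext m
    simp [PowerSeries.coeff_mul, Nat.sum_antidiagonal_eq_sum_range_succ_mk]
  have e2 : (PowerSeries.mk fun m => if m = 0 then 0 else (sa + sb) m) =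
      (PowerSeries.mk fun m => if m = 0 then 0 else sa m) +
        PowerSeries.mk fun m => if m = 0 then 0 else sb m := by
    ext n; by_cases hn : n = 0 <;> simp [hn]
  rw [nwr_iff] at *
  rw [e1, e2, Derivation.leibniz, smul_eq_mul, smul_eq_mul]
  linear_combination PowerSeries.mk b * ha + PowerSeries.mk a * hb

/-- The power sums of a sequence. -/
noncomputable def cnwa_s {R : Type} [CommRing R] (G : ℕ → R) (m : ℕ) : R :=
  m * G m - ∑ j : Fin (m - 1), cnwa_s G (m - (j + 1)) * G (j + 1)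
decreasing_by have := j.2; omega

lemma cnwa_ex {A : Type} [AddCommGroup A] [Fintype A] (χ : AddChar A ℂ) {G : ℕ → ZA A}
    (h : G 0 = 1) : ∃ σ : ℕ → ZA A, Newt (fun k => ev χ (G k)) fun k => ev χ (σ k) := by
  refine ⟨cnwa_s G, fun m => ?_⟩
  rcases m with _ | m
  · simp
  beta_reduce
  rw [sum_range_succ', Nat.sub_zero, cnwa_s.eq_1 G (m + 1), h, Nat.add_sub_cancel,
    Fin.sum_univ_eq_sum_range (fun j => cnwa_s G (m + 1 - (j + 1)) * G (j + 1)) m]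
  simp

theorem p_NWA :
    S_NWA := by
  intro q n c A A' _ _ _ _ Λ Λ' χ N N' G G' H1 H2 j1 j2 κ u hn h h' p p1 p2
  have e0 : χ ≠ 0 := fun e => p1.ne (by rw [e]; rfl)
  obtain ⟨σ, hσ⟩ := cnwa_ex χ p.g0
  obtain ⟨σ', hσ'⟩ := cnwa_ex χ p.h0
  obtain ⟨s, s1, s2⟩ := h.nw χ e0
  have a0 := cnwa_sum hn.ne' hσ hσ' s1 (by simp [p.g0]) (by simp [p.h0]) fun m hm => by
    rw [Λ.coeff_L χ (by omega), p.cv m hm]
  have key : ∀ (G H σ : ℕ → ZA A) (j : A' →+ A), Ph Λ' j χ G H κ u →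
      Newt (fun k => ev χ (G k)) (fun k => ev χ (σ k)) →
      ev χ (pu j N') = ev χ (σ n) + χ (j κ) ^ n * conj (ev χ (σ n)) := fun G H σ j p hσ => by
    obtain ⟨s, s1, s2⟩ := h'.nw _ p.ne
    rw [ev_pu, ← s2]
    refine cnwa_sum (b := fun k => χ (j κ) ^ k * conj (ev χ (G k)))
      (sb := fun k => χ (j κ) ^ k * conj (ev χ (σ k))) hn.ne' hσ (fun m => ?_) s1
      (by simp [p.pd.pr.g0]) (by simp [p.pd.pr.g0]) fun m hm => ?_
    · have := congrArg conj (hσ m)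
      rw [map_mul, map_natCast, map_sum] at this
      rw [mul_left_comm, this, mul_sum]
      refine sum_congr rfl fun i hi => ?_
      rw [mul_mul_mul_comm, ← pow_add, Nat.sub_add_cancel (mem_range.1 hi).le, map_mul]
    · rw [Λ'.coeff_L _ (by omega), ← ev_pu]
      refine (p.pd.pr.cv m hm).trans (sum_congr rfl fun i hi => ?_)
      rw [p.hk _ (by omega), map_mul, ev_sg, ev_br, AddChar.map_nsmul_eq_pow]
  refine ⟨sg (n • j1 κ) * br (σ n), ?_⟩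
  have e : χ (n • (j2 κ - j1 κ)) * χ (j1 κ) ^ n = χ (j2 κ) ^ n := by
    rw [AddChar.map_nsmul_eq_pow, ← mul_pow, ← AddChar.map_add_eq_mul, sub_add_cancel]
  simp only [map_sub, map_add, map_mul, ev_sg, ev_br, key _ _ _ _ p1 hσ, key _ _ _ _ p2 hσ', ← s2,
    a0, AddChar.map_nsmul_eq_pow χ n (j1 κ), AddChar.map_nsmul_eq_pow χ n (j2 κ)]
  linear_combination conj (ev χ (σ n)) * e

end

section

open Polynomial Finset
open Pool.Agent.P.MP_9344a7_nt.R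
open Pool.Agent.P.MP_9344a7_nt.Hy
open Pool.Agent.P.MP_9344a7_nt.Od (GD Kp Fe)
open Pool.Agent.P.MP_9344a7_nt.Ac (Sb Pm Sp ED CD TD AD Sc Eg Dgs)
open scoped Classical ComplexConjugate

lemma hct_ar {m c M Q x y : ℕ} (f1 : 2 * (m + 1) ^ 3 * (4 * c + 2) ≤ M) (c9 : 0 < Q)
    (e1 : 2 * (m + 1) ^ 2 * Q ≤ (2 * (m + 1) ^ 2 + 1) * ((m + 1) * m * x))
    (c7 : M * x ≤ M * y + (4 * c + 1) * Q) (c8 : M * ((m + 1) ^ 2 * y) ≤ (M + 1) * Q) : False := by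
  have d1 : (2 * (m + 1) ^ 2 + 1) * m * (M + 1 + (m + 1) ^ 2 * (4 * c + 1)) <
      2 * (m + 1) ^ 3 * M := by
    have f2 : m * (1 + (m + 1) ^ 2 * (4 * c + 1)) < (m + 1) ^ 3 * (4 * c + 2) := by
      nlinarith [sq_nonneg m, Nat.zero_le (m ^ 2 * c), Nat.zero_le (m * c)]
    have f3 := Nat.mul_lt_mul_of_pos_left f2 (show 0 < 2 * (m + 1) ^ 2 + 1 by positivity)
    have f4 := Nat.mul_le_mul_left ((m + 1) ^ 2 + 1) f1
    have f5 : ((2 * (m + 1) ^ 2 + 1) * m + ((m + 1) ^ 2 + 1)) * M ≤ 2 * (m + 1) ^ 3 * M :=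
      Nat.mul_le_mul_right _ (by nlinarith)
    linarith [Nat.zero_le ((m + 1) ^ 3 * (4 * c + 2))]
  have d2 := Nat.mul_le_mul_left (M * (m + 1)) e1
  have d3 := Nat.mul_le_mul_left ((2 * (m + 1) ^ 2 + 1) * m * (m + 1) ^ 2) c7
  have d4 := Nat.mul_le_mul_left ((2 * (m + 1) ^ 2 + 1) * m) c8
  linarith [Nat.mul_lt_mul_of_pos_right d1 c9]

theorem p_HCT (hESL : S_ESL) (hCOV : S_COV) :
    S_HCT := by
  intro c n hn
  obtain ⟨M0, hE⟩ := hESL n (2 * n ^ 2) hn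
  refine ⟨M0 + 2 * n ^ 3 * (4 * (c + 1) + 2), fun q u A A' _ _ _ _ Λ Λ' j1 j2 κ T B hu hq ed cd xd
    ud hs hT hB h h' => ?_⟩
  set M := M0 + 2 * n ^ 3 * (4 * (c + 1) + 2) with hM
  have M1 : 0 < M := by positivity
  have u0 : 0 < u := M1.trans_le hu
  have uq : u ≤ q := (Nat.le_self_pow (by omega) u).trans hq
  have e1 := hE q c A Λ (le_self_add.trans (hu.trans uq)) (cd.up le_rfl le_self_add)
    (xd.down le_self_add)
  have key : ∀ j : A' →+ A, ∃ Z : Finset A,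
      M * #Z ≤ M * #(Pi Λ' n) + 4 * c * q ^ n ∧ ∀ x, (Λ.W n).coeff x = 1 → Cv j (Pi Λ' n) T x →
        x ∈ Z ∧ Λ.ω - x ∈ Z := fun j => by
    set T' := T ∪ T.image (j Λ'.ω - Λ.ω - ·)
    refine ⟨univ.filter fun x => (Λ.W n).coeff x ≠ 0 ∧ Cv j (Pi Λ' n) T' x, ?_,
      fun x a1 ⟨y, hy, ht⟩ => ?_⟩
    · have a1 := hCOV q n c A A' Λ j (Pi Λ' n) T' {x | (Λ.W n).coeff x ≠ 0 ∧ Cv j (Pi Λ' n) T' x}
        ed.gd fun x hx => (mem_filter.1 hx).2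
      have a2 : #T' ≤ 2 * u := (card_union_le _ _).trans
        ((add_le_add hT (card_image_le.trans hT)).trans_eq (two_mul u).symm)
      refine Nat.le_of_mul_le_mul_left ?_ (u0.trans_le uq)
      have a3 : M * (#T' ^ 2 * c * q ^ n) ≤ q * (4 * c * q ^ n) :=
        calc _ ≤ u * ((2 * u) ^ 2 * c * q ^ n) := by gcongr
          _ = u ^ 3 * (4 * c * q ^ n) := by ring
          _ ≤ _ := by gcongr
      linarith [Nat.mul_le_mul_left M a1]
    · refine ⟨mem_filter.2 ⟨mem_univ _, a1 ▸ one_ne_zero, y, hy, mem_union_left _ ht⟩,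
        mem_filter.2 ⟨mem_univ _, by rw [ed.sym, a1]; exact one_ne_zero, Λ'.ω - y,
          mem_Pi.2 (hs.om ▸ hs.pm le_rfl (mem_Pi.1 hy)),
          mem_union_right _ (mem_image.2 ⟨_, ht, ?_⟩)⟩⟩
      rw [map_sub]
      abel
  obtain ⟨Z1, a1, b1⟩ := key j1
  obtain ⟨Z2, a2, b2⟩ := key j2
  have c1 : ∀ e ∈ Es Λ \ B, e.1 + e.2 ∈ Z1 ∩ Z2 ∧ Λ.ω - (e.1 + e.2) ∈ Z1 ∩ Z2 := fun e he => by
    obtain ⟨d1, d2⟩ := mem_sdiff.1 he
    have d3 := b1 _ ((mem_Es.1 d1).one ed) (h e d1 d2).1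
    have d4 := b2 _ ((mem_Es.1 d1).one ed) (h e d1 d2).2
    exact ⟨mem_inter.2 ⟨d3.1, d4.1⟩, mem_inter.2 ⟨d3.2, d4.2⟩⟩
  have c2 : #(Es Λ \ B) ≤ #{x ∈ Z1 ∩ Z2 | ¬ Pm Λ n x} :=
    card_le_card_of_injOn (fun e => e.1 + e.2) (fun e he => mem_filter.2 ⟨(c1 e he).1, fun d =>
      d.2 1 one_pos (by omega) _ (es_sb (mem_sdiff.1 he).1)⟩) fun e he e' he' =>
        es_inj hn ed (mem_sdiff.1 he).1 (mem_sdiff.1 he').1
  have c3 : #(Es Λ \ B) ≤ #{x ∈ Z1 ∩ Z2 | Pm Λ n x} :=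
    card_le_card_of_injOn (fun e => Λ.ω - (e.1 + e.2)) (fun e he => mem_filter.2 ⟨(c1 e he).2,
      (mem_Es.1 (mem_sdiff.1 he).1).res⟩) fun e he e' he' d =>
        es_inj hn ed (mem_sdiff.1 he).1 (mem_sdiff.1 he').1 (sub_right_injective d)
  have c4 : ∀ Z : Finset A, #{x ∈ Z | Pm Λ n x} + #{x ∈ Z | ¬ Pm Λ n x} = #Z := fun _ =>
    card_filter_add_card_filter_not _
  set X := {x ∈ Pi Λ n | ¬ Pm Λ n (Λ.ω - x) ∧ (Cv j1 (Pi Λ' n) T x ∨ Cv j2 (Pi Λ' n) T x)}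
  have f1 : ∀ x ∈ X, x ∈ Z1 ∪ Z2 ∧ Λ.ω - x ∈ Z1 ∪ Z2 := fun x hx => by
    obtain ⟨d1, -, d | d⟩ := mem_filter.1 hx
    · exact (b1 x (mem_Pi.1 d1).1 d).imp (mem_union_left _) (mem_union_left _)
    · exact (b2 x (mem_Pi.1 d1).1 d).imp (mem_union_right _) (mem_union_right _)
  have f2 : #X ≤ #{x ∈ Z1 ∪ Z2 | Pm Λ n x} := card_le_card fun x hx =>
    mem_filter.2 ⟨(f1 x hx).1, mem_Pi.1 (mem_filter.1 hx).1⟩
  have f3 : #X ≤ #{x ∈ Z1 ∪ Z2 | ¬ Pm Λ n x} := card_le_card_of_injOn (Λ.ω - ·)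
    (fun x hx => mem_filter.2 ⟨(f1 x hx).2, (mem_filter.1 hx).2.1⟩) sub_right_injective.injOn
  have f4 : Pi Λ n ⊆ PP Λ ∪ X ∪ {x ∈ Pi Λ n | ¬ Pm Λ n (Λ.ω - x) ∧ ¬ Cv j1 (Pi Λ' n) T x ∧
      ¬ Cv j2 (Pi Λ' n) T x} := fun x hx => by
    simp only [X, mem_union, mem_filter, mem_PP, hx, mem_Pi.1 hx, true_and]
    tauto
  have f5 := (card_le_card f4).trans ((card_union_le _ _).trans
    (add_le_add (card_union_le _ _) le_rfl))
  have c5 := card_union_add_card_inter Z1 Z2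
  have c6 := le_card_sdiff B (Es Λ)
  have g1 := c4 (Z1 ∪ Z2)
  have g2 := c4 (Z1 ∩ Z2)
  have g3 : M * #(Pi Λ' n) ≤ M * #(Pi Λ n) + 2 * q ^ n := by
    have i1 := ud n (by omega) le_rfl
    have i2 := xd.rp n (by omega) le_rfl
    have i3 : M * q ^ n ≤ M * (n * #(Pi Λ n)) + q ^ n := by
      refine Nat.le_of_mul_le_mul_left ?_ M.succ_pos
      linarith [Nat.mul_le_mul_left M i2, Nat.zero_le (q ^ n)]
    refine Nat.le_of_mul_le_mul_left ?_ (show 0 < n by omega)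
    linarith [Nat.mul_le_mul_right (q ^ n) hn, Nat.zero_le (q ^ n)]
  have c7 : M * #(Es Λ) ≤ M * #(PP Λ) + (4 * (c + 1) + 1) * q ^ n := by
    generalize #{x ∈ Pi Λ n | ¬ Pm Λ n (Λ.ω - x) ∧ ¬ Cv j1 (Pi Λ' n) T x ∧
      ¬ Cv j2 (Pi Λ' n) T x} = b at f5 h'
    have : 2 * #(Es Λ) + 2 * #(Pi Λ n) ≤ #Z1 + #Z2 + 2 * #B + 2 * #(PP Λ) + 2 * b := by omega
    have := Nat.mul_le_mul_left M this
    linarith [Nat.zero_le (q ^ n)]
  have c8 := xd.pp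
  have c9 : 0 < q ^ n := Nat.pow_pos (u0.trans_le uq)
  obtain ⟨m, rfl⟩ : ∃ m, n = m + 1 := ⟨n - 1, by omega⟩
  rw [Nat.add_sub_cancel] at e1
  exact hct_ar le_add_self c9 e1 c7 c8

end

end Pool.Agent.P.MP_9344a7_nt.Cy
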