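import Pool.Agent.P.MP_9344a7_nt.Cy.MA1
import Pool.Agent.P.MP_9344a7_nt.Cy.MA2
import Pool.Agent.P.MP_9344a7_nt.Cy.MA3
import Pool.Agent.P.MP_9344a7_nt.Cy.MA4
import Pool.Agent.P.MP_9344a7_nt.Cy.MA5
import Pool.Agent.P.MP_9344a7_nt.Cy.MA6
import Pool.Agent.P.MP_9344a7_nt.Cy.MH1
import Pool.Agent.P.MP_9344a7_nt.Cy.MH2
import Pool.Agent.P.MP_9344a7_nt.Cy.MG1
import Pool.Agent.P.MP_9344a7_nt.Cy.MA7
import Pool.Agent.P.MP_9344a7_nt.Cy.MA8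
import Pool.Agent.P.MP_9344a7_nt.Cy.MH3
import Pool.Agent.P.MP_9344a7_nt.Cy.MH4
import Pool.Agent.P.MP_9344a7_nt.Cy.MG2
import Pool.Agent.P.MP_9344a7_nt.Cy.MA9
import Pool.Agent.P.MP_9344a7_nt.Cy.MH5
import Pool.Agent.P.MP_9344a7_nt.Cy.MG3
import Pool.Agent.P.MP_9344a7_nt.Cy.MH6
import Pool.Agent.P.MP_9344a7_nt.Cy.MH7

/-! The assembly of the steps. -/

namespace Pool.Agent.P.MP_9344a7_nt.Cy

theorem a_PK4 : S_PK4 := p_PK4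
theorem a_DEG2 : S_DEG2 := p_DEG2
theorem a_PRA : S_PRA := p_PRA
theorem a_FTS : S_FTS := p_FTS
theorem a_CUB : S_CUB := p_CUB
theorem a_CUM : S_CUM := p_CUM a_CUB
theorem a_PRD : S_PRD := p_PRD
theorem a_PH : S_PH := p_PH a_PRD
theorem a_EDX : S_EDX := p_EDX a_CUM a_PH
theorem a_SPLT : S_SPLT := p_SPLT
theorem a_MXE : S_MXE := p_MXE
theorem a_FTA : S_FTA := p_FTA a_SPLT a_MXE
theorem a_FTZ : S_FTZ := p_FTZ
theorem a_FT2 : S_FT2 := p_FT2 a_EDX a_FTS a_FTA a_FTZ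
theorem a_SPF : S_SPF := p_SPF a_PK4 a_DEG2 a_PRA a_FTS a_FT2
theorem a_GN1 : S_GN1 := p_GN1
theorem a_GN2 : S_GN2 := p_GN2
theorem a_GN3 : S_GN3 := p_GN3
theorem a_NP2 : S_NP2 := p_NP2
theorem a_GN4 : S_GN4 := p_GN4 a_NP2
theorem a_GENL : S_GENL := p_GENL a_GN1 a_GN2 a_GN3 a_GN4
theorem a_PRB : S_PRB := p_PRB
theorem a_GAM2 : S_GAM2 := p_GAM2
theorem a_RDG2 : S_RDG2 := p_RDG2 a_GAM2
theorem a_PER : S_PER := p_PER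
theorem a_RDW : S_RDW := p_RDW a_PER
theorem a_SUB3 : S_SUB3 := p_SUB3
theorem a_RDB : S_RDB := p_RDB a_SUB3
theorem a_RED3 : S_RED3 := p_RED3 a_FTS a_GAM2 a_RDG2 a_RDW a_RDB
theorem a_PTX : S_PTX := p_PTX a_PRA a_PRB a_RED3
theorem a_FNC : S_FNC := p_FNC
theorem a_PU : S_PU := p_PU a_PH
theorem a_ID0 : S_ID0 := p_ID0 a_CUM a_PRD a_PH a_PU
theorem a_ID1 : S_ID1 := p_ID1 a_CUM a_PRD a_PH a_PU
theorem a_ID2 : S_ID2 := p_ID2 a_CUM a_PRD a_PH a_PU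
theorem a_STP : S_STP := p_STP a_FTS a_ID0 a_ID1 a_ID2
theorem a_LUA : S_LUA := p_LUA a_SPLT a_PER
theorem a_CHN : S_CHN := p_CHN
theorem a_SGL : S_SGL := p_SGL
theorem a_EXC : S_EXC := p_EXC
theorem a_LUC : S_LUC := p_LUC a_CHN a_SGL a_EXC
theorem a_LU : S_LU := p_LU a_MXE a_STP a_LUA a_LUC
theorem a_MID : S_MID := p_MID a_CUM a_PRD a_PH a_PU
theorem a_PRM : S_PRM := p_PRM
theorem a_PART : S_PART := p_PART a_FTS a_LU a_MID a_PRM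
theorem a_TOP : S_TOP := p_TOP
theorem a_ESL : S_ESL := p_ESL
theorem a_COV : S_COV := p_COV
theorem a_CNT : S_CNT := p_CNT a_ESL a_COV
theorem a_ADDN : S_ADDN := p_ADDN a_SPF a_GENL a_PTX a_FNC a_PART a_TOP a_CNT
theorem a_TWD : S_TWD := p_TWD
theorem a_PARX : S_PARX := p_PARX
theorem a_HSF : S_HSF := p_HSF a_PARX
theorem a_PTH : S_PTH := p_PTH a_PTX a_TWD a_HSF
theorem a_PRT : S_PRT := p_PRT
theorem a_IDH : S_IDH := p_IDH a_CUM a_PH a_PU a_PRT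
theorem a_STH : S_STH := p_STH a_FTS a_IDH
theorem a_LUH : S_LUH := p_LUH a_SPLT
theorem a_LH : S_LH := p_LH a_MXE a_STH a_LUH a_LUC
theorem a_HRP : S_HRP := p_HRP a_FTS
theorem a_HRR : S_HRR := p_HRR
theorem a_HPART : S_HPART := p_HPART a_FTS a_LH a_HRP a_HRR a_MID a_PRM
theorem a_HG1 : S_HG1 := p_HG1
theorem a_TWS : S_TWS := p_TWS
theorem a_ORD6 : S_ORD6 := p_ORD6
theorem a_HTW : S_HTW := p_HTW a_ESL a_SGL a_TWS a_ORD6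
theorem a_LAD : S_LAD := p_LAD
theorem a_HG3 : S_HG3 := p_HG3
theorem a_NWA : S_NWA := p_NWA
theorem a_HC1 : S_HC1 := p_HC1
theorem a_HCT : S_HCT := p_HCT a_ESL a_COV
theorem a_HFIN : S_HFIN := p_HFIN a_FTS a_TOP a_HG1 a_HTW a_LAD a_HG3 a_NWA a_HC1 a_HCT
theorem a_ADDH : S_ADDH := p_ADDH a_SPF a_GENL a_PTH a_FNC a_HPART a_TOP a_HFIN
theorem a_XDG : S_XDG := p_XDG
theorem a_UDG : S_UDG := p_UDG
theorem a_NSD : S_NSD := p_NSD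
theorem a_NHY : S_NHY := p_NHY
theorem a_ALL : S_ALL := p_ALL a_ADDN a_ADDH a_XDG a_UDG a_NSD a_NHY

end Pool.Agent.P.MP_9344a7_nt.Cy
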