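import Pool.Agent.P.MP_9344a7_nt.Ac.All

/-! Patterns, windows and the data of a factor of degree `n`. -/

namespace Pool.Agent.P.MP_9344a7_nt.Cy

open Polynomial Finset
open Pool.Agent.P.MP_9344a7_nt.R
open Pool.Agent.P.MP_9344a7_nt.Hy
open Pool.Agent.P.MP_9344a7_nt.Od (GD Kp Fe)
open Pool.Agent.P.MP_9344a7_nt.Ac (Sb Pm Sp ED CD TD AD Sc Eg Dgs)
open scoped Classical ComplexConjugate

set_option linter.unusedSectionVars false

section ring

variable {A A' : Type} [AddCommGroup A] [AddCommGroup A']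

/-- The class of a group element. -/
noncomputable abbrev sg (a : A) : ZA A := .single a 1

/-- The reflection. -/
noncomputable def br : ZA A →+* ZA A := pu (-AddMonoidHom.id A)

/-- The restriction of `y` to the window `x + L`, moved to the origin. -/
noncomputable def pat (y : ZA A) (x : A) (L : Finset A) : ZA A :=
  ∑ t ∈ L, .single t (y.coeff (x + t))

/-- The element `z` seen from `x`. -/
noncomputable def loc (z : ZA A) (x : A) : ZA A := sg (-x) * z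

/-- `y` vanishes on the window `x + L`. -/
def Fr (y : ZA A) (x : A) (L : Finset A) : Prop := ∀ t ∈ L, y.coeff (x + t) = 0

/-- Zero or a single label. -/
def Sgl (z : ZA A) (L : Finset A) : Prop := z = 0 ∨ ∃ t ∈ L, z = sg t

/-- `Y` contains `X + X - X`. -/
def Cl (X Y : Finset A) : Prop := ∀ a ∈ X, ∀ b ∈ X, ∀ d ∈ X, a + b - d ∈ Y

/-- The sizes of a sequence. -/
def Sz (G : ℕ → ZA A) (q n u : ℕ) : Prop := ∀ k ≤ n, sz (G k) ≤ u * q ^ k

/-- The middle terms of a product. -/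
noncomputable def md (G H : ℕ → ZA A) (m : ℕ) : ZA A := ∑ i ∈ Ioo 0 m, G i * H (m - i)

/-- `y` has the pattern `z` at almost all points of `X`, label by label. -/
def Un (y : ZA A) (X : Finset A) (z : ZA A) (w Q : ℕ) : Prop :=
  ∀ t, w * #{x ∈ X | y.coeff (x + t) ≠ z.coeff t} ≤ Q

/-- The two sides of an edge with their degrees. -/
def Sd (n k : ℕ) (π π' : A × A → A) : Prop :=
  (k = 1 ∧ π = Prod.fst ∧ π' = Prod.snd) ∨ (k = n - 1 ∧ π = Prod.snd ∧ π' = Prod.fst)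

/-- The windows of one step. -/
structure Wn (α D κ : ZA A) (L X0 T0 X1 T1 : Finset A) : Prop where
  z : 0 ∈ X0
  l : L ⊆ X0
  sα : α.coeff.support ⊆ X0
  sD : D.coeff.support ⊆ X0
  sκ : κ.coeff.support ⊆ X0
  c0 : Cl X0 T0
  s1 : T0 ⊆ X1
  c1 : Cl X1 T1

/-- The three identities at an edge. -/
structure Ed (α D κ g1 g2 : ZA A) (T0 X1 T1 : Finset A) (ε ε' η η' : ZA A) (p r : A) : Prop where
  i1 : ∀ t ∈ T1, (α * η - D).coeff t = (ε' * loc g2 r).coeff t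
  i2 : ∀ t ∈ T1, (α * ε - D).coeff t = (η' * loc g1 p).coeff t
  i0 : ∀ t ∈ T0, κ.coeff t = (pat g1 p X1 * loc g2 r).coeff t

/-- The patterns of the identities. -/
noncomputable def al (P z : ZA A) (ω : A) : ZA A := sg ω * P ^ 2 * z

/-- The constant term of the identities. -/
noncomputable def Dd (P z : ZA A) (ω ω' : A) : ZA A :=
  P * (sg ω * z ^ 2 + sg ω' * (P * z - z ^ 2))

/-- The constant term of the quadratic identity. -/
noncomputable def ka (P z : ZA A) (ω ω' : A) : ZA A :=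
  -(sg (ω + ω' + ω') * P ^ 4 * (P * z - z ^ 2))

/-- The reflected coefficients. -/
noncomputable def gb (P y : ZA A) (ω ω' : A) : ZA A := sg (ω + ω') * P ^ 3 * br y

/-- Two big sets carry a good edge. -/
def Mg {α β : Type} (S : Finset α) (V : Finset β) (G : Finset (α × β)) (a b : ℕ) : Prop :=
  ∀ U ⊆ S, ∀ U' ⊆ V, a < #U → b < #U' → ∃ e ∈ G, e.1 ∈ U ∧ e.2 ∈ U'

variable [Fintype A]

/-- A factorisation up to degree `n`, with the symmetry of its terms. -/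
structure Pr2 (χ : AddChar A ℂ) (n : ℕ) (G H V : ℕ → ZA A) (w : A) : Prop where
  g0 : G 0 = 1
  h0 : H 0 = 1
  cv : ∀ m ≤ n, ev χ (V m) = ∑ i ∈ range (m + 1), ev χ (G i) * ev χ (H (m - i))
  sy : ∀ k ≤ n, ev χ (G k) * ev χ (H (n - k)) = χ w * conj (ev χ (G (n - k)) * ev χ (H k))

/-- The product of the factors `1 - [g]`. -/
structure Pq (P : ZA A) : Prop where
  kp : Kp P
  fac : ∀ l : ℕ, l.Prime → l ∣ Nat.card A → ∃ (g : A) (P' : ZA A) (m : ℕ), addOrderOf g = l ∧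
    P = (1 - sg g) * P' ∧ sz P' ≤ om A ∧ P'.coeff 0 = 1 ∧ m.Coprime l ∧
      ∀ b, P'.coeff b ≠ 0 → m • b = 0

end ring

section ld

variable {q n : ℕ} {A A' : Type} [AddCommGroup A] [Fintype A] [AddCommGroup A'] [Fintype A']
  (Λ : LD q n A) (Λ' : LD q n A')

/-- The primes of degree `m`. -/
noncomputable def Pi (m : ℕ) : Finset A := {r | Pm Λ m r}

/-- The edges. -/
noncomputable def Es : Finset (A × A) := {e | Eg Λ e.1 e.2}

/-- The primes of degree `n` with prime residual divisor. -/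
noncomputable def PP : Finset A := {x | Pm Λ n x ∧ Pm Λ n (Λ.ω - x)}

/-- The points of large degree. -/
noncomputable def S0 : Finset A := {p ∈ Λ.S | #(Pi Λ (n - 1)) ≤ 2 * n * #{e ∈ Es Λ | e.1 = p}}

/-- The primes of large degree. -/
noncomputable def V0 : Finset A := {r ∈ Pi Λ (n - 1) | #Λ.S ≤ 2 * n * #{e ∈ Es Λ | e.2 = r}}

/-- The direct image of the effective divisors of the second curve. -/
noncomputable def Ej (j : A' →+ A) (k : ℕ) : ZA A := pu j (Λ'.W k)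

/-- The sharp counts of primes on a curve that is not hyperelliptic. -/
structure XD (M : ℕ) : Prop where
  pp : M * (n ^ 2 * #(PP Λ)) ≤ (M + 1) * q ^ n
  rp : ∀ m, 0 < m → m ≤ n → M * q ^ m ≤ (M + 1) * (m * #(Pi Λ m))

/-- The upper bound for the number of primes. -/
def UD (M : ℕ) : Prop := ∀ m, 0 < m → m ≤ n → M * (m * #(Pi Λ m)) ≤ (M + 1) * q ^ m

/-- The data of an arbitrary curve. -/
structure DD (c : ℕ) : Prop where
  gd : GD Λ c
  pw : ∀ j a, (Λ.W j).coeff a ≤ 1 ∨ q ≤ (Λ.W j).coeff a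
  sym : ∀ x, (Λ.W n).coeff (Λ.ω - x) = (Λ.W n).coeff x

/-- The power sum of degree `n`. -/
structure NS (N : ZA A) (c : ℕ) : Prop where
  nw : ∀ χ : AddChar A ℂ, χ ≠ 0 → ∃ s, Newt (Λ.L χ).coeff s ∧ s n = ev χ N
  pm : ∀ x, Pm Λ n x → N.coeff x = n
  few : q * #{x | N.coeff x ≠ 0 ∧ ¬ Pm Λ n x} ≤ c * q ^ n

/-- One level of the scales. -/
structure Lv (u w a K : ℕ) : Prop where
  sc : Sc A q u K
  td : TD Λ (u ^ 4) a
  mid : u ^ K ≤ w

/-- All scales between `u` and a power of `w`. -/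
structure Sl (u w a K : ℕ) : Prop where
  lo : K * om A ^ K ≤ u
  mid : u ^ K ≤ w
  hi : w ^ K ≤ q
  td : ∀ v, u ≤ v → v ≤ w ^ K → TD Λ v a

/-- The points are not concentrated in a coset of a proper subgroup. -/
def Gn (E : ℕ) : Prop := ∀ H : AddSubgroup A, H ≠ ⊤ → ∀ t, q < E * #{p ∈ Λ.S | p - t ∉ H}

/-- Almost all of `W i` lies in the coset `z + H`. -/
def Cs (H : AddSubgroup A) (i : ℕ) (z : A) (E : ℕ) : Prop :=
  E * #{x | (Λ.W i).coeff x ≠ 0 ∧ x - z ∉ H} ≤ q ^ i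

/-- A factor of degree `n` with its universal pattern. -/
structure Fd (χ : AddChar A ℂ) (P : ZA A) (G G' : ℕ → ZA A) (z : ZA A) (u w : ℕ) : Prop where
  fa : χ ∈ Fa A
  kp : Kp P
  pr : Pr2 χ n G G' Λ.W Λ.ω
  sz : Sz G q n u
  sz' : Sz G' q n u
  szc : Hy.sz z ≤ u
  u1 : Un (P * G 1) (S0 Λ) z w q
  u2 : Un (P * G (n - 1)) (V0 Λ) z w (q ^ (n - 1))

/-- The polynomial of a factor. -/
structure Fp (χ : AddChar A ℂ) (F : ℂ[X]) (G : ℕ → ZA A) : Prop where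
  fe : Fe q n F
  dv : F ∣ Λ.L χ
  ev : ∀ k, ev χ (G k) = F.coeff k

/-- The two factors. -/
structure Sx (χ : AddChar A ℂ) (P : ZA A) (F B : ℂ[X]) (G G' : ℕ → ZA A) (z z' : ZA A)
    (u w : ℕ) : Prop where
  pq : Pq P
  dg : Dgs Λ
  eq : Λ.L χ = F * B
  d1 : Fd Λ χ P G G' z u w
  d2 : Fd Λ χ P G' G z' u w
  p1 : Fp Λ χ F G
  p2 : Fp Λ χ B G'
  sum : z + z' = P

/-- A partner on the second curve. -/
structure Pd (j : A' →+ A) (χ : AddChar A ℂ) (G H : ℕ → ZA A) (u : ℕ) : Prop where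
  ker : Nat.card j.ker ≤ 12
  pr : Pr2 χ n G H (Ej Λ' j) (j Λ'.ω)
  sz : Sz H q n u

/-- The points of the first curve come from the points of the second curve. -/
def Rel (j : A' →+ A) (E : ℕ) : Prop := ∃ j', (j' = j ∨ j' = -j) ∧ ∃ t,
  E * #{p ∈ Λ.S | (Ej Λ' j' 1).coeff (p + t) = 0} ≤ q

/-- The conclusion. -/
def Fn (C0 : ℕ) : Prop := ∃ (θ : A ≃+ A') (t : A'), C0 * #{s ∈ Λ.S | θ s + t ∉ Λ'.S} ≤ q

/-- The relation of an unrelated partner. -/
def Ur (χ : AddChar A ℂ) (P z : ZA A) (ω ω' : A) : Prop :=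
  χ ω * ev χ z + χ ω' * (ev χ P - ev χ z) = 0

/-- The outcome of one step for a partner that is not hyperelliptic. -/
def St (j : A' →+ A) (P z : ZA A) (G : ℕ → ZA A) (E : ℕ) (L L' : Finset A) : Prop :=
  ∃ (X0 T0 X1 T1 : Finset A) (B : Finset (A × A)),
    Wn (al P z Λ.ω) (Dd P z Λ.ω (j Λ'.ω)) (ka P z Λ.ω (j Λ'.ω)) L X0 T0 X1 T1 ∧ E * #B ≤ q ^ n ∧
    ∀ e ∈ Es Λ, e ∉ B → Ed (al P z Λ.ω) (Dd P z Λ.ω (j Λ'.ω)) (ka P z Λ.ω (j Λ'.ω))
      (gb P (G 1) Λ.ω (j Λ'.ω)) (gb P (G (n - 1)) Λ.ω (j Λ'.ω)) T0 X1 T1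
      (pat (Ej Λ' j 1) e.1 L') (pat (Ej Λ' (-j) 1) e.1 L') (pat (Ej Λ' j (n - 1)) e.2 L')
      (pat (Ej Λ' (-j) (n - 1)) e.2 L') e.1 e.2

/-- The outcome of one step for a hyperelliptic partner. -/
def Sh (j : A' →+ A) (χ : AddChar A ℂ) (P z : ZA A) (E : ℕ) (L L' : Finset A) : Prop :=
  ∃ B : Finset (A × A), E * #B ≤ q ^ n ∧ ∀ e ∈ Es Λ, e ∉ B → Sgl (pat (Ej Λ' j 1) e.1 L') L →
    Sgl (pat (Ej Λ' j (n - 1)) e.2 L') L → χ (j Λ'.ω) * (ev χ P * ev χ z - ev χ z ^ 2) +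
      χ Λ.ω * (ev χ P * ev χ (pat (Ej Λ' j 1) e.1 L') - ev χ z) *
        (ev χ P * ev χ (pat (Ej Λ' j (n - 1)) e.2 L') - ev χ z) = 0

/-- The class `x` is covered by `Y` through `j`. -/
def Cv (j : A' →+ A) (Y : Finset A') (T : Finset A) (x : A) : Prop := ∃ y ∈ Y, j y - x ∈ T

end ld

/-! ### The group ring -/

section ring

variable {A A' : Type} [AddCommGroup A] [AddCommGroup A'] {y z y' z' : ZA A} {x t : A}
  {L L' X Y : Finset A} {w w' Q q n u u' : ℕ} {G H V : ℕ → ZA A}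

lemma br_sg (a : A) : br (sg a) = sg (-a) := by simp [br]

lemma br_br (y : ZA A) : br (br y) = y := by
  have : (br (A := A)).comp br = RingHom.id _ := za_ext fun a => by simp [br]
  exact DFunLike.congr_fun this y

lemma br_pu (j : A' →+ A) (y : ZA A') : br (pu j y) = pu (-j) y := by
  rw [br, pu_pu]
  congr 2

lemma sz_br (y : ZA A) : sz (br y) ≤ sz y := sz_pu _ _

lemma br_md (G H : ℕ → ZA A) (m : ℕ) :
    br (md G H m) = md (fun i => br (G i)) (fun i => br (H i)) m := by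
  simp only [md, map_sum, map_mul]

lemma Sz.br (h : Sz G q n u) : Sz (fun i => br (G i)) q n u := fun k hk => (sz_br _).trans (h k hk)

lemma Sz.up (h : Sz G q n u) (e : u ≤ u') : Sz G q n u' := fun k hk =>
  (h k hk).trans (Nat.mul_le_mul_right _ e)

lemma sz_sg_mul (a : A) (y : ZA A) : sz (sg a * y) ≤ sz y :=
  (sz_mul _ _).trans ((Nat.mul_le_mul_right _ (sz_single _ _)).trans_eq (one_mul _))

lemma sz_pow (y : ZA A) (m : ℕ) : sz (y ^ m) ≤ sz y ^ m := by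
  induction m with
  | zero => simpa [AddMonoidAlgebra.one_def] using sz_single (0 : A) 1
  | succ m ih => exact pow_succ y m ▸ (sz_mul _ _).trans (Nat.mul_le_mul_right _ ih)

lemma coeff_sg_mul (a b : A) (y : ZA A) : (sg a * y).coeff b = y.coeff (b - a) := by
  rw [coeff_single_mul, one_mul]

lemma coeff_sg (a b : A) : (sg a).coeff b = if a = b then 1 else 0 := by
  simp [Finsupp.single_apply]

lemma coeff_loc (z : ZA A) (x t : A) : (loc z x).coeff t = z.coeff (x + t) := by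
  rw [loc, coeff_sg_mul, sub_neg_eq_add, add_comm]

lemma coeff_pat (y : ZA A) (x : A) (L : Finset A) (t : A) :
    (pat y x L).coeff t = if t ∈ L then y.coeff (x + t) else 0 := by
  simp [pat, Finsupp.finsetSum_apply, Finsupp.single_apply]

lemma za_eq (h : ∀ t, y.coeff t = z.coeff t) : y = z :=
  AddMonoidAlgebra.coeff_injective (Finsupp.ext h)

lemma pat_eq_zero : pat y x L = 0 ↔ Fr y x L :=
  ⟨fun h t ht => by simpa [coeff_pat, ht] using congrArg (·.coeff t) h,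
    fun h => za_eq fun t => by rw [coeff_pat]; split_ifs with e; exacts [h t e, rfl]⟩

lemma Fr.mono (h : Fr y x L') (e : L ⊆ L') : Fr y x L := fun t ht => h t (e ht)

lemma sz_pat (y : ZA A) (x : A) (L : Finset A) : sz (pat y x L) ≤ #L :=
  card_le_card fun t ht => by
    by_contra e
    exact Finsupp.mem_support_iff.1 ht (by rw [coeff_pat, if_neg e])

lemma coeff_pat_mul (y z : ZA A) (x : A) (L : Finset A) (t : A) :
    (pat y x L * z).coeff t = ∑ s ∈ L, y.coeff (x + s) * z.coeff (t - s) := by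
  simp only [pat, sum_mul, AddMonoidAlgebra.coeff_sum, Finsupp.finsetSum_apply, coeff_single_mul]

/-- A single label of a large window that is seen in the small window lies in it. -/
lemma Sgl.close (h : Sgl (pat y x L') L') (e : L ⊆ L') (hc : Fr y x L → Fr y x L') :
    Sgl (pat y x L') L := by
  rcases h with h | ⟨t, -, h⟩
  · exact .inl h
  by_cases e' : Fr y x L
  · exact .inl (pat_eq_zero.2 (hc e'))
  simp only [Fr, not_forall] at e'
  obtain ⟨s, hs, e'⟩ := e'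
  have := congrArg (·.coeff s) h
  simp only [coeff_pat, if_pos (e hs), coeff_sg] at this
  split_ifs at this with e2
  · exact .inr ⟨t, e2 ▸ hs, h⟩
  · exact absurd this e'

lemma cl_ex (X : Finset A) : ∃ Y, Cl X Y ∧ #Y ≤ #X ^ 3 :=
  ⟨image₂ (· - ·) (image₂ (· + ·) X X) X, fun _ ha _ hb _ hd =>
    mem_image₂_of_mem (mem_image₂_of_mem ha hb) hd, (card_image₂_le _ _ _).trans
      ((Nat.mul_le_mul_right _ (card_image₂_le _ _ _)).trans_eq (by ring))⟩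

lemma Cl.sub (h : Cl X Y) (h0 : 0 ∈ X) : X ⊆ Y := fun a ha => by simpa using h a ha 0 h0 0 h0

lemma Un.down (h : Un y X z w Q) (e : w' ≤ w) : Un y X z w' Q := fun t =>
  (Nat.mul_le_mul_right _ e).trans (h t)

lemma Un.mono (h : Un y X z w Q) (e : Y ⊆ X) : Un y Y z w Q := fun t =>
  (Nat.mul_le_mul_left _ (card_le_card (filter_subset_filter _ e))).trans (h t)

lemma Un.neg (h : Un y X z w Q) : Un (-y) X (-z) w Q := fun t => by simpa using h t

/-- The points that are bad somewhere on a window. -/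
lemma Un.win (h : Un y X z w Q) (T : Finset A) :
    w * #{x ∈ X | ∃ t ∈ T, y.coeff (x + t) ≠ z.coeff t} ≤ #T * Q := by
  refine le_trans (Nat.mul_le_mul_left _ (card_le_card fun x hx => ?_))
    (Ac.mul_card_biUnion (I := T) le_rfl fun t _ => h t)
  obtain ⟨a, t, b, d⟩ := mem_filter.1 hx
  exact mem_biUnion.2 ⟨t, b, mem_filter.2 ⟨a, d⟩⟩

variable [Fintype A] {χ : AddChar A ℂ}

lemma coeff_br (y : ZA A) (b : A) : (br y).coeff b = y.coeff (-b) := Ac.coeff_bar y b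

lemma ev_br (χ : AddChar A ℂ) (y : ZA A) : ev χ (br y) = conj (ev χ y) := (conj_ev χ y).symm

lemma ev_sg (χ : AddChar A ℂ) (a : A) : ev χ (sg a) = χ a := by simp

lemma Un.mul (h : Un y X z w Q) (v : ZA A) (e : w' * sz v ≤ w) : Un (v * y) X (v * z) w' Q := by
  intro t
  rcases (sz v).eq_zero_or_pos with h0 | h0
  · obtain rfl : v = 0 := za_eq fun s => by
      have := card_eq_zero.1 h0
      exact Finsupp.notMem_support_iff.1 (this ▸ notMem_empty s)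
    simp
  have h1 := h.win (v.coeff.support.image (t - ·))
  have h2 : #{x ∈ X | (v * y).coeff (x + t) ≠ (v * z).coeff t} ≤ #{x ∈ X |
      ∃ s ∈ v.coeff.support.image (t - ·), y.coeff (x + s) ≠ z.coeff s} := by
    refine card_le_card fun x hx => mem_filter.2 ⟨(mem_filter.1 hx).1, ?_⟩
    by_contra e'
    refine (mem_filter.1 hx).2 ?_
    rw [Hy.coeff_mul, Hy.coeff_mul]
    refine sum_congr rfl fun b _ => ?_
    by_cases hb : v.coeff b = 0
    · rw [hb, zero_mul, zero_mul]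
    · rw [add_sub_assoc, not_not.1 fun e2 => e' ⟨_, mem_image_of_mem _
        (Finsupp.mem_support_iff.2 hb), e2⟩]
  refine Nat.le_of_mul_le_mul_left ?_ h0
  calc sz v * (w' * _) = w' * sz v * _ := by ring
    _ ≤ w * _ := Nat.mul_le_mul e h2
    _ ≤ _ := h1
    _ ≤ _ := Nat.mul_le_mul_right _ card_image_le

lemma Pr2.symm {w : A} (h : Pr2 χ n G H V w) : Pr2 χ n H G V w := by
  refine ⟨h.h0, h.g0, fun m hm => ?_, fun k hk => ?_⟩
  · rw [h.cv m hm, ← sum_range_reflect]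
    refine sum_congr rfl fun i hi => ?_
    have := mem_range.1 hi
    rw [mul_comm, show m - (m + 1 - 1 - i) = i by omega, Nat.add_sub_cancel]
  · have := h.sy (n - k) (Nat.sub_le _ _)
    rwa [Nat.sub_sub_self hk, mul_comm, mul_comm (ev χ (G k))] at this

/-- The extreme terms and the middle terms. -/
lemma Pr2.cv' {w : A} (h : Pr2 χ n G H V w) {m : ℕ} (h0 : 0 < m) (hm : m ≤ n) :
    ev χ (V m) = ev χ (G m) + ev χ (H m) + ev χ (md G H m) := by
  rw [h.cv m hm, sum_range_succ, range_eq_Ico, ← Ioo_insert_left h0, sum_insert (by simp),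
    Nat.sub_self, h.g0, h.h0, md, map_sum]
  simp only [map_one, map_mul, Nat.sub_zero]
  ring

lemma md_one (G H : ℕ → ZA A) : md G H 1 = 0 := sum_empty

lemma kp_zero {P : ZA A} (hP : Kp P) (hχ : χ ∈ Fa A) (h : ev χ (P * y) = 0) : P * y = 0 := by
  rw [map_mul, mul_eq_zero] at h
  rw [Ac.kp_eq hP hχ (z := 0) ((h.resolve_left (hP.ne χ hχ)).trans (map_zero _).symm), mul_zero]

end ring

/-! ### Edges and scales -/

section ld

variable {q n c c' M M' u u' v w w' a K K' E E' k m : ℕ} {A A' : Type} [AddCommGroup A] [Fintype A]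
  [AddCommGroup A'] [Fintype A'] {Λ : LD q n A} {Λ' : LD q n A'} {χ : AddChar A ℂ} {P z z' : ZA A}
  {G G' H : ℕ → ZA A} {j : A' →+ A} {e e' : A × A} {x : A}

lemma mem_Pi : x ∈ Pi Λ m ↔ Pm Λ m x := by simp [Pi]

lemma mem_Es : e ∈ Es Λ ↔ Eg Λ e.1 e.2 := by simp [Es]

lemma mem_PP : x ∈ PP Λ ↔ Pm Λ n x ∧ Pm Λ n (Λ.ω - x) := by simp [PP]

lemma es_fst (h : e ∈ Es Λ) : e.1 ∈ Λ.S := (mem_Es.1 h).1

lemma es_snd (h : e ∈ Es Λ) : e.2 ∈ Pi Λ (n - 1) := mem_Pi.2 (mem_Es.1 h).2.1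

lemma S0_sub : S0 Λ ⊆ Λ.S := filter_subset _ _

lemma V0_sub : V0 Λ ⊆ Pi Λ (n - 1) := filter_subset _ _

lemma card_Pi (h : GD Λ c) (hm : m ≤ n) : #(Pi Λ m) ≤ c * q ^ m :=
  (card_le_card fun _ hx => mem_filter.2 ⟨mem_univ _, (mem_Pi.1 hx).1 ▸ one_ne_zero⟩).trans
    (Ac.gd_supp h hm)

lemma es_sb (h : e ∈ Es Λ) : Sb Λ n 1 (e.1 + e.2) e.1 :=
  ⟨Ac.w1_ne.2 (es_fst h), by rw [add_sub_cancel_left, (mem_Es.1 h).2.1.1]; exact one_ne_zero⟩

/-- An edge is determined by its sum. -/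
lemma es_inj (hn : 3 ≤ n) (hE : ED Λ c) (h : e ∈ Es Λ) (h' : e' ∈ Es Λ)
    (s : e.1 + e.2 = e'.1 + e'.2) : e = e' := by
  rcases (mem_Es.1 h).uf hE one_pos (by omega) (s ▸ es_sb h') with ⟨-, a⟩ | ⟨a, -⟩
  · exact Prod.ext a.symm (add_left_cancel (a ▸ s))
  · omega

lemma es_sum (hn : 3 ≤ n) (hE : ED Λ c) (Z : Finset A) : #{e ∈ Es Λ | e.1 + e.2 ∈ Z} ≤ #Z :=
  card_le_card_of_injOn (fun e => e.1 + e.2) (fun _ h => (mem_filter.1 h).2) fun _ h _ h' =>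
    es_inj hn hE (mem_filter.1 h).1 (mem_filter.1 h').1

lemma es_cnt1 (h : GD Λ c) (N : Finset A) : #{e ∈ Es Λ | e.1 ∈ N} ≤ #N * (c * q ^ (n - 1)) :=
  (card_le_card (t := N ×ˢ Pi Λ (n - 1)) fun _ he => mem_product.2
    ⟨(mem_filter.1 he).2, es_snd (mem_filter.1 he).1⟩).trans ((card_product _ _).trans_le
      (Nat.mul_le_mul_left _ (card_Pi h (Nat.sub_le _ _))))

lemma es_cnt2 (h : 4 ≤ q) (N : Finset A) : #{e ∈ Es Λ | e.2 ∈ N} ≤ #N * (2 * q) :=
  (card_le_card (t := Λ.S ×ˢ N) fun _ he => mem_product.2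
    ⟨es_fst (mem_filter.1 he).1, (mem_filter.1 he).2⟩).trans ((card_product _ _).trans_le
      ((mul_comm _ _).trans_le (Nat.mul_le_mul_left _ (Ac.card_S Λ h))))

/-- Decompositions near an edge. -/
lemma ev_edge (hn : 3 ≤ n) (hE : ED Λ c) (hT : TD Λ v a) (k0 : 0 < k) (kn : k < n)
    {Y Z T : Finset A} (hY : #Y ≤ v * q ^ k) (hZ : #T * #Z ≤ v * q ^ (n - k)) :
    ∃ (B : Finset (A × A)) (L : Finset A), v * #B ≤ q ^ n ∧ #L ≤ v ^ a ∧ ∀ e ∈ Es Λ, e ∉ B →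
      ∀ t ∈ T, ∀ y ∈ Y, e.1 + e.2 + t - y ∈ Z →
        (k = 1 ∧ y - e.1 ∈ L) ∨ (k = n - 1 ∧ y - e.2 ∈ L) := by
  obtain ⟨Z', L, a1, a2, a3⟩ := hT k k0 kn (image₂ (fun t z => z - t) T Z) Y
    ((card_image₂_le _ _ _).trans hZ) hY
  refine ⟨{e ∈ Es Λ | e.1 + e.2 ∈ Z'}, L, (Nat.mul_le_mul_left _ (es_sum hn hE Z')).trans a1, a2,
    fun e he hB t ht y hy hz => ?_⟩
  have e1 : e.1 + e.2 + t - y - t + y = e.1 + e.2 := by abel
  have g := mem_Es.1 he
  obtain ⟨s, hs, h⟩ := a3 _ (mem_image₂_of_mem ht hz) y hy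
    (e1.symm ▸ fun h => hB (mem_filter.2 ⟨he, h⟩)) (by rw [e1, g.one hE]; exact one_ne_zero)
  rw [e1] at h
  rcases g.uf hE k0 kn (h.resolve_right (g.res.2 k k0 kn _)) with ⟨b1, b2⟩ | ⟨b1, b2⟩
  · exact .inl ⟨b1, by rwa [← b2, sub_sub_cancel]⟩
  · exact .inr ⟨b1, by rwa [← b2, sub_sub_cancel]⟩

lemma un_W (h : GD Λ c) (hm : m ≤ n) {X : Finset A} (hX : ∀ x ∈ X, (Λ.W m).coeff x = 1)
    (e : c * w ≤ q) : Un (Λ.W m) X 1 w (q ^ m) := fun t => by
  rcases eq_or_ne t 0 with rfl | ht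
  · rw [filter_false_of_mem fun x hx => by simp [hX x hx, AddMonoidAlgebra.one_def]]
    simp
  rcases q.eq_zero_or_pos with rfl | hq
  · have := Λ.hi
    rcases c.eq_zero_or_pos with rfl | hc
    · have h2 := Ac.gd_supp h hm
      rw [zero_mul, Nat.le_zero, card_eq_zero] at h2
      rw [filter_false_of_mem fun x hx _ => notMem_empty x (h2 ▸ mem_filter.2
        ⟨mem_univ _, hX x hx ▸ one_ne_zero⟩)]
      simp
    · simp [Nat.eq_zero_of_le_zero (Nat.le_of_mul_le_mul_left (e.trans_eq (mul_zero c).symm) hc)]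
  have h1 : #{x ∈ X | (Λ.W m).coeff (x + t) ≠ (1 : ZA A).coeff t} ≤
      #{a | (Λ.W m).coeff a ≠ 0 ∧ (Λ.W m).coeff (a + t) ≠ 0} := card_le_card fun x hx => by
    obtain ⟨a, b⟩ := mem_filter.1 hx
    exact mem_filter.2 ⟨mem_univ _, hX x a ▸ one_ne_zero, by
      simpa [AddMonoidAlgebra.one_def, Finsupp.single_apply, ht.symm] using b⟩
  refine Nat.le_of_mul_le_mul_left ?_ hq
  calc q * (w * _) = w * (q * _) := by ring
    _ ≤ w * (c * q ^ m) := Nat.mul_le_mul_left _ ((Nat.mul_le_mul_left _ h1).trans (h.pair hm ht))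
    _ = c * w * q ^ m := by ring
    _ ≤ _ := Nat.mul_le_mul_right _ e

lemma un_brW (h : ED Λ c) (hq : 0 < q) (h0 : 0 < m) (hm : m < n) {X : Finset A}
    (hX : ∀ x ∈ X, (Λ.W m).coeff x = 1) (e : c * w ≤ q) (s : A) :
    Un (sg s * br (Λ.W m)) X 0 w (q ^ m) := fun t => by
  have h1 : #{x ∈ X | (sg s * br (Λ.W m)).coeff (x + t) ≠ (0 : ZA A).coeff t} ≤
      #{b | (Λ.W m).coeff b ≠ 0 ∧ (Λ.W m).coeff (s - t - b) ≠ 0} := card_le_card fun x hx => by
    obtain ⟨a, b⟩ := mem_filter.1 hx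
    rw [coeff_sg_mul, coeff_br, show -(x + t - s) = s - t - x by abel] at b
    exact mem_filter.2 ⟨mem_univ _, hX x a ▸ one_ne_zero, b⟩
  refine Nat.le_of_mul_le_mul_left ?_ hq
  calc q * (w * _) = w * (q * _) := by ring
    _ ≤ w * (c * q ^ m) := Nat.mul_le_mul_left _ ((Nat.mul_le_mul_left _ h1).trans (h.clf' h0 hm _))
    _ = c * w * q ^ m := by ring
    _ ≤ _ := Nat.mul_le_mul_right _ e

lemma br_Ej (j : A' →+ A) (k : ℕ) : br (Ej Λ' j k) = Ej Λ' (-j) k := br_pu _ _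

lemma coeff_Ej (j : A' →+ A) (k : ℕ) (x : A) :
    (Ej Λ' j k).coeff x = ∑ y with j y = x, (Λ'.W k).coeff y := by
  conv_lhs => rw [Ej, ← sum_single (Λ'.W k), map_sum]
  simp only [pu_single, AddMonoidAlgebra.coeff_sum, Finsupp.finsetSum_apply,
    AddMonoidAlgebra.coeff_single, Finsupp.single_apply, sum_filter]

lemma Ej_ne : (Ej Λ' j k).coeff x ≠ 0 ↔ ∃ y, j y = x ∧ (Λ'.W k).coeff y ≠ 0 := by
  rw [coeff_Ej, Ne, sum_eq_zero_iff_of_nonneg fun y _ => Λ'.nn k y]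
  simp

lemma sz_Ej (h : GD Λ' c) (j : A' →+ A) : Sz (Ej Λ' j) q n c := fun _ hk =>
  (sz_pu _ _).trans (Ac.gd_sz h hk)

lemma sz_W (h : GD Λ c) : Sz Λ.W q n c := fun _ hk => Ac.gd_sz h hk

/-- The preimage of a set under a map with small kernel. -/
lemma card_pre (h : Nat.card j.ker ≤ 12) (T : Finset A) : #{y | j y ∈ T} ≤ 12 * #T := by
  refine card_le_mul_card_image_of_maps_to (f := j) (fun y hy => (mem_filter.1 hy).2) _
    fun x _ => ?_
  rcases ({y ∈ ({y | j y ∈ T} : Finset A') | j y = x} : Finset A').eq_empty_or_nonempty with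
    e | ⟨y, hy⟩
  · simp [e]
  refine le_trans (card_le_card_of_injOn (t := {y | y ∈ j.ker}) (· - y) (fun s hs => ?_)
    fun _ _ _ _ => sub_left_injective.eq_iff.1) ?_
  · simp [(mem_filter.1 hs).2, (mem_filter.1 hy).2]
  · rwa [← Fintype.card_subtype, ← Nat.card_eq_fintype_card]

lemma ker_neg (j : A' →+ A) : (-j).ker = j.ker := by ext; simp

lemma card_eq (hq : 0 < q) (hn : 0 < n)
    (eP : ∏ χ ∈ univ.erase 0, Λ.L χ = ∏ χ ∈ univ.erase 0, Λ'.L χ) : Nat.card A' = Nat.card A := by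
  have a := Od.oadd_deg Hy.a_LB Λ hq
  rw [eP, Od.oadd_deg Hy.a_LB Λ' hq] at a
  have a1 := Nat.eq_of_mul_eq_mul_right (by omega) a
  have := Nat.card_pos (α := A)
  have := Nat.card_pos (α := A')
  omega

lemma dd_of (h : ED Λ c) : DD Λ c := ⟨h.gd, h.pw, h.sym⟩

lemma DD.up (h : DD Λ c) (e : c ≤ c') : DD Λ c' := ⟨Ac.gd_mono h.gd e, h.pw, h.sym⟩

lemma NS.up {N : ZA A} (h : NS Λ N c) (e : c ≤ c') : NS Λ N c' :=
  ⟨h.nw, h.pm, h.few.trans (Nat.mul_le_mul_right _ e)⟩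

/-- Few classes contain two divisors. -/
lemma DD.big (h : DD Λ c) (hm : m ≤ n) :
    q * #{b | (Λ.W m).coeff b ≠ 0 ∧ (Λ.W m).coeff b ≠ 1} ≤ c * q ^ m := by
  have h1 : (q : ℤ) * #{b | (Λ.W m).coeff b ≠ 0 ∧ (Λ.W m).coeff b ≠ 1} ≤
      ∑ b, (Λ.W m).coeff b ^ 2 := by
    rw [card_filter, Nat.cast_sum, mul_sum]
    refine sum_le_sum fun b _ => ?_
    have := Λ.nn m b
    have := h.pw m b
    split_ifs with e
    · rw [sq, Nat.cast_one]
      exact mul_le_mul (by omega) (by omega) zero_le_one (by omega)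
    · simpa using sq_nonneg _
  exact_mod_cast h1.trans (h.gd.e0 m hm)

lemma rat_down {x y : ℕ} (h : M * x ≤ (M + 1) * y) (e : M' ≤ M) : M' * x ≤ (M' + 1) * y := by
  rcases le_total x y with e' | e'
  · exact Nat.mul_le_mul (Nat.le_succ _) e'
  · obtain ⟨d, rfl⟩ := Nat.exists_eq_add_of_le e'
    nlinarith [Nat.mul_le_mul_right d e]

lemma XD.down (h : XD Λ M) (e : M' ≤ M) : XD Λ M' :=
  ⟨rat_down h.pp e, fun m a b => rat_down (h.rp m a b) e⟩

lemma UD.down (h : UD Λ M) (e : M' ≤ M) : UD Λ M' := fun m a b => rat_down (h m a b) e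

lemma Gn.up (h : Gn Λ E) (e : E ≤ E') : Gn Λ E' := fun H a t =>
  (h H a t).trans_le (Nat.mul_le_mul_right _ e)

lemma Rel.down (h : Rel Λ Λ' j E) (e : E' ≤ E) : Rel Λ Λ' j E' :=
  h.imp fun _ h => ⟨h.1, h.2.imp fun _ h => (Nat.mul_le_mul_right _ e).trans h⟩

lemma Sl.pos (h : Sl Λ u w a K) (h0 : 0 < K) : 0 < u :=
  lt_of_lt_of_le (Nat.mul_pos h0 (Nat.pow_pos Ac.one_le_om)) h.lo

lemma Sl.uw (h : Sl Λ u w a K) (h0 : 0 < K) : u ≤ w := (Nat.le_self_pow h0.ne' u).trans h.mid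

lemma Sl.sc (h : Sl Λ u w a K) : Sc A q u K := by
  refine ⟨h.lo, ?_⟩
  rcases K.eq_zero_or_pos with rfl | h0
  · exact h.hi
  · exact (Nat.pow_le_pow_left (h.uw h0) _).trans h.hi

/-- A larger base scale. -/
lemma Sl.up (h : Sl Λ u w a K) (e : u ≤ v) (e' : v ^ K' ≤ w) (hK : K' ≤ K) (h0 : 0 < K') :
    Sl Λ v w a K' := by
  have w0 : 0 < w := lt_of_lt_of_le (h.pos (by omega)) (h.uw (by omega))
  exact ⟨(h.sc.down hK).lo.trans e, e', (Nat.pow_le_pow_right w0 hK).trans h.hi,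
    fun s a b => h.td s (e.trans a) (b.trans (Nat.pow_le_pow_right w0 hK))⟩

lemma Sl.down (h : Sl Λ u w a K) (hK : K' ≤ K) (h0 : 0 < K') : Sl Λ u w a K' :=
  h.up le_rfl ((Nat.pow_le_pow_right (h.pos (by omega)) hK).trans h.mid) hK h0

/-- The base scale `u ^ m`. -/
lemma Sl.pow (h : Sl Λ u w a K) (m0 : 0 < m) (hK : m * K' ≤ K) (h0 : 0 < K') :
    Sl Λ (u ^ m) w a K' :=
  have := Nat.mul_pos m0 h0
  h.up (Nat.le_self_pow m0.ne' u) ((pow_mul u m K').symm.trans_le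
    ((Nat.pow_le_pow_right (h.pos (by omega)) hK).trans h.mid))
    ((Nat.le_mul_of_pos_left _ m0).trans hK) h0

lemma Sl.lv (h : Sl Λ u w a K) (h4 : 4 ≤ K) : Lv Λ u w a K :=
  ⟨h.sc, h.td _ (Nat.le_self_pow (by omega) u) ((Nat.pow_le_pow_right (h.pos (by omega)) h4).trans
    (Nat.pow_le_pow_left (h.uw (by omega)) _)), h.mid⟩

lemma Lv.down (h : Lv Λ u w a K) (hK : K' ≤ K) (h0 : 0 < K) : Lv Λ u w a K' :=
  ⟨h.sc.down hK, h.td, (Nat.pow_le_pow_right (h.sc.pos h0) hK).trans h.mid⟩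

/-- The same level with the precision `u ^ K'`. -/
lemma Lv.cut (h : Lv Λ u w a K) (hK : K' ≤ K) : Lv Λ u (u ^ K') a K' := ⟨h.sc.down hK, h.td, le_rfl⟩

lemma Fd.up (h : Fd Λ χ P G G' z u w) (e : u ≤ u') (e' : w' ≤ w) : Fd Λ χ P G G' z u' w' :=
  ⟨h.fa, h.kp, h.pr, h.sz.up e, h.sz'.up e, h.szc.trans e, h.u1.down e', h.u2.down e'⟩

lemma Pd.up (h : Pd Λ' j χ G H u) (e : u ≤ u') : Pd Λ' j χ G H u' := ⟨h.ker, h.pr, h.sz.up e⟩

lemma Sx.up {F B : ℂ[X]} (h : Sx Λ χ P F B G G' z z' u w) (e : u ≤ u') :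
    Sx Λ χ P F B G G' z z' u' w :=
  ⟨h.pq, h.dg, h.eq, h.d1.up e le_rfl, h.d2.up e le_rfl, h.p1, h.p2, h.sum⟩

lemma Sx.symm {F B : ℂ[X]} (h : Sx Λ χ P F B G G' z z' u w) : Sx Λ χ P B F G' G z' z u w :=
  ⟨h.pq, h.dg, h.eq.trans (mul_comm _ _), h.d2, h.d1, h.p2, h.p1, (add_comm _ _).trans h.sum⟩

end ld

end Pool.Agent.P.MP_9344a7_nt.Cy
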