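import Pool.Agent.P.MP_9344a7_nt.Cy.Base

/-! The data of a hyperelliptic partner. -/

namespace Pool.Agent.P.MP_9344a7_nt.Cy

open Polynomial Finset
open Pool.Agent.P.MP_9344a7_nt.R
open Pool.Agent.P.MP_9344a7_nt.Hy
open Pool.Agent.P.MP_9344a7_nt.Od (GD Kp Fe)
open Pool.Agent.P.MP_9344a7_nt.Ac (Sb Pm Sp ED CD TD AD Sc Eg Dgs)
open scoped Classical ComplexConjugate

set_option linter.unusedSectionVars false

variable {q n : ℕ} {A A' : Type} [AddCommGroup A] [Fintype A] [AddCommGroup A'] [Fintype A']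
  (Λ : LD q n A) (Λ' : LD q n A')

/-- The symmetry of a hyperelliptic curve. -/
structure Hs (κ : A') : Prop where
  om : Λ'.ω = n • κ
  sym : ∀ i ≤ n, ∀ b, (Λ'.W i).coeff (i • κ - b) = (Λ'.W i).coeff b

/-- The cofactor is the twisted reflection of the factor. -/
def Hk (χ : AddChar A ℂ) (n : ℕ) (G H : ℕ → ZA A) (k : A) : Prop :=
  ∀ i ≤ n, ev χ (H i) = ev χ (sg (i • k) * br (G i))

/-- A hyperelliptic partner. -/
structure Ph (j : A' →+ A) (χ : AddChar A ℂ) (G H : ℕ → ZA A) (κ : A') (u : ℕ) : Prop where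
  pd : Pd Λ' j χ G H u
  hk : Hk χ n G H (j κ)
  ne : χ.compAddMonoidHom j ≠ 0

/-- The outcome for an unrelated partner. -/
def Hu (j : A' →+ A) (χ : AddChar A ℂ) (P z : ZA A) (G H : ℕ → ZA A) (T : Finset A) (E : ℕ) :
    Prop :=
  Ur χ P z Λ.ω (j Λ'.ω) ∧ E * #{p ∈ Λ.S | ¬ Fr (Ej Λ' j 1) p T} ≤ q ∧
    ∃ B : Finset (A × A), E * #B ≤ q ^ n ∧ ∀ e ∈ Es Λ, e ∉ B →
      (∀ t ∈ T, (P ^ 2 * md G H n).coeff (e.1 + e.2 + t) = (-(2 * z ^ 2)).coeff t) ∧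
        ∀ y, j y - (e.1 + e.2) ∈ T → (Λ'.W n).coeff y ≠ 0 → Pm Λ' n y

/-- An isolated coefficient of a multiple of `1 - χ g` is divisible by `l`. -/
def Lad (χ : AddChar A ℂ) (F : Finset A) : Prop := 0 ∉ F ∧ ∀ l : ℕ, l.Prime → l ≤ 5 →
  ∀ (g x : A) (Z Y : ZA A), g ≠ 0 → l ^ 2 • g = 0 → ev χ Z = (1 - χ g) * ev χ Y →
    (∀ t ∈ F, Z.coeff (x + t) = 0) → (l : ℤ) ∣ Z.coeff x

variable {Λ Λ'} {κ : A'} {c m u u' E E' : ℕ} {x : A'} {j : A' →+ A} {χ : AddChar A ℂ}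
  {P z : ZA A} {G H : ℕ → ZA A} {T : Finset A}

lemma hs_of (h : HD Λ' c κ) : Hs Λ' κ := ⟨h.om, h.sym⟩

/-- The primes are symmetric. -/
lemma Hs.pm (h : Hs Λ' κ) (hm : m ≤ n) (hx : Pm Λ' m x) : Pm Λ' m (m • κ - x) := by
  refine ⟨(h.sym m hm x).trans hx.1, fun i i0 im b hb => hx.2 i i0 im (i • κ - b)
    ⟨(h.sym i (by omega) b).symm ▸ hb.1, ?_⟩⟩
  have e : (m - i) • κ - (m • κ - x - b) = x - (i • κ - b) := by
    obtain ⟨d, rfl⟩ := Nat.exists_eq_add_of_le im.le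
    rw [Nat.add_sub_cancel_left, add_nsmul]
    abel
  rw [← e, h.sym _ (by omega)]
  exact hb.2

lemma Ph.up (h : Ph Λ' j χ G H κ u) (e : u ≤ u') : Ph Λ' j χ G H κ u' := ⟨h.pd.up e, h.hk, h.ne⟩

lemma Hu.down (h : Hu Λ Λ' j χ P z G H T E) (e : E' ≤ E) : Hu Λ Λ' j χ P z G H T E' :=
  ⟨h.1, (Nat.mul_le_mul_right _ e).trans h.2.1, h.2.2.imp fun _ a =>
    ⟨(Nat.mul_le_mul_right _ e).trans a.1, a.2⟩⟩

end Pool.Agent.P.MP_9344a7_nt.Cy
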