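import Pool.Agent.P.MP_9344a7_nt.Cy.IfaceH

/-! The data of a curve and the theorem. -/

namespace Pool.Agent.P.MP_9344a7_nt.Cy

open Polynomial Finset Module
open Pool.Agent.P.MP_6f117a_ag (Place FF)
open Pool.Agent.P.MP_ab3ecb_nt.Inv (Dv deg SA LS ord dv)
open Pool.Agent.P.MP_9344a7_nt.R
open Pool.Agent.P.MP_9344a7_nt.Hy hiding pt
open Pool.Agent.P.MP_9344a7_nt.Od (GD Kp Fe)
open Pool.Agent.P.MP_9344a7_nt.Gt (pt lS Pr Can Bd Ch G12 Kb)
open Pool.Agent.P.MP_9344a7_nt.Ac (Sb Pm Sp ED CD TD AD Sc Eg Dgs)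
open scoped Classical IntermediateField ComplexConjugate

set_option linter.unusedVariables false

-- deps:
def S_XDG : Prop := ∀ n M : ℕ, 2 ≤ n → ∃ p0 : ℕ, ∀ (F E : Type) [Field F]
  [Fintype F] [Field E] [Algebra (AlgebraicClosure F) E] [FF (AlgebraicClosure F) E]
  (K e : Pic (AlgebraicClosure F) E) (σ : SA (AlgebraicClosure F) E)
  (Λ : LD (Fintype.card F) n (J σ)) [Fintype (J σ)], p0 < ringChar F → GB K (n + 1) →
  FB σ (Fintype.card F) → IsL σ K e Λ → ¬ G12 (AlgebraicClosure F) E → XD Λ M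

-- deps:
def S_UDG : Prop := ∀ n M : ℕ, 2 ≤ n → ∃ p0 : ℕ, ∀ (F E : Type) [Field F]
  [Fintype F] [Field E] [Algebra (AlgebraicClosure F) E] [FF (AlgebraicClosure F) E]
  (K e : Pic (AlgebraicClosure F) E) (σ : SA (AlgebraicClosure F) E)
  (Λ : LD (Fintype.card F) n (J σ)) [Fintype (J σ)], p0 < ringChar F → GB K (n + 1) →
  FB σ (Fintype.card F) → IsL σ K e Λ → UD Λ M

-- deps:
def S_NSD : Prop := ∀ n : ℕ, 2 ≤ n → ∃ c p0 : ℕ, ∀ (F E : Type) [Field F]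
  [Fintype F] [Field E] [Algebra (AlgebraicClosure F) E] [FF (AlgebraicClosure F) E]
  (K e : Pic (AlgebraicClosure F) E) (σ : SA (AlgebraicClosure F) E)
  (Λ : LD (Fintype.card F) n (J σ)) [Fintype (J σ)], p0 < ringChar F → GB K (n + 1) →
  FB σ (Fintype.card F) → IsL σ K e Λ → DD Λ c ∧ ∃ N, NS Λ N c

-- deps:
def S_NHY : Prop := ∀ (k E : Type) [Field k] [Field E] [Algebra k E] [IsAlgClosed k] [FF k E]
  (H : Pic k E), dg H = 2 → ll H = 2 → (∀ P : Place k E, ll (cls P) = 1) → Hyperelliptic k E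

-- deps: ADDN ADDH XDG UDG NSD NHY
def S_ALL : Prop := ∀ g : ℕ, 4 ≤ g → ∃ p0 : ℕ, ∀ (F E E' : Type) [Field F] [Fintype F] [Field E]
  [Algebra (AlgebraicClosure F) E] [Field E'] [Algebra (AlgebraicClosure F) E'] (C : Curve F E)
  (D : Curve F E'), p0 < ringChar F → Genus (AlgebraicClosure F) E g →
  Genus (AlgebraicClosure F) E' g → ¬ Hyperelliptic (AlgebraicClosure F) E → C.CyclicJ →
  (∀ m, 0 < m → C.pts m = D.pts m) → C.SameH D → C.Conj D

end Pool.Agent.P.MP_9344a7_nt.Cy
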