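import Pool.Agent.P.MP_9344a7_nt.Cy.IfaceA

/-! Steps PK4, DEG2, PRA, FTS, CUB, CUM, PRD, PH, EDX. -/

set_option linter.unusedVariables false
set_option linter.unusedSectionVars false

namespace Pool.Agent.P.MP_9344a7_nt.Cy

section

open Polynomial Finset
open Pool.Agent.P.MP_9344a7_nt.R
open Pool.Agent.P.MP_9344a7_nt.Hy
open Pool.Agent.P.MP_9344a7_nt.Od (GD Kp Fe)
open Pool.Agent.P.MP_9344a7_nt.Ac (Sb Pm Sp ED CD TD AD Sc Eg Dgs)
open scoped Classical ComplexConjugate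

theorem p_PK4 :
    S_PK4 := by
  intro A _ _ hA
  obtain ⟨g, hg⟩ := IsAddCyclic.exists_generator (α := A)
  have ho := addOrderOf_eq_card_of_forall_mem_zmultiples hg
  have h0 : 0 < Nat.card A := Nat.card_pos
  have hG : ∀ l ∈ (Nat.card A).primeFactors,
      l.Prime ∧ addOrderOf ((Nat.card A / l) • g) = l := fun l hl =>
    ⟨Nat.prime_of_mem_primeFactors hl, by
      have hd := Nat.dvd_of_mem_primeFactors hl
      rw [← ho] at hd ⊢
      exact addOrderOf_nsmul_addOrderOf_sub (by omega) hd⟩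
  obtain ⟨h1, h2, -⟩ := pk_prod (fun l => (Nat.card A / l) • g) (Nat.card A).primeFactors hG
  refine ⟨_, ⟨⟨h1, h2, fun x hx => pk_zero fun ψ => ?_, fun ψ hψ => ?_⟩, fun l hl hd => ?_⟩⟩
  · rw [map_mul]
    by_cases hψ : ψ ∈ Fa A
    · rw [hx ψ hψ, mul_zero]
    have hd : orderOf (ψ g) ∣ Nat.card A := orderOf_dvd_of_pow_eq_one (by
      rw [← AddChar.map_nsmul_eq_pow, card_nsmul_eq_zero', AddChar.map_zero_eq_one])
    obtain ⟨m, hm⟩ := hd
    have hm1 : m ≠ 1 := by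
      rintro rfl
      refine hψ (mem_Fa.2 (AddChar.injective_iff.2 fun a ha => ?_))
      obtain ⟨i, rfl⟩ := mem_multiples_iff_mem_zmultiples.2 (hg a)
      simp only at ha ⊢
      rw [AddChar.map_nsmul_eq_pow, ← orderOf_dvd_iff_pow_eq_one, ← mul_one (orderOf _),
        ← hm] at ha
      rwa [← addOrderOf_dvd_iff_nsmul_eq_zero, ho]
    obtain ⟨l, hl, r, rfl⟩ := Nat.exists_prime_and_dvd hm1
    rw [map_prod, prod_eq_zero (i := l) (Nat.mem_primeFactors.2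
      ⟨hl, ⟨orderOf (ψ g) * r, by rw [hm]; ring⟩, h0.ne'⟩), zero_mul]
    rw [map_sub, map_one, ev_single, AddChar.map_nsmul_eq_pow, hm, mul_left_comm,
      Nat.mul_div_cancel_left _ hl.pos, pow_mul, pow_orderOf_eq_one]
    simp
  · rw [map_prod, prod_ne_zero_iff]
    intro l hl e
    obtain ⟨hp, hol⟩ := hG l hl
    rw [map_sub, map_one, ev_single, sub_eq_zero, Int.cast_one, one_mul] at e
    have := AddChar.injective_iff.1 (mem_Fa.1 hψ) e.symm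
    rw [this, addOrderOf_zero] at hol
    exact hp.one_lt.ne hol
  · have hm : l ∈ (Nat.card A).primeFactors := Nat.mem_primeFactors.2 ⟨hl, hd, h0.ne'⟩
    obtain ⟨h3, h4, h5⟩ := pk_prod (fun l => (Nat.card A / l) • g)
      ((Nat.card A).primeFactors.erase l) fun x hx => hG x (mem_of_mem_erase hx)
    refine ⟨(Nat.card A / l) • g, _, _, (hG l hm).2, (mul_prod_erase _ _ hm).symm,
      h4.trans (Nat.pow_le_pow_right two_pos card_erase_le), h3,
      Nat.Coprime.prod_left fun x hx => (Nat.coprime_primes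
        (hG x (mem_of_mem_erase hx)).1 hl).2 (ne_of_mem_erase hx), h5⟩

end

section

open Polynomial Finset
open Pool.Agent.P.MP_9344a7_nt.R
open Pool.Agent.P.MP_9344a7_nt.Hy
open Pool.Agent.P.MP_9344a7_nt.Od (GD Kp Fe)
open Pool.Agent.P.MP_9344a7_nt.Ac (Sb Pm Sp ED CD TD AD Sc Eg Dgs)
open scoped Classical ComplexConjugate

theorem p_DEG2 :
    S_DEG2 := by
  intro c n a hn
  obtain ⟨K0, h0⟩ := Ac.lf_ex c n
  obtain ⟨Kz, hz⟩ := Ac.a_ZERO c n a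
  refine ⟨n * K0 ^ 2 + K0 + c + 3 + 2 * c * (Kz + 3) + Kz,
    fun q u M A _ _ Λ big sc ad χ hχ F μ zF ⟨B, hL⟩ fF => ?_⟩
  obtain ⟨P, hP, -⟩ := Od.a_PK2 A big.cyc
  have hq : 0 < q := sc.leq (x := 1) (by omega) (by omega)
  have hom : om A ≤ q := ((one_mul _).symm.trans_le (sc.om1 (x := 1) (by omega) (by omega))).trans
    (sc.uq (by omega))
  have := big.nt
  obtain ⟨fL, top⟩ := Od.a_FEB.1 q n A Λ hq χ (Fa_ne hχ)
  have zB : Zc χ B := zF.of_mul fF.c0 ⟨Λ.LZ, hL⟩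
  rw [hL] at fL top
  obtain ⟨a1, fB, a2⟩ := Od.a_FEB.2 q (2 * n) μ F B hq fL fF
  rw [a2] at top
  have lf := h0 q A Λ big hom ad.ed.gd χ hχ
  obtain ⟨G, g⟩ := lf F zF fF.c0 ⟨B, hL⟩
  obtain ⟨G', g'⟩ := lf B zB fB.c0 ⟨F, hL.trans (mul_comm _ _)⟩
  have z := fun f => hz q u A Λ f Λ.ω (sc.down (Nat.le_add_left _ _)) ad.ed ad.td
  by_contra hc
  rcases le_total μ n with h | h
  · exact Ac.adeg_key Ac.a_PAR2 hP hχ sc ad (Nat.le_add_right _ _) z hL g g' fF fB (by omega)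
      (by omega) (by omega) top
  · exact Ac.adeg_key Ac.a_PAR2 hP hχ sc ad (Nat.le_add_right _ _) z (hL.trans (mul_comm _ _)) g' g
      fB fF (by omega) (by omega) (by omega) ((mul_comm _ _).trans top)

end

section

open Polynomial Finset
open Pool.Agent.P.MP_9344a7_nt.R
open Pool.Agent.P.MP_9344a7_nt.Hy
open Pool.Agent.P.MP_9344a7_nt.Od (GD Kp Fe)
open Pool.Agent.P.MP_9344a7_nt.Ac (Sb Pm Sp ED CD TD AD Sc Eg Dgs)
open scoped Classical ComplexConjugate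

theorem p_PRA :
    S_PRA := by
  intro q n A _ _ χ F B G H V w hq fF fM top g0 h0 hG hH hV
  obtain ⟨-, fB, hc⟩ := Od.a_FEB.2 q (2 * n) n F B hq fM fF
  rw [show 2 * n - n = n by omega] at fB hc
  refine ⟨g0, h0, fun m hm => ?_, fun k hk => ?_⟩
  · rw [hV m hm, Polynomial.coeff_mul, Finset.Nat.sum_antidiagonal_eq_sum_range_succ
      (fun i j => F.coeff i * B.coeff j)]
    refine sum_congr rfl fun i hi => ?_
    have := mem_range.1 hi
    rw [hG i (by omega), hH (m - i) (by omega)]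
  · rw [hG k hk, hH k hk, hG (n - k) (by omega), hH (n - k) (by omega), map_mul]
    have hq' : ((q : ℂ) ^ n) ≠ 0 := pow_ne_zero _ (Nat.cast_ne_zero.2 hq.ne')
    have e1 := fF.eq k (n - k) (by omega)
    have e2 := fB.eq (n - k) k (by omega)
    have e3 : (q : ℂ) ^ n = q ^ k * q ^ (n - k) := by rw [← pow_add, Nat.add_sub_cancel' hk]
    rw [hc] at top
    apply mul_left_cancel₀ hq'
    linear_combination (F.coeff k * B.coeff (n - k)) * e3 + (q ^ k * B.coeff (n - k)) * e1 +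
      (F.coeff n * conj (F.coeff (n - k))) * e2 +
      (conj (F.coeff (n - k)) * conj (B.coeff k)) * top

end

section

open Polynomial Finset
open Pool.Agent.P.MP_9344a7_nt.R
open Pool.Agent.P.MP_9344a7_nt.Hy
open Pool.Agent.P.MP_9344a7_nt.Od (GD Kp Fe)
open Pool.Agent.P.MP_9344a7_nt.Ac (Sb Pm Sp ED CD TD AD Sc Eg Dgs)
open scoped Classical ComplexConjugate

lemma cfts_fib {α β : Type} [DecidableEq β] (s : Finset α) (f : α → β) (U : Finset β) (m N : ℕ)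
    (h : ∀ p ∈ U, m * #{e ∈ s | f e = p} ≤ N) : m * #{e ∈ s | f e ∈ U} ≤ #U * N := by
  rw [← sum_card_fiberwise_eq_card_filter, mul_sum]
  exact sum_le_card_nsmul _ _ _ h

theorem p_FTS :
    S_FTS := by
  intro c n E hn
  obtain ⟨F, eF⟩ : ∃ F, F = 2 * c * E + 4 * E := ⟨_, rfl⟩
  refine ⟨4 * c * F + 4 * 2 * F + 4 * n * c + 8 * n, ?_⟩
  intro q A _ _ Λ hM hE hC
  have hq : 8 * n ≤ q := by omega
  have hq' : 4 * n * c ≤ q := by omega
  obtain ⟨Q, eQ⟩ : ∃ Q, Q = q ^ (n - 1) := ⟨_, rfl⟩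
  have hQ : Q ≤ c * #(Pi Λ (n - 1)) := eQ ▸ hE.rp
  have e1 : q ^ n = q * Q := by rw [eQ, ← pow_succ', Nat.sub_add_cancel (by omega)]
  have hqQ : q ≤ Q := eQ ▸ Nat.le_self_pow (by omega) q
  have hc : 0 < c := Nat.pos_of_ne_zero fun e => by rw [e, zero_mul] at hQ; omega
  have hN : 4 * n ≤ #(Pi Λ (n - 1)) := Nat.le_of_mul_le_mul_left (by linarith) hc
  have lo := Λ.lo
  have a1 : F * #(Λ.S \ S0 Λ) ≤ q := by
    have h2 := Ac.aft_mx hC (U := Λ.S \ S0 Λ) sdiff_subset (V := Pi Λ (n - 1))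
      (fun r => mem_Pi.1) (B := {e ∈ Es Λ | e.1 ∈ Λ.S \ S0 Λ})
      fun p hp r _ e => mem_filter.2 ⟨mem_Es.2 e, hp⟩
    refine Ac.aft_a1 (e1 ▸ h2) (cfts_fib _ Prod.fst _ _ _ fun p hp => ?_)
      (card_le_card inter_subset_left) hN (by omega) hc hQ (by omega)
    obtain ⟨b1, b2⟩ := mem_sdiff.1 hp
    exact (not_le.1 fun e => b2 (mem_filter.2 ⟨b1, e⟩)).le
  have a2 : F * #(Pi Λ (n - 1) \ V0 Λ) ≤ Q := by
    have h2 := Ac.aft_mx hC (U := Λ.S) Subset.rfl (V := Pi Λ (n - 1) \ V0 Λ)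
      (fun r hr => mem_Pi.1 (mem_sdiff.1 hr).1) (B := {e ∈ Es Λ | e.2 ∈ Pi Λ (n - 1) \ V0 Λ})
      fun p _ r hr e => mem_filter.2 ⟨mem_Es.2 e, hr⟩
    rw [e1, mul_comm q, mul_comm #Λ.S] at h2
    refine Ac.aft_a1 (c := 2) h2 (cfts_fib _ Prod.snd _ _ _ fun p hp => ?_)
      (card_le_card inter_subset_right) (by omega) (by omega) two_pos (by omega) (by omega)
    obtain ⟨b1, b2⟩ := mem_sdiff.1 hp
    exact (not_le.1 fun e => b2 (mem_filter.2 ⟨b1, e⟩)).le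
  have a3 : #{e ∈ Es Λ | ¬ (e.1 ∈ S0 Λ ∧ e.2 ∈ V0 Λ)} ≤
      #(Λ.S \ S0 Λ) * (c * Q) + #(Pi Λ (n - 1) \ V0 Λ) * (2 * q) := by
    refine le_trans (card_le_card fun e he => ?_) ((card_union_le _ _).trans
      (add_le_add (eQ ▸ es_cnt1 hE.gd _) (es_cnt2 (Λ := Λ) (by omega) _)))
    obtain ⟨b1, b2⟩ := mem_filter.1 he
    rcases not_and_or.1 b2 with b | b
    · exact mem_union_left _ (mem_filter.2 ⟨b1, mem_sdiff.2 ⟨es_fst b1, b⟩⟩)
    · exact mem_union_right _ (mem_filter.2 ⟨b1, mem_sdiff.2 ⟨es_snd b1, b⟩⟩)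
  rw [e1, ← eQ]
  have b1 := (Nat.mul_le_mul_right _ (show 2 * c * E ≤ F by omega)).trans a1
  have b2 := (Nat.mul_le_mul_right _ (show 4 * E ≤ F by omega)).trans a2
  refine ⟨(Nat.mul_le_mul_right _ (by omega)).trans a1,
    (Nat.mul_le_mul_right _ (by omega)).trans a2, (Nat.mul_le_mul_left _ a3).trans ?_⟩
  nlinarith [Nat.mul_le_mul_right Q b1, Nat.mul_le_mul_right q b2]

end

section

open Polynomial Finset
open Pool.Agent.P.MP_9344a7_nt.R
open Pool.Agent.P.MP_9344a7_nt.Hy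
open Pool.Agent.P.MP_9344a7_nt.Od (GD Kp Fe)
open Pool.Agent.P.MP_9344a7_nt.Ac (Sb Pm Sp ED CD TD AD Sc Eg Dgs)
open scoped Classical ComplexConjugate

lemma ccub_one {q n c v a i k m s2 s3 : ℕ} {A : Type} [AddCommGroup A] [Fintype A]
    {Λ : LD q n A} (hn : 3 ≤ n) (hE : ED Λ c) (hT : TD Λ v a) (i0 : 0 < i) (k0 : 0 < k)
    (m0 : 0 < m) (e : i + k + m = n) {X1 X2 X3 T : Finset A} (h1 : #X1 ≤ v * q ^ i)
    (h2 : #X2 ≤ s2 * q ^ k) (h3 : #X3 ≤ s3 * q ^ m) (h4 : #T * (s2 * s3) ≤ v) :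
    ∃ (B : Finset (A × A)) (L : Finset A), v * #B ≤ q ^ n ∧ #L ≤ v ^ a ∧ ∀ e ∈ Es Λ, e ∉ B →
      ∀ t ∈ T, ∀ b1 ∈ X1, ∀ b2 ∈ X2, ∀ b3 ∈ X3, b1 + b2 + b3 = e.1 + e.2 + t → b1 - e.1 ∈ L := by
  obtain ⟨B, L, a1, a2, a3⟩ := ev_edge (k := i) (Y := X1) (Z := image₂ (· + ·) X2 X3) (T := T)
    hn hE hT i0 (by omega) h1 (by
      calc #T * _ ≤ #T * (s2 * q ^ k * (s3 * q ^ m)) :=
            Nat.mul_le_mul_left _ ((card_image₂_le _ _ _).trans (Nat.mul_le_mul h2 h3))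
        _ = #T * (s2 * s3) * q ^ (k + m) := by ring
        _ ≤ v * q ^ (k + m) := Nat.mul_le_mul_right _ h4
        _ = _ := by rw [show n - i = k + m by omega])
  refine ⟨B, L, a1, a2, fun e he hB t ht b1 g1 b2 g2 b3 g3 s => ?_⟩
  have g : e.1 + e.2 + t - b1 = b2 + b3 := by rw [← s]; abel
  rcases a3 e he hB t ht b1 g1 (g ▸ mem_image₂_of_mem g2 g3) with h | h
  · exact h.2
  · omega

lemma ccub_supp {A : Type} [AddCommGroup A] [Fintype A] {x y z : ZA A} {s : A}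
    (h : (x * (y * z)).coeff s ≠ 0) : ∃ b1 ∈ x.coeff.support, ∃ b2 ∈ y.coeff.support,
      ∃ b3 ∈ z.coeff.support, b1 + b2 + b3 = s := by
  rw [Hy.coeff_mul] at h
  obtain ⟨b1, -, h⟩ := exists_ne_zero_of_sum_ne_zero h
  have h2 := right_ne_zero_of_mul h
  rw [Hy.coeff_mul] at h2
  obtain ⟨b2, -, h2⟩ := exists_ne_zero_of_sum_ne_zero h2
  exact ⟨b1, Finsupp.mem_support_iff.2 (left_ne_zero_of_mul h), b2,
    Finsupp.mem_support_iff.2 (left_ne_zero_of_mul h2), _,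
    Finsupp.mem_support_iff.2 (right_ne_zero_of_mul h2), by abel⟩

theorem p_CUB :
    S_CUB := by
  intro a
  refine ⟨12 * a + 20, fun q n c u w i k m A _ _ Λ x y z T hn hE hL i0 k0 m0 e hx hy hz hT => ?_⟩
  have u4 : 4 ≤ u := hL.sc.le (by omega)
  have p1 : ∀ {r s : ℕ}, r ≤ s → u ^ r ≤ u ^ s := fun h => Nat.pow_le_pow_right (by omega) h
  have p2 : u ≤ u ^ 4 := Nat.le_self_pow (by omega) u
  have t1 : #T * (u * u) ≤ u ^ 4 :=
    (Nat.mul_le_mul_right _ hT).trans ((by ring : u * (u * u) = u ^ 3).trans_le (p1 (by omega)))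
  have t2 : #T * (u ^ 2 * u) ≤ u ^ 4 := (Nat.mul_le_mul_right _ hT).trans_eq (by ring)
  obtain ⟨B1, L1, a1, l1, d1⟩ := ccub_one hn hE hL.td i0 k0 m0 e
    (hx.trans (Nat.mul_le_mul_right _ (p1 (by omega)))) hy hz t1
  obtain ⟨B2, L2, a2, l2, d2⟩ := ccub_one hn hE hL.td k0 i0 m0 (by omega)
    (hy.trans (Nat.mul_le_mul_right _ p2)) hx hz t2
  obtain ⟨B3, L3, a3, l3, d3⟩ := ccub_one hn hE hL.td m0 i0 k0 (by omega)
    (hz.trans (Nat.mul_le_mul_right _ p2)) hx hy t2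
  let B4 : Finset (A × A) := (Λ.S ×ˢ L1 ×ˢ L2 ×ˢ L3 ×ˢ T).image fun v =>
    (v.1, v.1 + v.1 + v.2.1 + v.2.2.1 + v.2.2.2.1 - v.2.2.2.2)
  have a4 : u ^ 4 * #B4 ≤ q ^ n := by
    have c1 : #B4 ≤ 2 * q * ((u ^ 4) ^ a * ((u ^ 4) ^ a * ((u ^ 4) ^ a * u))) := by
      refine card_image_le.trans ?_
      simp only [card_product]
      exact Nat.mul_le_mul (Ac.card_S Λ (hL.sc.leq (by omega) (by omega)))
        (Nat.mul_le_mul l1 (Nat.mul_le_mul l2 (Nat.mul_le_mul l3 hT)))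
    have q0 : 0 < q := hL.sc.leq (x := 1) (by omega) (by omega)
    calc _ ≤ u ^ 4 * (u * q * ((u ^ 4) ^ a * ((u ^ 4) ^ a * ((u ^ 4) ^ a * u)))) :=
          Nat.mul_le_mul_left _ (c1.trans
            (Nat.mul_le_mul_right _ (Nat.mul_le_mul_right _ (by omega))))
      _ = u ^ (12 * a + 6) * q := by ring
      _ ≤ q * q := Nat.mul_le_mul_right _ (hL.sc.pow (by omega) (by omega))
      _ = q ^ 2 := by ring
      _ ≤ _ := Nat.pow_le_pow_right q0 (by omega)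
  refine ⟨B1 ∪ B2 ∪ B3 ∪ B4, Nat.le_of_mul_le_mul_left ?_ (by omega : 0 < u),
    fun e he hB t ht => by_contra fun h => ?_⟩
  · calc u * (u ^ 3 * _) = u ^ 4 * _ := by ring
      _ ≤ _ := Ac.mul_card_union (Ac.mul_card_union (Ac.mul_card_union a1 a2) a3) a4
      _ = 4 * q ^ n := by ring
      _ ≤ _ := Nat.mul_le_mul_right _ u4
  · obtain ⟨b1, g1, b2, g2, b3, g3, s⟩ := ccub_supp h
    simp only [mem_union, not_or] at hB
    obtain ⟨⟨⟨n1, n2⟩, n3⟩, n4⟩ := hB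
    refine n4 (mem_image.2 ⟨(e.1, b1 - e.1, b2 - e.1, b3 - e.1, t), ?_, Prod.ext rfl ?_⟩)
    · simp only [mem_product]
      exact ⟨es_fst he, d1 e he n1 t ht b1 g1 b2 g2 b3 g3 s,
        d2 e he n2 t ht b2 g2 b1 g1 b3 g3 (by rw [← s]; abel),
        d3 e he n3 t ht b3 g3 b1 g1 b2 g2 (by rw [← s]; abel), ht⟩
    · change e.1 + e.1 + (b1 - e.1) + (b2 - e.1) + (b3 - e.1) - t = e.2
      rw [show e.2 = b1 + b2 + b3 - e.1 - t by rw [s]; abel]
      abel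

end

section

open Polynomial Finset
open Pool.Agent.P.MP_9344a7_nt.R
open Pool.Agent.P.MP_9344a7_nt.Hy
open Pool.Agent.P.MP_9344a7_nt.Od (GD Kp Fe)
open Pool.Agent.P.MP_9344a7_nt.Ac (Sb Pm Sp ED CD TD AD Sc Eg Dgs)
open scoped Classical ComplexConjugate

theorem p_CUM (hCUB : S_CUB) :
    S_CUM := by
  intro n a
  obtain ⟨K, hK⟩ := hCUB a
  refine ⟨K + n + 1, fun q c u w A _ _ Λ x G H T h3 he hl hx hG hH hT => ?_⟩
  have h1 : ∀ i, ∃ B : Finset (A × A), i ∈ Ioo 0 (n - 1) → u ^ 3 * #B ≤ q ^ n ∧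
      ∀ e ∈ Es Λ, e ∉ B → ∀ t ∈ T, (x * (G i * H (n - 1 - i))).coeff (e.1 + e.2 + t) = 0 := by
    intro i
    by_cases hi : i ∈ Ioo 0 (n - 1)
    · obtain ⟨a1, a2⟩ := mem_Ioo.1 hi
      obtain ⟨B, hB⟩ := hK q n c u w 1 i (n - 1 - i) A Λ x (G i) (H (n - 1 - i)) T h3 he
        (hl.down (by omega) (by omega)) one_pos a1 (by omega) (by omega) (by rwa [pow_one q])
        (hG i (by omega)) (hH _ (by omega)) hT
      exact ⟨B, fun _ => hB⟩
    · exact ⟨∅, fun h => absurd h hi⟩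
  choose B hB using h1
  have u0 : 0 < u := hl.sc.pos (by omega)
  have un : n ≤ u := hl.sc.le (by omega)
  refine ⟨(Ioo 0 (n - 1)).biUnion B, ?_, fun e he' hb t ht => ?_⟩
  · have h2 := Ac.mul_card_biUnion (u := u ^ 3) (m := n) (Z := B) (I := Ioo 0 (n - 1))
      (by rw [Nat.card_Ioo]; omega) fun i hi => (hB i hi).1
    refine Nat.le_of_mul_le_mul_left ?_ u0
    rw [← mul_assoc, ← pow_succ']
    exact h2.trans (Nat.mul_le_mul_right _ un)
  · rw [md, mul_sum, AddMonoidAlgebra.coeff_sum, Finsupp.finsetSum_apply]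
    exact sum_eq_zero fun i hi => (hB i hi).2 e he' (fun h => hb (mem_biUnion.2 ⟨i, hi, h⟩)) t ht

end

section

open Polynomial Finset
open Pool.Agent.P.MP_9344a7_nt.R
open Pool.Agent.P.MP_9344a7_nt.Hy
open Pool.Agent.P.MP_9344a7_nt.Od (GD Kp Fe)
open Pool.Agent.P.MP_9344a7_nt.Ac (Sb Pm Sp ED CD TD AD Sc Eg Dgs)
open scoped Classical ComplexConjugate

theorem cprd_sum {A : Type} [AddCommGroup A] [Fintype A] (y z : ZA A) (p r x t : A)
    (L' : Finset A) (hx : x = p + r + t)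
    (h : ∀ b, y.coeff b ≠ 0 → z.coeff (x - b) ≠ 0 → b - p ∈ L') :
    (y * z).coeff x = (pat y p L' * loc z r).coeff t := by
  rw [Hy.coeff_mul, coeff_pat_mul, ← Equiv.sum_comp (Equiv.addLeft p)]
  simp only [Equiv.coe_addLeft, coeff_loc]
  symm
  refine (sum_congr rfl fun s _ => ?_).trans (sum_subset (subset_univ L') fun s _ hs => ?_)
  · rw [show x - (p + s) = r + (t - s) by rw [hx]; abel]
  · by_contra e
    exact hs (by simpa using h _ (left_ne_zero_of_mul e) (right_ne_zero_of_mul e))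

theorem p_PRD :
    S_PRD := by
  intro q n c u a k A _ _ Λ y z T hn hu hE hT hy hz hT'
  have key : 0 < k → k < n → ∃ (B : Finset (A × A)) (L : Finset A), u ^ 4 * #B ≤ q ^ n ∧
      #L ≤ (u ^ 4) ^ a ∧ ∀ e ∈ Es Λ, e ∉ B → ∀ t ∈ T, ∀ b ∈ y.coeff.support,
        e.1 + e.2 + t - b ∈ z.coeff.support →
          (k = 1 ∧ b - e.1 ∈ L) ∨ (k = n - 1 ∧ b - e.2 ∈ L) := fun k0 kn =>
    ev_edge hn hE hT k0 kn
      (hy.trans (Nat.mul_le_mul_right _ (Nat.pow_le_pow_right hu (by norm_num))))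
      ((Nat.mul_le_mul hT' hz).trans (by
        rw [← mul_assoc, ← pow_succ']
        exact Nat.mul_le_mul_right _ (Nat.pow_le_pow_right hu (by norm_num))))
  refine ⟨fun π π' hS => ?_, fun k1 kn => ?_⟩
  · rcases hS with ⟨hk, rfl, rfl⟩ | ⟨hk, rfl, rfl⟩
    · obtain ⟨B, L, h1, h2, h3⟩ := key (by omega) (by omega)
      refine ⟨B, L, h1, pow_mul u 4 a ▸ h2, fun L' hL e he hB t ht => ?_⟩
      refine cprd_sum y z _ _ _ t L' rfl fun b hb hb' => ?_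
      rcases h3 e he hB t ht b (Finsupp.mem_support_iff.2 hb) (Finsupp.mem_support_iff.2 hb')
        with h | h
      · exact hL h.2
      · omega
    · obtain ⟨B, L, h1, h2, h3⟩ := key (by omega) (by omega)
      refine ⟨B, L, h1, pow_mul u 4 a ▸ h2, fun L' hL e he hB t ht => ?_⟩
      refine cprd_sum y z _ _ _ t L' (by rw [add_comm e.1]) fun b hb hb' => ?_
      rcases h3 e he hB t ht b (Finsupp.mem_support_iff.2 hb) (Finsupp.mem_support_iff.2 hb')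
        with h | h
      · omega
      · exact hL h.2
  · obtain ⟨B, L, h1, -, h3⟩ := key (by omega) (by omega)
    refine ⟨B, h1, fun e he hB t ht => ?_⟩
    rw [Hy.coeff_mul]
    refine sum_eq_zero fun b _ => ?_
    by_contra h
    rcases h3 e he hB t ht b (Finsupp.mem_support_iff.2 (left_ne_zero_of_mul h))
      (Finsupp.mem_support_iff.2 (right_ne_zero_of_mul h)) with h | h <;> omega

end

section

open Polynomial Finset
open Pool.Agent.P.MP_9344a7_nt.R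
open Pool.Agent.P.MP_9344a7_nt.Hy
open Pool.Agent.P.MP_9344a7_nt.Od (GD Kp Fe)
open Pool.Agent.P.MP_9344a7_nt.Ac (Sb Pm Sp ED CD TD AD Sc Eg Dgs)
open scoped Classical ComplexConjugate

lemma cph_ar {u w b c q n k x y s t : ℕ} (u0 : 2 ≤ u) (hw : u ^ (b + c + 8) ≤ w) (hk : k ≤ n)
    (a1 : w * x ≤ u * u ^ b * q ^ (n - k)) (a2 : y ≤ x * (u * q ^ k)) (h0 : u ^ 4 * s ≤ q ^ n)
    (ht : t ≤ s + y) : u ^ 3 * t ≤ q ^ n := by
  have u1 : 0 < u := by omega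
  have a3 : u ^ 4 * y ≤ q ^ n := by
    refine Nat.le_of_mul_le_mul_left ?_ (Nat.pow_pos u1 : 0 < u ^ (b + 2))
    calc u ^ (b + 2) * (u ^ 4 * y) = u ^ (b + 6) * y := by ring
      _ ≤ w * (x * (u * q ^ k)) :=
          Nat.mul_le_mul ((Nat.pow_le_pow_right u1 (by omega)).trans hw) a2
      _ = w * x * (u * q ^ k) := by ring
      _ ≤ u * u ^ b * q ^ (n - k) * (u * q ^ k) := Nat.mul_le_mul_right _ a1
      _ = u ^ (b + 2) * (q ^ (n - k) * q ^ k) := by ring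
      _ = _ := by rw [← pow_add q, Nat.sub_add_cancel hk]
  refine Nat.le_of_mul_le_mul_left ?_ u1
  calc u * (u ^ 3 * t) ≤ u * (u ^ 3 * (s + y)) := by gcongr
    _ = u ^ 4 * s + u ^ 4 * y := by ring
    _ ≤ 2 * q ^ n := by omega
    _ ≤ _ := Nat.mul_le_mul_right _ u0

theorem p_PH (hPRD : S_PRD) :
    S_PH := by
  refine fun c a b => ⟨b + c + 8,
    fun q n u w k A _ _ Λ y z z0 T X π π' hn hE hL hS hy hz hU hT => ?_⟩
  have u0 : 0 < u := hL.sc.pos (by omega)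
  have u2 : 2 ≤ u := hL.sc.le (by omega)
  have uc : c ≤ u := hL.sc.le (by omega)
  have q4 : 4 ≤ q := hL.sc.leq (by omega) (by omega)
  obtain ⟨B0, L, h0, hl, h1⟩ := (hPRD q n c u a k A Λ y z T hn u0 hE hL.td hy hz hT).1 π π' hS
  refine ⟨L, hl, fun L' hs hb => ?_⟩
  have a0 := hU.win (image₂ (· - ·) T L')
  obtain ⟨N, a1, hN⟩ : ∃ N : Finset A, w * #N ≤ u * u ^ b * q ^ (n - k) ∧ ∀ x ∈ X, ∀ t ∈ T,
      ∀ s ∈ L', z.coeff (x + (t - s)) ≠ z0.coeff (t - s) → x ∈ N :=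
    ⟨_, a0.trans (Nat.mul_le_mul_right _ ((card_image₂_le _ _ _).trans (Nat.mul_le_mul hT hb))),
      fun x hx t ht s hs' h => mem_filter.2 ⟨hx, _, mem_image₂_of_mem ht hs', h⟩⟩
  have a2 : #{e ∈ Es Λ | π' e ∈ N} ≤ #N * (u * q ^ k) ∧ k ≤ n := by
    rcases hS with ⟨rfl, -, rfl⟩ | ⟨rfl, -, rfl⟩
    · exact ⟨(es_cnt2 q4 N).trans (Nat.mul_le_mul_left _ (Nat.mul_le_mul u2 (pow_one q).ge)),
        by omega⟩
    · exact ⟨(es_cnt1 hE.gd N).trans (Nat.mul_le_mul_left _ (Nat.mul_le_mul_right _ uc)),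
        Nat.sub_le _ _⟩
  refine ⟨B0 ∪ {e ∈ Es Λ | π' e ∈ N}, cph_ar u2 hL.mid a2.2 a1 a2.1 h0 (card_union_le _ _),
    fun e he hB hX t ht => ?_⟩
  rw [mem_union, not_or] at hB
  rw [h1 L' hs e he hB.1 t ht, coeff_pat_mul, coeff_pat_mul]
  refine sum_congr rfl fun s hs' => ?_
  rw [coeff_loc]
  exact congrArg _ (not_not.1 fun h => hB.2 (mem_filter.2 ⟨he, hN _ hX t ht s hs' h⟩))

end

section

open Polynomial Finset
open Pool.Agent.P.MP_9344a7_nt.R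
open Pool.Agent.P.MP_9344a7_nt.Hy
open Pool.Agent.P.MP_9344a7_nt.Od (GD Kp Fe)
open Pool.Agent.P.MP_9344a7_nt.Ac (Sb Pm Sp ED CD TD AD Sc Eg Dgs)
open scoped Classical ComplexConjugate

theorem p_EDX (hCUM : S_CUM) (hPH : S_PH) :
    S_EDX := by
  intro c n a hn
  obtain ⟨K1, H1⟩ := hCUM n a
  obtain ⟨K2, H2⟩ := hPH c a (4 * a + 1)
  refine ⟨K1 + K2 + c + 6, fun q v A _ _ Λ χ P G G' t sc ed td hχ kp pr g g' => ?_⟩
  have v0 : c + 6 ≤ v := sc.le (by omega)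
  have q0 : 0 < q := sc.leq (x := 1) (by omega) (by omega)
  have cw : c * v ^ K2 ≤ q := (Nat.mul_le_mul_right _ (by omega)).trans
    ((pow_succ' v K2).symm.trans_le (sc.pow (by omega) (by omega)))
  have o1 : om A ≤ v := (one_mul _).symm.trans_le (sc.om1 (x := 1) (by omega) (by omega))
  have sP : ∀ {y : ZA A} {k : ℕ}, sz y ≤ v * q ^ k → sz (P * y) ≤ v ^ 2 * q ^ k := fun h =>
    (sz_mul _ _).trans ((Nat.mul_le_mul (kp.sz.trans o1) h).trans_eq (by ring))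
  have sW : ∀ k ≤ n, sz (Λ.W k) ≤ v ^ 2 * q ^ k := fun k hk => (sz_W ed.gd k hk).trans
    (Nat.mul_le_mul_right _ (le_trans (by omega) (Nat.le_self_pow two_ne_zero v)))
  have sB : ∀ k ≤ n, sz (sg Λ.ω * br (Λ.W k)) ≤ v ^ 2 * q ^ k := fun k hk =>
    (sz_sg_mul _ _).trans ((sz_br _).trans (sW k hk))
  have t1 : #({t} : Finset A) ≤ v := (card_singleton t).trans_le (by omega)
  have ph : ∀ (k : ℕ) (y z z0 : ZA A) (X : Finset A) (π π' : A × A → A), Sd n k π π' →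
      sz y ≤ v ^ 2 * q ^ k → sz z ≤ v ^ 2 * q ^ (n - k) → Un z X z0 (v ^ K2) (q ^ (n - k)) →
      ∃ (B : Finset (A × A)) (L : Finset A), v ^ 2 * #B ≤ q ^ n ∧ t ∈ L ∧ ∀ e ∈ Es Λ, e ∉ B →
        π' e ∈ X → (y * z).coeff (e.1 + e.2 + t) = (pat y (π e) L * z0).coeff t := by
    intro k y z z0 X π π' a1 a2 a3 a4
    obtain ⟨L, b1, b2⟩ := H2 q n v _ k A Λ y z z0 {t} X π π' hn ed
      ⟨sc.down (by omega), td, le_rfl⟩ a1 a2 a3 a4 t1
    obtain ⟨B, b3, b4⟩ := b2 (insert t L) (subset_insert _ _) ((card_insert_le _ _).trans (by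
      have := Nat.pow_pos (n := 4 * a) (show 0 < v by omega)
      have := Nat.mul_le_mul_left (v ^ (4 * a)) (show 2 ≤ v by omega)
      rw [pow_succ]
      omega))
    exact ⟨B, _, (Nat.mul_le_mul_right _ (Nat.pow_le_pow_right (by omega) (by omega))).trans b3,
      mem_insert_self _ _, fun e a b d => b4 e a b d t (mem_singleton_self t)⟩
  have cum := fun x G H => H1 q c v _ A Λ x G H {t} hn ed ⟨sc.down (by omega), td, le_rfl⟩
  have n1 : n - (n - 1) = 1 := by omega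
  have p1 : ∀ x ∈ Pi Λ (n - 1), (Λ.W (n - 1)).coeff x = 1 := fun x hx => (mem_Pi.1 hx).1
  have p2 : ∀ x ∈ Λ.S, (Λ.W 1).coeff x = 1 := fun x => Ac.w1_one
  have g1 := g 1 (by omega)
  have g2 := g (n - 1) (by omega)
  obtain ⟨B1, L1, a1, b1, c1⟩ := ph 1 (P * G 1) (Λ.W (n - 1)) 1 _ _ _ (.inl ⟨rfl, rfl, rfl⟩)
    (sP g1) (sW _ (by omega)) (un_W ed.gd (by omega) p1 cw)
  obtain ⟨B2, L2, a2, b2, c2⟩ := ph (n - 1) (P * G (n - 1)) (Λ.W 1) 1 _ _ _ (.inr ⟨rfl, rfl, rfl⟩)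
    (sP g2) (by rw [n1]; exact sW _ (by omega)) (by rw [n1]; exact un_W ed.gd (by omega) p2 cw)
  obtain ⟨B3, L3, a3, -, c3⟩ := ph 1 (P * br (G 1)) (sg Λ.ω * br (Λ.W (n - 1))) 0 _ _ _
    (.inl ⟨rfl, rfl, rfl⟩) (sP ((sz_br _).trans g1)) (sB _ (by omega))
    (un_brW ed q0 (by omega) (by omega) p1 cw _)
  obtain ⟨B4, L4, a4, -, c4⟩ := ph (n - 1) (P * br (G (n - 1))) (sg Λ.ω * br (Λ.W 1)) 0 _ _ _
    (.inr ⟨rfl, rfl, rfl⟩) (sP ((sz_br _).trans g2)) (by rw [n1]; exact sB _ (by omega))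
    (by rw [n1]; exact un_brW ed q0 (by omega) (by omega) p2 cw _)
  obtain ⟨B5, a5, c5⟩ := cum (P * G 1) G G' (by simpa using sP g1) g g' t1
  obtain ⟨B6, a6, c6⟩ := cum (P * (sg Λ.ω * br (G 1))) _ _
    (by simpa using sP ((sz_sg_mul Λ.ω _).trans ((sz_br _).trans g1))) g.br g'.br t1
  have id : P * G 1 * Λ.W (n - 1) + P * br (G 1) * (sg Λ.ω * br (Λ.W (n - 1))) =
      P * G (n - 1) * Λ.W 1 + P * br (G (n - 1)) * (sg Λ.ω * br (Λ.W 1)) +
        (P * G 1 * md G G' (n - 1) + P * (sg Λ.ω * br (G 1)) *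
          md (fun i => br (G i)) (fun i => br (G' i)) (n - 1)) := by
    simp only [mul_assoc, ← mul_add]
    refine Ac.kp_eq kp hχ ?_
    have s1 := pr.sy 1 (by omega)
    have s2 := pr.sy (n - 1) (by omega)
    have e1 := pr.cv' one_pos (by omega)
    have e2 := pr.cv' (m := n - 1) (by omega) (by omega)
    rw [n1] at s2
    rw [md_one, map_zero, add_zero] at e1
    rw [← br_md]
    simp only [map_add, map_mul, ev_br, ev_sg, e1, e2] at s1 s2 ⊢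
    linear_combination s1 - s2
  have tot := Ac.mul_card_union (Ac.mul_card_union (Ac.mul_card_union a1 a2) (Ac.mul_card_union a3 a4))
    (Ac.mul_card_union a5 a6)
  refine Nat.le_of_mul_le_mul_left (c := v) ?_ (by omega)
  rw [← mul_assoc, ← sq]
  refine le_trans (Nat.mul_le_mul_left _ (card_le_card fun e he => ?_)) (tot.trans
    (le_trans (by omega) (Nat.mul_le_mul_right (q ^ n) (show 6 ≤ v by omega))))
  obtain ⟨he, h⟩ := mem_filter.1 he
  by_contra hB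
  simp only [mem_union, not_or] at hB
  obtain ⟨⟨⟨d1, d2⟩, d3, d4⟩, d5, d6⟩ := hB
  have := congrArg (·.coeff (e.1 + e.2 + t)) id
  simp only [AddMonoidAlgebra.coeff_add, Finsupp.add_apply] at this
  rw [c1 e he d1 (es_snd he), c2 e he d2 (es_fst he), c3 e he d3 (es_snd he),
    c4 e he d4 (es_fst he), c5 e he d5 t (mem_singleton_self t),
    c6 e he d6 t (mem_singleton_self t)] at this
  simp only [mul_one, mul_zero, coeff_pat, if_pos b1, if_pos b2, AddMonoidAlgebra.coeff_zero,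
    Finsupp.zero_apply, add_zero] at this
  exact h this

end

end Pool.Agent.P.MP_9344a7_nt.Cy
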