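import Pool.Agent.P.MP_9344a7_nt.Cy.IfaceA

/-! Steps LU, ADDN. -/

set_option linter.unusedVariables false
set_option linter.unusedSectionVars false

namespace Pool.Agent.P.MP_9344a7_nt.Cy

section

open Polynomial Finset
open Pool.Agent.P.MP_9344a7_nt.R
open Pool.Agent.P.MP_9344a7_nt.Hy
open Pool.Agent.P.MP_9344a7_nt.Od (GD Kp Fe)
open Pool.Agent.P.MP_9344a7_nt.Ac (Sb Pm Sp ED CD TD AD Sc Eg Dgs)
open scoped Classical ComplexConjugate

lemma clu_down {q n u w a K K' : ℕ} {A : Type} [AddCommGroup A] [Fintype A] {Λ : LD q n A}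
    (h : Sl Λ u w a K) (hK : K' ≤ K) (h0 : 0 < K) : Sl Λ u w a K' :=
  have w0 : 0 < w := (h.pos h0).trans_le (h.uw h0)
  ⟨(h.sc.down hK).lo, (Nat.pow_le_pow_right (h.pos h0) hK).trans h.mid,
    (Nat.pow_le_pow_right w0 hK).trans h.hi,
    fun s a b => h.td s a (b.trans (Nat.pow_le_pow_right w0 hK))⟩

lemma clu_cnt {α : Type} [DecidableEq α] {S U : Finset α} {f g : α → Prop} [DecidablePred f]
    [DecidablePred g] {E F Q k : ℕ} (hF : 5 * E ≤ F)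
    (h1 : F * #(S \ U) ≤ Q) (h2 : #{x ∈ U | g x} ≤ k * (Q / F)) (hk : k ≤ 4)
    (h : ∀ x ∈ U, f x → g x) : E * #{x ∈ S | f x} ≤ Q := by
  have a1 : #{x ∈ S | f x} ≤ #(S \ U) + #{x ∈ U | g x} := by
    refine (card_le_card fun x hx => ?_).trans (card_union_le _ _)
    obtain ⟨a, b⟩ := mem_filter.1 hx
    by_cases e : x ∈ U
    · exact mem_union_right _ (mem_filter.2 ⟨e, h x e b⟩)
    · exact mem_union_left _ (mem_sdiff.2 ⟨a, e⟩)
  have a2 : F * #{x ∈ U | g x} ≤ 4 * Q :=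
    calc _ ≤ F * (4 * (Q / F)) := Nat.mul_le_mul_left _ (h2.trans (Nat.mul_le_mul_right _ hk))
      _ = 4 * (F * (Q / F)) := by ring
      _ ≤ _ := Nat.mul_le_mul_left _ (Nat.mul_div_le _ _)
  have a3 := Nat.mul_le_mul hF a1
  rw [mul_add, mul_assoc] at a3
  omega

lemma clu_sg {A : Type} [AddCommGroup A] {y : ZA A} {p t : A} {L : Finset A}
    (h : y.coeff (p + t) = 0) : pat y p L ≠ sg t := fun e => by
  have := congrArg (·.coeff t) e
  simp [coeff_pat, h] at this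

theorem p_LU (hMXE : S_MXE) (hSTP : S_STP) (hLUA : S_LUA) (hLUC : S_LUC) :
    S_LU := by
  intro c n a E hn
  obtain ⟨F, hF⟩ : ∃ F, F = 5 * (E + c + 1) := ⟨_, rfl⟩
  obtain ⟨M1, h1⟩ := hMXE n F hn (by omega)
  obtain ⟨b, M2, K2, b0, h2⟩ := hSTP c n a M1 hn
  obtain ⟨m, K3, -, h3⟩ := hLUC c n F hn
  refine ⟨M1 + M2, b ^ m * (K2 + 1) + b ^ m * K3 + (K3 + M1 + 1), ?_⟩
  intro q u w A A' _ _ _ _ Λ Λ' χ P z G G' H j L0 hS hE hC hE' hD hP hz hL
  have sc := hS.sc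
  have u0 : 0 < u := sc.pos (by omega)
  have q0 : 0 < q := sc.leq (x := 1) (by omega) (by omega)
  have up : ∀ i, u ≤ u ^ b ^ i := fun i => Nat.le_self_pow (Nat.pow_pos b0).ne' u
  obtain ⟨L, L', S, V, l0, l1, ⟨X0, T0, X1, T1, B, hW, hB, hEd⟩, sS, sV, cS, cV, pS, pV⟩ :=
    h3 q (u ^ b ^ m) A A' Λ Λ' j (fun i => u ^ b ^ i) (St Λ Λ' j P z G M1) L0
      ((sc.le (by omega)).trans (up m)) ((pow_mul u _ _).symm.trans_le (sc.pow (by omega) (by omega)))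
      hE.gd (dd_of hE') hP.ker (hL.trans (up 0))
      (fun i hi => Nat.pow_le_pow_right u0 (Nat.pow_le_pow_right b0 hi)) fun i hi L hL => by
        rw [pow_succ b, pow_mul]
        have := Nat.mul_le_mul_right (K2 + 1) (Nat.pow_le_pow_right b0 hi.le)
        exact h2 q _ w A A' Λ Λ' χ P z G G' H j L (clu_down (hS.pow (K' := K2 + 1) (Nat.pow_pos b0)
          (by omega) (by omega)) (by omega) (by omega)) hE (hC.up le_rfl (by omega)) hE'.gd
          (hD.up (up i) le_rfl) (hP.up (up i)) hL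
  have mg := h1 q c A Λ B (sc.leq (by omega) (by omega)) (hC.up le_rfl (by omega)) hB
  have p0 := hD.kp.ne χ hD.fa
  have c0 : ∀ x, χ x ≠ 0 := fun x => (χ.val_isUnit x).ne_zero
  have ur : Dd P z Λ.ω (j Λ'.ω) = 0 → Ur χ P z Λ.ω (j Λ'.ω) := fun h => by
    have := congrArg (ev χ) h
    simp only [Dd, map_mul, map_add, map_sub, map_pow, ev_sg, map_zero] at this
    exact mul_left_cancel₀ (mul_ne_zero p0 hz) (by linear_combination this)
  have big : 3 * (q ^ (n - 1) / F) < #V := by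
    by_contra! h
    have a1 : q ^ (n - 1) ≤ c * #(Pi Λ (n - 1)) := hE.rp
    have a2 := card_sdiff_add_card_eq_card sV
    have a3 := Nat.mul_div_le (q ^ (n - 1)) F
    have a4 : F * #(Pi Λ (n - 1)) ≤ 4 * q ^ (n - 1) := by
      have := Nat.mul_le_mul_left F h
      rw [← a2, mul_add]
      linarith
    have a5 : F * q ^ (n - 1) ≤ 4 * c * q ^ (n - 1) :=
      calc _ ≤ F * (c * _) := Nat.mul_le_mul_left _ a1
        _ = c * (F * _) := by ring
        _ ≤ c * _ := Nat.mul_le_mul_left _ a4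
        _ = _ := by ring
    have := Nat.le_of_mul_le_mul_right a5 (Nat.pow_pos q0)
    omega
  have l2 := l0.trans l1
  have f5 : 5 * E ≤ F := by omega
  have f2 : 2 ≤ 4 := by omega
  rcases hLUA A χ _ _ _ _ _ L X0 T0 X1 T1 S V (Es Λ \ B) (q / F) (q ^ (n - 1) / F)
    (fun p => pat (Ej Λ' j 1) p L') (fun p => pat (Ej Λ' (-j) 1) p L')
    (fun r => pat (Ej Λ' j (n - 1)) r L') (fun r => pat (Ej Λ' (-j) (n - 1)) r L') hD.fa
    (by simp only [al, map_mul, map_pow, ev_sg]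
        exact mul_ne_zero (mul_ne_zero (c0 _) (pow_ne_zero 2 p0)) hz)
    (fun h e => by
      have a1 := ur h
      simp only [ka, map_neg, map_mul, map_sub, map_pow, ev_sg, neg_eq_zero] at e
      have a2 : ev χ P - ev χ z = 0 := mul_left_cancel₀ hz (by
        linear_combination (mul_eq_zero.1 e).resolve_left (mul_ne_zero (c0 _) (pow_ne_zero 4 p0)))
      rw [Ur, a2, mul_zero, add_zero] at a1
      exact mul_ne_zero (c0 _) hz a1)
    (fun y h => by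
      have e : al P z Λ.ω * y - Dd P z Λ.ω (j Λ'.ω) = P * (sg Λ.ω * P * z * y -
          (sg Λ.ω * z ^ 2 + sg (j Λ'.ω) * (P * z - z ^ 2))) := by
        rw [al, Dd]
        ring
      rw [e] at h ⊢
      exact kp_zero hD.kp hD.fa h)
    hW (fun U a U' a' => mg U (a.trans sS) U' (a'.trans sV)) big
    (fun p hp => ⟨(pS p hp).1, (pS p hp).2.1, ((pS p hp).2.2 hE').imp pat_eq_zero.2 pat_eq_zero.2⟩)
    (fun r hr => ⟨(pV r hr).1, (pV r hr).2.1, ((pV r hr).2.2 hE').imp pat_eq_zero.2 pat_eq_zero.2⟩)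
    (fun e he => hEd e (mem_sdiff.1 he).1 (mem_sdiff.1 he).2) with ⟨t, h⟩ | ⟨t, h⟩ | ⟨h, h', h''⟩
  · exact .inl ⟨j, .inl rfl, t, clu_cnt f5 cS h le_rfl fun _ _ => clu_sg⟩
  · exact .inl ⟨-j, .inr rfl, t, clu_cnt f5 cS h le_rfl fun _ _ => clu_sg⟩
  · refine .inr ⟨ur h, clu_cnt f5 cS h' f2 fun p _ e => ?_,
      clu_cnt f5 cV h'' f2 fun r _ e e' => e ((pat_eq_zero.1 e').mono l2)⟩
    exact (not_and_or.1 e).imp (fun e e' => e ((pat_eq_zero.1 e').mono l2))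
      fun e e' => e ((pat_eq_zero.1 e').mono l2)

end

section

open Polynomial Finset
open Pool.Agent.P.MP_9344a7_nt.R
open Pool.Agent.P.MP_9344a7_nt.Hy
open Pool.Agent.P.MP_9344a7_nt.Od (GD Kp Fe)
open Pool.Agent.P.MP_9344a7_nt.Ac (Sb Pm Sp ED CD TD AD Sc Eg Dgs)
open scoped Classical ComplexConjugate

lemma addn_dn {q n u w a K K' : ℕ} {A : Type} [AddCommGroup A] [Fintype A] {Λ : LD q n A}
    (h : Sl Λ u w a K) (e : K' ≤ K) (h0 : 0 < K) : Sl Λ u w a K' :=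
  have w0 : 0 < w := (h.pos h0).trans_le (h.uw h0)
  ⟨(h.sc.down e).lo, (Nat.pow_le_pow_right (h.pos h0) e).trans h.mid,
    (Nat.pow_le_pow_right w0 e).trans h.hi,
    fun v d1 d2 => h.td v d1 (d2.trans (Nat.pow_le_pow_right w0 e))⟩

theorem p_ADDN (hSPF : S_SPF) (hGENL : S_GENL) (hPTX : S_PTX) (hFNC : S_FNC) (hPART : S_PART) (hTOP : S_TOP) (hCNT : S_CNT) :
    S_ADDN := by
  intro c n a C0 hn
  obtain ⟨M1, K1, h1⟩ := hSPF c n a C0 hn
  obtain ⟨Mg, hg⟩ := hGENL c n hn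
  obtain ⟨Mc, hc⟩ := hCNT c n hn
  obtain ⟨M2, K2, h2⟩ := hPTX c n (Mg + C0 + 2 * Mc) hn
  obtain ⟨M3, K3, h3⟩ := hPART c n a (Mg + C0 + 2 * Mc) hn
  refine ⟨M1 + Mg + Mc + M2 + M3, 2 * n * (K3 + 3) + (K1 + K2 + Mg + Mc + 2),
    fun q u w A A' _ _ _ _ Λ Λ' hA hS ed cd xd ed' xd' hs hL => ?_⟩
  have sc := hS.sc
  have u0 : 0 < u := sc.pos (by omega)
  have s1 := hS.pow (m := 2 * n) (K' := K3 + 3) (by omega) le_self_add (by omega)
  have uv : u ≤ u ^ (2 * n) := Nat.le_self_pow (by omega) u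
  have gn : Gn Λ (Mg + C0 + 2 * Mc) := (hg q A Λ (sc.leq (by omega) (by omega)) ed
    (cd.up le_rfl (by omega)) (xd.down (by omega))).up (by omega)
  have fin : ∀ j, Rel Λ Λ' j (Mg + C0 + 2 * Mc) → Fn Λ Λ' C0 := fun j h =>
    (hFNC q n _ A A' Λ Λ' j gn (card_eq (sc.leq (x := 1) (by omega) (by omega)) (by omega) hL)
      h).imp fun _ h => h.imp fun _ h => (Nat.mul_le_mul_right _ (by omega)).trans h
  refine (h1 q u w A A' Λ Λ' hA (addn_dn hS (by omega) (by omega)) ed (cd.up le_rfl (by omega))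
    ed'.gd hs hL).elim id fun ⟨χ, P, F, B, G, G', z, z', sx, hz⟩ => ?_
  have pt := fun z z' F B G G' => h2 q u w A A' Λ Λ' χ P z z' F B G G' hA (sc.down (by omega))
    ((Nat.pow_le_pow_right u0 (by omega)).trans hS.mid) ed (cd.up le_rfl (by omega)) gn ed'.gd
  have hT : ∀ t : A, #((P ^ 2).coeff.support.image (t - ·)) ≤ u ^ (2 * n) := fun t =>
    card_image_le.trans ((sz_pow P 2).trans ((Nat.pow_le_pow_left sx.pq.kp.sz 2).trans
      (((one_mul _).symm.trans_le (sc.om (by omega) (by omega))).trans uv)))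
  have pa := fun z G G' H j t (fd : Fd Λ χ P G G' z u w) pd hz => h3 q (u ^ (2 * n)) w A A' Λ Λ' χ P
    z G G' H j {t} _ (addn_dn s1 le_self_add (by omega)) ed (cd.up le_rfl (by omega)) ed'
    (fd.up uv le_rfl) pd hz (by rw [card_singleton]; exact u0.trans_le uv) (hT t)
  obtain ⟨j1, H1, -, p1, -⟩ := pt _ _ _ _ _ _ sx hz hL
  obtain ⟨t, ht⟩ : ∃ t, 2 * sg (Λ.ω - j1 Λ'.ω) * z ^ 2 - 2 * z' ^ 2 ≠ 0 →
      (2 * sg (Λ.ω - j1 Λ'.ω) * z ^ 2 - 2 * z' ^ 2).coeff t ≠ 0 := by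
    by_contra! h
    exact (h 0).1 (za_eq fun t => (h t).2)
  refine (pa z G G' H1 j1 (t - (Λ.ω - j1 Λ'.ω)) sx.d1 p1 hz).elim (fin _) fun ⟨u1, B1, a1, a2⟩ => ?_
  have tp := fun H2 V2 ω2 => hTOP n A χ P z z' G G' Λ.W H1 (Ej Λ' j1) H2 V2 Λ.ω _ ω2 (by omega)
    sx.d1.fa sx.pq.kp sx.sum hz u1
  have hz' := (tp H1 H1 0).1
  obtain ⟨j2, H2, -, p2, -⟩ := pt _ _ _ _ _ _ sx.symm hz' hL
  refine (pa z' G' G H2 j2 t sx.d2 p2 hz').elim (fin _) fun ⟨u2, B2, b1, b2⟩ => ?_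
  obtain ⟨-, -, c1, c2⟩ := (tp H2 _ _).2 u2 sx.d1.pr p1.pr p2.pr
  have c3 := ht fun e => by
    rw [e, map_zero, mul_zero] at c1
    exact mul_ne_zero (mul_ne_zero two_ne_zero fun e => by simpa [e] using χ.norm_apply (Λ.ω - j1 Λ'.ω))
      (pow_ne_zero 2 (sx.pq.kp.ne χ sx.d1.fa)) c1.symm
  refine (hc q (u ^ (2 * n)) A A' Λ Λ' j1 j2 _ _ (B1 ∪ B2) ((sc.le (by omega)).trans uv)
    (s1.sc.pow (by omega) (by omega)) ed (cd.up le_rfl (by omega)) (xd.down (by omega))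
    (xd'.down (by omega)) (hT (t - (Λ.ω - j1 Λ'.ω))) (hT t) (Nat.le_of_mul_le_mul_left
      ((mul_assoc _ _ _).symm.trans_le ((Ac.mul_card_union
        ((Nat.mul_le_mul_right _ le_add_self).trans a1) ((Nat.mul_le_mul_right _ le_add_self).trans
          b1)).trans_eq (two_mul _).symm)) two_pos) fun e he hB => ?_).elim
  obtain ⟨d1, d2⟩ := a2 e he fun h => hB (mem_union_left _ h)
  obtain ⟨d3, d4⟩ := b2 e he fun h => hB (mem_union_right _ h)
  have key : ∀ (j : A' →+ A) (s : A), (∀ y, j y - (e.1 + e.2) ∈ (P ^ 2).coeff.support.image (s - ·) →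
      (Λ'.W n).coeff y ≠ 0 → y ∈ PP Λ') → ¬ Cv j (PP Λ') ((P ^ 2).coeff.support.image (s - ·))
        (e.1 + e.2) → (P ^ 2 * Ej Λ' j n).coeff (e.1 + e.2 + s) = 0 := fun j s h h' => by
    by_contra h0
    obtain ⟨b, f1, f2⟩ := Od.mul_ne h0
    obtain ⟨y, f3, f4⟩ := Ej_ne.1 f2
    have : j y - (e.1 + e.2) ∈ (P ^ 2).coeff.support.image (s - ·) :=
      mem_image.2 ⟨b, Finsupp.mem_support_iff.2 f1, by rw [f3]; abel⟩
    exact h' ⟨y, h y this f4, this⟩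
  by_contra! h
  have c4 := congrArg (·.coeff (e.1 + e.2 + t)) c2
  simp only [AddMonoidAlgebra.coeff_sub, Finsupp.sub_apply, coeff_sg_mul, add_sub_assoc] at c4
  rw [key j1 _ d2 h.1, key j2 _ d4 h.2, d1 _ (mem_singleton_self _), d3 _ (mem_singleton_self _)] at c4
  refine c3 ?_
  rw [mul_comm 2 (sg _), mul_assoc, AddMonoidAlgebra.coeff_sub, Finsupp.sub_apply, coeff_sg_mul]
  simp only [AddMonoidAlgebra.coeff_neg, Finsupp.neg_apply] at c4
  linarith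

end

end Pool.Agent.P.MP_9344a7_nt.Cy
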